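import Pool.Agent.LibOK71.Defs

/-!
[OK71 A0] basic lemmas on first letters and directions.
-/

set_option autoImplicit false

namespace OK71

variable {α : Type} [DecidableEq α]

theorem mk_append (u v : List (α × Bool)) :
    FreeGroup.mk (u ++ v) = FreeGroup.mk u * FreeGroup.mk v := by
  rw [FreeGroup.mul_mk]

theorem mk_cons (ℓ : α × Bool) (v : List (α × Bool)) :
    FreeGroup.mk (ℓ :: v) = el ℓ * FreeGroup.mk v := by
  rw [el, FreeGroup.mul_mk]
  rfl

theorem il_il (ℓ : α × Bool) : il (il ℓ) = ℓ := by
  simp [il]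

theorem il_ne (ℓ : α × Bool) : il ℓ ≠ ℓ := by
  intro h
  have := congrArg Prod.snd h
  simp [il] at this

theorem el_il (ℓ : α × Bool) : el (il ℓ) = (el ℓ)⁻¹ := by
  rw [el, el, FreeGroup.inv_mk]
  rfl

theorem el_true (i : α) : el (i, true) = FreeGroup.of i := rfl

theorem el_false (i : α) : el (i, false) = (FreeGroup.of i)⁻¹ := by
  rw [← el_true, ← el_il]
  rfl

theorem el_toWord (ℓ : α × Bool) : (el ℓ).toWord = [ℓ] := by
  rw [el, FreeGroup.toWord_mk]
  rfl

theorem fl_none {k : FreeGroup α} : fl k = none ↔ k = 1 := by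
  rw [fl, List.head?_eq_none_iff, FreeGroup.toWord_eq_nil_iff]

theorem fl_one : fl (1 : FreeGroup α) = none := fl_none.2 rfl

theorem fl_el (ℓ : α × Bool) : fl (el ℓ) = some ℓ := by
  rw [fl, el_toWord]
  rfl

/-- two letters may follow each other in a reduced word -/
theorem red_two {a b : α × Bool} : (a.1 = b.1 → a.2 = b.2) ↔ b ≠ il a := by
  obtain ⟨i, x⟩ := a
  obtain ⟨j, y⟩ := b
  simp only [il, ne_eq, Prod.mk.injEq, not_and]
  constructor
  · intro h h1 h2
    have h3 := h h1.symm
    rw [h2] at h3
    cases x <;> simp at h3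
  · intro h h1
    have h3 := h h1.symm
    cases x <;> cases y <;> simp_all

theorem red_cons {a : α × Bool} {r : List (α × Bool)} :
    FreeGroup.IsReduced (a :: r) ↔ (r.head? ≠ some (il a)) ∧ FreeGroup.IsReduced r := by
  cases r with
  | nil => simp
  | cons b r =>
    rw [FreeGroup.isReduced_cons_cons, red_two]
    simp

theorem red_append {u v : List (α × Bool)} :
    FreeGroup.IsReduced (u ++ v) ↔ FreeGroup.IsReduced u ∧ FreeGroup.IsReduced v ∧
      ∀ a ∈ u.getLast?, v.head? ≠ some (il a) := by
  unfold FreeGroup.IsReduced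
  rw [List.isChain_append]
  refine and_congr_right fun _ => and_congr_right fun _ => ?_
  constructor
  · intro h a ha hv
    exact red_two.1 (h a ha (il a) hv) rfl
  · intro h a ha b hb
    rw [red_two]
    rintro rfl
    exact h a ha hb

theorem toWord_of_red {r : List (α × Bool)} (h : FreeGroup.IsReduced r) :
    (FreeGroup.mk r).toWord = r := by
  rw [FreeGroup.toWord_mk]
  exact h.reduce_eq

theorem fl_mk {r : List (α × Bool)} (h : FreeGroup.IsReduced r) : fl (FreeGroup.mk r) = r.head? := by
  rw [fl, toWord_of_red h]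

theorem invRev_head? (r : List (α × Bool)) : (FreeGroup.invRev r).head? = r.getLast?.map il := by
  unfold FreeGroup.invRev
  rw [List.head?_reverse, List.getLast?_map]
  rfl

theorem invRev_getLast? (r : List (α × Bool)) : (FreeGroup.invRev r).getLast? = r.head?.map il := by
  unfold FreeGroup.invRev
  rw [List.getLast?_reverse, List.head?_map]
  rfl

theorem invRev_append (u v : List (α × Bool)) :
    FreeGroup.invRev (u ++ v) = FreeGroup.invRev v ++ FreeGroup.invRev u := by
  unfold FreeGroup.invRev
  simp

theorem invRev_cons (a : α × Bool) (v : List (α × Bool)) :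
    FreeGroup.invRev (a :: v) = FreeGroup.invRev v ++ [il a] := by
  unfold FreeGroup.invRev
  simp [il]

theorem red_invRev {r : List (α × Bool)} (h : FreeGroup.IsReduced r) :
    FreeGroup.IsReduced (FreeGroup.invRev r) := by
  have h1 := FreeGroup.isReduced_toWord (x := (FreeGroup.mk r)⁻¹)
  rwa [FreeGroup.toWord_inv, toWord_of_red h] at h1

theorem fl_inv (k : FreeGroup α) : fl k⁻¹ = k.toWord.getLast?.map il := by
  rw [fl, FreeGroup.toWord_inv, invRev_head?]

/-- left multiplication by a letter which does not cancel -/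
theorem toWord_el_mul {ℓ : α × Bool} {k : FreeGroup α} (h : fl k ≠ some (il ℓ)) :
    (el ℓ * k).toWord = ℓ :: k.toWord := by
  have h1 : el ℓ * k = FreeGroup.mk (ℓ :: k.toWord) := by
    rw [mk_cons, FreeGroup.mk_toWord]
  rw [h1]
  exact toWord_of_red (red_cons.2 ⟨h, FreeGroup.isReduced_toWord⟩)

theorem law {k : FreeGroup α} (hk : k ≠ 1) (ℓ : α × Bool) :
    fl ((el ℓ)⁻¹ * k * el ℓ) = some (il ℓ) ↔ fl k ≠ some ℓ := by
  have hred : FreeGroup.IsReduced k.toWord := FreeGroup.isReduced_toWord
  have key : ∀ g : FreeGroup α, g ≠ 1 → fl (g * el ℓ) = some (il ℓ) → g ≠ (el ℓ)⁻¹ →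
      fl g = some (il ℓ) := by
    intro g hg h1 h2
    have hg0 : g.toWord ≠ [] := fun h => hg (FreeGroup.toWord_eq_nil_iff.1 h)
    rcases List.eq_nil_or_concat' g.toWord with h3 | ⟨r, c, h3⟩
    · exact absurd h3 hg0
    · have hrc : FreeGroup.IsReduced (r ++ [c]) := h3 ▸ FreeGroup.isReduced_toWord
      by_cases hc : c = il ℓ
      · have h4 : g * el ℓ = FreeGroup.mk r := by
          rw [← FreeGroup.mk_toWord (x := g), h3, mk_append, hc]
          show FreeGroup.mk r * el (il ℓ) * el ℓ = _
          rw [el_il, mul_assoc, inv_mul_cancel, mul_one]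
        have hr : FreeGroup.IsReduced r := (red_append.1 hrc).1
        rw [h4, fl_mk hr] at h1
        rw [fl, h3]
        cases r with
        | nil => simp at h1
        | cons b r => simpa using h1
      · have h5 : FreeGroup.IsReduced ((r ++ [c]) ++ [ℓ]) := by
          rw [red_append]
          refine ⟨hrc, FreeGroup.IsReduced.singleton, ?_⟩
          intro a ha hb
          rw [List.getLast?_append_cons, List.getLast?_singleton, Option.mem_some_iff] at ha
          subst ha
          rw [List.head?_cons, Option.some.injEq] at hb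
          exact hc (by rw [hb, il_il])
        have h6 : g * el ℓ = FreeGroup.mk ((r ++ [c]) ++ [ℓ]) := by
          rw [mk_append, ← h3, FreeGroup.mk_toWord]
          rfl
        rw [h6, fl_mk h5] at h1
        rw [fl, h3]
        cases r with
        | nil => simpa using h1
        | cons b r => simpa using h1
  constructor
  · intro h1 h2
    -- `k = ℓ m`, so the product is `m ℓ`
    obtain ⟨m, hm⟩ : ∃ m, k.toWord = ℓ :: m := by
      rw [fl] at h2
      cases hw : k.toWord with
      | nil => rw [hw] at h2; simp at h2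
      | cons b m =>
        rw [hw] at h2
        simp only [List.head?_cons, Option.some.injEq] at h2
        exact ⟨m, by rw [h2]⟩
    have hmr : FreeGroup.IsReduced (ℓ :: m) := hm ▸ hred
    rw [red_cons] at hmr
    have hk1 : (el ℓ)⁻¹ * k = FreeGroup.mk m := by
      rw [← FreeGroup.mk_toWord (x := k), hm, mk_cons, inv_mul_cancel_left]
    rw [hk1] at h1
    by_cases hm0 : m = []
    · rw [hm0] at h1
      have : (FreeGroup.mk ([] : List (α × Bool))) * el ℓ = el ℓ := by
        rw [← FreeGroup.one_eq_mk, one_mul]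
      rw [this, fl_el] at h1
      exact il_ne ℓ (Option.some.inj h1).symm
    · have hm1 : FreeGroup.mk m ≠ 1 := by
        intro h
        rw [← FreeGroup.toWord_eq_nil_iff, toWord_of_red hmr.2] at h
        exact hm0 h
      by_cases hm2 : FreeGroup.mk m = (el ℓ)⁻¹
      · have h7 : m = [il ℓ] := by
          rw [← toWord_of_red hmr.2, hm2, ← el_il, el_toWord]
        exact hmr.1 (by rw [h7]; rfl)
      · have h8 := key _ hm1 h1 hm2
        rw [fl_mk hmr.2] at h8
        exact hmr.1 h8
  · intro h
    have h1 : ((el ℓ)⁻¹ * k).toWord = il ℓ :: k.toWord := by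
      rw [← el_il]
      exact toWord_el_mul (by rw [il_il]; exact h)
    rcases List.eq_nil_or_concat' k.toWord with h3 | ⟨r, c, h3⟩
    · exact absurd (FreeGroup.toWord_eq_nil_iff.1 h3) hk
    · have hrc : FreeGroup.IsReduced (il ℓ :: (r ++ [c])) := by
        rw [← h3, ← h1]
        exact FreeGroup.isReduced_toWord
      have h4 : (el ℓ)⁻¹ * k = FreeGroup.mk (il ℓ :: (r ++ [c])) := by
        rw [← FreeGroup.mk_toWord (x := (el ℓ)⁻¹ * k), h1, h3]
      by_cases hc : c = il ℓ
      · have h5 : (el ℓ)⁻¹ * k * el ℓ = FreeGroup.mk (il ℓ :: r) := by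
          rw [h4, ← List.cons_append, mk_append, hc]
          show FreeGroup.mk (il ℓ :: r) * el (il ℓ) * el ℓ = _
          rw [el_il, mul_assoc, inv_mul_cancel, mul_one]
        have h6 : FreeGroup.IsReduced (il ℓ :: r) := by
          rw [← List.cons_append] at hrc
          exact (red_append.1 hrc).1
        rw [h5, fl_mk h6]
        rfl
      · have h5 : FreeGroup.IsReduced ((il ℓ :: (r ++ [c])) ++ [ℓ]) := by
          rw [red_append]
          refine ⟨hrc, FreeGroup.IsReduced.singleton, ?_⟩
          intro a ha hb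
          rw [← List.cons_append, List.getLast?_append_cons, List.getLast?_singleton,
            Option.mem_some_iff] at ha
          subst ha
          rw [List.head?_cons, Option.some.injEq] at hb
          exact hc (by rw [hb, il_il])
        have h6 : (el ℓ)⁻¹ * k * el ℓ = FreeGroup.mk ((il ℓ :: (r ++ [c])) ++ [ℓ]) := by
          rw [mk_append, h4]
          rfl
        rw [h6, fl_mk h5]
        rfl

theorem dr_one (k : FreeGroup α) : dr 1 k = fl k := by
  simp [dr]

theorem dr_mul (g v k : FreeGroup α) : dr (g * v) k = dr v (g⁻¹ * k * g) := by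
  unfold dr
  congr 1
  group

theorem dr_mul' (g v k : FreeGroup α) : dr (g * v) (g * k * g⁻¹) = dr v k := by
  rw [dr_mul]
  congr 1
  group

theorem dr_none {v k : FreeGroup α} : dr v k = none ↔ k = 1 := by
  rw [dr, fl_none]
  constructor
  · intro h
    have h1 : k = v * (v⁻¹ * k * v) * v⁻¹ := by group
    rw [h1, h]
    group
  · rintro rfl
    group

theorem dr_step {k : FreeGroup α} (hk : k ≠ 1) (v : FreeGroup α) (ℓ : α × Bool) :
    dr (v * el ℓ) k = some (il ℓ) ↔ dr v k ≠ some ℓ := by
  have h1 : v⁻¹ * k * v ≠ 1 := fun h => hk (dr_none.1 (fl_none.2 h))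
  have h2 : dr (v * el ℓ) k = fl ((el ℓ)⁻¹ * (v⁻¹ * k * v) * el ℓ) := by
    unfold dr
    congr 1
    group
  rw [h2, law h1]
  rfl

end OK71
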