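import Pool.Agent.LibOK71.A0

/-!
[OK71 A1] (SHORT) translation invariance, monotonicity, orientation of edges, conjugation.
M_mul: `dr (g * v) k = dr v (g⁻¹ k g)` (`dr_mul`), `g⁻¹ k g ∈ G`. Co_mul, E_mul from it. M_mono etc.: inclusion. Co_other: of two distinct letters one is not the given option.
E_iff: `E G v ℓ ↔ M G v ℓ ∧ M G (v ℓ) (ℓ⁻¹)`: by `dr_step` the second part says that some `k ∈ G`, `k ≠ 1`, has `dr v k ≠ ℓ` (that is a second direction at `v`: `dr_none`).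
E_flip: apply E_iff twice, `v ℓ⁻¹ ℓ = v`. M_conj: `dr (g v) (g k g⁻¹) = dr v k` (`dr_mul'`); `k ∈ pb (conj g) G ↔ g k g⁻¹ ∈ G` (mem_pb_conj, `MulAut.conj_apply`). Go_conj: substitute `v ↦ g v`, `c ↦ g c g⁻¹`.
Go_flip: E_flip, `c (v ℓ) = (c v) ℓ`.
-/

set_option autoImplicit false

namespace OK71

variable {α : Type} [DecidableEq α]

theorem mem_pb {ψ : MulAut (FreeGroup α)} {G : Subgroup (FreeGroup α)} {k : FreeGroup α} :
    k ∈ pb ψ G ↔ ψ k ∈ G := Iff.rfl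

theorem pb_mul (ψ χ : MulAut (FreeGroup α)) (G : Subgroup (FreeGroup α)) :
    pb (ψ * χ) G = pb χ (pb ψ G) := rfl

theorem pb_one (G : Subgroup (FreeGroup α)) : pb 1 G = G := rfl

theorem pb_mono (ψ : MulAut (FreeGroup α)) {H K : Subgroup (FreeGroup α)} (h : H ≤ K) :
    pb ψ H ≤ pb ψ K := by
  exact Subgroup.comap_mono h

theorem M_mul {G : Subgroup (FreeGroup α)} {g : FreeGroup α} (hg : g ∈ G) (v : FreeGroup α)
    (ℓ : α × Bool) : M G (g * v) ℓ ↔ M G v ℓ := by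
  have hg' : g⁻¹ ∈ G := G.inv_mem hg
  constructor
  · rintro ⟨k, hk, hd⟩
    rw [dr_mul] at hd
    exact ⟨g⁻¹ * k * g, G.mul_mem (G.mul_mem hg' hk) hg, hd⟩
  · rintro ⟨k, hk, hd⟩
    exact ⟨g * k * g⁻¹, G.mul_mem (G.mul_mem hg hk) hg', by rw [dr_mul']; exact hd⟩

theorem Co_mul {G : Subgroup (FreeGroup α)} {g : FreeGroup α} (hg : g ∈ G) (v : FreeGroup α) :
    Co G (g * v) ↔ Co G v := by
  simp only [Co, M_mul hg]

theorem E_mul {G : Subgroup (FreeGroup α)} {g : FreeGroup α} (hg : g ∈ G) (v : FreeGroup α)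
    (ℓ : α × Bool) : E G (g * v) ℓ ↔ E G v ℓ := by
  simp only [E, M_mul hg, Co_mul hg]

theorem M_mono {H K : Subgroup (FreeGroup α)} (h : H ≤ K) {v : FreeGroup α} {ℓ : α × Bool}
    (hM : M H v ℓ) : M K v ℓ := by
  obtain ⟨k, hk, hd⟩ := hM
  exact ⟨k, h hk, hd⟩

theorem Co_mono {H K : Subgroup (FreeGroup α)} (h : H ≤ K) {v : FreeGroup α}
    (hC : Co H v) : Co K v := by
  obtain ⟨ℓ, ℓ', hne, h1, h2⟩ := hC
  exact ⟨ℓ, ℓ', hne, M_mono h h1, M_mono h h2⟩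

/-- at a core vertex there is an element whose direction is not the given one -/
theorem Co_other {G : Subgroup (FreeGroup α)} {v : FreeGroup α} (h : Co G v)
    (o : Option (α × Bool)) : ∃ k ∈ G, k ≠ 1 ∧ dr v k ≠ o := by
  obtain ⟨ℓ, ℓ', hne, ⟨k, hk, hd⟩, ⟨k', hk', hd'⟩⟩ := h
  have h1 : k ≠ 1 := by
    rintro rfl
    rw [dr_none.2 rfl] at hd
    simp at hd
  have h1' : k' ≠ 1 := by
    rintro rfl
    rw [dr_none.2 rfl] at hd'
    simp at hd'
  by_cases ho : o = some ℓ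
  · refine ⟨k', hk', h1', ?_⟩
    rw [hd', ho]
    exact fun h2 => hne (Option.some.inj h2).symm
  · refine ⟨k, hk, h1, ?_⟩
    rw [hd]
    exact fun h2 => ho h2.symm

theorem Co_of {G : Subgroup (FreeGroup α)} {v k : FreeGroup α} {ℓ : α × Bool} (h : M G v ℓ)
    (hk : k ∈ G) (hk1 : k ≠ 1) (hd : dr v k ≠ some ℓ) : Co G v := by
  obtain ⟨ℓ', hℓ'⟩ : ∃ ℓ', dr v k = some ℓ' := by
    cases h2 : dr v k with
    | none => exact absurd (dr_none.1 h2) hk1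
    | some ℓ' => exact ⟨ℓ', rfl⟩
  refine ⟨ℓ, ℓ', ?_, h, k, hk, hℓ'⟩
  rintro rfl
  exact hd hℓ'

theorem E_iff {G : Subgroup (FreeGroup α)} {v : FreeGroup α} {ℓ : α × Bool} :
    E G v ℓ ↔ M G v ℓ ∧ M G (v * el ℓ) (il ℓ) := by
  constructor
  · rintro ⟨h1, h2⟩
    refine ⟨h1, ?_⟩
    obtain ⟨k, hk, hk1, hd⟩ := Co_other h2 (some ℓ)
    exact ⟨k, hk, (dr_step hk1 v ℓ).2 hd⟩
  · rintro ⟨h1, k, hk, hd⟩
    have hk1 : k ≠ 1 := by
      rintro rfl
      rw [dr_none.2 rfl] at hd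
      simp at hd
    exact ⟨h1, Co_of h1 hk hk1 ((dr_step hk1 v ℓ).1 hd)⟩

theorem E_flip {G : Subgroup (FreeGroup α)} {v : FreeGroup α} {ℓ : α × Bool} :
    E G (v * el ℓ) (il ℓ) ↔ E G v ℓ := by
  rw [E_iff, E_iff, il_il, mul_assoc, el_il, mul_inv_cancel, mul_one]
  exact and_comm

theorem Go_flip {H K : Subgroup (FreeGroup α)} {ℓ : α × Bool} (h : Go H K ℓ) :
    Go H K (il ℓ) := by
  intro v hv
  have h1 : E K (v * el (il ℓ)) ℓ := by
    have h2 := (E_flip (G := K) (v := v) (ℓ := il ℓ)).2 hv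
    rw [il_il] at h2
    exact h2
  obtain ⟨c, hc, h2⟩ := h _ h1
  refine ⟨c, hc, ?_⟩
  have h3 := (E_flip (G := H) (v := c * (v * el (il ℓ))) (ℓ := ℓ)).2 h2
  have h4 : c * (v * el (il ℓ)) * el ℓ = c * v := by
    rw [el_il]
    group
  rw [h4] at h3
  exact h3

theorem Go_all {H K : Subgroup (FreeGroup α)} (h : ∀ i, Go H K (i, true)) (ℓ : α × Bool) :
    Go H K ℓ := by
  obtain ⟨i, b⟩ := ℓ
  cases b with
  | true => exact h i
  | false => exact Go_flip (h i)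

theorem mem_pb_conj {g k : FreeGroup α} {G : Subgroup (FreeGroup α)} :
    k ∈ pb (MulAut.conj g) G ↔ g * k * g⁻¹ ∈ G := by
  rw [mem_pb, MulAut.conj_apply]

theorem M_conj (g : FreeGroup α) (G : Subgroup (FreeGroup α)) (v : FreeGroup α)
    (ℓ : α × Bool) : M (pb (MulAut.conj g) G) v ℓ ↔ M G (g * v) ℓ := by
  constructor
  · rintro ⟨k, hk, hd⟩
    refine ⟨g * k * g⁻¹, mem_pb_conj.1 hk, ?_⟩
    rw [dr_mul']
    exact hd
  · rintro ⟨k, hk, hd⟩
    refine ⟨g⁻¹ * k * g, mem_pb_conj.2 ?_, ?_⟩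
    · have h1 : g * (g⁻¹ * k * g) * g⁻¹ = k := by group
      rw [h1]
      exact hk
    · rw [← dr_mul]
      exact hd

theorem Co_conj (g : FreeGroup α) (G : Subgroup (FreeGroup α)) (v : FreeGroup α) :
    Co (pb (MulAut.conj g) G) v ↔ Co G (g * v) := by
  simp only [Co, M_conj]

theorem E_conj (g : FreeGroup α) (G : Subgroup (FreeGroup α)) (v : FreeGroup α)
    (ℓ : α × Bool) : E (pb (MulAut.conj g) G) v ℓ ↔ E G (g * v) ℓ := by
  simp only [E, M_conj, Co_conj]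

theorem Go_conj (g : FreeGroup α) (H K : Subgroup (FreeGroup α)) (ℓ : α × Bool) :
    Go (pb (MulAut.conj g) H) (pb (MulAut.conj g) K) ℓ ↔ Go H K ℓ := by
  constructor
  · intro h v hv
    have h1 : E (pb (MulAut.conj g) K) (g⁻¹ * v) ℓ := by
      rw [E_conj, mul_inv_cancel_left]
      exact hv
    obtain ⟨c, hc, h2⟩ := h _ h1
    refine ⟨g * c * g⁻¹, mem_pb_conj.1 hc, ?_⟩
    rw [E_conj] at h2
    have h3 : g * c * g⁻¹ * v = g * (c * (g⁻¹ * v)) := by group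
    rw [h3]
    exact h2
  · intro h v hv
    rw [E_conj] at hv
    obtain ⟨c, hc, h2⟩ := h _ hv
    refine ⟨g⁻¹ * c * g, mem_pb_conj.2 ?_, ?_⟩
    · have h3 : g * (g⁻¹ * c * g) * g⁻¹ = c := by group
      rw [h3]
      exact hc
    · rw [E_conj]
      have h3 : g * (g⁻¹ * c * g * v) = c * (g * v) := by group
      rw [h3]
      exact h2

end OK71
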