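import Pool.Agent.LibOK71.A0

/-!
[OK71 A2] (SHORT/MEDIUM) walks, products of reduced words.
walk: induction on `r` (`v` general). `r = [ℓ]`: `dr_step`. `r = ℓ :: ℓ' :: r'`: `dr_step` gives `dr (v * el ℓ) k = some (il ℓ)`, and `ℓ' ≠ il ℓ` (`red_cons`), so the induction hypothesis
applies at `v * el ℓ` (`mk_cons`, `mul_assoc`).
mul_dec: induction on the length of `x.toWord` (write it as `A' ++ [ℓ]`, `List.eq_nil_or_concat'`): if `fl y = some (il ℓ)` then `y.toWord = il ℓ :: B'`, `x y = mk A' * mk B'`, both
words are reduced (`red_append`, `red_cons`), use the induction hypothesis for them and put `Z ++ [ℓ]`; otherwise `A' ++ [ℓ] ++ y.toWord` is reduced (`red_append`): `Z = []`.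
pre_mul: from `mul_dec` and `List.append_eq_append_iff`; `mk (invRev Z) = (mk Z)⁻¹` (`FreeGroup.inv_mk`).
-/

set_option autoImplicit false

namespace OK71

variable {α : Type} [DecidableEq α]

/-- the law for a path: if `k` does not point along the path at its beginning, then it points back
at its end -/
theorem walk {k : FreeGroup α} (hk : k ≠ 1) (r : List (α × Bool)) (v : FreeGroup α)
    (hr : FreeGroup.IsReduced r) (hne : r ≠ []) (h : dr v k ≠ r.head?) :
    dr (v * FreeGroup.mk r) k = r.getLast?.map il := by
  induction r generalizing v with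
  | nil => exact absurd rfl hne
  | cons ℓ r ih =>
    have h1 : dr (v * el ℓ) k = some (il ℓ) := (dr_step hk v ℓ).2 h
    rw [red_cons] at hr
    cases r with
    | nil =>
      rw [mk_cons, ← FreeGroup.one_eq_mk, mul_one, h1]
      rfl
    | cons b r =>
      rw [mk_cons, ← mul_assoc, ih (v * el ℓ) hr.2 (by simp) ?_]
      · simp
      · rw [h1]
        exact fun h2 => hr.1 h2.symm

theorem mul_dec (x y : FreeGroup α) : ∃ A Z B : List (α × Bool), x.toWord = A ++ Z ∧
    y.toWord = FreeGroup.invRev Z ++ B ∧ (x * y).toWord = A ++ B := by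
  generalize hn : x.toWord.length = n
  induction n generalizing x y with
  | zero =>
    have h1 : x.toWord = [] := List.length_eq_zero_iff.1 hn
    have h2 : x = 1 := FreeGroup.toWord_eq_nil_iff.1 h1
    refine ⟨[], [], y.toWord, by simpa using h1, by simp, ?_⟩
    rw [h2, one_mul, List.nil_append]
  | succ n ih =>
    rcases List.eq_nil_or_concat' x.toWord with h3 | ⟨r, ℓ, h3⟩
    · rw [h3] at hn
      simp at hn
    · have hxr : FreeGroup.IsReduced (r ++ [ℓ]) := h3 ▸ FreeGroup.isReduced_toWord
      have hrr : FreeGroup.IsReduced r := (red_append.1 hxr).1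
      have hx : x = FreeGroup.mk r * el ℓ := by
        rw [← FreeGroup.mk_toWord (x := x), h3, mk_append]
        rfl
      by_cases hy : fl y = some (il ℓ)
      · obtain ⟨B', hB'⟩ : ∃ B', y.toWord = il ℓ :: B' := by
          rw [fl] at hy
          cases hw : y.toWord with
          | nil => rw [hw] at hy; simp at hy
          | cons b m =>
            rw [hw] at hy
            simp only [List.head?_cons, Option.some.injEq] at hy
            exact ⟨m, by rw [hy]⟩
        have hBr : FreeGroup.IsReduced B' := by
          have : FreeGroup.IsReduced (il ℓ :: B') := hB' ▸ FreeGroup.isReduced_toWord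
          exact (red_cons.1 this).2
        have hy2 : y = (el ℓ)⁻¹ * FreeGroup.mk B' := by
          rw [← FreeGroup.mk_toWord (x := y), hB', mk_cons, el_il]
        obtain ⟨A, Z, B, e1, e2, e3⟩ := ih (FreeGroup.mk r) (FreeGroup.mk B') (by
          rw [toWord_of_red hrr]
          rw [h3] at hn
          simpa using hn)
        rw [toWord_of_red hrr] at e1
        rw [toWord_of_red hBr] at e2
        refine ⟨A, Z ++ [ℓ], B, ?_, ?_, ?_⟩
        · rw [h3, e1, List.append_assoc]
        · rw [hB', e2, invRev_append]
          simp [FreeGroup.invRev, il]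
        · rw [hx, hy2, mul_assoc, mul_inv_cancel_left, e3]
      · have h4 : FreeGroup.IsReduced (r ++ [ℓ] ++ y.toWord) := by
          rw [red_append]
          refine ⟨hxr, FreeGroup.isReduced_toWord, ?_⟩
          intro a ha
          rw [List.getLast?_append_cons, List.getLast?_singleton, Option.mem_some_iff] at ha
          subst ha
          exact hy
        refine ⟨x.toWord, [], y.toWord, by simp, by simp, ?_⟩
        rw [h3, ← toWord_of_red h4, mk_append, mk_append, FreeGroup.mk_toWord, hx]
        rfl

/-- initial segments of the reduced word of a product -/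
theorem pre_mul {x y : FreeGroup α} {u r : List (α × Bool)} (h : (x * y).toWord = u ++ r) :
    (∃ r1, x.toWord = u ++ r1) ∨
      ∃ u2 r2, y.toWord = u2 ++ r2 ∧ FreeGroup.mk u = x * FreeGroup.mk u2 := by
  obtain ⟨A, Z, B, e1, e2, e3⟩ := mul_dec x y
  rw [e3] at h
  rcases List.append_eq_append_iff.1 h with ⟨c, h1, h2⟩ | ⟨c, h1, h2⟩
  · -- `u = A ++ c`, `B = c ++ r`
    right
    refine ⟨FreeGroup.invRev Z ++ c, r, ?_, ?_⟩
    · rw [e2, h2, List.append_assoc]
    · rw [h1, mk_append, mk_append, ← FreeGroup.mk_toWord (x := x), e1, mk_append,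
        ← FreeGroup.inv_mk]
      group
  · left
    refine ⟨c ++ Z, ?_⟩
    rw [e1, h1, List.append_assoc]

end OK71
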