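import Pool.Agent.LibOK71.A2

/-!
[OK71 A3] (MEDIUM) powers of an element run through its directions.
`g := q⁻¹ h q`, `fl g = some ℓ`, `L := g.toWord`. By `FreeGroup.toWord_pow` and `FreeGroup.reduceCyclically.reduce_flatten_replicate` (Mathlib, GroupTheory/FreeGroup/CyclicallyReduced.lean; namespace `FreeGroup.reduceCyclically`)
`(g ^ n).toWord = conjugator L ++ (replicate n (reduceCyclically L)).flatten ++ invRev (conjugator L)` for `n ≠ 0`; `reduceCyclically L ≠ []` (otherwise `L = conjugator L ++ invRev _`, `g = 1`), so its length is at least `n`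
and its first letter is the one of `L = conjugator L ++ reduceCyclically L ++ invRev (conjugator L)` (`conj_conjugator_reduceCyclically`), i.e. `ℓ`.
Take `n = |q| + 1`. `q⁻¹ h ^ n = g ^ n * q⁻¹`; `mul_dec`: `(g ^ n).toWord = A ++ Z`, `|Z| ≤ |q|`, so `A ≠ []` and `q⁻¹ h ^ n` begins with `ℓ`: `(q⁻¹ * h ^ n).toWord = ℓ :: r`.
`h ^ n = q * (q⁻¹ h ^ n)` and `q.toWord ++ ℓ :: r` is reduced (`red_append`, hypothesis `hq`).
-/

set_option autoImplicit false

namespace OK71

variable {α : Type} [DecidableEq α]

theorem pref {h q : FreeGroup α} {ℓ : α × Bool} (hd : dr q h = some ℓ)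
    (hq : q.toWord.getLast? ≠ some (il ℓ)) :
    ∃ (n : ℕ) (r : List (α × Bool)), (h ^ n).toWord = q.toWord ++ ℓ :: r := by
  obtain ⟨g, hg⟩ : ∃ g, g = q⁻¹ * h * q := ⟨_, rfl⟩
  have hfl : fl g = some ℓ := by rw [hg]; exact hd
  obtain ⟨c, hc⟩ : ∃ c, c = FreeGroup.reduceCyclically.conjugator g.toWord := ⟨_, rfl⟩
  obtain ⟨d, hdd⟩ : ∃ d, d = FreeGroup.reduceCyclically g.toWord := ⟨_, rfl⟩
  have hL : c ++ d ++ FreeGroup.invRev c = g.toWord := by
    rw [hc, hdd]
    exact FreeGroup.reduceCyclically.conj_conjugator_reduceCyclically _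
  have hdne : d ≠ [] := by
    intro h1
    rw [h1, List.append_nil] at hL
    have h2 : g = 1 := by
      rw [← FreeGroup.mk_toWord (x := g), ← hL, mk_append, ← FreeGroup.inv_mk, mul_inv_cancel]
    rw [fl_none.2 h2] at hfl
    simp at hfl
  obtain ⟨n, hn⟩ : ∃ n, n = q.toWord.length := ⟨_, rfl⟩
  have hpow : (g ^ (n + 1)).toWord = c ++ (List.replicate (n + 1) d).flatten ++
      FreeGroup.invRev c := by
    rw [FreeGroup.toWord_pow, FreeGroup.reduceCyclically.reduce_flatten_replicate_succ
      FreeGroup.isReduced_toWord, hc, hdd]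
  have hhead : (g ^ (n + 1)).toWord.head? = some ℓ := by
    rw [← hfl, fl, hpow, ← hL, List.replicate_succ, List.flatten_cons]
    cases c with
    | nil =>
      cases d with
      | nil => exact absurd rfl hdne
      | cons b d => simp
    | cons b c => simp
  obtain ⟨A, Z, B, e1, e2, e3⟩ := mul_dec (g ^ (n + 1)) q⁻¹
  have hZ : Z.length ≤ n := by
    have h1 := congrArg List.length e2
    rw [List.length_append, FreeGroup.invRev_length, FreeGroup.toWord_inv,
      FreeGroup.invRev_length, ← hn] at h1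
    omega
  have hlen : n + 1 ≤ (g ^ (n + 1)).toWord.length := by
    rw [hpow, List.length_append, List.length_append, List.length_flatten, List.map_replicate,
      List.sum_replicate, smul_eq_mul]
    have h1 : 1 ≤ d.length := List.length_pos_of_ne_nil hdne
    nlinarith
  have hA : ∃ r, A = ℓ :: r := by
    cases A with
    | nil =>
      rw [e1, List.nil_append] at hlen
      omega
    | cons b r =>
      rw [e1] at hhead
      simp only [List.cons_append, List.head?_cons, Option.some.injEq] at hhead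
      exact ⟨r, by rw [hhead]⟩
  obtain ⟨r, rfl⟩ := hA
  refine ⟨n + 1, r ++ B, ?_⟩
  have h1 : h ^ (n + 1) = q * (g ^ (n + 1) * q⁻¹) := by
    have h2 : g ^ (n + 1) = q⁻¹ * h ^ (n + 1) * q := by
      rw [hg]
      have h3 := conj_pow (i := n + 1) (a := q⁻¹) (b := h)
      rw [inv_inv] at h3
      exact h3
    rw [h2]
    group
  have h2 : FreeGroup.IsReduced (q.toWord ++ (g ^ (n + 1) * q⁻¹).toWord) := by
    rw [red_append]
    refine ⟨FreeGroup.isReduced_toWord, FreeGroup.isReduced_toWord, ?_⟩
    intro a ha hb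
    rw [e3] at hb
    simp only [List.cons_append, List.head?_cons, Option.some.injEq] at hb
    apply hq
    rw [Option.mem_def.1 ha, hb, il_il]
  have h3 := toWord_of_red h2
  rw [mk_append, FreeGroup.mk_toWord, FreeGroup.mk_toWord, ← h1, e3] at h3
  rw [h3]
  simp

end OK71
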