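import Pool.Agent.LibOK71.A1

/-!
[OK71 A4] (SHORT/MEDIUM) the core is not empty.
`L := s.toWord`, `u := conjugator L`, `c := reduceCyclically L` (Mathlib, GroupTheory/FreeGroup/CyclicallyReduced.lean, namespace `FreeGroup.reduceCyclically`), `L = u ++ c ++ invRev u`,
`c` is cyclically reduced (`isCyclicallyReduced`) and not empty. `(mk u)⁻¹ * s * mk u = mk c`, so `dr (mk u) s = c.head?` (`fl_mk`) and `dr (mk u) s⁻¹ = (mk c)⁻¹` first letter `= c.getLast?.map il` (`fl_inv`,
`toWord_of_red`). They differ: `IsCyclicallyReduced` for the last and the first letter, `red_two`.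
-/

set_option autoImplicit false

namespace OK71

variable {α : Type} [DecidableEq α]

theorem core_pre {G : Subgroup (FreeGroup α)} {s : FreeGroup α} (hs : s ∈ G) (h1 : s ≠ 1) :
    ∃ u r : List (α × Bool), s.toWord = u ++ r ∧ Co G (FreeGroup.mk u) := by
  obtain ⟨c, hc⟩ : ∃ c, c = FreeGroup.reduceCyclically.conjugator s.toWord := ⟨_, rfl⟩
  obtain ⟨d, hdd⟩ : ∃ d, d = FreeGroup.reduceCyclically s.toWord := ⟨_, rfl⟩
  have hL : c ++ d ++ FreeGroup.invRev c = s.toWord := by
    rw [hc, hdd]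
    exact FreeGroup.reduceCyclically.conj_conjugator_reduceCyclically _
  have hcyc : FreeGroup.IsCyclicallyReduced d := by
    rw [hdd]
    exact FreeGroup.reduceCyclically.isCyclicallyReduced FreeGroup.isReduced_toWord
  have hs2 : (FreeGroup.mk c)⁻¹ * s * FreeGroup.mk c = FreeGroup.mk d := by
    rw [← FreeGroup.mk_toWord (x := s), ← hL, mk_append, mk_append, ← FreeGroup.inv_mk]
    group
  have hdne : d ≠ [] := by
    intro h
    rw [h, ← FreeGroup.one_eq_mk] at hs2
    apply h1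
    have h3 : s = FreeGroup.mk c * ((FreeGroup.mk c)⁻¹ * s * FreeGroup.mk c) *
        (FreeGroup.mk c)⁻¹ := by group
    rw [h3, hs2]
    group
  refine ⟨c, d ++ FreeGroup.invRev c, by rw [← hL, List.append_assoc], ?_⟩
  obtain ⟨b, hb⟩ : ∃ b, d.head? = some b := by
    cases d with
    | nil => exact absurd rfl hdne
    | cons b d => exact ⟨b, rfl⟩
  obtain ⟨e, he⟩ : ∃ e, d.getLast? = some e := ⟨_, List.getLast?_eq_getLast_of_ne_nil hdne⟩
  have hd1 : dr (FreeGroup.mk c) s = some b := by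
    rw [dr, hs2, fl_mk hcyc.isReduced, hb]
  have hd2 : dr (FreeGroup.mk c) s⁻¹ = some (il e) := by
    have h4 : (FreeGroup.mk c)⁻¹ * s⁻¹ * FreeGroup.mk c = (FreeGroup.mk d)⁻¹ := by
      rw [← hs2]
      group
    rw [dr, h4, fl_inv, toWord_of_red hcyc.isReduced, he]
    rfl
  refine ⟨b, il e, ?_, ⟨s, hs, hd1⟩, ⟨s⁻¹, G.inv_mem hs, hd2⟩⟩
  exact red_two.1 (hcyc.2 e he b hb)

end OK71
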