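import Pool.Agent.LibOK71.A1
import Pool.Agent.LibOK71.A2

/-!
[OK71 A5] (MEDIUM) the hull of the orbit of a core vertex is the minimal subtree.
`q := p * mk u`. (1) `M G q e`: `h * p` is a core vertex (`Co_mul`); `Co_other` gives `k ∈ G`, `k ≠ 1`, `dr (h p) k ≠ (invRev (e :: v)).head?`; `walk` from `h p` along `invRev (e :: v)` (reduced: `red_invRev`, `red_append`) ends at
`h p * (mk (e :: v))⁻¹ = p * mk u` (because `p⁻¹ h p = mk u * mk (e :: v)`), and there `dr q k = (invRev (e :: v)).getLast?.map il = some (il (il e)) = some e` (`invRev_getLast?`, `il_il`).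
(2) `Co G q`: if `u = []` then `q = p`. Otherwise `Co_other` at `p` with `u.head?`, `walk` along `u`: `dr q k' = u.getLast?.map il ≠ some e` (`red_append` for `u ++ e :: v`), `Co_of`.
-/

set_option autoImplicit false

namespace OK71

variable {α : Type} [DecidableEq α]

theorem hull_E {G : Subgroup (FreeGroup α)} {p h : FreeGroup α} (hp : Co G p) (hh : h ∈ G)
    {u v : List (α × Bool)} {e : α × Bool} (hw : (p⁻¹ * h * p).toWord = u ++ e :: v) :
    E G (p * FreeGroup.mk u) e := by
  have hred : FreeGroup.IsReduced (u ++ e :: v) := hw ▸ FreeGroup.isReduced_toWord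
  have hmk : p⁻¹ * h * p = FreeGroup.mk u * FreeGroup.mk (e :: v) := by
    rw [← FreeGroup.mk_toWord (x := p⁻¹ * h * p), hw, mk_append]
  -- (1) the direction `e` occurs at `p * mk u`
  have hM : M G (p * FreeGroup.mk u) e := by
    have hc : Co G (h * p) := (Co_mul hh p).2 hp
    obtain ⟨k, hk, hk1, hd⟩ := Co_other hc (FreeGroup.invRev (e :: v)).head?
    have h1 := walk hk1 (FreeGroup.invRev (e :: v)) (h * p)
      (red_invRev (red_append.1 hred).2.1) (by simp [FreeGroup.invRev]) hd
    have h2 : h * p * FreeGroup.mk (FreeGroup.invRev (e :: v)) = p * FreeGroup.mk u := by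
      rw [← FreeGroup.inv_mk]
      have h3 : h * p = p * (p⁻¹ * h * p) := by group
      rw [h3, hmk]
      group
    rw [h2, invRev_getLast?] at h1
    refine ⟨k, hk, ?_⟩
    rw [h1]
    simp [il_il]
  refine ⟨hM, ?_⟩
  cases u using List.reverseRecOn with
  | nil =>
    rw [← FreeGroup.one_eq_mk, mul_one]
    exact hp
  | append_singleton t b =>
    obtain ⟨k, hk, hk1, hd⟩ := Co_other hp (t ++ [b]).head?
    have h1 := walk hk1 (t ++ [b]) p (red_append.1 hred).1 (by simp) hd
    refine Co_of hM hk hk1 ?_
    rw [h1]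
    intro h2
    have h3 : (t ++ [b]).getLast? = some b := by simp
    rw [h3] at h2
    simp only [Option.map_some, Option.some.injEq] at h2
    exact (red_append.1 hred).2.2 b (by rw [h3]; rfl) (by rw [← h2]; rfl)

end OK71
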