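import Pool.Agent.LibOK71.A1
import Pool.Agent.LibOK71.A3

/-!
[OK71 A6] (MEDIUM) every edge of the minimal subtree of `G` is traversed by an element of `G`, up to translation.
If `q.toWord.getLast? ≠ some (il ℓ)`: `E` gives `h1 ∈ G` with `dr q h1 = some ℓ`; `pref`: `(h1 ^ n).toWord = q.toWord ++ ℓ :: r`; `u = q.toWord`, `mk u * q⁻¹ = 1` (`FreeGroup.mk_toWord`).
Otherwise `q.toWord = t ++ [il ℓ]`; `q' := mk t = q * el ℓ`, `q'.toWord = t` (`toWord_of_red`), `t.getLast? ≠ some (il (il ℓ))` (`red_append`). `E_iff` gives `h2 ∈ G` with `dr q' h2 = some (il ℓ)`; `pref`: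
`(h2 ^ n).toWord = t ++ il ℓ :: r`. Take `h = (h2 ^ n)⁻¹`: its word is `invRev r ++ [ℓ] ++ invRev t` (`FreeGroup.toWord_inv`, `invRev_append`, `invRev_cons`); `u = invRev r`,
`mk (invRev r) = (mk r)⁻¹ = (h2 ^ n)⁻¹ * mk t * el (il ℓ) = (h2 ^ n)⁻¹ * q`.
-/

set_option autoImplicit false

namespace OK71

variable {α : Type} [DecidableEq α]

theorem lift_E {G : Subgroup (FreeGroup α)} {q : FreeGroup α} {ℓ : α × Bool} (h : E G q ℓ) :
    ∃ g ∈ G, ∃ u v : List (α × Bool), g.toWord = u ++ ℓ :: v ∧ FreeGroup.mk u * q⁻¹ ∈ G := by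
  by_cases hq : q.toWord.getLast? = some (il ℓ)
  · obtain ⟨t, ht⟩ : ∃ t, q.toWord = t ++ [il ℓ] := by
      rcases List.eq_nil_or_concat' q.toWord with h3 | ⟨t, b, h3⟩
      · rw [h3] at hq
        simp at hq
      · rw [h3] at hq
        simp only [List.getLast?_append, List.getLast?_singleton, Option.some_or,
          Option.some.injEq] at hq
        exact ⟨t, by rw [h3, hq]⟩
    have hred : FreeGroup.IsReduced (t ++ [il ℓ]) := ht ▸ FreeGroup.isReduced_toWord
    have hq2 : q = FreeGroup.mk t * el (il ℓ) := by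
      rw [← FreeGroup.mk_toWord (x := q), ht, mk_append]
      rfl
    have hq3 : FreeGroup.mk t = q * el ℓ := by
      rw [hq2, el_il]
      group
    have hM : M G (FreeGroup.mk t) (il ℓ) := by
      rw [hq3]
      exact (E_iff.1 h).2
    obtain ⟨h2, hh2, hd⟩ := hM
    obtain ⟨n, r, hr⟩ := pref hd (by
      rw [toWord_of_red (red_append.1 hred).1]
      intro h5
      exact (red_append.1 hred).2.2 _ h5 (by rw [il_il]; rfl))
    rw [toWord_of_red (red_append.1 hred).1] at hr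
    refine ⟨(h2 ^ n)⁻¹, G.inv_mem (G.pow_mem hh2 n), FreeGroup.invRev r, FreeGroup.invRev t,
      ?_, ?_⟩
    · rw [FreeGroup.toWord_inv, hr, invRev_append, invRev_cons, il_il]
      simp
    · have h6 : h2 ^ n = FreeGroup.mk t * (el (il ℓ) * FreeGroup.mk r) := by
        rw [← FreeGroup.mk_toWord (x := h2 ^ n), hr, mk_append, mk_cons]
      have h7 : FreeGroup.mk (FreeGroup.invRev r) * q⁻¹ = (h2 ^ n)⁻¹ := by
        rw [← FreeGroup.inv_mk, hq2, h6]
        group
      rw [h7]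
      exact G.inv_mem (G.pow_mem hh2 n)
  · obtain ⟨k, hk, hd⟩ := h.1
    obtain ⟨n, r, hr⟩ := pref hd hq
    refine ⟨k ^ n, G.pow_mem hk n, q.toWord, r, hr, ?_⟩
    rw [FreeGroup.mk_toWord, mul_inv_cancel]
    exact G.one_mem

end OK71
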