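import Pool.Agent.LibOK71.A4
import Pool.Agent.LibOK71.A5
import Pool.Agent.LibOK71.A6

/-!
[OK71 A7] (MEDIUM) the pointed condition and the condition on minimal subtrees.
onto_of_go: `k ∈ K`, `k.toWord = u ++ e :: v`, `p := mk u` (`p.toWord = u`), `Go H K e` (`Go_all`). If `E K p e`: `Go` gives `c ∈ K` with `E H (c p) e`, `lift_E`: `h`, `u'` with `mk u' * (c p)⁻¹ ∈ H ≤ K`, so
`mk u' * p⁻¹ = (mk u' * (c p)⁻¹) * c ∈ K`. Otherwise: `H` contains some `h ≠ 1` (if not: `core_pre` for `k` gives a core vertex of `K` with a letter `ℓ`, `E K _ ℓ`, `Go_all` gives `M H _ ℓ`, an element of `H` with a direction, `dr_none`).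
(a) if some `k1 ∈ K` has `dr p k1 = some e` then every `k' ∈ K`, `k' ≠ 1`, has (else `Co_of`, `E K p e`), so `dr p h = some e`, `pref` with `q = p`: `(h ^ n).toWord = u ++ e :: r`.
(b) otherwise `dr p (k h k⁻¹) ≠ some e`; `q := mk (invRev v) = k⁻¹ * p * el e`; `dr q h = dr (p * el e) (k h k⁻¹) = some (il e)` (`dr_mul'`, `dr_step`); `pref` at `q` (`q.toWord = invRev v`, its last letter is not `e`):
`(h ^ n).toWord = invRev v ++ il e :: r`; take `(h ^ n)⁻¹`, word `invRev r ++ e :: v`; `mk (invRev r) = (h ^ n)⁻¹ * q * el (il e) = (h ^ n)⁻¹ * k⁻¹ * p`.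
go_of_onto: `E K v ℓ` is `E (pb (conj p) K) (p⁻¹ v) ℓ` (`E_conj`); `lift_E`: `k`, `u`, `mk u * (p⁻¹ v)⁻¹ ∈ pb (conj p) K`; the hypothesis gives `h`, `u'`; `h ≠ 1` (its word is not empty), `p h p⁻¹ ∈ H`, so `H ≠ ⊥` and `Co H p`;
`hull_E` for `p h p⁻¹`: `E H (p * mk u') ℓ`; `c := p * mk u' * v⁻¹ ∈ K`.
-/

set_option autoImplicit false

namespace OK71

variable {α : Type} [DecidableEq α]

theorem onto_of_go {H K : Subgroup (FreeGroup α)} (hHK : H ≤ K)
    (hgo : ∀ i, Go H K (i, true)) : OntoStd H K := by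
  intro k hk u v e hw
  have hred : FreeGroup.IsReduced (u ++ e :: v) := by
    rw [← hw]
    exact FreeGroup.isReduced_toWord
  have hred' := red_append.1 hred
  have hp : (FreeGroup.mk u).toWord = u := toWord_of_red hred'.1
  have hk1 : k ≠ 1 := by
    rintro rfl
    rw [FreeGroup.toWord_one] at hw
    exact absurd hw (by simp)
  by_cases hE : E K (FreeGroup.mk u) e
  · obtain ⟨c, hc, hEc⟩ := Go_all hgo e _ hE
    obtain ⟨g, hg, u', v', hgw, hu'⟩ := lift_E hEc
    refine ⟨g, hg, u', v', hgw, ?_⟩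
    have h1 : FreeGroup.mk u' * (FreeGroup.mk u)⁻¹ =
        (FreeGroup.mk u' * (c * FreeGroup.mk u)⁻¹) * c := by group
    rw [h1]
    exact K.mul_mem (hHK hu') hc
  · have hex : ∃ h ∈ H, h ≠ 1 := by
      obtain ⟨u0, r0, _, hCo⟩ := core_pre hk hk1
      obtain ⟨ℓ, ℓ', hne, hM, hM'⟩ := hCo
      obtain ⟨c, hc, hEc⟩ := Go_all hgo ℓ _ ⟨hM, ⟨ℓ, ℓ', hne, hM, hM'⟩⟩
      obtain ⟨h, hh, hd⟩ := hEc.1
      refine ⟨h, hh, ?_⟩
      intro h1
      rw [dr_none.2 h1] at hd
      exact absurd hd (by simp)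
    obtain ⟨h, hh, hh1⟩ := hex
    by_cases hM : M K (FreeGroup.mk u) e
    · have hd : dr (FreeGroup.mk u) h = some e := by
        by_contra hd
        exact hE ⟨hM, Co_of hM (hHK hh) hh1 hd⟩
      have hq : (FreeGroup.mk u).toWord.getLast? ≠ some (il e) := by
        rw [hp]
        intro h1
        have h2 := hred'.2.2 (il e) h1
        rw [il_il] at h2
        exact h2 rfl
      obtain ⟨n, r, hr⟩ := pref hd hq
      rw [hp] at hr
      refine ⟨h ^ n, H.pow_mem hh n, u, r, hr, ?_⟩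
      rw [mul_inv_cancel]
      exact K.one_mem
    · have hkw : k = FreeGroup.mk u * el e * FreeGroup.mk v := by
        rw [mul_assoc, ← mk_cons, ← mk_append, ← hw, FreeGroup.mk_toWord]
      have hred2 := red_cons.1 hred'.2.1
      have hqe : FreeGroup.mk (FreeGroup.invRev v) = (FreeGroup.mk v)⁻¹ := by
        rw [FreeGroup.inv_mk]
      have hqe2 : FreeGroup.mk (FreeGroup.invRev v) = k⁻¹ * (FreeGroup.mk u * el e) := by
        rw [hqe, hkw]
        group
      have hqw : (FreeGroup.mk (FreeGroup.invRev v)).toWord = FreeGroup.invRev v :=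
        toWord_of_red (red_invRev hred2.2)
      have hd : dr (FreeGroup.mk (FreeGroup.invRev v)) h = some (il e) := by
        rw [hqe2, dr_mul, inv_inv, dr_step]
        · intro h1
          exact hM ⟨k * h * k⁻¹, K.mul_mem (K.mul_mem hk (hHK hh)) (K.inv_mem hk), h1⟩
        · intro h1
          apply hh1
          have h2 : h = k⁻¹ * (k * h * k⁻¹) * k := by group
          rw [h2, h1]
          group
      have hq : (FreeGroup.mk (FreeGroup.invRev v)).toWord.getLast? ≠ some (il (il e)) := by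
        rw [hqw, invRev_getLast?, il_il]
        intro h1
        rw [Option.map_eq_some_iff] at h1
        obtain ⟨a, ha, ha2⟩ := h1
        apply hred2.1
        rw [ha, ← ha2, il_il]
      obtain ⟨n, r, hr⟩ := pref hd hq
      rw [hqw] at hr
      have hgw : ((h ^ n)⁻¹).toWord = FreeGroup.invRev r ++ e :: v := by
        rw [FreeGroup.toWord_inv, hr, invRev_append, FreeGroup.invRev_invRev, invRev_cons, il_il,
          List.append_assoc]
        rfl
      refine ⟨(h ^ n)⁻¹, H.inv_mem (H.pow_mem hh n), FreeGroup.invRev r, v, hgw, ?_⟩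
      have hg : (h ^ n)⁻¹ = FreeGroup.mk (FreeGroup.invRev r) * el e * FreeGroup.mk v := by
        rw [mul_assoc, ← mk_cons, ← mk_append, ← hgw, FreeGroup.mk_toWord]
      have h3 : FreeGroup.mk (FreeGroup.invRev r) * (FreeGroup.mk u)⁻¹ = (h ^ n)⁻¹ * k⁻¹ := by
        rw [hg, hkw]
        group
      rw [h3]
      exact K.mul_mem (hHK (H.inv_mem (H.pow_mem hh n))) (K.inv_mem hk)

theorem go_of_onto {H K : Subgroup (FreeGroup α)} (hHK : H ≤ K) {p : FreeGroup α}
    (hp : Co H p ∨ H = ⊥) (h : OntoStd (pb (MulAut.conj p) H) (pb (MulAut.conj p) K))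
    (ℓ : α × Bool) : Go H K ℓ := by
  intro v hE
  have hE' : E (pb (MulAut.conj p) K) (p⁻¹ * v) ℓ := by
    rw [E_conj, mul_inv_cancel_left]
    exact hE
  obtain ⟨k, hk, u, w, hkw, hu⟩ := lift_E hE'
  obtain ⟨h0, hh0, u', v', hw0, hu'⟩ := h k hk u w ℓ hkw
  rw [mem_pb_conj] at hu hh0 hu'
  have hh1 : h0 ≠ 1 := by
    rintro rfl
    rw [FreeGroup.toWord_one] at hw0
    exact absurd hw0 (by simp)
  have hCo : Co H p := by
    rcases hp with hp | hp
    · exact hp
    · exfalso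
      rw [hp, Subgroup.mem_bot] at hh0
      apply hh1
      have h2 : h0 = p⁻¹ * (p * h0 * p⁻¹) * p := by group
      rw [h2, hh0]
      group
  have hw1 : (p⁻¹ * (p * h0 * p⁻¹) * p).toWord = u' ++ ℓ :: v' := by
    have h2 : p⁻¹ * (p * h0 * p⁻¹) * p = h0 := by group
    rw [h2]
    exact hw0
  have hEH := hull_E hCo hh0 hw1
  refine ⟨p * FreeGroup.mk u' * v⁻¹, ?_, ?_⟩
  · have h3 : p * FreeGroup.mk u' * v⁻¹ = (p * (FreeGroup.mk u' * (FreeGroup.mk u)⁻¹) * p⁻¹) *
        (p * (FreeGroup.mk u * (p⁻¹ * v)⁻¹) * p⁻¹) := by group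
    rw [h3]
    exact K.mul_mem hu' hu
  · rw [inv_mul_cancel_right]
    exact hEH

end OK71
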