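import Pool.Agent.LibOK71.A1
import Pool.Agent.LibOK71.A2
import Pool.Agent.LibOK71.A3

/-!
[OK71 A8] (MEDIUM) finitely many core vertices modulo `G`.
core_gen: `Co G v`: two letters `ℓ ≠ ℓ'`; the last letter of `v.toWord` is not `il ℓ` or not `il ℓ'`; say `ℓ`, `k ∈ G`, `dr v k = some ℓ`; `pref`: `(k ^ n).toWord = v.toWord ++ ℓ :: r`. So it is enough to show for `g ∈ G = closure S`:
`∀ u r, g.toWord = u ++ r → g = 1 ∨ ∃ s ∈ S, ∃ u' r', s.toWord = u' ++ r' ∧ mk u * (mk u')⁻¹ ∈ G` (the case `g = 1` does not occur for `k ^ n`, its word is not empty). `Subgroup.closure_induction`: generator: `u' = u`.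
product (`pre_mul`; if one factor is `1` the product is the other one): prefix of `x.toWord`, or `mk u = x * mk u2`. inverse: `x⁻¹.toWord = invRev x.toWord = u ++ r`: `x.toWord = invRev r ++ invRev u`, `mk u = x⁻¹ * mk (invRev r)`.
core_card: `R` = the image of the initial segments (`List.inits`, length `|s| + 1`) of the words of the elements of `S`: `(S.flatMap fun s => s.toWord.inits).map FreeGroup.mk`, `toFinset`; `List.toFinset_card_le`, `List.length_flatMap`.

-/

set_option autoImplicit false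

namespace OK71

variable {α : Type} [DecidableEq α]

private theorem A8_key {S : List (FreeGroup α)} {g : FreeGroup α}
    (hg : g ∈ Subgroup.closure {s | s ∈ S}) : ∀ u r : List (α × Bool), g.toWord = u ++ r →
      g = 1 ∨ ∃ s ∈ S, ∃ u' r' : List (α × Bool), s.toWord = u' ++ r' ∧
        FreeGroup.mk u * (FreeGroup.mk u')⁻¹ ∈ Subgroup.closure {s | s ∈ S} := by
  induction hg using Subgroup.closure_induction with
  | mem x hx =>
    intro u r h
    refine Or.inr ⟨x, hx, u, r, h, ?_⟩
    rw [mul_inv_cancel]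
    exact Subgroup.one_mem _
  | one =>
    intro u r _
    exact Or.inl rfl
  | mul x y hx hy ihx ihy =>
    intro u r h
    by_cases hx1 : x = 1
    · rw [hx1, one_mul] at h ⊢
      exact ihy u r h
    · by_cases hy1 : y = 1
      · rw [hy1, mul_one] at h ⊢
        exact ihx u r h
      · right
        rcases pre_mul h with ⟨r1, h1⟩ | ⟨u2, r2, h1, h2⟩
        · rcases ihx u r1 h1 with h3 | h3
          · exact absurd h3 hx1
          · exact h3
        · rcases ihy u2 r2 h1 with h3 | ⟨s, hs, u', r', h4, h5⟩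
          · exact absurd h3 hy1
          · refine ⟨s, hs, u', r', h4, ?_⟩
            rw [h2, mul_assoc]
            exact Subgroup.mul_mem _ hx h5
  | inv x hx ihx =>
    intro u r h
    have h1 : x.toWord = FreeGroup.invRev r ++ FreeGroup.invRev u := by
      have h2 : x⁻¹⁻¹.toWord = FreeGroup.invRev (u ++ r) := by
        rw [FreeGroup.toWord_inv, h]
      rw [inv_inv, invRev_append] at h2
      exact h2
    rcases ihx _ _ h1 with h3 | ⟨s, hs, u', r', h4, h5⟩
    · left
      rw [h3, inv_one]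
    · refine Or.inr ⟨s, hs, u', r', h4, ?_⟩
      have h6 : x = FreeGroup.mk (FreeGroup.invRev r) * (FreeGroup.mk u)⁻¹ := by
        rw [FreeGroup.inv_mk, ← mk_append, ← h1, FreeGroup.mk_toWord]
      have h7 : FreeGroup.mk u = x⁻¹ * FreeGroup.mk (FreeGroup.invRev r) := by
        conv_rhs => rw [h6]
        group
      rw [h7, mul_assoc]
      exact Subgroup.mul_mem _ (Subgroup.inv_mem _ hx) h5

private theorem A8_dir {G : Subgroup (FreeGroup α)} {v : FreeGroup α} (hv : Co G v) :
    ∃ (k : FreeGroup α) (r : List (α × Bool)) (ℓ : α × Bool), k ∈ G ∧ k.toWord = v.toWord ++ ℓ :: r := by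
  obtain ⟨ℓ, ℓ', hne, ⟨k, hk, hd⟩, ⟨k', hk', hd'⟩⟩ := hv
  by_cases hl : v.toWord.getLast? = some (il ℓ)
  · have hl' : v.toWord.getLast? ≠ some (il ℓ') := by
      rw [hl]
      intro h
      have h1 := congrArg il (Option.some.inj h)
      rw [il_il, il_il] at h1
      exact hne h1
    obtain ⟨n, r, h⟩ := pref hd' hl'
    exact ⟨k' ^ n, r, ℓ', Subgroup.pow_mem _ hk' n, h⟩
  · obtain ⟨n, r, h⟩ := pref hd hl
    exact ⟨k ^ n, r, ℓ, Subgroup.pow_mem _ hk n, h⟩

theorem core_gen {S : List (FreeGroup α)} {v : FreeGroup α}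
    (hv : Co (Subgroup.closure {s | s ∈ S}) v) :
    ∃ s ∈ S, ∃ u r : List (α × Bool), s.toWord = u ++ r ∧
      v * (FreeGroup.mk u)⁻¹ ∈ Subgroup.closure {s | s ∈ S} := by
  obtain ⟨k, r, ℓ, hk, h⟩ := A8_dir hv
  rcases A8_key hk v.toWord (ℓ :: r) h with h1 | ⟨s, hs, u', r', h4, h5⟩
  · exfalso
    rw [h1, FreeGroup.toWord_one] at h
    have h2 := congrArg List.length h
    rw [List.length_append, List.length_cons, List.length_nil] at h2
    omega
  · rw [FreeGroup.mk_toWord] at h5
    exact ⟨s, hs, u', r', h4, h5⟩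

theorem core_card (S : List (FreeGroup α)) : ∃ R : Finset (FreeGroup α), R.card ≤ sz S ∧
    ∀ v, Co (Subgroup.closure {s | s ∈ S}) v →
      ∃ ρ ∈ R, v * ρ⁻¹ ∈ Subgroup.closure {s | s ∈ S} := by
  refine ⟨((S.flatMap fun s => s.toWord.inits).map FreeGroup.mk).toFinset, ?_, ?_⟩
  · refine (List.toFinset_card_le _).trans ?_
    rw [List.length_map, List.length_flatMap, sz]
    refine le_of_eq ?_
    congr 1
    apply List.map_congr_left
    intro s _
    rw [List.length_inits]
  · intro v hv
    obtain ⟨s, hs, u, r, h, h1⟩ := core_gen hv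
    refine ⟨FreeGroup.mk u, ?_, h1⟩
    rw [List.mem_toFinset, List.mem_map]
    refine ⟨u, ?_, rfl⟩
    rw [List.mem_flatMap]
    refine ⟨s, hs, ?_⟩
    rw [List.mem_inits]
    exact ⟨r, h.symm⟩

end OK71
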