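import Pool.Agent.LibOK71.A1

/-!
[OK71 B1] (MEDIUM) first letters under the inverses of `lam` and `rho`.
`lam.symm`: `a ↦ a`, `b ↦ a⁻¹ b`, so `b⁻¹ ↦ b⁻¹ a`. Prove by induction on a reduced word `r` (`FreeGroup.IsReduced r`, `m = mk r`) the four implications together with the case `r = []`:
`r` begins with `b⁻¹` => `lam.symm m` begins with `b⁻¹`; with `b` or `a⁻¹` => with `a⁻¹`; with `a` => with `a` or `b`. Step `r = ℓ :: r'`:
`ℓ = a`: image `a * lam.symm (mk r')`, `r'` does not begin with `a⁻¹`: the image of `mk r'` begins with `a⁻¹` exactly if `r'` begins with `b`, `r' = b :: r''`, then the product is `b * lam.symm (mk r'')` and `r''` does not begin with `b⁻¹`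
(so its image does not begin with `b⁻¹`), first letter `b`; otherwise first letter `a` (`toWord_el_mul`). `ℓ = a⁻¹`: `r'` does not begin with `a`: its image begins with `a⁻¹`, `b⁻¹` or is `1`, so first letter `a⁻¹`.
`ℓ = b`: image `a⁻¹ * (b * image r')`, `r'` does not begin with `b⁻¹`, so `b * image r'` begins with `b` and the product with `a⁻¹`. `ℓ = b⁻¹`: image `b⁻¹ * (a * image r')`, `r'` does not begin with `b`: `a * image r'`
begins with `a` unless the image of `r'` begins with `a⁻¹`, i.e. `r' = a⁻¹ :: r''`, and then it is the image of `mk r''`, which does not begin with `b` (`r''` does not begin with `a`); so the first letter is `b⁻¹`.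
(A strong induction on the length, or the implications for `r'` and `r''` simultaneously.) The two equivalences follow, because the four cases exclude each other.
rho: conjugate by `sw` (`rho = sw * lam * sw`, first letters of `sw m`: `(sw m).toWord` is the word with the letters exchanged), or the same proof.
-/

set_option autoImplicit false

namespace OK71

theorem lam_symm_of0 : lam.symm (FreeGroup.of 0) = FreeGroup.of 0 := by
  simp [lam]

theorem lam_symm_of1 : lam.symm (FreeGroup.of 1) = (FreeGroup.of 0)⁻¹ * FreeGroup.of 1 := by
  simp [lam]

theorem lam_of0 : lam (FreeGroup.of 0) = FreeGroup.of 0 := by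
  simp [lam]

theorem lam_of1 : lam (FreeGroup.of 1) = FreeGroup.of 0 * FreeGroup.of 1 := by
  simp [lam]

theorem rho_of0 : rho (FreeGroup.of 0) = FreeGroup.of 1 * FreeGroup.of 0 := by
  simp [rho]

theorem rho_of1 : rho (FreeGroup.of 1) = FreeGroup.of 1 := by
  simp [rho]

private theorem B1_fl_mul {ℓ : Lt} {k : F2} (h : fl k ≠ some (il ℓ)) : fl (el ℓ * k) = some ℓ := by
  rw [fl, toWord_el_mul h]
  rfl

private theorem B1_at (k : F2) : lam.symm (el (0, true) * k) = el (0, true) * lam.symm k := by
  rw [map_mul, el_true, lam_symm_of0]

private theorem B1_af (k : F2) : lam.symm (el (0, false) * k) = el (0, false) * lam.symm k := by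
  rw [map_mul, el_false, map_inv, lam_symm_of0]

private theorem B1_bt (k : F2) :
    lam.symm (el (1, true) * k) = el (0, false) * (el (1, true) * lam.symm k) := by
  rw [map_mul, el_true, el_false, lam_symm_of1, mul_assoc]

private theorem B1_bf (k : F2) :
    lam.symm (el (1, false) * k) = el (1, false) * (el (0, true) * lam.symm k) := by
  rw [map_mul, el_false, map_inv, lam_symm_of1, mul_inv_rev, inv_inv, el_true, mul_assoc]

private theorem B1_cancel (k : F2) : el (0, true) * (el (0, false) * k) = k := by
  rw [el_true, el_false, mul_inv_cancel_left]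

private theorem B1_cases (h : Option Lt) : h = none ∨ h = some (0, true) ∨ h = some (1, true) ∨
    h = some (0, false) ∨ h = some (1, false) := by
  revert h
  decide

/-- the relation between the first letters -/
private def B1_good (h f : Option Lt) : Prop :=
  (h = none → f = none) ∧ (h = some (0, true) → f = some (0, true) ∨ f = some (1, true)) ∧
    (h = some (1, true) → f = some (0, false)) ∧ (h = some (0, false) → f = some (0, false)) ∧
      (h = some (1, false) → f = some (1, false))

/-- `f` begins with `a⁻¹` only if `h` does or `h` begins with `b` -/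
private theorem B1_g1 {h f : Option Lt} (hg : B1_good h f) (hf : f = some (0, false)) :
    h = some (1, true) ∨ h = some (0, false) := by
  obtain ⟨h1, h2, h3, h4, h5⟩ := hg
  rcases B1_cases h with h0 | h0 | h0 | h0 | h0
  · rw [h1 h0] at hf; exact absurd hf (by decide)
  · rcases h2 h0 with h6 | h6
    · rw [h6] at hf; exact absurd hf (by decide)
    · rw [h6] at hf; exact absurd hf (by decide)
  · exact Or.inl h0
  · exact Or.inr h0
  · rw [h5 h0] at hf; exact absurd hf (by decide)

private theorem B1_g2 {h f : Option Lt} (hg : B1_good h f) (hf : f = some (1, false)) :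
    h = some (1, false) := by
  obtain ⟨h1, h2, h3, h4, h5⟩ := hg
  rcases B1_cases h with h0 | h0 | h0 | h0 | h0
  · rw [h1 h0] at hf; exact absurd hf (by decide)
  · rcases h2 h0 with h6 | h6
    · rw [h6] at hf; exact absurd hf (by decide)
    · rw [h6] at hf; exact absurd hf (by decide)
  · rw [h3 h0] at hf; exact absurd hf (by decide)
  · rw [h4 h0] at hf; exact absurd hf (by decide)
  · exact h0

private theorem B1_g3 {h f : Option Lt} (hg : B1_good h f)
    (hf : f = some (0, true) ∨ f = some (1, true)) : h = some (0, true) := by
  obtain ⟨h1, h2, h3, h4, h5⟩ := hg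
  rcases B1_cases h with h0 | h0 | h0 | h0 | h0
  · rw [h1 h0] at hf; exact absurd hf (by decide)
  · exact h0
  · rw [h3 h0] at hf; exact absurd hf (by decide)
  · rw [h4 h0] at hf; exact absurd hf (by decide)
  · rw [h5 h0] at hf; exact absurd hf (by decide)

private theorem B1_key (n : ℕ) : ∀ r : List Lt, r.length ≤ n → FreeGroup.IsReduced r →
    B1_good r.head? (fl (lam.symm (FreeGroup.mk r))) := by
  induction n with
  | zero =>
    intro r hr _
    have h1 : r = [] := List.length_eq_zero_iff.1 (by omega)
    subst h1
    have h2 : lam.symm (FreeGroup.mk ([] : List Lt)) = 1 := by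
      rw [← FreeGroup.one_eq_mk, map_one]
    rw [h2, fl_one]
    refine ⟨fun _ => rfl, ?_, ?_, ?_, ?_⟩ <;> intro h <;> exact absurd h (by decide)
  | succ n ih =>
    intro r hr hred
    cases r with
    | nil =>
      have h2 : lam.symm (FreeGroup.mk ([] : List Lt)) = 1 := by
        rw [← FreeGroup.one_eq_mk, map_one]
      rw [h2, fl_one]
      refine ⟨fun _ => rfl, ?_, ?_, ?_, ?_⟩ <;> intro h <;> exact absurd h (by decide)
    | cons ℓ r =>
      rw [red_cons] at hred
      obtain ⟨hh, hr'⟩ := hred
      have hlen : r.length ≤ n := by
        rw [List.length_cons] at hr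
        omega
      have hg := ih r hlen hr'
      -- the tail of `r`
      have htail : ∀ c : Lt, r.head? = some c → ∃ r'', r = c :: r'' ∧
          B1_good r''.head? (fl (lam.symm (FreeGroup.mk r''))) ∧ r''.head? ≠ some (il c) := by
        intro c hc
        cases r with
        | nil => exact absurd hc (by simp)
        | cons d r'' =>
          rw [List.head?_cons, Option.some.injEq] at hc
          subst hc
          rw [red_cons] at hr'
          refine ⟨r'', rfl, ih r'' ?_ hr'.2, hr'.1⟩
          rw [List.length_cons] at hlen
          omega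
      rw [mk_cons, List.head?_cons]
      obtain ⟨i, x⟩ := ℓ
      have hcase : ∀ (i : Fin 2) (x : Bool), (i, x) = ((0 : Fin 2), true) ∨
          (i, x) = ((1 : Fin 2), true) ∨ (i, x) = ((0 : Fin 2), false) ∨
          (i, x) = ((1 : Fin 2), false) := by
        decide
      rcases hcase i x with h0 | h0 | h0 | h0 <;> rw [h0] at hh ⊢
      · -- `a`
        rw [B1_at]
        refine ⟨fun h => absurd h (by decide), fun _ => ?_, fun h => absurd h (by decide),
          fun h => absurd h (by decide), fun h => absurd h (by decide)⟩
        by_cases h1 : fl (lam.symm (FreeGroup.mk r)) = some (0, false)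
        · right
          rcases B1_g1 hg h1 with h2 | h2
          · obtain ⟨r'', h3, h4, h5⟩ := htail _ h2
            rw [h3, mk_cons, B1_bt, B1_cancel]
            refine B1_fl_mul fun h6 => h5 ?_
            exact B1_g2 h4 h6
          · exact absurd h2 hh
        · left
          exact B1_fl_mul h1
      · -- `b`
        rw [B1_bt]
        refine ⟨fun h => absurd h (by decide), fun h => absurd h (by decide), fun _ => ?_,
          fun h => absurd h (by decide), fun h => absurd h (by decide)⟩
        refine B1_fl_mul ?_
        rw [B1_fl_mul fun h1 => hh (B1_g2 hg h1)]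
        decide
      · -- `a⁻¹`
        rw [B1_af]
        refine ⟨fun h => absurd h (by decide), fun h => absurd h (by decide),
          fun h => absurd h (by decide), fun _ => ?_, fun h => absurd h (by decide)⟩
        exact B1_fl_mul fun h1 => hh (B1_g3 hg (Or.inl h1))
      · -- `b⁻¹`
        rw [B1_bf]
        refine ⟨fun h => absurd h (by decide), fun h => absurd h (by decide),
          fun h => absurd h (by decide), fun h => absurd h (by decide), fun _ => ?_⟩
        refine B1_fl_mul ?_
        by_cases h1 : fl (lam.symm (FreeGroup.mk r)) = some (0, false)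
        · rcases B1_g1 hg h1 with h2 | h2
          · exact absurd h2 hh
          · obtain ⟨r'', h3, h4, h5⟩ := htail _ h2
            rw [h3, mk_cons, B1_af, B1_cancel]
            intro h6
            exact h5 (B1_g3 h4 (Or.inr h6))
        · rw [B1_fl_mul h1]
          decide

private theorem B1_good_fl (m : F2) : B1_good (fl m) (fl (lam.symm m)) := by
  have h1 := B1_key m.toWord.length m.toWord le_rfl FreeGroup.isReduced_toWord
  rw [FreeGroup.mk_toWord] at h1
  exact h1

theorem lam_B (m : F2) : fl (lam.symm m) = some (1, false) ↔ fl m = some (1, false) :=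
  ⟨fun h => B1_g2 (B1_good_fl m) h, fun h => (B1_good_fl m).2.2.2.2 h⟩

theorem lam_A (m : F2) : fl (lam.symm m) = some (0, false) ↔
    fl m = some (1, true) ∨ fl m = some (0, false) := by
  constructor
  · exact fun h => B1_g1 (B1_good_fl m) h
  · rintro (h | h)
    · exact (B1_good_fl m).2.2.1 h
    · exact (B1_good_fl m).2.2.2.1 h

end OK71
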