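import Pool.Agent.LibOK71.B1

/-!
[OK71 B1r] (SHORT/MEDIUM) the same for `rho`.
`rho.symm m = sw (lam.symm (sw m))` (check on generators: `FreeGroup.ext_hom`/`MulEquiv`, or `rho = sw * lam * sw` in `MulAut F2`), and `fl (sw m) = (fl m).map fun ℓ => (1 - ℓ.1, ℓ.2)` (or with `Fin.rev`, `Equiv.swap`): the word of `sw m` is the word of `m` with the
letters exchanged (`FreeGroup.map` of an injective map keeps reduced words; or induction). Then lam_B, lam_A. Or repeat the proof of B1 with the letters exchanged.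
-/

set_option autoImplicit false

namespace OK71

private def B1r_s (ℓ : Lt) : Lt := (1 - ℓ.1, ℓ.2)

private theorem B1r_s_s (ℓ : Lt) : B1r_s (B1r_s ℓ) = ℓ := by
  obtain ⟨i, x⟩ := ℓ
  have h : (1 : Fin 2) - (1 - i) = i := by omega
  unfold B1r_s
  simp only [h]

private theorem B1r_map (o : Option Lt) (ℓ : Lt) : o.map B1r_s = some ℓ ↔ o = some (B1r_s ℓ) := by
  cases o with
  | none => simp
  | some a =>
    rw [Option.map_some, Option.some.injEq, Option.some.injEq]
    constructor
    · intro h
      rw [← h, B1r_s_s]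
    · intro h
      rw [h, B1r_s_s]

private theorem B1r_el (ℓ : Lt) : sw (el ℓ) = el (B1r_s ℓ) := by
  obtain ⟨i, x⟩ := ℓ
  have h0 : sw (FreeGroup.of 0) = FreeGroup.of 1 := by
    simp [sw]
  have h1 : sw (FreeGroup.of 1) = FreeGroup.of 0 := by
    simp [sw]
  have e0 : ∀ y, B1r_s ((0 : Fin 2), y) = (1, y) := fun _ => rfl
  have e1 : ∀ y, B1r_s ((1 : Fin 2), y) = (0, y) := fun _ => rfl
  cases x with
  | true =>
    rw [el_true]
    rcases (show i = 0 ∨ i = 1 by omega) with rfl | rfl
    · rw [e0, el_true]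
      exact h0
    · rw [e1, el_true]
      exact h1
  | false =>
    rw [el_false, map_inv]
    rcases (show i = 0 ∨ i = 1 by omega) with rfl | rfl
    · rw [e0, el_false, h0]
    · rw [e1, el_false, h1]

private theorem B1r_mk (r : List Lt) : sw (FreeGroup.mk r) = FreeGroup.mk (r.map B1r_s) := by
  induction r with
  | nil =>
    rw [List.map_nil]
    exact map_one sw
  | cons ℓ r ih =>
    rw [List.map_cons, mk_cons, mk_cons, map_mul, ih, B1r_el]

private theorem B1r_fl (m : F2) : fl (sw m) = (fl m).map B1r_s := by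
  have h1 : FreeGroup.IsReduced (m.toWord.map B1r_s) := by
    unfold FreeGroup.IsReduced
    rw [List.isChain_map]
    refine List.IsChain.imp ?_ (FreeGroup.isReduced_toWord (x := m))
    intro a b hab h
    have h2 : a.1 = b.1 := by
      have h3 : (1 : Fin 2) - a.1 = 1 - b.1 := h
      omega
    exact hab h2
  have h2 : sw m = FreeGroup.mk (m.toWord.map B1r_s) := by
    rw [← B1r_mk, FreeGroup.mk_toWord]
  rw [h2, fl_mk h1, List.head?_map]
  rfl

private theorem B1r_rho (m : F2) : rho.symm m = sw (lam.symm (sw m)) := by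
  have h : (rho.symm.toMonoidHom : F2 →* F2) =
      sw.toMonoidHom.comp (lam.symm.toMonoidHom.comp sw.toMonoidHom) := by
    ext i
    fin_cases i <;> simp [rho, lam, sw]
  exact DFunLike.congr_fun h m

theorem rho_A (m : F2) : fl (rho.symm m) = some (0, false) ↔ fl m = some (0, false) := by
  rw [B1r_rho, B1r_fl, B1r_map]
  have e0 : B1r_s ((0 : Fin 2), false) = (1, false) := rfl
  have e1 : B1r_s ((1 : Fin 2), false) = (0, false) := rfl
  rw [e0, lam_B, B1r_fl, B1r_map, e1]

theorem rho_B (m : F2) : fl (rho.symm m) = some (1, false) ↔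
    fl m = some (0, true) ∨ fl m = some (1, false) := by
  rw [B1r_rho, B1r_fl, B1r_map]
  have e0 : B1r_s ((0 : Fin 2), false) = (1, false) := rfl
  have e1 : B1r_s ((1 : Fin 2), false) = (0, false) := rfl
  have e2 : B1r_s ((1 : Fin 2), true) = (0, true) := rfl
  rw [e1, lam_A, B1r_fl, B1r_map, B1r_map, e0, e2]

end OK71
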