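import Pool.Agent.LibOK71.A1

/-!
[OK71 B2] (MEDIUM) every `k ≠ 1` leaves a coloured path at exactly one place.
Write `T v ℓ := dr v k = some ℓ`. (i) If `dr v k` is `a⁻¹` or `b⁻¹` then `¬ fg T W v κ` for all `κ` and `dr (v * pv (un W)) k` is not `a`, not `b`: induction on `W`, for `W = (c, l, r) :: W'`: `dr v k ≠ some (c, true)`, so
`dr (v * of c) k = some (c, false)` (`dr_step` with `el (c, true) = of c`); the four alternatives of `fg` fail, and (i) applies at `v * of c` (`mul_assoc`).
(ii) If `dr v k` is `a` or `b` then there is exactly one `κ` with `fg T W v κ ∨ (ε.1 = κ ∧ T (v w) b) ∨ (ε.2 = κ ∧ T (v w) a)`: induction on `W`. Empty: clear. `W = (c, l, r) :: W'`, `c = 0`: if `dr v k = b` only the first alternative of `fg` holds, colour `l`, and (i) at `v a`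
(`dr = a⁻¹`) excludes everything else; if `dr v k = a` then `dr (v a) k ≠ a⁻¹`: it is `b⁻¹` (colour `r`, (i) at `v a`) or `a`, `b` (induction hypothesis). `c = 1` the same.
part: `dr v k` is one of the four letters (`dr_none`): `a⁻¹`, `b⁻¹`: (i), colour `σ.1`, `σ.2`; `a`, `b`: (ii).
-/

set_option autoImplicit false

namespace OK71

private def B2_T (k : F2) : F2 → Lt → Prop := fun v ℓ => dr v k = some ℓ

private def B2_F (k : F2) (W : CW) (ε : Bool × Bool) (v : F2) (κ : Bool) : Prop :=
  fg (B2_T k) W v κ ∨ (ε.1 = κ ∧ dr (v * pv (un W)) k = some (1, true)) ∨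
    (ε.2 = κ ∧ dr (v * pv (un W)) k = some (0, true))

private theorem B2_pv (c : Fin 2) (l r : Bool) (W : CW) (v : F2) :
    v * pv (un ((c, l, r) :: W)) = v * FreeGroup.of c * pv (un W) := by
  simp only [pv, un, List.map_cons, List.prod_cons, mul_assoc]

private theorem B2_cons (k : F2) (c : Fin 2) (l r : Bool) (W : CW) (ε : Bool × Bool) (v : F2) (κ : Bool) :
    B2_F k ((c, l, r) :: W) ε v κ ↔
      (c = 0 ∧ l = κ ∧ dr v k = some (1, true)) ∨
      (c = 0 ∧ r = κ ∧ dr (v * FreeGroup.of 0) k = some (1, false)) ∨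
      (c = 1 ∧ r = κ ∧ dr v k = some (0, true)) ∨
      (c = 1 ∧ l = κ ∧ dr (v * FreeGroup.of 1) k = some (0, false)) ∨
      B2_F k W ε (v * FreeGroup.of c) κ := by
  unfold B2_F
  rw [B2_pv]
  show (((c = 0 ∧ l = κ ∧ dr v k = some (1, true)) ∨
      (c = 0 ∧ r = κ ∧ dr (v * FreeGroup.of 0) k = some (1, false)) ∨
      (c = 1 ∧ r = κ ∧ dr v k = some (0, true)) ∨
      (c = 1 ∧ l = κ ∧ dr (v * FreeGroup.of 1) k = some (0, false)) ∨
      fg (B2_T k) W (v * FreeGroup.of c) κ) ∨ _) ↔ _
  simp only [or_assoc]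

private theorem B2_step {k : F2} (hk : k ≠ 1) (v : F2) (c : Fin 2) :
    dr (v * FreeGroup.of c) k = some (c, false) ↔ dr v k ≠ some (c, true) :=
  dr_step hk v (c, true)

private theorem B2_neg {k : F2} (hk : k ≠ 1) (ε : Bool × Bool) :
    ∀ (W : CW) (v : F2) (i : Fin 2), dr v k = some (i, false) → ∀ κ, ¬ B2_F k W ε v κ := by
  intro W
  induction W with
  | nil =>
    rintro v i hv κ (h | ⟨_, h⟩ | ⟨_, h⟩)
    · exact h
    · have h1 : v * pv (un []) = v := by simp [pv, un]
      rw [h1, hv] at h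
      simp at h
    · have h1 : v * pv (un []) = v := by simp [pv, un]
      rw [h1, hv] at h
      simp at h
  | cons x W ih =>
    obtain ⟨c, l, r⟩ := x
    intro v i hv κ
    have hs : dr (v * FreeGroup.of c) k = some (c, false) := by
      rw [B2_step hk, hv]
      simp
    rw [B2_cons]
    rintro (⟨_, _, h⟩ | ⟨hc, _, h⟩ | ⟨_, _, h⟩ | ⟨hc, _, h⟩ | h)
    · rw [hv] at h
      simp at h
    · subst hc
      rw [hs] at h
      simp at h
    · rw [hv] at h
      simp at h
    · subst hc
      rw [hs] at h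
      simp at h
    · exact ih _ c hs κ h

private theorem B2_letters (o : Option Lt) (h : o ≠ none) :
    o = some (0, true) ∨ o = some (1, true) ∨ o = some (0, false) ∨ o = some (1, false) := by
  cases o with
  | none => exact absurd rfl h
  | some ℓ =>
    obtain ⟨i, b⟩ := ℓ
    fin_cases i <;> cases b <;> simp

private theorem B2_some {k : F2} (hk : k ≠ 1) (v : F2) : dr v k ≠ none := fun h => hk (dr_none.1 h)

private theorem B2_pos {k : F2} (hk : k ≠ 1) (ε : Bool × Bool) :
    ∀ (W : CW) (v : F2) (i : Fin 2), dr v k = some (i, true) → ∃! κ, B2_F k W ε v κ := by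
  intro W
  induction W with
  | nil =>
    intro v i hv
    have h1 : v * pv (un []) = v := by simp [pv, un]
    have h2 : ∀ κ, B2_F k [] ε v κ ↔ (ε.1 = κ ∧ dr v k = some (1, true)) ∨ (ε.2 = κ ∧ dr v k = some (0, true)) := by
      intro κ
      unfold B2_F
      rw [h1]
      show (False ∨ _) ↔ _
      rw [false_or]
    fin_cases i
    · refine ⟨ε.2, (h2 _).2 (Or.inr ⟨rfl, hv⟩), fun κ hκ => ?_⟩
      rcases (h2 κ).1 hκ with ⟨_, h⟩ | ⟨h, _⟩
      · rw [hv] at h
        simp at h
      · exact h.symm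
    · refine ⟨ε.1, (h2 _).2 (Or.inl ⟨rfl, hv⟩), fun κ hκ => ?_⟩
      rcases (h2 κ).1 hκ with ⟨h, _⟩ | ⟨_, h⟩
      · exact h.symm
      · rw [hv] at h
        simp at h
  | cons x W ih =>
    obtain ⟨c, l, r⟩ := x
    intro v i hv
    have hc : c = 0 ∨ c = 1 := by
      fin_cases c <;> simp
    rcases hc with rfl | rfl
    · have hcons : ∀ κ, B2_F k ((0, l, r) :: W) ε v κ ↔
          (l = κ ∧ dr v k = some (1, true)) ∨ (r = κ ∧ dr (v * FreeGroup.of 0) k = some (1, false)) ∨
            B2_F k W ε (v * FreeGroup.of 0) κ := by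
        intro κ
        rw [B2_cons]
        simp
      have hi : i = 0 ∨ i = 1 := by
        fin_cases i <;> simp
      rcases hi with rfl | rfl
      · have hn : dr (v * FreeGroup.of 0) k ≠ some (0, false) := by
          rw [Ne, B2_step hk, hv]
          simp
        have hb : ∀ κ, ¬ (l = κ ∧ dr v k = some (1, true)) := by
          rintro κ ⟨_, h⟩
          rw [hv] at h
          simp at h
        rcases B2_letters _ (B2_some hk (v * FreeGroup.of 0)) with h | h | h | h
        · obtain ⟨κ, h1, h2⟩ := ih _ 0 h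
          refine ⟨κ, (hcons κ).2 (Or.inr (Or.inr h1)), fun κ' h3 => ?_⟩
          rcases (hcons κ').1 h3 with h4 | ⟨_, h4⟩ | h4
          · exact absurd h4 (hb κ')
          · rw [h] at h4
            simp at h4
          · exact h2 κ' h4
        · obtain ⟨κ, h1, h2⟩ := ih _ 1 h
          refine ⟨κ, (hcons κ).2 (Or.inr (Or.inr h1)), fun κ' h3 => ?_⟩
          rcases (hcons κ').1 h3 with h4 | ⟨_, h4⟩ | h4
          · exact absurd h4 (hb κ')
          · rw [h] at h4
            simp at h4
          · exact h2 κ' h4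
        · exact absurd h hn
        · refine ⟨r, (hcons r).2 (Or.inr (Or.inl ⟨rfl, h⟩)), fun κ' h3 => ?_⟩
          rcases (hcons κ').1 h3 with h4 | ⟨h4, _⟩ | h4
          · exact absurd h4 (hb κ')
          · exact h4.symm
          · exact absurd h4 (B2_neg hk ε W _ 1 h κ')
      · have hs : dr (v * FreeGroup.of 0) k = some (0, false) := by
          rw [B2_step hk, hv]
          simp
        refine ⟨l, (hcons l).2 (Or.inl ⟨rfl, hv⟩), fun κ' h3 => ?_⟩
        rcases (hcons κ').1 h3 with ⟨h4, _⟩ | ⟨_, h4⟩ | h4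
        · exact h4.symm
        · rw [hs] at h4
          simp at h4
        · exact absurd h4 (B2_neg hk ε W _ 0 hs κ')
    · have hcons : ∀ κ, B2_F k ((1, l, r) :: W) ε v κ ↔
          (r = κ ∧ dr v k = some (0, true)) ∨ (l = κ ∧ dr (v * FreeGroup.of 1) k = some (0, false)) ∨
            B2_F k W ε (v * FreeGroup.of 1) κ := by
        intro κ
        rw [B2_cons]
        simp
      have hi : i = 0 ∨ i = 1 := by
        fin_cases i <;> simp
      rcases hi with rfl | rfl
      · have hs : dr (v * FreeGroup.of 1) k = some (1, false) := by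
          rw [B2_step hk, hv]
          simp
        refine ⟨r, (hcons r).2 (Or.inl ⟨rfl, hv⟩), fun κ' h3 => ?_⟩
        rcases (hcons κ').1 h3 with ⟨h4, _⟩ | ⟨_, h4⟩ | h4
        · exact h4.symm
        · rw [hs] at h4
          simp at h4
        · exact absurd h4 (B2_neg hk ε W _ 1 hs κ')
      · have hn : dr (v * FreeGroup.of 1) k ≠ some (1, false) := by
          rw [Ne, B2_step hk, hv]
          simp
        have hb : ∀ κ, ¬ (r = κ ∧ dr v k = some (0, true)) := by
          rintro κ ⟨_, h⟩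
          rw [hv] at h
          simp at h
        rcases B2_letters _ (B2_some hk (v * FreeGroup.of 1)) with h | h | h | h
        · obtain ⟨κ, h1, h2⟩ := ih _ 0 h
          refine ⟨κ, (hcons κ).2 (Or.inr (Or.inr h1)), fun κ' h3 => ?_⟩
          rcases (hcons κ').1 h3 with h4 | ⟨_, h4⟩ | h4
          · exact absurd h4 (hb κ')
          · rw [h] at h4
            simp at h4
          · exact h2 κ' h4
        · obtain ⟨κ, h1, h2⟩ := ih _ 1 h
          refine ⟨κ, (hcons κ).2 (Or.inr (Or.inr h1)), fun κ' h3 => ?_⟩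
          rcases (hcons κ').1 h3 with h4 | ⟨_, h4⟩ | h4
          · exact absurd h4 (hb κ')
          · rw [h] at h4
            simp at h4
          · exact h2 κ' h4
        · refine ⟨l, (hcons l).2 (Or.inr (Or.inl ⟨rfl, h⟩)), fun κ' h3 => ?_⟩
          rcases (hcons κ').1 h3 with h4 | ⟨h4, _⟩ | h4
          · exact absurd h4 (hb κ')
          · exact h4.symm
          · exact absurd h4 (B2_neg hk ε W _ 0 h κ')
        · exact absurd h hn

theorem part {k : F2} (hk : k ≠ 1) (W : CW) (σ ε : Bool × Bool) (v : F2) :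
    ∃! κ, cr (fun v ℓ => dr v k = some ℓ) W σ ε v κ := by
  have hcr : ∀ κ, cr (fun v ℓ => dr v k = some ℓ) W σ ε v κ ↔
      (σ.1 = κ ∧ dr v k = some (0, false)) ∨ (σ.2 = κ ∧ dr v k = some (1, false)) ∨ B2_F k W ε v κ :=
    fun κ => Iff.rfl
  have hpos : ∀ i, dr v k = some (i, true) → ∃! κ, cr (fun v ℓ => dr v k = some ℓ) W σ ε v κ := by
    intro i h
    obtain ⟨κ, h1, h2⟩ := B2_pos hk ε W v i h
    refine ⟨κ, (hcr κ).2 (Or.inr (Or.inr h1)), fun κ' h3 => ?_⟩
    rcases (hcr κ').1 h3 with ⟨_, h4⟩ | ⟨_, h4⟩ | h4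
    · rw [h] at h4
      simp at h4
    · rw [h] at h4
      simp at h4
    · exact h2 κ' h4
  rcases B2_letters _ (B2_some hk v) with h | h | h | h
  · exact hpos 0 h
  · exact hpos 1 h
  · refine ⟨σ.1, (hcr _).2 (Or.inl ⟨rfl, h⟩), fun κ' h3 => ?_⟩
    rcases (hcr κ').1 h3 with ⟨h4, _⟩ | ⟨_, h4⟩ | h4
    · exact h4.symm
    · rw [h] at h4
      simp at h4
    · exact absurd h4 (B2_neg hk ε W v 0 h κ')
  · refine ⟨σ.2, (hcr _).2 (Or.inr (Or.inl ⟨rfl, h⟩)), fun κ' h3 => ?_⟩
    rcases (hcr κ').1 h3 with ⟨_, h4⟩ | ⟨h4, _⟩ | h4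
    · rw [h] at h4
      simp at h4
    · exact h4.symm
    · exact absurd h4 (B2_neg hk ε W v 1 h κ')

end OK71
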