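import Pool.Agent.LibOK71.A1

/-!
[OK71 B3] (SHORT/MEDIUM) formal properties of `fg` and `cr`.
All by induction on the list (or unfolding for `cr`). fg_append: `un`, `pv` of a cons, `mul_assoc`. fg_congr: `fg` uses `T` only at vertices `v * _`. fg_left: `fg` of the translated predicate. fg_atom, cr_atom: a true disjunction has a true
alternative, `T'` may be replaced. fg_ex, cr_ex: `∃` commutes with `∨` and with `const ∧`. fg_co: induction on `u`. cr_mono from cr_atom or directly.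
-/

set_option autoImplicit false

namespace OK71

theorem pv_append (u v : List (Fin 2)) : pv (u ++ v) = pv u * pv v := by
  simp [pv]

theorem pv_cons (c : Fin 2) (v : List (Fin 2)) : pv (c :: v) = FreeGroup.of c * pv v := by
  simp [pv]

theorem pv_nil : pv [] = 1 := rfl

theorem un_append (U V : CW) : un (U ++ V) = un U ++ un V := by
  simp [un]

theorem un_co (u : List (Fin 2)) (l r : Bool) : un (co u l r) = u := by
  simp [un, co, Function.comp_def]

theorem co_append (u v : List (Fin 2)) (l r : Bool) : co (u ++ v) l r = co u l r ++ co v l r := by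
  simp [co]

theorem fg_append (T : F2 → Lt → Prop) (U V : CW) (v : F2) (κ : Bool) :
    fg T (U ++ V) v κ ↔ fg T U v κ ∨ fg T V (v * pv (un U)) κ := by
  induction U generalizing v with
  | nil =>
    have h : v * pv (un ([] : CW)) = v := by
      rw [show un ([] : CW) = [] from rfl, pv_nil, mul_one]
    rw [h, List.nil_append]
    simp [fg]
  | cons x U ih =>
    obtain ⟨c, l, r⟩ := x
    have h : v * pv (un ((c, l, r) :: U)) = v * FreeGroup.of c * pv (un U) := by
      rw [show un ((c, l, r) :: U) = c :: un U from rfl, pv_cons, mul_assoc]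
    rw [h, List.cons_append]
    simp only [fg]
    rw [ih]
    simp only [or_assoc]

/-- translation -/
theorem fg_left (T : F2 → Lt → Prop) (g : F2) (W : CW) (v : F2) (κ : Bool) :
    fg T W (g * v) κ ↔ fg (fun v ℓ => T (g * v) ℓ) W v κ := by
  induction W generalizing v with
  | nil => exact Iff.rfl
  | cons x W ih =>
    obtain ⟨c, l, r⟩ := x
    simp only [fg]
    rw [mul_assoc, mul_assoc, mul_assoc, ih]

theorem fg_congr {T T' : F2 → Lt → Prop} (h : ∀ v ℓ, T v ℓ ↔ T' v ℓ) (W : CW) (v : F2)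
    (κ : Bool) : fg T W v κ ↔ fg T' W v κ := by
  have : T = T' := by
    funext v ℓ
    exact propext (h v ℓ)
  rw [this]

theorem cr_left (T : F2 → Lt → Prop) (g : F2) (W : CW) (σ ε : Bool × Bool) (v : F2) (κ : Bool) :
    cr T W σ ε (g * v) κ ↔ cr (fun v ℓ => T (g * v) ℓ) W σ ε v κ := by
  simp only [cr]
  rw [fg_left, mul_assoc]

theorem cr_congr {T T' : F2 → Lt → Prop} (h : ∀ v ℓ, T v ℓ ↔ T' v ℓ) (W : CW)
    (σ ε : Bool × Bool) (v : F2) (κ : Bool) : cr T W σ ε v κ ↔ cr T' W σ ε v κ := by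
  have : T = T' := by
    funext v ℓ
    exact propext (h v ℓ)
  rw [this]

private theorem B3_fg_atom {T : F2 → Lt → Prop} {W : CW} {v : F2} {κ : Bool}
    (h : fg T W v κ) : ∃ q ℓ, T q ℓ ∧ ∀ T' : F2 → Lt → Prop, T' q ℓ → fg T' W v κ := by
  induction W generalizing v with
  | nil => exact h.elim
  | cons x W ih =>
    obtain ⟨c, l, r⟩ := x
    simp only [fg] at h
    rcases h with h | h | h | h | h
    · exact ⟨_, _, h.2.2, fun T' h' => Or.inl ⟨h.1, h.2.1, h'⟩⟩
    · exact ⟨_, _, h.2.2, fun T' h' => Or.inr (Or.inl ⟨h.1, h.2.1, h'⟩)⟩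
    · exact ⟨_, _, h.2.2, fun T' h' => Or.inr (Or.inr (Or.inl ⟨h.1, h.2.1, h'⟩))⟩
    · exact ⟨_, _, h.2.2, fun T' h' => Or.inr (Or.inr (Or.inr (Or.inl ⟨h.1, h.2.1, h'⟩)))⟩
    · obtain ⟨q, ℓ, h1, h2⟩ := ih h
      exact ⟨q, ℓ, h1, fun T' h' => Or.inr (Or.inr (Or.inr (Or.inr (h2 T' h'))))⟩

theorem cr_atom {T : F2 → Lt → Prop} {W : CW} {σ ε : Bool × Bool} {v : F2} {κ : Bool}
    (h : cr T W σ ε v κ) : ∃ q ℓ, T q ℓ ∧ ∀ T' : F2 → Lt → Prop, T' q ℓ → cr T' W σ ε v κ := by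
  rcases h with h | h | h | h | h
  · exact ⟨_, _, h.2, fun T' h' => Or.inl ⟨h.1, h'⟩⟩
  · exact ⟨_, _, h.2, fun T' h' => Or.inr (Or.inl ⟨h.1, h'⟩)⟩
  · obtain ⟨q, ℓ, h1, h2⟩ := B3_fg_atom h
    exact ⟨q, ℓ, h1, fun T' h' => Or.inr (Or.inr (Or.inl (h2 T' h')))⟩
  · exact ⟨_, _, h.2, fun T' h' => Or.inr (Or.inr (Or.inr (Or.inl ⟨h.1, h'⟩)))⟩
  · exact ⟨_, _, h.2, fun T' h' => Or.inr (Or.inr (Or.inr (Or.inr ⟨h.1, h'⟩)))⟩

theorem cr_ex (G : Subgroup F2) (W : CW) (σ ε : Bool × Bool) (v : F2) (κ : Bool) :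
    cr (M G) W σ ε v κ ↔ ∃ k ∈ G, cr (fun v ℓ => dr v k = some ℓ) W σ ε v κ := by
  constructor
  · intro h
    obtain ⟨q, ℓ, ⟨k, hk, hd⟩, h2⟩ := cr_atom h
    exact ⟨k, hk, h2 _ hd⟩
  · rintro ⟨k, hk, h⟩
    obtain ⟨q, ℓ, hd, h2⟩ := cr_atom h
    exact h2 _ ⟨k, hk, hd⟩

theorem fg_co (T : F2 → Lt → Prop) (u : List (Fin 2)) (l r : Bool) (v : F2) (κ : Bool) :
    fg T (co u l r) v κ ↔ (l = κ ∧ fg T (co u true false) v true) ∨
      (r = κ ∧ fg T (co u true false) v false) := by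
  induction u generalizing v with
  | nil => simp [co, fg]
  | cons c u ih =>
    have e : ∀ l r : Bool, co (c :: u) l r = (c, l, r) :: co u l r := fun _ _ => rfl
    rw [e l r, e true false]
    simp only [fg]
    rw [ih]
    simp only [true_and, false_and, Bool.false_eq_true, Bool.true_eq_false, and_false, false_or]
    tauto

end OK71
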