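import Pool.Agent.LibOK71.B2
import Pool.Agent.LibOK71.B3

/-!
[OK71 B4] (SHORT/MEDIUM) `M` and `E` give the same crossings.
`Cr → M`: `E G v ℓ → M G v ℓ` (`cr_atom` with `T' = M G`). Conversely let both colours occur for `M G`, `κ` a colour: `cr_atom` for `M G`, `κ`: a direction `(q, ℓ)` with `M G q ℓ`; it is enough that `Co G q`. If not, every `k ∈ G`, `k ≠ 1`, has `dr q k = some ℓ`
(`Co_of`). By `cr_ex` for `!κ` there is `k ∈ G` with `cr (dr · k = ·) … (!κ)`; `k ≠ 1` (`cr_atom`, `dr_none`), and `cr (dr · k = ·) … κ` by the second part of `cr_atom` (`T' = (dr · k = ·)`), against uniqueness in `part`.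
-/

set_option autoImplicit false

namespace OK71

theorem cr_M (G : Subgroup F2) (W : CW) (σ ε : Bool × Bool) (v : F2) :
    (∀ κ, cr (M G) W σ ε v κ) ↔ Cr G W σ ε v := by
  constructor
  · intro h κ
    obtain ⟨q, ℓ, hM, F⟩ := cr_atom (h κ)
    refine F (E G) ⟨hM, ?_⟩
    by_contra hCo
    obtain ⟨k, hk, hc⟩ := (cr_ex G W σ ε v (!κ)).1 (h (!κ))
    have hk1 : k ≠ 1 := by
      rintro rfl
      obtain ⟨q', ℓ', hd, -⟩ := cr_atom hc
      rw [dr_none.2 rfl] at hd
      simp at hd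
    have hd : dr q k = some ℓ := by
      by_contra hne
      exact hCo (Co_of hM hk hk1 hne)
    have hc' : cr (fun v ℓ => dr v k = some ℓ) W σ ε v κ :=
      F (fun v ℓ => dr v k = some ℓ) hd
    have hu := (part hk1 W σ ε v).unique hc hc'
    cases κ <;> simp at hu
  · intro h κ
    obtain ⟨q, ℓ, hE, F⟩ := cr_atom (h κ)
    exact F (M G) hE.1

end OK71
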