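import Pool.Agent.LibOK71.B1
import Pool.Agent.LibOK71.B1r
import Pool.Agent.LibOK71.B2
import Pool.Agent.LibOK71.B3

/-!
[OK71 B5] (MEDIUM) the half spaces of the bases `ph m`.
word identities wd_a, wd_b: induction on `m`. ph_of0, ph_of1: induction (`ph (false :: m) = ph m * lam`, `MulAut.mul_apply`, `lam_of1`). arcs: induction on `m` (`k` general), `T := fun v ℓ => dr v k = some ℓ`.
`m = []`: `ph [] = 1`; (R) `fl k = B ↔ fl k = B ∨ False`; (D): `cr` of the empty word at `1`: `dr_one`.
`false :: m`, write `x = ph m a = pv X0 * a`, `y = ph m b`, `(X0, Y0, w) = wd m`; `(ph (false :: m)).symm k = lam.symm ((ph m).symm k)`.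
(R): `lam_B`, and `X0` does not change. (L): `lam_A`: `fl ((ph m).symm k) ∈ {b, A}`; this is the complement of `{a, B}` (for `k ≠ 1` the first letter exists and is one of four), so by (D) and `part` it is `cr T (co w) tf tf 1 true`, i.e.
`dr 1 k = A ∨ fg T (co w) 1 true ∨ dr w k = b`; and `Y0' = X0 ++ 0 :: Y0 = w ++ [0]` (wd_a): `fg_append`, one edge `a`: colour `true` exactly at its origin (`dr w k = b`).
(D): `law` for `(ph (false::m)).symm k` and the letter `a` (note `(ph (false::m)) a = x`): first letter `a` iff the first letter of `(ph (false::m)).symm (x⁻¹ k x)` is not `A`, i.e. (`lam_A`) the first letter of `(ph m).symm (x⁻¹ k x)` is `a` or `B`, i.e. (induction hypothesis (D) for `x⁻¹ k x ≠ 1`, `cr_left`,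
`dr_mul`) `cr T (co w) tf tf x false`; first letter `B`: (R), `fl k = B ∨ fg T (co X0) 1 false`. And `w' = X0 ++ 0 :: w`: `cr T (co w') tf tf 1 false ↔ dr 1 k = B ∨ fg T (co X0) 1 false ∨ (edge a from X0: dr x k = B) ∨ fg T (co w) x false ∨ dr (x w) k = a`, which is the same.
`true :: m`: exchange the roles (`rho_A`, `rho_B`, `wd_b`, colours): (L) does not change; (R): `rho_B` and (D) of `m`, `X0' = Y0 ++ 1 :: X0 = w ++ [1]`; (D): prove first that the first letter is `b` or `A` iff `cr T (co w') tf tf 1 true` (with `law` for the letter `b`, `y = pv Y0 * b`), then take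
complements (`part`).
-/

set_option autoImplicit false

namespace OK71

theorem wd_a (m : List Bool) : (wd m).2.2 ++ [0] = (wd m).1 ++ 0 :: (wd m).2.1 := by
  induction m with
  | nil => rfl
  | cons t m ih =>
    cases t with
    | false =>
      show ((wd m).1 ++ 0 :: (wd m).2.2) ++ [0] = (wd m).1 ++ 0 :: ((wd m).1 ++ 0 :: (wd m).2.1)
      rw [← ih, List.append_assoc, List.cons_append]
    | true =>
      show ((wd m).2.1 ++ 1 :: (wd m).2.2) ++ [0] =
        ((wd m).2.1 ++ 1 :: (wd m).1) ++ 0 :: (wd m).2.1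
      rw [List.append_assoc, List.cons_append, ih, List.append_assoc, List.cons_append]

theorem wd_b (m : List Bool) : (wd m).2.2 ++ [1] = (wd m).2.1 ++ 1 :: (wd m).1 := by
  induction m with
  | nil => rfl
  | cons t m ih =>
    cases t with
    | true =>
      show ((wd m).2.1 ++ 1 :: (wd m).2.2) ++ [1] =
        (wd m).2.1 ++ 1 :: ((wd m).2.1 ++ 1 :: (wd m).1)
      rw [← ih, List.append_assoc, List.cons_append]
    | false =>
      show ((wd m).1 ++ 0 :: (wd m).2.2) ++ [1] =
        ((wd m).1 ++ 0 :: (wd m).2.1) ++ 1 :: (wd m).1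
      rw [List.append_assoc, List.cons_append, ih, List.append_assoc, List.cons_append]

theorem B5_ph_false (m : List Bool) (k : F2) : ph (false :: m) k = ph m (lam k) := rfl

theorem B5_ph_true (m : List Bool) (k : F2) : ph (true :: m) k = ph m (rho k) := rfl

theorem B5_ph_false_symm (m : List Bool) (k : F2) :
    (ph (false :: m)).symm k = lam.symm ((ph m).symm k) := by
  rw [MulEquiv.symm_apply_eq, B5_ph_false, MulEquiv.apply_symm_apply, MulEquiv.apply_symm_apply]

theorem B5_ph_true_symm (m : List Bool) (k : F2) :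
    (ph (true :: m)).symm k = rho.symm ((ph m).symm k) := by
  rw [MulEquiv.symm_apply_eq, B5_ph_true, MulEquiv.apply_symm_apply, MulEquiv.apply_symm_apply]

theorem B5_both (m : List Bool) : ph m (FreeGroup.of 0) = pv (wd m).1 * FreeGroup.of 0 ∧
    ph m (FreeGroup.of 1) = pv (wd m).2.1 * FreeGroup.of 1 := by
  induction m with
  | nil => exact ⟨rfl, rfl⟩
  | cons t m ih =>
    obtain ⟨h0, h1⟩ := ih
    cases t with
    | false =>
      refine ⟨?_, ?_⟩
      · rw [B5_ph_false, lam_of0, h0]
        rfl
      · rw [B5_ph_false, lam_of1, map_mul, h0, h1]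
        show _ = pv ((wd m).1 ++ 0 :: (wd m).2.1) * FreeGroup.of 1
        rw [pv_append, pv_cons]
        simp only [mul_assoc]
    | true =>
      refine ⟨?_, ?_⟩
      · rw [B5_ph_true, rho_of0, map_mul, h0, h1]
        show _ = pv ((wd m).2.1 ++ 1 :: (wd m).1) * FreeGroup.of 0
        rw [pv_append, pv_cons]
        simp only [mul_assoc]
      · rw [B5_ph_true, rho_of1, h1]
        rfl

theorem ph_of0 (m : List Bool) : ph m (FreeGroup.of 0) = pv (wd m).1 * FreeGroup.of 0 :=
  (B5_both m).1

theorem ph_of1 (m : List Bool) : ph m (FreeGroup.of 1) = pv (wd m).2.1 * FreeGroup.of 1 :=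
  (B5_both m).2

/-- the four letters -/
theorem B5_four {g : F2} (hg : g ≠ 1) : fl g = some (0, true) ∨ fl g = some (0, false) ∨
    fl g = some (1, true) ∨ fl g = some (1, false) := by
  cases h : fl g with
  | none => exact absurd (fl_none.1 h) hg
  | some ℓ =>
    obtain ⟨i, b⟩ := ℓ
    fin_cases i <;> cases b <;> simp

theorem B5_compl {g : F2} (hg : g ≠ 1) :
    (fl g = some (1, true) ∨ fl g = some (0, false)) ↔
      ¬ (fl g = some (0, true) ∨ fl g = some (1, false)) := by
  rcases B5_four hg with h | h | h | h <;> rw [h] <;> simp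

theorem B5_part {k : F2} (hk : k ≠ 1) (W : CW) (v : F2) :
    cr (fun v ℓ => dr v k = some ℓ) W tf tf v true ↔
      ¬ cr (fun v ℓ => dr v k = some ℓ) W tf tf v false := by
  obtain ⟨κ, h1, h2⟩ := part hk W tf tf v
  constructor
  · intro h h'
    have h3 := h2 _ h
    have h4 := h2 _ h'
    rw [← h4] at h3
    exact absurd h3 (by simp)
  · intro h
    cases κ with
    | true => exact h1
    | false => exact absurd h1 h

theorem B5_cr_true (T : F2 → Lt → Prop) (u : List (Fin 2)) (v : F2) :
    cr T (co u true false) tf tf v true ↔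
      T v (0, false) ∨ fg T (co u true false) v true ∨ T (v * pv u) (1, true) := by
  unfold cr
  rw [un_co]
  simp

theorem B5_cr_false (T : F2 → Lt → Prop) (u : List (Fin 2)) (v : F2) :
    cr T (co u true false) tf tf v false ↔
      T v (1, false) ∨ fg T (co u true false) v false ∨ T (v * pv u) (0, true) := by
  unfold cr
  rw [un_co]
  simp

theorem B5_fg_cons (T : F2 → Lt → Prop) (c : Fin 2) (l r : Bool) (W : CW) (v : F2) (κ : Bool) :
    fg T ((c, l, r) :: W) v κ ↔
      ((c = 0 ∧ l = κ ∧ T v (1, true)) ∨ (c = 0 ∧ r = κ ∧ T (v * FreeGroup.of 0) (1, false)) ∨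
      (c = 1 ∧ r = κ ∧ T v (0, true)) ∨ (c = 1 ∧ l = κ ∧ T (v * FreeGroup.of 1) (0, false)) ∨
        fg T W (v * FreeGroup.of c) κ) := Iff.rfl

theorem B5_perm1 {A B C D E : Prop} :
    ((A ∨ B ∨ C) ∨ D ∨ E) ↔ (D ∨ (E ∨ A ∨ B) ∨ C) := by
  constructor
  · rintro ((h | h | h) | h | h)
    · exact Or.inr (Or.inl (Or.inr (Or.inl h)))
    · exact Or.inr (Or.inl (Or.inr (Or.inr h)))
    · exact Or.inr (Or.inr h)
    · exact Or.inl h
    · exact Or.inr (Or.inl (Or.inl h))
  · rintro (h | (h | h | h) | h)
    · exact Or.inr (Or.inl h)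
    · exact Or.inr (Or.inr h)
    · exact Or.inl (Or.inl h)
    · exact Or.inl (Or.inr (Or.inl h))
    · exact Or.inl (Or.inr (Or.inr h))

theorem B5_fg_cons0_true (T : F2 → Lt → Prop) (u : List (Fin 2)) (v : F2) :
    fg T (co (0 :: u) true false) v true ↔
      T v (1, true) ∨ fg T (co u true false) (v * FreeGroup.of 0) true := by
  show fg T ((0, true, false) :: co u true false) v true ↔ _
  rw [B5_fg_cons]
  simp

theorem B5_fg_cons0_false (T : F2 → Lt → Prop) (u : List (Fin 2)) (v : F2) :
    fg T (co (0 :: u) true false) v false ↔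
      T (v * FreeGroup.of 0) (1, false) ∨
        fg T (co u true false) (v * FreeGroup.of 0) false := by
  show fg T ((0, true, false) :: co u true false) v false ↔ _
  rw [B5_fg_cons]
  simp

theorem B5_fg_cons1_true (T : F2 → Lt → Prop) (u : List (Fin 2)) (v : F2) :
    fg T (co (1 :: u) true false) v true ↔
      T (v * FreeGroup.of 1) (0, false) ∨
        fg T (co u true false) (v * FreeGroup.of 1) true := by
  show fg T ((1, true, false) :: co u true false) v true ↔ _
  rw [B5_fg_cons]
  simp

theorem B5_fg_cons1_false (T : F2 → Lt → Prop) (u : List (Fin 2)) (v : F2) :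
    fg T (co (1 :: u) true false) v false ↔
      T v (0, true) ∨ fg T (co u true false) (v * FreeGroup.of 1) false := by
  show fg T ((1, true, false) :: co u true false) v false ↔ _
  rw [B5_fg_cons]
  simp

theorem B5_fg_nil (T : F2 → Lt → Prop) (v : F2) (κ : Bool) :
    fg T (co [] true false) v κ ↔ False := Iff.rfl

theorem B5_symm_ne {ψ : MulAut F2} {k : F2} (hk : k ≠ 1) : ψ.symm k ≠ 1 := by
  intro h
  apply hk
  rw [MulEquiv.symm_apply_eq] at h
  rw [h, map_one]

theorem B5_conj_ne {x k : F2} (hk : k ≠ 1) : x⁻¹ * k * x ≠ 1 := by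
  intro h
  apply hk
  have h1 : k = x * (x⁻¹ * k * x) * x⁻¹ := by group
  rw [h1, h]
  group

/-- the law for the letter `(i, true)` -/
theorem B5_law {ψ : MulAut F2} {k : F2} (hk : k ≠ 1) (i : Fin 2) :
    fl (ψ.symm k) = some (i, true) ↔
      ¬ fl (ψ.symm ((ψ (FreeGroup.of i))⁻¹ * k * ψ (FreeGroup.of i))) = some (i, false) := by
  have h1 : ψ.symm ((ψ (FreeGroup.of i))⁻¹ * k * ψ (FreeGroup.of i)) =
      (el ((i, true) : Lt))⁻¹ * ψ.symm k * el (i, true) := by
    rw [map_mul, map_mul, map_inv, MulEquiv.symm_apply_apply, el_true]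
  have h2 := law (B5_symm_ne (ψ := ψ) hk) ((i, true) : Lt)
  rw [h1]
  have h3 : il ((i, true) : Lt) = (i, false) := rfl
  rw [h3] at h2
  rw [h2]
  exact not_not.symm

/-- the induction hypothesis for the conjugate element -/
theorem B5_conj_cr (W : CW) (x k : F2) (κ : Bool) :
    cr (fun v ℓ => dr v (x⁻¹ * k * x) = some ℓ) W tf tf 1 κ ↔
      cr (fun v ℓ => dr v k = some ℓ) W tf tf x κ := by
  have h1 := cr_left (fun v ℓ => dr v k = some ℓ) x W tf tf 1 κ
  rw [mul_one] at h1
  rw [h1]
  apply cr_congr
  intro v ℓ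
  rw [← dr_mul]

theorem arcs (m : List Bool) (k : F2) (hk : k ≠ 1) :
    (fl ((ph m).symm k) = some (1, false) ↔ fl k = some (1, false) ∨
      fg (fun v ℓ => dr v k = some ℓ) (co (wd m).1 true false) 1 false) ∧
    (fl ((ph m).symm k) = some (0, false) ↔ fl k = some (0, false) ∨
      fg (fun v ℓ => dr v k = some ℓ) (co (wd m).2.1 true false) 1 true) ∧
    (fl ((ph m).symm k) = some (0, true) ∨ fl ((ph m).symm k) = some (1, false) ↔
      cr (fun v ℓ => dr v k = some ℓ) (co (wd m).2.2 true false) tf tf 1 false) := by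
  induction m generalizing k with
  | nil =>
    have h0 : (ph []).symm k = k := rfl
    rw [h0]
    refine ⟨?_, ?_, ?_⟩
    · show _ ↔ fl k = some (1, false) ∨ False
      rw [or_false]
    · show _ ↔ fl k = some (0, false) ∨ False
      rw [or_false]
    · rw [B5_cr_false]
      show _ ↔ dr 1 k = some (1, false) ∨ False ∨ dr (1 * pv []) k = some (0, true)
      rw [pv_nil, mul_one, dr_one, false_or]
      exact or_comm
  | cons t m ih =>
    have hg : (ph m).symm k ≠ 1 := B5_symm_ne hk
    obtain ⟨ihR, ihL, ihD⟩ := ih k hk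
    have ihU : (fl ((ph m).symm k) = some (1, true) ∨ fl ((ph m).symm k) = some (0, false)) ↔
        cr (fun v ℓ => dr v k = some ℓ) (co (wd m).2.2 true false) tf tf 1 true := by
      rw [B5_compl hg, B5_part hk, ihD]
    cases t with
    | false =>
      have hR : fl ((ph (false :: m)).symm k) = some (1, false) ↔ fl k = some (1, false) ∨
          fg (fun v ℓ => dr v k = some ℓ) (co (wd (false :: m)).1 true false) 1 false := by
        rw [B5_ph_false_symm, lam_B]
        exact ihR
      refine ⟨hR, ?_, ?_⟩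
      · rw [B5_ph_false_symm, lam_A, ihU, B5_cr_true]
        have h1 : (wd (false :: m)).2.1 = (wd m).2.2 ++ [0] := by
          rw [wd_a]
          rfl
        rw [h1, co_append, fg_append, un_co, B5_fg_cons0_true, B5_fg_nil, or_false, dr_one]
      · have hx : ph (false :: m) (FreeGroup.of 0) = pv (wd m).1 * FreeGroup.of 0 :=
          ph_of0 (false :: m)
        have hA : fl ((ph (false :: m)).symm k) = some (0, true) ↔
            cr (fun v ℓ => dr v k = some ℓ) (co (wd m).2.2 true false) tf tf
              (pv (wd m).1 * FreeGroup.of 0) false := by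
          have hk' : (pv (wd m).1 * FreeGroup.of 0)⁻¹ * k * (pv (wd m).1 * FreeGroup.of 0) ≠ 1 :=
            B5_conj_ne hk
          rw [B5_law hk 0, hx, B5_ph_false_symm, lam_A, B5_compl (B5_symm_ne hk'), not_not,
            (ih _ hk').2.2, B5_conj_cr]
        rw [hA, hR]
        have h1 : (wd (false :: m)).2.2 = (wd m).1 ++ 0 :: (wd m).2.2 := rfl
        have h2 : (wd (false :: m)).1 = (wd m).1 := rfl
        rw [h1, h2, B5_cr_false, B5_cr_false, co_append, fg_append, un_co, B5_fg_cons0_false,
          dr_one, pv_append, pv_cons]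
        simp only [one_mul, mul_assoc]
        exact B5_perm1
    | true =>
      have hL : fl ((ph (true :: m)).symm k) = some (0, false) ↔ fl k = some (0, false) ∨
          fg (fun v ℓ => dr v k = some ℓ) (co (wd (true :: m)).2.1 true false) 1 true := by
        rw [B5_ph_true_symm, rho_A]
        exact ihL
      refine ⟨?_, hL, ?_⟩
      · rw [B5_ph_true_symm, rho_B, ihD, B5_cr_false]
        have h1 : (wd (true :: m)).1 = (wd m).2.2 ++ [1] := by
          rw [wd_b]
          rfl
        rw [h1, co_append, fg_append, un_co, B5_fg_cons1_false, B5_fg_nil, or_false, dr_one]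
      · have hy : ph (true :: m) (FreeGroup.of 1) = pv (wd m).2.1 * FreeGroup.of 1 :=
          ph_of1 (true :: m)
        have hB : fl ((ph (true :: m)).symm k) = some (1, true) ↔
            cr (fun v ℓ => dr v k = some ℓ) (co (wd m).2.2 true false) tf tf
              (pv (wd m).2.1 * FreeGroup.of 1) true := by
          have hk' : (pv (wd m).2.1 * FreeGroup.of 1)⁻¹ * k * (pv (wd m).2.1 * FreeGroup.of 1) ≠
              1 := B5_conj_ne hk
          rw [B5_law hk 1, hy, B5_ph_true_symm, rho_B, (ih _ hk').2.2, B5_conj_cr, B5_part hk]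
        have hU : (fl ((ph (true :: m)).symm k) = some (1, true) ∨
            fl ((ph (true :: m)).symm k) = some (0, false)) ↔
            cr (fun v ℓ => dr v k = some ℓ) (co (wd (true :: m)).2.2 true false) tf tf 1
              true := by
          rw [hB, hL]
          have h1 : (wd (true :: m)).2.2 = (wd m).2.1 ++ 1 :: (wd m).2.2 := rfl
          have h2 : (wd (true :: m)).2.1 = (wd m).2.1 := rfl
          rw [h1, h2, B5_cr_true, B5_cr_true, co_append, fg_append, un_co, B5_fg_cons1_true,
            dr_one, pv_append, pv_cons]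
          simp only [one_mul, mul_assoc]
          exact B5_perm1
        rw [B5_compl (B5_symm_ne hk), B5_part hk] at hU
        exact not_iff_not.1 hU

end OK71
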