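import Pool.Agent.LibOK71.B4
import Pool.Agent.LibOK71.B5

/-!
[OK71 B6] (MEDIUM) edges in the trees of the bases `ph m`.
E_pb: for `ψ`: `M (pb ψ G) v ℓ ↔ ∃ k ∈ G, fl (ψ.symm ((ψ v)⁻¹ * k * ψ v)) = some ℓ` (`k = ψ k'`).
E_lam_a: let `ψ = ph (false :: m)`, `g = ψ v`, `x = ψ a`. For `k ∈ G`, `k ≠ 1`, `k1 = g⁻¹ k g`: `fl (ψ.symm k1) = a` iff (`law`, `ψ.symm x = a`) `fl (ψ.symm (x⁻¹ k1 x)) ≠ A` iff (`ψ.symm = lam.symm ∘ (ph m).symm`, `lam_A`) `fl ((ph m).symm (x⁻¹ k1 x))` is `a` or `B` iff (`arcs`, `cr_left`, `dr_mul`)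
`cr (dr · k = ·) (co w) tf tf (g x) false`; otherwise (`part`) `cr … true`. So `M (pb ψ G) v a ↔ cr (M G) … (g x) false` (`cr_ex`), and a second direction at `v` exists iff `cr (M G) … (g x) true`. `E` = both (`E G v ℓ ↔ M G v ℓ ∧ ∃ k ∈ G, k ≠ 1 ∧ dr v k ≠ some ℓ`), `cr_M`.
E_rho_b: the same with `b`, `y = ψ b`: `fl (ψ.symm k1) = b` iff `fl (ψ.symm (y⁻¹ k1 y)) ≠ B` iff (`rho_B`) `fl ((ph m).symm (y⁻¹ k1 y))` is `b` or `A` iff `cr … (g y) true`.
Go_lam_a: unfold; `v ↦ ψ v * ψ a` is a bijection, `c ∈ pb ψ K ↔ ψ c ∈ K`. E_lam_b: `fl (lam.symm k1) = b` iff (`law`, `lam.symm (a b) = b`) `fl (lam.symm ((a b)⁻¹ k1 (a b))) ≠ B` iff (`lam_B`) `fl ((a b)⁻¹ k1 a b) ≠ B` iff (`law`) `fl (a⁻¹ k1 a) = b`. So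
`M (pb lam G) v b ↔ M G (lam v * a) b` and the same for second directions.
-/

set_option autoImplicit false

namespace OK71

private theorem B6_E (G : Subgroup F2) (v : F2) (ℓ : Lt) :
    E G v ℓ ↔ (∃ k ∈ G, dr v k = some ℓ) ∧ ∃ k ∈ G, k ≠ 1 ∧ dr v k ≠ some ℓ := by
  constructor
  · rintro ⟨h1, ℓ1, ℓ2, hne, ⟨k1, hk1, h3⟩, ⟨k2, hk2, h4⟩⟩
    refine ⟨h1, ?_⟩
    have hk : ∀ k : F2, ∀ l : Lt, dr v k = some l → k ≠ 1 := by
      intro k l h5 h6
      rw [dr_none.2 h6] at h5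
      exact absurd h5 (by simp)
    by_cases h5 : ℓ1 = ℓ
    · refine ⟨k2, hk2, hk k2 ℓ2 h4, fun h6 => ?_⟩
      rw [h4] at h6
      exact hne (h5.trans (Option.some.inj h6).symm)
    · refine ⟨k1, hk1, hk k1 ℓ1 h3, fun h6 => ?_⟩
      rw [h3] at h6
      exact h5 (Option.some.inj h6)
  · rintro ⟨h1, k, hk, hk1, h2⟩
    refine ⟨h1, ?_⟩
    cases h3 : dr v k with
    | none => exact absurd (dr_none.1 h3) hk1
    | some ℓ' =>
      rw [h3] at h2
      exact ⟨ℓ', ℓ, fun h4 => h2 (by rw [h4]), ⟨k, hk, h3⟩, h1⟩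

private theorem B6_dr (ψ : MulAut F2) (v k : F2) :
    dr v (ψ.symm k) = fl (ψ.symm ((ψ v)⁻¹ * k * ψ v)) := by
  unfold dr
  rw [map_mul, map_mul, map_inv, MulEquiv.symm_apply_apply]

private theorem B6_pb (ψ : MulAut F2) (G : Subgroup F2) (v : F2) (ℓ : Lt) :
    E (pb ψ G) v ℓ ↔ (∃ k ∈ G, fl (ψ.symm ((ψ v)⁻¹ * k * ψ v)) = some ℓ) ∧
      ∃ k ∈ G, k ≠ 1 ∧ fl (ψ.symm ((ψ v)⁻¹ * k * ψ v)) ≠ some ℓ := by
  rw [B6_E]
  have hmem : ∀ k : F2, k ∈ pb ψ G ↔ ψ k ∈ G := fun k => Iff.rfl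
  have h1 : ∀ k : F2, dr v k = fl (ψ.symm ((ψ v)⁻¹ * ψ k * ψ v)) := by
    intro k
    rw [← B6_dr, MulEquiv.symm_apply_apply]
  constructor
  · rintro ⟨⟨k, hk, h2⟩, ⟨k', hk', hne, h3⟩⟩
    refine ⟨⟨ψ k, (hmem k).1 hk, by rw [← h1]; exact h2⟩, ⟨ψ k', (hmem k').1 hk', ?_, ?_⟩⟩
    · intro h4
      exact hne (ψ.injective (by rw [h4, map_one]))
    · rw [← h1]
      exact h3
  · rintro ⟨⟨k, hk, h2⟩, ⟨k', hk', hne, h3⟩⟩
    have e1 : ∀ k : F2, ψ (ψ.symm k) = k := fun k => MulEquiv.apply_symm_apply ψ k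
    refine ⟨⟨ψ.symm k, (hmem _).2 (by rw [e1]; exact hk), by rw [B6_dr]; exact h2⟩,
      ⟨ψ.symm k', (hmem _).2 (by rw [e1]; exact hk'), ?_, by rw [B6_dr]; exact h3⟩⟩
    intro h4
    apply hne
    rw [← e1 k', h4, map_one]

private theorem B6_one (ψ : MulAut F2) (v : F2) (ℓ : Lt) :
    fl (ψ.symm ((ψ v)⁻¹ * 1 * ψ v)) ≠ some ℓ := by
  have h : (ψ v)⁻¹ * 1 * ψ v = 1 := by group
  rw [h, map_one, fl_one]
  simp

private theorem B6_cr_one {W : CW} {σ ε : Bool × Bool} {p : F2} {κ : Bool} {k : F2}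
    (h : cr (fun v ℓ => dr v k = some ℓ) W σ ε p κ) : k ≠ 1 := by
  intro h1
  obtain ⟨q, ℓ, h2, _⟩ := cr_atom h
  have h3 : dr q k = some ℓ := h2
  rw [dr_none.2 h1] at h3
  exact absurd h3 (by simp)

private theorem B6_key (ψ : MulAut F2) (G : Subgroup F2) (v p : F2) (ℓ : Lt) (W : CW) (κ0 : Bool)
    (h : ∀ k : F2, k ≠ 1 → (fl (ψ.symm ((ψ v)⁻¹ * k * ψ v)) = some ℓ ↔
      cr (fun v ℓ => dr v k = some ℓ) W tf tf p κ0)) :
    E (pb ψ G) v ℓ ↔ Cr G W tf tf p := by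
  rw [B6_pb, ← cr_M]
  constructor
  · rintro ⟨⟨k, hk, h1⟩, ⟨k', hk', hne, h2⟩⟩ κ
    rw [cr_ex]
    have hk1 : k ≠ 1 := by
      intro h3
      rw [h3] at h1
      exact B6_one ψ v ℓ h1
    by_cases h3 : κ = κ0
    · rw [h3]
      exact ⟨k, hk, (h k hk1).1 h1⟩
    · obtain ⟨κ', h4, _⟩ := part hne W tf tf p
      have h5 : κ' ≠ κ0 := by
        intro h6
        rw [h6] at h4
        exact h2 ((h k' hne).2 h4)
      have h6 : κ' = κ := by
        revert h3 h5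
        cases κ <;> cases κ0 <;> cases κ' <;> simp
      rw [← h6]
      exact ⟨k', hk', h4⟩
  · intro h1
    obtain ⟨k, hk, hc⟩ := (cr_ex G W tf tf p κ0).1 (h1 κ0)
    obtain ⟨k', hk', hc'⟩ := (cr_ex G W tf tf p (!κ0)).1 (h1 (!κ0))
    have hk1' := B6_cr_one hc'
    refine ⟨⟨k, hk, (h k (B6_cr_one hc)).2 hc⟩, ⟨k', hk', hk1', fun h2 => ?_⟩⟩
    have h3 := (h k' hk1').1 h2
    have h4 := (part hk1' W tf tf p).unique h3 hc'
    revert h4
    cases κ0 <;> simp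

private theorem B6_key2 (ψ : MulAut F2) (G : Subgroup F2) (v p : F2) (ℓ ℓ' : Lt)
    (h : ∀ k : F2, k ≠ 1 → (fl (ψ.symm ((ψ v)⁻¹ * k * ψ v)) = some ℓ ↔ dr p k = some ℓ')) :
    E (pb ψ G) v ℓ ↔ E G p ℓ' := by
  rw [B6_pb, B6_E]
  constructor
  · rintro ⟨⟨k, hk, h1⟩, ⟨k', hk', hne, h2⟩⟩
    have hk1 : k ≠ 1 := by
      intro h3
      rw [h3] at h1
      exact B6_one ψ v ℓ h1
    exact ⟨⟨k, hk, (h k hk1).1 h1⟩, ⟨k', hk', hne, fun h3 => h2 ((h k' hne).2 h3)⟩⟩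
  · rintro ⟨⟨k, hk, h1⟩, ⟨k', hk', hne, h2⟩⟩
    have hk1 : k ≠ 1 := by
      intro h3
      rw [dr_none.2 h3] at h1
      exact absurd h1 (by simp)
    exact ⟨⟨k, hk, (h k hk1).2 h1⟩, ⟨k', hk', hne, fun h3 => h2 ((h k' hne).1 h3)⟩⟩

private theorem B6_law {k : F2} (hk : k ≠ 1) (i : Fin 2) :
    fl k = some (i, true) ↔
      fl ((FreeGroup.of i)⁻¹ * k * FreeGroup.of i) ≠ some (i, false) := by
  have h : fl ((FreeGroup.of i)⁻¹ * k * FreeGroup.of i) = some (i, false) ↔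
      fl k ≠ some (i, true) := law hk (i, true)
  constructor
  · intro h1 h2
    exact h.1 h2 h1
  · intro h1
    by_contra h2
    exact h1 (h.2 h2)

private theorem B6_conj (ψ : MulAut F2) (x k : F2) :
    x⁻¹ * ψ.symm k * x = ψ.symm ((ψ x)⁻¹ * k * ψ x) := by
  rw [map_mul, map_mul, map_inv, MulEquiv.symm_apply_apply]

private theorem B6_ne_symm (ψ : MulAut F2) {k : F2} (hk : k ≠ 1) : ψ.symm k ≠ 1 := by
  intro h
  apply hk
  rw [← MulEquiv.apply_symm_apply ψ k, h, map_one]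

private theorem B6_ne_conj (g : F2) {k : F2} (hk : k ≠ 1) : g⁻¹ * k * g ≠ 1 := by
  intro h
  apply hk
  have h1 : k = g * (g⁻¹ * k * g) * g⁻¹ := by group
  rw [h1, h]
  group

private theorem B6_four {k : F2} (hk : k ≠ 1) :
    ¬ (fl k = some (1, true) ∨ fl k = some (0, false)) ↔
      (fl k = some (0, true) ∨ fl k = some (1, false)) := by
  cases h : fl k with
  | none => exact absurd (fl_none.1 h) hk
  | some ℓ =>
    obtain ⟨i, b⟩ := ℓ
    fin_cases i <;> cases b <;> simp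

private theorem B6_arcs (m : List Bool) (p k : F2) (hk : k ≠ 1) :
    (fl ((ph m).symm (p⁻¹ * k * p)) = some (0, true) ∨
      fl ((ph m).symm (p⁻¹ * k * p)) = some (1, false)) ↔
      cr (fun v ℓ => dr v k = some ℓ) (co (wd m).2.2 true false) tf tf p false := by
  rw [(arcs m (p⁻¹ * k * p) (B6_ne_conj p hk)).2.2]
  have h1 := cr_left (fun v ℓ => dr v k = some ℓ) p (co (wd m).2.2 true false) tf tf 1 false
  rw [mul_one] at h1
  rw [h1]
  refine cr_congr (fun v ℓ => ?_) _ _ _ _ _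
  rw [dr_mul]

theorem E_lam_a (m : List Bool) (G : Subgroup F2) (v : F2) :
    E (pb (ph (false :: m)) G) v (0, true) ↔
      Cr G (co (wd m).2.2 true false) tf tf
        (ph (false :: m) v * ph (false :: m) (FreeGroup.of 0)) := by
  have e1 : ph (false :: m) (FreeGroup.of 0) = ph m (lam (FreeGroup.of 0)) := rfl
  refine B6_key (ph (false :: m)) G v _ (0, true) _ false fun k hk => ?_
  have hk1 := B6_ne_conj (ph (false :: m) v) hk
  rw [B6_law (B6_ne_symm _ hk1), B6_conj, ← B6_arcs m _ k hk]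
  have e2 : (ph (false :: m) (FreeGroup.of 0))⁻¹ *
      ((ph (false :: m) v)⁻¹ * k * ph (false :: m) v) * ph (false :: m) (FreeGroup.of 0) =
      (ph (false :: m) v * ph (false :: m) (FreeGroup.of 0))⁻¹ * k *
        (ph (false :: m) v * ph (false :: m) (FreeGroup.of 0)) := by group
  rw [e2]
  have e3 : (ph (false :: m)).symm ((ph (false :: m) v * ph (false :: m) (FreeGroup.of 0))⁻¹ * k *
        (ph (false :: m) v * ph (false :: m) (FreeGroup.of 0))) =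
      lam.symm ((ph m).symm ((ph (false :: m) v * ph (false :: m) (FreeGroup.of 0))⁻¹ * k *
        (ph (false :: m) v * ph (false :: m) (FreeGroup.of 0)))) := rfl
  rw [e3, Ne, lam_A]
  exact B6_four (B6_ne_symm _ (B6_ne_conj _ hk))

theorem E_rho_b (m : List Bool) (G : Subgroup F2) (v : F2) :
    E (pb (ph (true :: m)) G) v (1, true) ↔
      Cr G (co (wd m).2.2 true false) tf tf
        (ph (true :: m) v * ph (true :: m) (FreeGroup.of 1)) := by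
  refine B6_key (ph (true :: m)) G v _ (1, true) _ true fun k hk => ?_
  have hk1 := B6_ne_conj (ph (true :: m) v) hk
  rw [B6_law (B6_ne_symm _ hk1), B6_conj]
  have e2 : (ph (true :: m) (FreeGroup.of 1))⁻¹ *
      ((ph (true :: m) v)⁻¹ * k * ph (true :: m) v) * ph (true :: m) (FreeGroup.of 1) =
      (ph (true :: m) v * ph (true :: m) (FreeGroup.of 1))⁻¹ * k *
        (ph (true :: m) v * ph (true :: m) (FreeGroup.of 1)) := by group
  rw [e2]
  have e3 : (ph (true :: m)).symm ((ph (true :: m) v * ph (true :: m) (FreeGroup.of 1))⁻¹ * k *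
        (ph (true :: m) v * ph (true :: m) (FreeGroup.of 1))) =
      rho.symm ((ph m).symm ((ph (true :: m) v * ph (true :: m) (FreeGroup.of 1))⁻¹ * k *
        (ph (true :: m) v * ph (true :: m) (FreeGroup.of 1)))) := rfl
  rw [e3, Ne, rho_B, B6_arcs m _ k hk]
  obtain ⟨κ', h4, h5⟩ := part hk (co (wd m).2.2 true false) tf tf
    (ph (true :: m) v * ph (true :: m) (FreeGroup.of 1))
  constructor
  · intro h6
    cases κ' with
    | false => exact absurd h4 h6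
    | true => exact h4
  · intro h6 h7
    have h8 := h5 _ h6
    have h9 := h5 _ h7
    rw [← h8] at h9
    exact absurd h9 (by simp)

theorem E_lam_b (G : Subgroup F2) (v : F2) :
    E (pb lam G) v (1, true) ↔ E G (lam v * FreeGroup.of 0) (1, true) := by
  refine B6_key2 lam G v _ (1, true) (1, true) fun k hk => ?_
  have hk1 := B6_ne_conj (lam v) hk
  rw [B6_law (B6_ne_symm _ hk1), B6_conj, Ne, lam_B, lam_of1]
  have e2 : (FreeGroup.of 0 * FreeGroup.of 1 : F2)⁻¹ * ((lam v)⁻¹ * k * lam v) *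
      (FreeGroup.of 0 * FreeGroup.of 1) =
      (FreeGroup.of 1)⁻¹ * ((lam v * FreeGroup.of 0)⁻¹ * k * (lam v * FreeGroup.of 0)) *
        FreeGroup.of 1 := by group
  rw [e2, ← Ne, ← B6_law (B6_ne_conj _ hk)]
  rfl

theorem E_rho_a (G : Subgroup F2) (v : F2) :
    E (pb rho G) v (0, true) ↔ E G (rho v * FreeGroup.of 1) (0, true) := by
  refine B6_key2 rho G v _ (0, true) (0, true) fun k hk => ?_
  have hk1 := B6_ne_conj (rho v) hk
  rw [B6_law (B6_ne_symm _ hk1), B6_conj, Ne, rho_A, rho_of0]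
  have e2 : (FreeGroup.of 1 * FreeGroup.of 0 : F2)⁻¹ * ((rho v)⁻¹ * k * rho v) *
      (FreeGroup.of 1 * FreeGroup.of 0) =
      (FreeGroup.of 0)⁻¹ * ((rho v * FreeGroup.of 1)⁻¹ * k * (rho v * FreeGroup.of 1)) *
        FreeGroup.of 0 := by group
  rw [e2, ← Ne, ← B6_law (B6_ne_conj _ hk)]
  rfl

end OK71
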