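import Pool.Agent.LibOK71.B6

/-!
[OK71 B7] (SHORT) the condition `Go` for the bases `ph m`.
Go_lam_a: `Go` with `E_lam_a` for `K` and `H`: the vertices `u = ph _ v * ph _ a` run through all of `F2` (`v = (ph _).symm (u * (ph _ a)⁻¹)`), `c ∈ pb _ K ↔ ph _ c ∈ K`, `ph _ (c * v) = ph _ c * ph _ v`; negate `Bad`. Go_rho_b the same. Go_lam_b, Go_rho_a: the same with E_lam_b, E_rho_a.
Go_ph: induction on `m`: `pb (ph (false :: m)) G = pb lam (pb (ph m) G)` (`pb_mul`, rfl).
-/

set_option autoImplicit false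

namespace OK71

private theorem B7_gen (ψ : MulAut F2) (K : Subgroup F2) (x : F2) (P Q : F2 → Prop) :
    (∀ v, P (ψ v * x) → ∃ c ∈ pb ψ K, Q (ψ (c * v) * x)) ↔ (∀ u, P u → ∃ c ∈ K, Q (c * u)) := by
  constructor
  · intro h u hu
    have e : ψ (ψ.symm (u * x⁻¹)) * x = u := by
      rw [MulEquiv.apply_symm_apply, inv_mul_cancel_right]
    obtain ⟨c, hc, hq⟩ := h (ψ.symm (u * x⁻¹)) (by rw [e]; exact hu)
    refine ⟨ψ c, hc, ?_⟩
    rw [map_mul, mul_assoc, e] at hq
    exact hq
  · intro h v hv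
    obtain ⟨c, hc, hq⟩ := h (ψ v * x) hv
    refine ⟨ψ.symm c, ?_, ?_⟩
    · change ψ (ψ.symm c) ∈ K
      rw [MulEquiv.apply_symm_apply]
      exact hc
    · rw [map_mul, MulEquiv.apply_symm_apply, mul_assoc]
      exact hq

private theorem B7_notBad (H K : Subgroup F2) (W : CW) (σ ε : Bool × Bool) :
    ¬ Bad H K W σ ε ↔ ∀ u, Cr K W σ ε u → ∃ c ∈ K, Cr H W σ ε (c * u) := by
  unfold Bad
  push Not
  rfl

theorem Go_lam_a (m : List Bool) (H K : Subgroup F2) :
    Go (pb (ph (false :: m)) H) (pb (ph (false :: m)) K) (0, true) ↔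
      ¬ Bad H K (co (wd m).2.2 true false) tf tf := by
  rw [B7_notBad, ← B7_gen (ph (false :: m)) K (ph (false :: m) (FreeGroup.of 0))]
  unfold Go
  simp only [E_lam_a]

theorem Go_rho_b (m : List Bool) (H K : Subgroup F2) :
    Go (pb (ph (true :: m)) H) (pb (ph (true :: m)) K) (1, true) ↔
      ¬ Bad H K (co (wd m).2.2 true false) tf tf := by
  rw [B7_notBad, ← B7_gen (ph (true :: m)) K (ph (true :: m) (FreeGroup.of 1))]
  unfold Go
  simp only [E_rho_b]

theorem Go_lam_b (H K : Subgroup F2) :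
    Go (pb lam H) (pb lam K) (1, true) ↔ Go H K (1, true) := by
  have h := B7_gen lam K (FreeGroup.of 0) (fun u => E K u (1, true)) (fun u => E H u (1, true))
  refine Iff.trans ?_ h
  unfold Go
  simp only [E_lam_b]

theorem Go_rho_a (H K : Subgroup F2) :
    Go (pb rho H) (pb rho K) (0, true) ↔ Go H K (0, true) := by
  have h := B7_gen rho K (FreeGroup.of 1) (fun u => E K u (0, true)) (fun u => E H u (0, true))
  refine Iff.trans ?_ h
  unfold Go
  simp only [E_rho_a]

theorem Go_ph {H K : Subgroup F2} (h0 : ∀ i, Go H K (i, true))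
    (h : ∀ m, ¬ Bad H K (co (wd m).2.2 true false) tf tf) (m : List Bool) (i : Fin 2) :
    Go (pb (ph m) H) (pb (ph m) K) (i, true) := by
  induction m generalizing i with
  | nil => exact h0 i
  | cons c m ih =>
    cases c with
    | false =>
      fin_cases i
      · exact (Go_lam_a m H K).2 (h m)
      · exact (Go_lam_b (pb (ph m) H) (pb (ph m) K)).2 (ih 1)
    | true =>
      fin_cases i
      · exact (Go_rho_a (pb (ph m) H) (pb (ph m) K)).2 (ih 0)
      · exact (Go_rho_b m H K).2 (h m)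

end OK71
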