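import Pool.Agent.LibOK71.A1
import Pool.Agent.LibOK71.B3

/-!
[OK71 C0] (definitions and SHORT lemmas for the block C)
-/

set_option autoImplicit false

namespace OK71

open scoped Classical in
/-- the coset `G v` if `v` is a core vertex -/
noncomputable def stt (G : Subgroup F2) (v : F2) : Option (Quotient (QuotientGroup.rightRel G)) :=
  if Co G v then some (Quotient.mk _ v) else none

/-- the type of the path `u` from `v` -/
noncomputable def ty (G : Subgroup F2) (u : List (Fin 2)) (v : F2) :
    Option (Quotient (QuotientGroup.rightRel G)) × Prop × Prop ×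
      Option (Quotient (QuotientGroup.rightRel G)) :=
  (stt G v, fg (E G) (co u true false) v true, fg (E G) (co u true false) v false,
    stt G (v * pv u))

/-- the types of all the paths `u` -/
def info (H K : Subgroup F2) (u : List (Fin 2)) :
    Set ((Option (Quotient (QuotientGroup.rightRel K)) × Prop × Prop ×
        Option (Quotient (QuotientGroup.rightRel K))) ×
      Set (Option (Quotient (QuotientGroup.rightRel H)) × Prop × Prop ×
        Option (Quotient (QuotientGroup.rightRel H)))) :=
  {t | ∃ v, t = (ty K u v, {s | ∃ c ∈ K, s = ty H u (c * v)})}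

theorem stt_eq {G : Subgroup F2} {v v' : F2} (h : stt G v = stt G v') (hv : Co G v) :
    Co G v' ∧ v' * v⁻¹ ∈ G := by
  unfold stt at h
  rw [if_pos hv] at h
  by_cases h' : Co G v'
  · rw [if_pos h', Option.some.injEq, Quotient.eq, QuotientGroup.rightRel_apply] at h
    exact ⟨h', h⟩
  · rw [if_neg h'] at h
    exact absurd h (by simp)

theorem stt_mul {G : Subgroup F2} {g : F2} (hg : g ∈ G) (v : F2) : stt G (g * v) = stt G v := by
  have h1 := Co_mul hg v
  unfold stt
  by_cases h : Co G v
  · rw [if_pos h, if_pos (h1.2 h), Option.some.injEq, Quotient.eq, QuotientGroup.rightRel_apply]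
    have h2 : v * (g * v)⁻¹ = g⁻¹ := by group
    rw [h2]
    exact G.inv_mem hg
  · rw [if_neg h, if_neg fun h' => h (h1.1 h')]

end OK71
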