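import Pool.Agent.LibOK71.A1
import Pool.Agent.LibOK71.A2
import Pool.Agent.LibOK71.B3

/-!
[OK71 C1] (SHORT/MEDIUM) invariance, core vertices and convexity.
fgE_mul, crE_mul: `E_mul` and `fg_left`/`cr_left`, `fg_congr`/`cr_congr` (`g * (v * x)` by `mul_assoc` is inside `fg_left`).
fgE_core: induction on `W`: each alternative of `fg` gives `Co G v` or `Co G (v * of c)` (`E … → Co`): `p = []` or `p = [c]`; the last one from the induction hypothesis (`mul_assoc`, `pv_cons`).
core_conv: `w1 = p ++ q`, `Co G (v * (pv q)⁻¹)`; `w2 = p' ++ q'`, `Co G (v * pv p')`. If `q = []` or `p' = []` done. Otherwise `Co_other` at `v0 = v * (pv q)⁻¹` with the first letter of `q` (positive): `k ∈ G`, and `walk` along the positive word `q`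
(as a list of letters `q.map fun c => (c, true)`, reduced; `mk` of it is `pv q`) gives `dr v k = some (last letter of q, false)`. `Co_other` at `v * pv p'` with the inverse of the last letter of `p'`, `walk` along `invRev` of `p'`: `dr v k' = some (first letter of p', true)`. These two letters differ: `Co G v`.
-/

set_option autoImplicit false

namespace OK71

theorem fgE_mul {G : Subgroup F2} {g : F2} (hg : g ∈ G) (W : CW) (v : F2) (κ : Bool) :
    fg (E G) W (g * v) κ ↔ fg (E G) W v κ := by
  rw [fg_left]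
  exact fg_congr (fun v ℓ => E_mul hg v ℓ) W v κ

theorem crE_mul {G : Subgroup F2} {g : F2} (hg : g ∈ G) (W : CW) (σ ε : Bool × Bool) (v : F2)
    (κ : Bool) : cr (E G) W σ ε (g * v) κ ↔ cr (E G) W σ ε v κ := by
  rw [cr_left]
  exact cr_congr (fun v ℓ => E_mul hg v ℓ) W σ ε v κ

theorem fgE_core {G : Subgroup F2} {W : CW} {v : F2} {κ : Bool} (h : fg (E G) W v κ) :
    ∃ p q, un W = p ++ q ∧ Co G (v * pv p) := by
  induction W generalizing v with
  | nil => exact absurd h (by simp [fg])
  | cons x W ih =>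
    obtain ⟨c, l, r⟩ := x
    have hu : un ((c, l, r) :: W) = c :: un W := rfl
    have h0 : ∀ {w : F2} {ℓ : Lt}, E G w ℓ → Co G w := fun h => h.2
    rcases h with ⟨_, _, h⟩ | ⟨rfl, _, h⟩ | ⟨_, _, h⟩ | ⟨rfl, _, h⟩ | h
    · exact ⟨[], c :: un W, hu, by rw [pv_nil, mul_one]; exact h0 h⟩
    · refine ⟨[0], un W, hu, ?_⟩
      rw [pv_cons, pv_nil, mul_one]
      exact h0 h
    · exact ⟨[], c :: un W, hu, by rw [pv_nil, mul_one]; exact h0 h⟩
    · refine ⟨[1], un W, hu, ?_⟩
      rw [pv_cons, pv_nil, mul_one]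
      exact h0 h
    · obtain ⟨p, q, h1, h2⟩ := ih h
      refine ⟨c :: p, q, ?_, ?_⟩
      · rw [hu, h1, List.cons_append]
      · rw [pv_cons, ← mul_assoc]
        exact h2

private theorem C1_mk (q : List (Fin 2)) :
    FreeGroup.mk (q.map fun c => ((c, true) : Lt)) = pv q := by
  induction q with
  | nil => rw [List.map_nil, ← FreeGroup.one_eq_mk, pv_nil]
  | cons c q ih => rw [List.map_cons, mk_cons, ih, pv_cons, el_true]

private theorem C1_red (q : List (Fin 2)) :
    FreeGroup.IsReduced (q.map fun c => ((c, true) : Lt)) := by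
  induction q with
  | nil => exact FreeGroup.IsReduced.nil
  | cons c q ih =>
    rw [List.map_cons, red_cons]
    refine ⟨?_, ih⟩
    cases q with
    | nil => simp
    | cons d q => simp [il]

/-- the core is convex (along positive paths) -/
theorem core_conv {G : Subgroup F2} {v : F2} {w1 w2 : List (Fin 2)}
    (h1 : ∃ p q, w1 = p ++ q ∧ Co G (v * (pv q)⁻¹)) (h2 : ∃ p q, w2 = p ++ q ∧ Co G (v * pv p)) :
    Co G v := by
  obtain ⟨_, q, _, hq⟩ := h1
  obtain ⟨p, _, _, hp⟩ := h2
  rcases List.eq_nil_or_concat' q with rfl | ⟨q', x, rfl⟩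
  · rwa [pv_nil, inv_one, mul_one] at hq
  cases p with
  | nil => rwa [pv_nil, mul_one] at hp
  | cons y p =>
    obtain ⟨k, hk, hk1, hd⟩ := Co_other hq ((q' ++ [x]).map fun c => ((c, true) : Lt)).head?
    have e1 := walk hk1 _ _ (C1_red (q' ++ [x])) (by simp) hd
    rw [C1_mk, inv_mul_cancel_right] at e1
    obtain ⟨k', hk', hk1', hd'⟩ := Co_other hp
      (FreeGroup.invRev ((y :: p).map fun c => ((c, true) : Lt))).head?
    have e2 := walk hk1' _ _ (red_invRev (C1_red (y :: p)))
      (by simp [FreeGroup.invRev]) hd'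
    rw [← FreeGroup.inv_mk, C1_mk, mul_inv_cancel_right, invRev_getLast?] at e2
    have e1' : dr v k = some (x, false) := by
      rw [e1]
      simp [il]
    have e2' : dr v k' = some (y, true) := by
      rw [e2]
      simp [il]
    exact ⟨(x, false), (y, true), by simp, ⟨k, hk, e1'⟩, ⟨k', hk', e2'⟩⟩

end OK71
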