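import Pool.Agent.LibOK71.C0
import Pool.Agent.LibOK71.C1

/-!
[OK71 C2] (MEDIUM/STRONG) replacing a middle part with the same info: abstract form.
Complete proof (page, section C). `F G v κ` := `fg (E G) (co u l r) v κ` and `F' G v κ` for `u'`. By `fg_co` both are determined by the two flags in `ty`. `pre G v` := `∃ p q, wα = p ++ q ∧ Co G (v * (pv q)⁻¹)`, `post G v` := `∃ p q, wβ = p ++ q ∧ Co G (v * pv p)`. Facts: (f1) `F G v κ → ∃ p q, u = p ++ q ∧ Co G (v * pv p)` (fgE_core, un_co);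
(f2) `pre G v`, `¬ Co G v` exclude `Co G (v * pv p)` for all `p` (core_conv), so they exclude `F G v κ`, `F' G v κ`, `Co G (v * pv u)`, `Z G κ (v * pv u)`; same with `u'`; (f3) `post G (v * pv u)`, `¬ Co G (v * pv u)` exclude `pre G v`, `Co G v`, `A G κ v`, `F G v κ` (core_conv at `v * pv u`, backwards positions).
(f4) `pre H v → pre K v`, `post` the same (Co_mono), `pre K (c v) ↔ pre K v` for `c ∈ K`. Let `v1` be the given vertex, `v2 = v1 * pv u`.
Case 1: `pre K v1`, `¬ Co K v1`. Take `v1` for the new path: by (f2) the old crossing of `K` uses only `A`, so the new one holds; if `H` crosses the new path for `c`, (f4), (f2) for `K` show that it uses only `A`, so `H` crosses the old path for `c`. Case 2: `post K v2`, `¬ Co K v2`: new vertex `v2 * (pv u')⁻¹`, the same with (f3).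
Case 3: otherwise (`pre K v1 → Co K v1`, `post K v2 → Co K v2`). From `info`: `v1'` with `ty K u' v1' = ty K u v1` and the same set of types for `H`; `v2' = v1' * pv u'`. `K` crosses the new path: `A K κ v1` implies `pre K v1`, `Co K v1`, `stt_eq`: `v1' = d v1`, `A K κ v1'`; `F` by the flags; `Z` like `A`.
Let `H` cross the new path for `c ∈ K` (vertices `c v1'`, `c v2'`). (i) `pre H (c v1')`, `¬ Co H (c v1')`: then all colours come from `A H κ (c v1')` (f2). `Co K v1` holds: else `¬ Co K v1'`, and `pre K v1'`, so (f2) no flags for `K` at `v1'`, none at `v1`; `A K κ v1` would give `Co K v1` (case 3), `Z K κ v2` gives `Co K v2`, so `Co K v2'` (stt_eq) against (f2):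
`K` does not cross the old path, contradiction. So `v1 = d v1'`, `d ∈ K`, and for `c'' = c d⁻¹` we have `c'' v1 = c v1'`: `H` crosses the old path for `c''` (by `A`). (ii) `post H (c v2')`, `¬ Co H (c v2')`: symmetric, (f3). (iii) otherwise: `ty H u' (c v1')` is `ty H u (c' v1)` for some `c' ∈ K`; `A H κ (c v1')` implies `pre`, so `Co H (c v1')`, so (stt_eq, hA) `A H κ (c' v1)`; flags; `Z` the same: `H` crosses the old path for `c'`.
-/

set_option autoImplicit false

namespace OK71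

private def C2_pre (wα : List (Fin 2)) (G : Subgroup F2) (v : F2) : Prop :=
  ∃ p q, wα = p ++ q ∧ Co G (v * (pv q)⁻¹)

private def C2_post (wβ : List (Fin 2)) (G : Subgroup F2) (v : F2) : Prop :=
  ∃ p q, wβ = p ++ q ∧ Co G (v * pv p)

private theorem C2_f1 {G : Subgroup F2} {u : List (Fin 2)} {l r : Bool} {v : F2} {κ : Bool}
    (h : fg (E G) (co u l r) v κ) : ∃ p q, u = p ++ q ∧ Co G (v * pv p) := by
  have h1 := fgE_core h
  rwa [un_co] at h1

/-! `pre K v` and `¬ Co K v` -/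

private theorem C2_f2_fg {wα : List (Fin 2)} {G K : Subgroup F2} (hGK : G ≤ K) {v : F2}
    (hp : C2_pre wα K v) (hc : ¬ Co K v) (u : List (Fin 2)) (l r κ : Bool) :
    ¬ fg (E G) (co u l r) v κ := by
  intro h
  obtain ⟨p, q, e, h1⟩ := C2_f1 h
  exact hc (core_conv hp ⟨p, q, e, Co_mono hGK h1⟩)

private theorem C2_f2_co {wα : List (Fin 2)} {G K : Subgroup F2} (hGK : G ≤ K) {v : F2}
    (hp : C2_pre wα K v) (hc : ¬ Co K v) (u : List (Fin 2)) : ¬ Co G (v * pv u) := by
  intro h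
  exact hc (core_conv (w2 := u) hp ⟨u, [], (List.append_nil u).symm, Co_mono hGK h⟩)

private theorem C2_f2_post {wα : List (Fin 2)} {G K : Subgroup F2} (hGK : G ≤ K) {v : F2}
    (hp : C2_pre wα K v) (hc : ¬ Co K v) (u wβ : List (Fin 2)) :
    ¬ C2_post wβ G (v * pv u) := by
  rintro ⟨p, q, e, h⟩
  refine hc (core_conv (w2 := (u ++ p) ++ q) hp ⟨u ++ p, q, rfl, ?_⟩)
  rw [pv_append, ← mul_assoc]
  exact Co_mono hGK h

/-! `post K (v * pv u)` and `¬ Co K (v * pv u)` -/

private theorem C2_f3_pre {wβ : List (Fin 2)} {G K : Subgroup F2} (hGK : G ≤ K) {v : F2}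
    {u : List (Fin 2)} (hp : C2_post wβ K (v * pv u)) (hc : ¬ Co K (v * pv u))
    (wα : List (Fin 2)) : ¬ C2_pre wα G v := by
  rintro ⟨p, q, e, h⟩
  refine hc (core_conv (w1 := p ++ (q ++ u)) ⟨p, q ++ u, rfl, ?_⟩ hp)
  have h1 : v * pv u * (pv (q ++ u))⁻¹ = v * (pv q)⁻¹ := by
    rw [pv_append]
    group
  rw [h1]
  exact Co_mono hGK h

private theorem C2_f3_co {wβ : List (Fin 2)} {G K : Subgroup F2} (hGK : G ≤ K) {v : F2}
    {u : List (Fin 2)} (hp : C2_post wβ K (v * pv u)) (hc : ¬ Co K (v * pv u)) :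
    ¬ Co G v := by
  intro h
  refine hc (core_conv (w1 := [] ++ u) ⟨[], u, rfl, ?_⟩ hp)
  rw [mul_inv_cancel_right]
  exact Co_mono hGK h

private theorem C2_f3_fg {wβ : List (Fin 2)} {G K : Subgroup F2} (hGK : G ≤ K) {v : F2}
    {u : List (Fin 2)} (hp : C2_post wβ K (v * pv u)) (hc : ¬ Co K (v * pv u))
    (l r κ : Bool) : ¬ fg (E G) (co u l r) v κ := by
  intro h
  obtain ⟨p, q, e, h1⟩ := C2_f1 h
  refine hc (core_conv (w1 := u) ⟨p, q, e, ?_⟩ hp)
  have h2 : v * pv u * (pv q)⁻¹ = v * pv p := by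
    rw [e, pv_append]
    group
  rw [h2]
  exact Co_mono hGK h1

/-! monotonicity and invariance -/

private theorem C2_pre_mono {wα : List (Fin 2)} {G K : Subgroup F2} (hGK : G ≤ K) {v : F2}
    (h : C2_pre wα G v) : C2_pre wα K v := by
  obtain ⟨p, q, e, h1⟩ := h
  exact ⟨p, q, e, Co_mono hGK h1⟩

private theorem C2_post_mono {wβ : List (Fin 2)} {G K : Subgroup F2} (hGK : G ≤ K) {v : F2}
    (h : C2_post wβ G v) : C2_post wβ K v := by
  obtain ⟨p, q, e, h1⟩ := h
  exact ⟨p, q, e, Co_mono hGK h1⟩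

private theorem C2_pre_mul {wα : List (Fin 2)} {G : Subgroup F2} {g : F2} (hg : g ∈ G) {v : F2} :
    C2_pre wα G (g * v) ↔ C2_pre wα G v := by
  unfold C2_pre
  refine exists_congr fun p => exists_congr fun q => and_congr_right fun _ => ?_
  rw [mul_assoc]
  exact Co_mul hg _

private theorem C2_post_mul {wβ : List (Fin 2)} {G : Subgroup F2} {g : F2} (hg : g ∈ G) {v : F2} :
    C2_post wβ G (g * v) ↔ C2_post wβ G v := by
  unfold C2_post
  refine exists_congr fun p => exists_congr fun q => and_congr_right fun _ => ?_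
  rw [mul_assoc]
  exact Co_mul hg _

/-- the flags of `ty` determine `fg` -/
private theorem C2_fg {G : Subgroup F2} {u u' : List (Fin 2)} {v v' : F2}
    (hty : ty G u v = ty G u' v') {l r κ : Bool} (h : fg (E G) (co u l r) v κ) :
    fg (E G) (co u' l r) v' κ := by
  unfold ty at hty
  simp only [Prod.mk.injEq] at hty
  obtain ⟨-, h2, h3, -⟩ := hty
  rw [fg_co] at h ⊢
  rw [← h2, ← h3]
  exact h

private theorem C2_ty1 {G : Subgroup F2} {u u' : List (Fin 2)} {v v' : F2}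
    (hty : ty G u v = ty G u' v') : stt G v = stt G v' := by
  unfold ty at hty
  simp only [Prod.mk.injEq] at hty
  exact hty.1

private theorem C2_ty4 {G : Subgroup F2} {u u' : List (Fin 2)} {v v' : F2}
    (hty : ty G u v = ty G u' v') : stt G (v * pv u) = stt G (v' * pv u') := by
  unfold ty at hty
  simp only [Prod.mk.injEq] at hty
  exact hty.2.2.2

/-- transfer of a crossing -/
private theorem C2_tr {A Z : Subgroup F2 → Bool → F2 → Prop} {wα wβ : List (Fin 2)}
    (hA : ∀ (G : Subgroup F2) (κ : Bool) (g v : F2), g ∈ G → (A G κ (g * v) ↔ A G κ v))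
    (hZ : ∀ (G : Subgroup F2) (κ : Bool) (g v : F2), g ∈ G → (Z G κ (g * v) ↔ Z G κ v))
    (hAc : ∀ (G : Subgroup F2) (κ : Bool) (v : F2), A G κ v → C2_pre wα G v)
    (hZc : ∀ (G : Subgroup F2) (κ : Bool) (v : F2), Z G κ v → C2_post wβ G v)
    {G : Subgroup F2} {u u' : List (Fin 2)} {v v' : F2} (hty : ty G u v = ty G u' v')
    (hpre : C2_pre wα G v → Co G v) (hpost : C2_post wβ G (v * pv u) → Co G (v * pv u))
    {l r κ : Bool} (h : A G κ v ∨ fg (E G) (co u l r) v κ ∨ Z G κ (v * pv u)) :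
    A G κ v' ∨ fg (E G) (co u' l r) v' κ ∨ Z G κ (v' * pv u') := by
  rcases h with h | h | h
  · left
    obtain ⟨-, h2⟩ := stt_eq (C2_ty1 hty) (hpre (hAc G κ v h))
    have h3 := (hA G κ _ v h2).2 h
    rwa [inv_mul_cancel_right] at h3
  · right; left
    exact C2_fg hty h
  · right; right
    obtain ⟨-, h2⟩ := stt_eq (C2_ty4 hty) (hpost (hZc G κ _ h))
    have h3 := (hZ G κ _ (v * pv u) h2).2 h
    rwa [inv_mul_cancel_right] at h3

theorem swap_abs {H K : Subgroup F2} (hHK : H ≤ K) (A Z : Subgroup F2 → Bool → F2 → Prop)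
    (wα wβ : List (Fin 2))
    (hA : ∀ (G : Subgroup F2) (κ : Bool) (g v : F2), g ∈ G → (A G κ (g * v) ↔ A G κ v))
    (hZ : ∀ (G : Subgroup F2) (κ : Bool) (g v : F2), g ∈ G → (Z G κ (g * v) ↔ Z G κ v))
    (hAc : ∀ (G : Subgroup F2) (κ : Bool) (v : F2), A G κ v →
      ∃ p q, wα = p ++ q ∧ Co G (v * (pv q)⁻¹))
    (hZc : ∀ (G : Subgroup F2) (κ : Bool) (v : F2), Z G κ v →
      ∃ p q, wβ = p ++ q ∧ Co G (v * pv p))
    {u u' : List (Fin 2)} (h : info H K u = info H K u') (l r : Bool)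
    (hb : ∃ v, (∀ κ, A K κ v ∨ fg (E K) (co u l r) v κ ∨ Z K κ (v * pv u)) ∧
      ∀ c ∈ K, ¬ ∀ κ, A H κ (c * v) ∨ fg (E H) (co u l r) (c * v) κ ∨ Z H κ (c * v * pv u)) :
    ∃ v, (∀ κ, A K κ v ∨ fg (E K) (co u' l r) v κ ∨ Z K κ (v * pv u')) ∧
      ∀ c ∈ K, ¬ ∀ κ, A H κ (c * v) ∨ fg (E H) (co u' l r) (c * v) κ ∨
        Z H κ (c * v * pv u') := by
  obtain ⟨v1, hK, hH⟩ := hb
  have hAc' : ∀ (G : Subgroup F2) (κ : Bool) (v : F2), A G κ v → C2_pre wα G v := hAc
  have hZc' : ∀ (G : Subgroup F2) (κ : Bool) (v : F2), Z G κ v → C2_post wβ G v := hZc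
  by_cases c1 : C2_pre wα K v1 ∧ ¬ Co K v1
  · -- case 1
    obtain ⟨c1, c1'⟩ := c1
    refine ⟨v1, fun κ => ?_, fun c hc hn => hH c hc fun κ => ?_⟩
    · rcases hK κ with h1 | h1 | h1
      · exact Or.inl h1
      · exact absurd h1 (C2_f2_fg le_rfl c1 c1' u l r κ)
      · exact absurd (hZc' _ _ _ h1) (C2_f2_post le_rfl c1 c1' u wβ)
    · have d1 : C2_pre wα K (c * v1) := (C2_pre_mul hc).2 c1
      have d1' : ¬ Co K (c * v1) := fun h1 => c1' ((Co_mul hc v1).1 h1)
      rcases hn κ with h1 | h1 | h1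
      · exact Or.inl h1
      · exact absurd h1 (C2_f2_fg hHK d1 d1' u' l r κ)
      · exact absurd (hZc' _ _ _ h1) (C2_f2_post hHK d1 d1' u' wβ)
  by_cases c2 : C2_post wβ K (v1 * pv u) ∧ ¬ Co K (v1 * pv u)
  · -- case 2
    obtain ⟨c2, c2'⟩ := c2
    refine ⟨v1 * pv u * (pv u')⁻¹, fun κ => ?_, fun c hc hn => hH c hc fun κ => ?_⟩
    · rcases hK κ with h1 | h1 | h1
      · exact absurd (hAc' _ _ _ h1) (C2_f3_pre le_rfl c2 c2' wα)
      · exact absurd h1 (C2_f3_fg le_rfl c2 c2' l r κ)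
      · right; right
        rwa [inv_mul_cancel_right]
    · have e1 : c * (v1 * pv u * (pv u')⁻¹) * pv u' = c * (v1 * pv u) := by group
      have d2 : C2_post wβ K (c * (v1 * pv u * (pv u')⁻¹) * pv u') := by
        rw [e1]
        exact (C2_post_mul hc).2 c2
      have d2' : ¬ Co K (c * (v1 * pv u * (pv u')⁻¹) * pv u') := by
        rw [e1]
        exact fun h1 => c2' ((Co_mul hc _).1 h1)
      rcases hn κ with h1 | h1 | h1
      · exact absurd (hAc' _ _ _ h1) (C2_f3_pre hHK d2 d2' wα)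
      · exact absurd h1 (C2_f3_fg hHK d2 d2' l r κ)
      · right; right
        rwa [e1, ← mul_assoc] at h1
  -- case 3
  have p1 : C2_pre wα K v1 → Co K v1 := fun h1 => by
    by_contra h2
    exact c1 ⟨h1, h2⟩
  have p2 : C2_post wβ K (v1 * pv u) → Co K (v1 * pv u) := fun h1 => by
    by_contra h2
    exact c2 ⟨h1, h2⟩
  have hm : (ty K u v1, {s | ∃ c ∈ K, s = ty H u (c * v1)}) ∈ info H K u' := by
    rw [← h]
    exact ⟨v1, rfl⟩
  obtain ⟨v', hv'⟩ := hm
  rw [Prod.mk.injEq] at hv'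
  obtain ⟨tK, tH⟩ := hv'
  refine ⟨v', fun κ => C2_tr hA hZ hAc' hZc' tK p1 p2 (hK κ), fun c hc hn => ?_⟩
  by_cases c3 : C2_pre wα H (c * v') ∧ ¬ Co H (c * v')
  · -- (i)
    obtain ⟨c3, c3'⟩ := c3
    have hall : ∀ κ, A H κ (c * v') := by
      intro κ
      rcases hn κ with h1 | h1 | h1
      · exact h1
      · exact absurd h1 (C2_f2_fg le_rfl c3 c3' u' l r κ)
      · exact absurd (hZc' _ _ _ h1) (C2_f2_post le_rfl c3 c3' u' wβ)
    have hco : Co K v1 := by
      by_contra hco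
      have hco' : ¬ Co K v' := fun h1 => hco (stt_eq (C2_ty1 tK).symm h1).1
      have hpre' : C2_pre wα K v' := (C2_pre_mul hc).1 (C2_pre_mono hHK c3)
      rcases hK true with h1 | h1 | h1
      · exact hco (p1 (hAc' _ _ _ h1))
      · exact C2_f2_fg le_rfl hpre' hco' u' l r true (C2_fg tK h1)
      · have h2 := p2 (hZc' _ _ _ h1)
        exact C2_f2_co le_rfl hpre' hco' u' (stt_eq (C2_ty4 tK) h2).1
    obtain ⟨-, hd⟩ := stt_eq (C2_ty1 tK) hco
    refine hH (c * (v' * v1⁻¹)) (K.mul_mem hc hd) fun κ => Or.inl ?_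
    have e1 : c * (v' * v1⁻¹) * v1 = c * v' := by group
    rw [e1]
    exact hall κ
  by_cases c4 : C2_post wβ H (c * v' * pv u') ∧ ¬ Co H (c * v' * pv u')
  · -- (ii)
    obtain ⟨c4, c4'⟩ := c4
    have hall : ∀ κ, Z H κ (c * v' * pv u') := by
      intro κ
      rcases hn κ with h1 | h1 | h1
      · exact absurd (hAc' _ _ _ h1) (C2_f3_pre le_rfl c4 c4' wα)
      · exact absurd h1 (C2_f3_fg le_rfl c4 c4' l r κ)
      · exact h1
    have hco : Co K (v1 * pv u) := by
      by_contra hco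
      have hco' : ¬ Co K (v' * pv u') := fun h1 => hco (stt_eq (C2_ty4 tK).symm h1).1
      have hpost' : C2_post wβ K (v' * pv u') := by
        have h1 := C2_post_mono hHK c4
        rw [mul_assoc] at h1
        exact (C2_post_mul hc).1 h1
      rcases hK true with h1 | h1 | h1
      · have h2 := p1 (hAc' _ _ _ h1)
        exact C2_f3_co le_rfl hpost' hco' (stt_eq (C2_ty1 tK) h2).1
      · exact C2_f3_fg le_rfl hpost' hco' l r true (C2_fg tK h1)
      · exact hco (p2 (hZc' _ _ _ h1))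
    obtain ⟨-, hd⟩ := stt_eq (C2_ty4 tK) hco
    refine hH (c * (v' * pv u' * (v1 * pv u)⁻¹)) (K.mul_mem hc hd) fun κ => Or.inr (Or.inr ?_)
    have e1 : c * (v' * pv u' * (v1 * pv u)⁻¹) * v1 * pv u = c * v' * pv u' := by group
    rw [e1]
    exact hall κ
  -- (iii)
  have q1 : C2_pre wα H (c * v') → Co H (c * v') := fun h1 => by
    by_contra h2
    exact c3 ⟨h1, h2⟩
  have q2 : C2_post wβ H (c * v' * pv u') → Co H (c * v' * pv u') := fun h1 => by
    by_contra h2
    exact c4 ⟨h1, h2⟩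
  have hm : ty H u' (c * v') ∈ {s | ∃ c ∈ K, s = ty H u (c * v1)} := by
    rw [tH]
    exact ⟨c, hc, rfl⟩
  obtain ⟨c', hc', tc⟩ := hm
  exact hH c' hc' fun κ => C2_tr hA hZ hAc' hZc' tc q1 q2 (hn κ)

end OK71
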