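import Pool.Agent.LibOK71.C2

/-!
[OK71 C3] (SHORT/MEDIUM) replacing a middle part with the same info.
`swap_abs` with `A G κ v := (σ.1 = κ ∧ E G (v * (pv (un α))⁻¹) (0, false)) ∨ (σ.2 = κ ∧ E G (v * (pv (un α))⁻¹) (1, false)) ∨ fg (E G) α (v * (pv (un α))⁻¹) κ`,
`Z G κ v := fg (E G) β v κ ∨ (ε.1 = κ ∧ E G (v * pv (un β)) (1, true)) ∨ (ε.2 = κ ∧ E G (v * pv (un β)) (0, true))`, `wα = un α`, `wβ = un β`. `cr (E G) (α ++ co u l r ++ β) σ ε v κ ↔ A G κ v1 ∨ fg (E G) (co u l r) v1 κ ∨ Z G κ (v1 * pv u)`, `v1 = v * pv (un α)` (fg_append, un_append, pv_append, un_co);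
`v ↔ v1` is a bijection. hA: E_mul, fgE_mul (`g * v * x`, mul_assoc). hAc: an edge at `v * (pv (un α))⁻¹` is a core vertex: `p = []`, `q = un α`; `fgE_core`: `un α = p ++ q`, `v * (pv (p ++ q))⁻¹ * pv p = v * (pv q)⁻¹`. hZc: `fgE_core`; end: `p = un β`.
-/

set_option autoImplicit false

namespace OK71

private def C3_A (α : CW) (σ : Bool × Bool) (G : Subgroup F2) (κ : Bool) (v : F2) : Prop :=
  (σ.1 = κ ∧ E G (v * (pv (un α))⁻¹) (0, false)) ∨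
    (σ.2 = κ ∧ E G (v * (pv (un α))⁻¹) (1, false)) ∨ fg (E G) α (v * (pv (un α))⁻¹) κ

private def C3_Z (β : CW) (ε : Bool × Bool) (G : Subgroup F2) (κ : Bool) (v : F2) : Prop :=
  fg (E G) β v κ ∨ (ε.1 = κ ∧ E G (v * pv (un β)) (1, true)) ∨
    (ε.2 = κ ∧ E G (v * pv (un β)) (0, true))

private theorem C3_cr (α β : CW) (u : List (Fin 2)) (l r : Bool) (σ ε : Bool × Bool)
    (G : Subgroup F2) (v : F2) (κ : Bool) :
    cr (E G) (α ++ co u l r ++ β) σ ε v κ ↔ C3_A α σ G κ (v * pv (un α)) ∨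
      fg (E G) (co u l r) (v * pv (un α)) κ ∨ C3_Z β ε G κ (v * pv (un α) * pv u) := by
  unfold cr C3_A C3_Z
  have h1 : pv (un (α ++ co u l r ++ β)) = pv (un α) * pv u * pv (un β) := by
    rw [un_append, un_append, un_co, pv_append, pv_append]
  have h2 : pv (un (α ++ co u l r)) = pv (un α) * pv u := by
    rw [un_append, un_co, pv_append]
  have h3 : v * (pv (un α) * pv u) = v * pv (un α) * pv u := (mul_assoc _ _ _).symm
  have h4 : v * (pv (un α) * pv u * pv (un β)) = v * pv (un α) * pv u * pv (un β) := by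
    rw [← h3, mul_assoc v]
  rw [mul_inv_cancel_right, fg_append, fg_append, h1, h2, h3, h4]
  tauto

private theorem C3_cr' (α β : CW) (u : List (Fin 2)) (l r : Bool) (σ ε : Bool × Bool)
    (G : Subgroup F2) (v : F2) (κ : Bool) :
    cr (E G) (α ++ co u l r ++ β) σ ε (v * (pv (un α))⁻¹) κ ↔ C3_A α σ G κ v ∨
      fg (E G) (co u l r) v κ ∨ C3_Z β ε G κ (v * pv u) := by
  rw [C3_cr, inv_mul_cancel_right]

private theorem C3_hA (α : CW) (σ : Bool × Bool) (G : Subgroup F2) (κ : Bool) (g v : F2)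
    (hg : g ∈ G) : C3_A α σ G κ (g * v) ↔ C3_A α σ G κ v := by
  unfold C3_A
  rw [mul_assoc, E_mul hg, E_mul hg, fgE_mul hg]

private theorem C3_hZ (β : CW) (ε : Bool × Bool) (G : Subgroup F2) (κ : Bool) (g v : F2)
    (hg : g ∈ G) : C3_Z β ε G κ (g * v) ↔ C3_Z β ε G κ v := by
  unfold C3_Z
  rw [mul_assoc, E_mul hg, E_mul hg, fgE_mul hg]

private theorem C3_hAc (α : CW) (σ : Bool × Bool) (G : Subgroup F2) (κ : Bool) (v : F2)
    (h : C3_A α σ G κ v) : ∃ p q, un α = p ++ q ∧ Co G (v * (pv q)⁻¹) := by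
  rcases h with ⟨_, h⟩ | ⟨_, h⟩ | h
  · exact ⟨[], un α, rfl, h.2⟩
  · exact ⟨[], un α, rfl, h.2⟩
  · obtain ⟨p, q, hpq, hC⟩ := fgE_core h
    refine ⟨p, q, hpq, ?_⟩
    have h1 : v * (pv (un α))⁻¹ * pv p = v * (pv q)⁻¹ := by
      rw [hpq, pv_append, mul_inv_rev, ← mul_assoc, inv_mul_cancel_right]
    rw [h1] at hC
    exact hC

private theorem C3_hZc (β : CW) (ε : Bool × Bool) (G : Subgroup F2) (κ : Bool) (v : F2)
    (h : C3_Z β ε G κ v) : ∃ p q, un β = p ++ q ∧ Co G (v * pv p) := by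
  rcases h with h | ⟨_, h⟩ | ⟨_, h⟩
  · exact fgE_core h
  · exact ⟨un β, [], (List.append_nil _).symm, h.2⟩
  · exact ⟨un β, [], (List.append_nil _).symm, h.2⟩

theorem swap {H K : Subgroup F2} (hHK : H ≤ K) {u u' : List (Fin 2)}
    (h : info H K u = info H K u') (l r : Bool) (α β : CW) (σ ε : Bool × Bool)
    (hb : Bad H K (α ++ co u l r ++ β) σ ε) : Bad H K (α ++ co u' l r ++ β) σ ε := by
  obtain ⟨v, hv, hc⟩ := hb
  have hb' : ∃ v, (∀ κ, C3_A α σ K κ v ∨ fg (E K) (co u l r) v κ ∨ C3_Z β ε K κ (v * pv u)) ∧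
      ∀ c ∈ K, ¬ ∀ κ, C3_A α σ H κ (c * v) ∨ fg (E H) (co u l r) (c * v) κ ∨
        C3_Z β ε H κ (c * v * pv u) := by
    refine ⟨v * pv (un α), fun κ => (C3_cr α β u l r σ ε K v κ).1 (hv κ), ?_⟩
    intro c hcK hcon
    refine hc c hcK fun κ => (C3_cr α β u l r σ ε H (c * v) κ).2 ?_
    have h1 := hcon κ
    rw [← mul_assoc] at h1
    exact h1
  obtain ⟨w, hw, hcw⟩ := swap_abs hHK (C3_A α σ) (C3_Z β ε) (un α) (un β) (C3_hA α σ)
    (C3_hZ β ε) (C3_hAc α σ) (C3_hZc β ε) h l r hb'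
  refine ⟨w * (pv (un α))⁻¹, fun κ => (C3_cr' α β u' l r σ ε K w κ).2 (hw κ), ?_⟩
  intro c hcK hcon
  refine hcw c hcK fun κ => (C3_cr' α β u' l r σ ε H (c * w) κ).1 ?_
  have h1 := hcon κ
  rw [← mul_assoc] at h1
  exact h1

end OK71
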