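import Pool.Agent.LibOK71.C0
import Pool.Agent.LibOK71.A8

/-!
[OK71 C4] (MEDIUM) the number of infos.
Let `G = closure S`, `sz S ≤ n`. By `core_card` the values of `stt G` lie in the finite set `insert none (R.image fun ρ => some (Quotient.mk _ ρ))` with at most `n + 1` elements (`v * ρ⁻¹ ∈ G`: same coset, `Quotient.eq`, `QuotientGroup.rightRel_apply`), so the values of `ty G u v` lie in the product `O ×ˢ univ ×ˢ univ ×ˢ O` (`Fintype Prop`, `Fintype.card_prop`) with at most `4 (n + 1) ^ 2` elements.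
So `info H K u` is a subset of the finite set `P := A ×ˢ B.powerset` (as sets of pairs), `card A ≤ 4 (n + 1) ^ 2`, `card (powerset B) ≤ 2 ^ (4 (n + 1) ^ 2)`; the set of the subsets of `P` has at most `2 ^ (4 (n + 1) ^ 2 * 2 ^ (4 (n + 1) ^ 2)) = NN n` elements. `Set.ncard_le_ncard`, `Set.ncard_powerset`/`Finset.card_powerset`, `Set.Finite.powerset`, `Set.ncard_prod`; or with `Finset`s and `Set.ncard_coe_finset`.
-/

set_option autoImplicit false

namespace OK71

private theorem C4_ty {S : List F2} {n : ℕ} (hS : sz S ≤ n) :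
    ∃ B : Set (Option (Quotient (QuotientGroup.rightRel (Subgroup.closure {s | s ∈ S}))) × Prop × Prop ×
        Option (Quotient (QuotientGroup.rightRel (Subgroup.closure {s | s ∈ S})))),
      B.Finite ∧ B.ncard ≤ 4 * (n + 1) ^ 2 ∧ ∀ u v, ty (Subgroup.closure {s | s ∈ S}) u v ∈ B := by
  classical
  obtain ⟨R, hR, hcore⟩ := core_card S
  let A : Finset (Option (Quotient (QuotientGroup.rightRel (Subgroup.closure {s | s ∈ S})))) :=
    insert none (R.image fun ρ => some (Quotient.mk _ ρ))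
  have hA : ∀ v, stt (Subgroup.closure {s | s ∈ S}) v ∈ A := by
    intro v
    unfold stt
    by_cases h : Co (Subgroup.closure {s | s ∈ S}) v
    · rw [if_pos h]
      obtain ⟨ρ, hρ, hvρ⟩ := hcore v h
      refine Finset.mem_insert_of_mem (Finset.mem_image.2 ⟨ρ, hρ, ?_⟩)
      rw [Option.some.injEq, Quotient.eq, QuotientGroup.rightRel_apply]
      exact hvρ
    · rw [if_neg h]
      exact Finset.mem_insert_self _ _
  have hAc : A.card ≤ n + 1 := by
    refine (Finset.card_insert_le _ _).trans ?_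
    exact Nat.add_le_add_right (Finset.card_image_le.trans (hR.trans hS)) 1
  let B := A ×ˢ ((Finset.univ : Finset Prop) ×ˢ ((Finset.univ : Finset Prop) ×ˢ A))
  refine ⟨(B : Set _), B.finite_toSet, ?_, fun u v => ?_⟩
  · rw [Set.ncard_coe_finset, Finset.card_product, Finset.card_product, Finset.card_product,
      Finset.card_univ, Fintype.card_prop]
    calc A.card * (2 * (2 * A.card)) = 4 * A.card ^ 2 := by ring
      _ ≤ 4 * (n + 1) ^ 2 := Nat.mul_le_mul_left _ (Nat.pow_le_pow_left hAc 2)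
  · rw [Finset.mem_coe]
    exact Finset.mem_product.2 ⟨hA v, Finset.mem_product.2 ⟨Finset.mem_univ _,
      Finset.mem_product.2 ⟨Finset.mem_univ _, hA _⟩⟩⟩

theorem info_card {S T : List F2} {n : ℕ} (hS : sz S ≤ n) (hT : sz T ≤ n) :
    (Set.range (info (Subgroup.closure {s | s ∈ S}) (Subgroup.closure {t | t ∈ T}))).Finite ∧
    (Set.range (info (Subgroup.closure {s | s ∈ S}) (Subgroup.closure {t | t ∈ T}))).ncard
      ≤ NN n := by
  obtain ⟨B, hB, hBc, hBm⟩ := C4_ty hS
  obtain ⟨A, hA, hAc, hAm⟩ := C4_ty hT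
  have hP : (A ×ˢ (𝒫 B)).Finite := hA.prod hB.powerset
  have hsub : Set.range (info (Subgroup.closure {s | s ∈ S}) (Subgroup.closure {t | t ∈ T})) ⊆
      𝒫 (A ×ˢ (𝒫 B)) := by
    rintro _ ⟨u, rfl⟩
    rw [Set.mem_powerset_iff]
    rintro t ⟨v, rfl⟩
    refine Set.mem_prod.2 ⟨hAm u v, ?_⟩
    rw [Set.mem_powerset_iff]
    rintro s ⟨c, -, rfl⟩
    exact hBm u (c * v)
  refine ⟨hP.powerset.subset hsub, (Set.ncard_le_ncard hsub hP.powerset).trans ?_⟩
  rw [Set.ncard_powerset _ hP, Set.ncard_prod, Set.ncard_powerset _ hB]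
  unfold NN
  exact Nat.pow_le_pow_right (by norm_num)
    (Nat.mul_le_mul hAc (Nat.pow_le_pow_right (by norm_num) hBc))

end OK71
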