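import Pool.Agent.LibOK71.Defs

/-!
[OK71 C5] (SHORT/MEDIUM) pigeonhole.
Take `m` with `B m` of minimal length (`Nat.find` or `WellFounded.min`). Suppose `Nat.card I ≤ m.length`. The `m.length + 1` lists `m.drop i`, `i ≤ m.length`, have two with the same value of `f` (`Finite.exists_ne_map_eq_of_infinite` is not enough: `Fintype.exists_ne_map_eq_of_card_lt` for `Fin (m.length + 1) → I`): `i < j`. So `R (m.drop i) (m.drop j)` and
`R (m.drop j) (m.drop i)` by `hR` (symmetric hypothesis); with `m = m.take i ++ m.drop i` and `hstep` (induction on `m.take i`, `List.foldr`-like) `R m (m.take i ++ m.drop j)`, so `B` holds for the shorter list.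
-/

set_option autoImplicit false

namespace OK71

theorem pigeon {I : Type} [Finite I] (f : List Bool → I) (R : List Bool → List Bool → Prop)
    (hR : ∀ m m', f m = f m' → R m m') (hstep : ∀ m m' μ, R m m' → R (μ :: m) (μ :: m'))
    (B : List Bool → Prop) (hB : ∀ m m', R m m' → B m → B m') (h : ∃ m, B m) :
    ∃ m, m.length < Nat.card I ∧ B m := by
  classical
  have hfin : Fintype I := Fintype.ofFinite I
  obtain ⟨m, hm, hmin⟩ : ∃ m, B m ∧ ∀ m', B m' → m.length ≤ m'.length := by
    obtain ⟨m0, hm0⟩ := h
    have hex : ∃ n, ∃ m, B m ∧ m.length = n := ⟨_, m0, hm0, rfl⟩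
    obtain ⟨m, hm, hl⟩ := Nat.find_spec hex
    refine ⟨m, hm, fun m' hm' => ?_⟩
    rw [hl]
    exact Nat.find_min' hex ⟨m', hm', rfl⟩
  refine ⟨m, ?_, hm⟩
  by_contra hcon
  push Not at hcon
  have happ : ∀ l m m' : List Bool, R m m' → R (l ++ m) (l ++ m') := by
    intro l
    induction l with
    | nil => intro m m' h; exact h
    | cons a l ih => intro m m' h; exact hstep _ _ a (ih m m' h)
  have hcard : Fintype.card I < Fintype.card (Fin (m.length + 1)) := by
    rw [Fintype.card_fin, ← Nat.card_eq_fintype_card]
    omega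
  obtain ⟨i, j, hij, hf⟩ :=
    Fintype.exists_ne_map_eq_of_card_lt (fun i : Fin (m.length + 1) => f (m.drop i.val)) hcard
  have key : ∀ i j : ℕ, i < j → j ≤ m.length → f (m.drop i) = f (m.drop j) → False := by
    intro i j hlt hj hf
    have h1 : R m (m.take i ++ m.drop j) := by
      have h2 := happ (m.take i) _ _ (hR _ _ hf)
      rw [List.take_append_drop] at h2
      exact h2
    have h3 := hmin _ (hB _ _ h1 hm)
    rw [List.length_append, List.length_take, List.length_drop] at h3
    omega
  have hi := i.isLt
  have hj := j.isLt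
  rcases lt_trichotomy i.val j.val with h1 | h1 | h1
  · exact key _ _ h1 (by omega) hf
  · exact hij (Fin.ext h1)
  · exact key _ _ h1 (by omega) hf.symm

end OK71
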