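import Pool.Agent.LibOK71.C3
import Pool.Agent.LibOK71.C4
import Pool.Agent.LibOK71.C5

/-!
[OK71 C6] (MEDIUM) a bad word is found in a bounded number of steps.
`u ≈ u'` := `∀ l r α β σ ε, Bad H K (α ++ co u l r ++ β) σ ε ↔ Bad H K (α ++ co u' l r ++ β) σ ε`; it holds if `info H K u = info H K u'` (`swap`, both directions). It is a congruence: `u ≈ u'`, `v ≈ v'` imply `u ++ v ≈ u' ++ v'` (`co_append`, `List.append_assoc`, transitivity), and `u ≈ u` .
`pigeon` with `I := (Set.range (info H K))^3` (subtype, `Finite` by `info_card`; `Nat.card I ≤ NN n ^ 3`: `Nat.card_prod`, `Nat.card_coe_set_eq`), `f m := ` the infos of the three words of `wd m`, `R m m'` := the three words are `≈`; `hstep`: the words of `μ :: m` are concatenations of those of `m` (and the constant words `[0]`, `[1]`);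
`B m := Bad H K (co (wd m).2.2 true false) tf tf` (`α = β = []`).
-/

set_option autoImplicit false

namespace OK71

private def C6_eq (H K : Subgroup F2) (u u' : List (Fin 2)) : Prop :=
  ∀ (l r : Bool) (α β : CW) (σ ε : Bool × Bool),
    Bad H K (α ++ co u l r ++ β) σ ε ↔ Bad H K (α ++ co u' l r ++ β) σ ε

private theorem C6_refl (H K : Subgroup F2) (u : List (Fin 2)) : C6_eq H K u u :=
  fun _ _ _ _ _ _ => Iff.rfl

private theorem C6_app {H K : Subgroup F2} {u u' v v' : List (Fin 2)} (h1 : C6_eq H K u u')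
    (h2 : C6_eq H K v v') : C6_eq H K (u ++ v) (u' ++ v') := by
  intro l r α β σ ε
  have e1 : ∀ x y : List (Fin 2), α ++ co (x ++ y) l r ++ β = α ++ co x l r ++ (co y l r ++ β) := by
    intro x y
    simp [co]
  have e2 : ∀ x y : List (Fin 2), α ++ co (x ++ y) l r ++ β = (α ++ co x l r) ++ co y l r ++ β := by
    intro x y
    simp [co]
  rw [e1 u v, h1 l r α (co v l r ++ β) σ ε, ← e1 u' v, e2 u' v,
    h2 l r (α ++ co u' l r) β σ ε, ← e2 u' v']

private theorem C6_of {H K : Subgroup F2} (hHK : H ≤ K) {u u' : List (Fin 2)}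
    (h : info H K u = info H K u') : C6_eq H K u u' :=
  fun l r α β σ ε => ⟨swap hHK h l r α β σ ε, swap hHK h.symm l r α β σ ε⟩

private def C6_R (H K : Subgroup F2) (m m' : List Bool) : Prop :=
  C6_eq H K (wd m).1 (wd m').1 ∧ C6_eq H K (wd m).2.1 (wd m').2.1 ∧
    C6_eq H K (wd m).2.2 (wd m').2.2

private theorem C6_step {H K : Subgroup F2} (m m' : List Bool) (μ : Bool)
    (h : C6_R H K m m') : C6_R H K (μ :: m) (μ :: m') := by
  obtain ⟨h1, h2, h3⟩ := h
  cases μ with
  | false =>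
    refine ⟨h1, ?_, ?_⟩
    · exact C6_app h1 (C6_app (C6_refl H K [0]) h2)
    · exact C6_app h1 (C6_app (C6_refl H K [0]) h3)
  | true =>
    refine ⟨?_, h2, ?_⟩
    · exact C6_app h2 (C6_app (C6_refl H K [1]) h1)
    · exact C6_app h2 (C6_app (C6_refl H K [1]) h3)

theorem bad_bound {S T : List F2} {n : ℕ} (hS : sz S ≤ n) (hT : sz T ≤ n)
    (hST : Subgroup.closure {s | s ∈ S} ≤ Subgroup.closure {t | t ∈ T})
    (h : ∃ m, Bad (Subgroup.closure {s | s ∈ S}) (Subgroup.closure {t | t ∈ T})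
      (co (wd m).2.2 true false) tf tf) :
    ∃ m, m.length < NN n ^ 3 ∧
      Bad (Subgroup.closure {s | s ∈ S}) (Subgroup.closure {t | t ∈ T})
        (co (wd m).2.2 true false) tf tf := by
  obtain ⟨hfin, hcard⟩ := info_card (S := S) (T := T) hS hT
  obtain ⟨H, hH⟩ : ∃ H, H = Subgroup.closure {s | s ∈ S} := ⟨_, rfl⟩
  obtain ⟨K, hK⟩ : ∃ K, K = Subgroup.closure {t | t ∈ T} := ⟨_, rfl⟩
  rw [← hH, ← hK] at h hST hfin hcard ⊢
  have : Finite (Set.range (info H K)) := hfin
  have hc : Nat.card (Set.range (info H K)) ≤ NN n := by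
    rw [Nat.card_coe_set_eq]; exact hcard
  let g : List (Fin 2) → Set.range (info H K) := fun u => ⟨info H K u, ⟨u, rfl⟩⟩
  have hg : ∀ u u', g u = g u' → C6_eq H K u u' := by
    intro u u' hu
    exact C6_of hST (Subtype.ext_iff.1 hu)
  obtain ⟨m, hm1, hm2⟩ := pigeon
    (I := Set.range (info H K) × Set.range (info H K) × Set.range (info H K))
    (fun m => (g (wd m).1, g (wd m).2.1, g (wd m).2.2)) (C6_R H K)
    (by
      intro m m' hm
      rw [Prod.mk.injEq, Prod.mk.injEq] at hm
      exact ⟨hg _ _ hm.1, hg _ _ hm.2.1, hg _ _ hm.2.2⟩)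
    C6_step
    (fun m => Bad H K (co (wd m).2.2 true false) tf tf)
    (by
      intro m m' hm hb
      have h1 := hm.2.2 true false [] [] tf tf
      simp only [List.nil_append, List.append_nil] at h1
      exact h1.1 hb)
    h
  refine ⟨m, lt_of_lt_of_le hm1 ?_, hm2⟩
  rw [Nat.card_prod, Nat.card_prod]
  calc Nat.card (Set.range (info H K)) *
        (Nat.card (Set.range (info H K)) * Nat.card (Set.range (info H K)))
      ≤ NN n * (NN n * NN n) := Nat.mul_le_mul hc (Nat.mul_le_mul hc hc)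
    _ = NN n ^ 3 := by ring

end OK71
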