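import Pool.Agent.LibOK71.A1
import Pool.Agent.LibOK71.B1

/-!
[OK71 D0] (SHORT/MEDIUM) relations between automorphisms of the free group of rank 2.
Every identity is checked on the generators: `MulEquiv.ext` is not needed, use `ext_aut` (prove it first: two automorphisms which agree on `of 0` and `of 1` are equal; `FreeGroup.ext_hom`, `MulEquiv.toMonoidHom_injective`). `lam⁻¹ = lam.symm` (rfl), `lam_symm_of1`, `MulAut.conj_apply`, `simp`, `group`.
conj_aut: `ψ * conj g = conj (ψ g) * ψ` (ext, `map_mul`). iv: `a ↦ a⁻¹, b ↦ b⁻¹` is `sg * (sw * sg * sw)`. The relations: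
rel1: `sg * lam * sg = conj a * lam⁻¹`; rel2: `sg * rho * sg = rho⁻¹`; rel3: `rho * lam⁻¹ = conj (a⁻¹) * lam * w1` with `w1 = sw * sg`-like: `w1 a = b, w1 b = a⁻¹`; rel4: `lam * rho⁻¹ = conj (b⁻¹) * rho * w2`, `w2 a = b⁻¹, w2 b = a`; rel5: `sw * lam * sw = rho`.
-/

set_option autoImplicit false

namespace OK71

theorem ext_aut {ψ χ : MulAut F2} (h0 : ψ (FreeGroup.of 0) = χ (FreeGroup.of 0))
    (h1 : ψ (FreeGroup.of 1) = χ (FreeGroup.of 1)) : ψ = χ := by
  have h : ψ.toMonoidHom = χ.toMonoidHom := by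
    refine FreeGroup.ext_hom _ _ ?_
    intro i
    fin_cases i
    · exact h0
    · exact h1
  exact MulEquiv.toMonoidHom_injective h

theorem sw_of0 : sw (FreeGroup.of 0) = FreeGroup.of 1 := by
  simp [sw]

theorem sw_of1 : sw (FreeGroup.of 1) = FreeGroup.of 0 := by
  simp [sw]

theorem sg_of0 : sg (FreeGroup.of 0) = FreeGroup.of 0 := by
  simp [sg]

theorem sg_of1 : sg (FreeGroup.of 1) = (FreeGroup.of 1)⁻¹ := by
  simp [sg]

theorem sw_sw : sw * sw = 1 := by
  refine ext_aut ?_ ?_ <;> simp [MulAut.mul_apply, sw_of0, sw_of1]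

theorem sg_sg : sg * sg = 1 := by
  refine ext_aut ?_ ?_ <;> simp [MulAut.mul_apply, sg_of0, sg_of1]

theorem conj_aut (ψ : MulAut F2) (g : F2) : ψ * MulAut.conj g = MulAut.conj (ψ g) * ψ := by
  refine MulEquiv.ext fun x => ?_
  simp [MulAut.mul_apply, MulAut.conj_apply]

private theorem D0_lam_inv0 : lam⁻¹ (FreeGroup.of 0) = FreeGroup.of 0 := lam_symm_of0

private theorem D0_lam_inv1 : lam⁻¹ (FreeGroup.of 1) = (FreeGroup.of 0)⁻¹ * FreeGroup.of 1 :=
  lam_symm_of1

private theorem D0_rho_inv0 : rho⁻¹ (FreeGroup.of 0) = (FreeGroup.of 1)⁻¹ * FreeGroup.of 0 := by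
  refine (MulEquiv.symm_apply_eq rho).2 ?_
  rw [map_mul, map_inv, rho_of0, rho_of1, inv_mul_cancel_left]

private theorem D0_rho_inv1 : rho⁻¹ (FreeGroup.of 1) = FreeGroup.of 1 := by
  refine (MulEquiv.symm_apply_eq rho).2 ?_
  rw [rho_of1]

theorem rel1 : sg * lam * sg = MulAut.conj (FreeGroup.of 0) * lam⁻¹ := by
  refine ext_aut ?_ ?_
  · simp only [MulAut.mul_apply, MulAut.conj_apply, sg_of0, lam_of0, D0_lam_inv0]
    group
  · simp only [MulAut.mul_apply, MulAut.conj_apply, sg_of0, sg_of1, lam_of1, map_mul, map_inv, D0_lam_inv1]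
    group

theorem rel2 : sg * rho * sg = rho⁻¹ := by
  refine ext_aut ?_ ?_
  · simp only [MulAut.mul_apply, sg_of0, sg_of1, rho_of0, map_mul, D0_rho_inv0]
  · simp only [MulAut.mul_apply, sg_of1, rho_of1, map_inv, D0_rho_inv1, inv_inv]

theorem rel3 : ∃ w ∈ Subgroup.closure ({sw, sg} : Set (MulAut F2)),
    rho * lam⁻¹ = MulAut.conj (FreeGroup.of 0)⁻¹ * lam * w := by
  refine ⟨sw * sg, Subgroup.mul_mem _ (Subgroup.subset_closure (by simp))
    (Subgroup.subset_closure (by simp)), ?_⟩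
  refine ext_aut ?_ ?_
  · simp only [MulAut.mul_apply, MulAut.conj_apply, D0_lam_inv0, rho_of0, sg_of0, sw_of0, lam_of1]
    group
  · simp only [MulAut.mul_apply, MulAut.conj_apply]
    simp only [D0_lam_inv1, rho_of0, rho_of1, sg_of1, sw_of1, lam_of0, map_mul, map_inv]
    group

theorem rel4 : ∃ w ∈ Subgroup.closure ({sw, sg} : Set (MulAut F2)),
    lam * rho⁻¹ = MulAut.conj (FreeGroup.of 1)⁻¹ * rho * w := by
  refine ⟨sg * sw, Subgroup.mul_mem _ (Subgroup.subset_closure (by simp))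
    (Subgroup.subset_closure (by simp)), ?_⟩
  refine ext_aut ?_ ?_
  · simp only [MulAut.mul_apply, MulAut.conj_apply]
    simp only [D0_rho_inv0, lam_of0, lam_of1, sg_of1, sw_of0, rho_of1, map_mul, map_inv]
    group
  · simp only [MulAut.mul_apply, MulAut.conj_apply, D0_rho_inv1, lam_of1, sg_of0, sw_of1,
      rho_of0]
    group

theorem rel5 : sw * lam * sw = rho := by
  refine ext_aut ?_ ?_
  · simp only [MulAut.mul_apply, sw_of0, sw_of1, lam_of1, map_mul, rho_of0]
  · simp only [MulAut.mul_apply, sw_of0, sw_of1, lam_of0, rho_of1]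

/-- `sw sg sw` fixes `b` and inverts `a`; it conjugates `lam` to its inverse -/
theorem rel6 : (sw * sg * sw) * lam * (sw * sg * sw) = lam⁻¹ := by
  refine ext_aut ?_ ?_
  · simp only [MulAut.mul_apply, sw_of0, sw_of1, sg_of1, lam_of0, map_inv, inv_inv, D0_lam_inv0]
  · simp only [MulAut.mul_apply, sw_of0, sw_of1, sg_of0, sg_of1, lam_of1, map_mul, map_inv,
      D0_lam_inv1]

end OK71
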