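import Pool.Agent.LibOK71.D0

/-!
[OK71 D1] (MEDIUM) the normal form.
Let `𝒮` be the set of the `ψ` of the given form. (1) `1 ∈ 𝒮`. (2) `𝒮 * w ⊆ 𝒮` for `w ∈ W := closure {sw, sg}`. (3) `conj g * 𝒮 ⊆ 𝒮`. (4) `ph m * conj g ∈ conj _ * ph m` and `sg * conj g = conj (sg g) * sg` (conj_aut), so `σ * ph m * conj g * N` may be replaced by `conj _ * σ * ph m * N`.
(5) `ph m * N ∈ conj _ * (1 or sg) * ph m' * W` for `N = lam` (`ph (false :: m)`), `rho`, `lam⁻¹`, `rho⁻¹`: `lam⁻¹`: `m = false :: m'`: `ph m'`; `m = true :: m'`: rel3 and `ph m' * conj _`; `m = []`: rel1: `lam⁻¹ = conj a⁻¹ * sg * lam * sg`. `rho⁻¹`: `m = true :: m'`: `ph m'`; `m = false :: m'`: rel4; `m = []`: rel2.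
With a `sg` in front (`ε = true`): `m ≠ []` the same with `sg * conj g = conj (sg g) * sg`; `m = []`: `sg * lam⁻¹ = sg * conj a⁻¹ * sg * lam * sg = conj _ * lam * sg`, `sg * rho⁻¹ = rho * sg`.
(6) for `w ∈ W` and `N ∈ {lam, lam⁻¹}`: `w * N = conj g * N' * w` with `N' ∈ {lam, lam⁻¹, rho, rho⁻¹}` and some `g`: the set of the `w` with this property for all four `N` contains `sw` (rel5) and `sg` (rel1, rel2: `sg * lam = conj a * lam⁻¹ * sg`, …) and is closed under products and inverses (`sw⁻¹ = sw`, `sg⁻¹ = sg`, `Subgroup.closure_induction` or: every element of `W` is a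
product of `sw`, `sg`, `Submonoid`-style induction). So `𝒮 * lam ⊆ 𝒮`, `𝒮 * lam⁻¹ ⊆ 𝒮`. `Subgroup.closure_induction_right`.
-/

set_option autoImplicit false

namespace OK71

private def D1_S : Set (MulAut F2) := {ψ | ∃ (g : F2) (ε : Bool) (m : List Bool) (w : MulAut F2),
      w ∈ Subgroup.closure ({sw, sg} : Set (MulAut F2)) ∧
        ψ = MulAut.conj g * (if ε then sg else 1) * ph m * w}

private theorem D1_sw_mem : sw ∈ Subgroup.closure ({sw, sg} : Set (MulAut F2)) :=
  Subgroup.subset_closure (by simp)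

private theorem D1_sg_mem : sg ∈ Subgroup.closure ({sw, sg} : Set (MulAut F2)) :=
  Subgroup.subset_closure (by simp)

private theorem D1_sw_inv : sw⁻¹ = sw := by
  rw [inv_eq_iff_mul_eq_one]
  exact sw_sw

private theorem D1_sg_inv : sg⁻¹ = sg := by
  rw [inv_eq_iff_mul_eq_one]
  exact sg_sg

private theorem D1_mulW {ψ w : MulAut F2} (h : ψ ∈ D1_S)
    (hw : w ∈ Subgroup.closure ({sw, sg} : Set (MulAut F2))) : ψ * w ∈ D1_S := by
  obtain ⟨g, ε, m, w', hw', rfl⟩ := h
  exact ⟨g, ε, m, w' * w, mul_mem hw' hw, by rw [mul_assoc _ w' w]⟩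

private theorem D1_conj {ψ : MulAut F2} (g : F2) (h : ψ ∈ D1_S) : MulAut.conj g * ψ ∈ D1_S := by
  obtain ⟨g', ε, m, w', hw', rfl⟩ := h
  refine ⟨g * g', ε, m, w', hw', ?_⟩
  rw [map_mul]
  simp only [mul_assoc]

private theorem D1_base (ε : Bool) (m : List Bool) : (if ε then sg else 1) * ph m ∈ D1_S :=
  ⟨1, ε, m, 1, one_mem _, by rw [map_one, one_mul, mul_one]⟩

private theorem D1_one : (1 : MulAut F2) ∈ D1_S := by
  have h := D1_base false []
  simpa [ph] using h

/-- move a conjugation to the front -/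
private theorem D1_move {X Y : MulAut F2} (g : F2) (h : X * Y ∈ D1_S) :
    X * (MulAut.conj g * Y) ∈ D1_S := by
  rw [← mul_assoc, conj_aut, mul_assoc]
  exact D1_conj _ h

private theorem D1_lam_inv : lam⁻¹ = MulAut.conj (FreeGroup.of 0)⁻¹ * (sg * lam * sg) := by
  rw [rel1, ← mul_assoc, ← map_mul, inv_mul_cancel, map_one, one_mul]

private theorem D1_key_lam_inv (ε : Bool) (m : List Bool) :
    (if ε then sg else 1) * ph m * lam⁻¹ ∈ D1_S := by
  rcases m with _ | ⟨c, m⟩
  · rw [D1_lam_inv]
    refine D1_move _ ?_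
    have e1 : ph [] = 1 := rfl
    rw [e1, mul_one]
    rcases ε with _ | _
    · have h : (1 : MulAut F2) * (sg * lam * sg) = ((if true then sg else 1) * ph [false]) * sg := by
        simp [ph]
      simp only [Bool.false_eq_true, if_false]
      rw [h]
      exact D1_mulW (D1_base true [false]) D1_sg_mem
    · have h : sg * (sg * lam * sg) = ((if false then sg else 1) * ph [false]) * sg := by
        simp only [Bool.false_eq_true, if_false, ph, one_mul]
        rw [← mul_assoc, ← mul_assoc, sg_sg, one_mul]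
      simp only [if_true]
      rw [h]
      exact D1_mulW (D1_base false [false]) D1_sg_mem
  · rcases c with _ | _
    · have h : (if ε then sg else 1) * ph (false :: m) * lam⁻¹ = (if ε then sg else 1) * ph m := by
        show (if ε then sg else 1) * (ph m * lam) * lam⁻¹ = _
        rw [← mul_assoc, mul_inv_cancel_right]
      rw [h]
      exact D1_base ε m
    · obtain ⟨w, hw, h3⟩ := rel3
      have h : (if ε then sg else 1) * ph (true :: m) * lam⁻¹ =
          ((if ε then sg else 1) * ph m) * (MulAut.conj (FreeGroup.of 0)⁻¹ * (lam * w)) := by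
        show (if ε then sg else 1) * (ph m * rho) * lam⁻¹ = _
        rw [← mul_assoc (MulAut.conj _) lam w, ← h3]
        simp only [mul_assoc]
      rw [h]
      refine D1_move _ ?_
      have h4 : (if ε then sg else 1) * ph m * (lam * w) =
          ((if ε then sg else 1) * ph (false :: m)) * w := by
        show _ = (if ε then sg else 1) * (ph m * lam) * w
        simp only [mul_assoc]
      rw [h4]
      exact D1_mulW (D1_base ε (false :: m)) hw

private theorem D1_key_rho_inv (ε : Bool) (m : List Bool) :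
    (if ε then sg else 1) * ph m * rho⁻¹ ∈ D1_S := by
  rcases m with _ | ⟨c, m⟩
  · rw [← rel2]
    have e1 : ph [] = 1 := rfl
    rw [e1, mul_one]
    rcases ε with _ | _
    · have h : (1 : MulAut F2) * (sg * rho * sg) = ((if true then sg else 1) * ph [true]) * sg := by
        simp [ph]
      simp only [Bool.false_eq_true, if_false]
      rw [h]
      exact D1_mulW (D1_base true [true]) D1_sg_mem
    · have h : sg * (sg * rho * sg) = ((if false then sg else 1) * ph [true]) * sg := by
        simp only [Bool.false_eq_true, if_false, ph, one_mul]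
        rw [← mul_assoc, ← mul_assoc, sg_sg, one_mul]
      simp only [if_true]
      rw [h]
      exact D1_mulW (D1_base false [true]) D1_sg_mem
  · rcases c with _ | _
    · obtain ⟨w, hw, h3⟩ := rel4
      have h : (if ε then sg else 1) * ph (false :: m) * rho⁻¹ =
          ((if ε then sg else 1) * ph m) * (MulAut.conj (FreeGroup.of 1)⁻¹ * (rho * w)) := by
        show (if ε then sg else 1) * (ph m * lam) * rho⁻¹ = _
        rw [← mul_assoc (MulAut.conj _) rho w, ← h3]
        simp only [mul_assoc]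
      rw [h]
      refine D1_move _ ?_
      have h4 : (if ε then sg else 1) * ph m * (rho * w) =
          ((if ε then sg else 1) * ph (true :: m)) * w := by
        show _ = (if ε then sg else 1) * (ph m * rho) * w
        simp only [mul_assoc]
      rw [h4]
      exact D1_mulW (D1_base ε (true :: m)) hw
    · have h : (if ε then sg else 1) * ph (true :: m) * rho⁻¹ = (if ε then sg else 1) * ph m := by
        show (if ε then sg else 1) * (ph m * rho) * rho⁻¹ = _
        rw [← mul_assoc, mul_inv_cancel_right]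
      rw [h]
      exact D1_base ε m

private def D1_N : Set (MulAut F2) := {lam, lam⁻¹, rho, rho⁻¹}

private theorem D1_key (ε : Bool) (m : List Bool) {N : MulAut F2} (hN : N ∈ D1_N) :
    (if ε then sg else 1) * ph m * N ∈ D1_S := by
  rcases hN with rfl | rfl | rfl | rfl
  · have h : (if ε then sg else 1) * ph m * lam = (if ε then sg else 1) * ph (false :: m) := by
      show _ = (if ε then sg else 1) * (ph m * lam)
      rw [mul_assoc]
    rw [h]
    exact D1_base ε _
  · exact D1_key_lam_inv ε m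
  · have h : (if ε then sg else 1) * ph m * rho = (if ε then sg else 1) * ph (true :: m) := by
      show _ = (if ε then sg else 1) * (ph m * rho)
      rw [mul_assoc]
    rw [h]
    exact D1_base ε _
  · exact D1_key_rho_inv ε m

private theorem D1_gen {y N : MulAut F2} (hy : y ∈ ({sw, sg} : Set (MulAut F2))) (hN : N ∈ D1_N) :
    ∃ (g : F2) (N' : MulAut F2), N' ∈ D1_N ∧ y * N = MulAut.conj g * N' * y := by
  rcases hy with rfl | rfl
  · have h1 : sw * lam = rho * sw := by
      rw [← rel5, mul_assoc, sw_sw, mul_one]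
    have h2 : sw * rho = lam * sw := by
      rw [← rel5, ← mul_assoc, ← mul_assoc, sw_sw, one_mul]
    have h3 : sw * lam⁻¹ = rho⁻¹ * sw := by
      rw [eq_inv_mul_iff_mul_eq, ← mul_assoc, ← h1, mul_inv_cancel_right]
    have h4 : sw * rho⁻¹ = lam⁻¹ * sw := by
      rw [eq_inv_mul_iff_mul_eq, ← mul_assoc, ← h2, mul_inv_cancel_right]
    rcases hN with rfl | rfl | rfl | rfl
    · exact ⟨1, rho, by simp [D1_N], by rw [map_one, one_mul, h1]⟩
    · exact ⟨1, rho⁻¹, by simp [D1_N], by rw [map_one, one_mul, h3]⟩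
    · exact ⟨1, lam, by simp [D1_N], by rw [map_one, one_mul, h2]⟩
    · exact ⟨1, lam⁻¹, by simp [D1_N], by rw [map_one, one_mul, h4]⟩
  · have h1 : sg * lam = MulAut.conj (FreeGroup.of 0) * lam⁻¹ * sg := by
      rw [← rel1, mul_assoc (sg * lam), sg_sg, mul_one]
    have h2 : sg * rho = rho⁻¹ * sg := by
      rw [← rel2, mul_assoc (sg * rho), sg_sg, mul_one]
    have h3 : sg * rho⁻¹ = rho * sg := by
      rw [← inv_inj, mul_inv_rev, mul_inv_rev, inv_inv, D1_sg_inv]
      rw [← rel2]
      rw [← mul_assoc, ← mul_assoc, sg_sg, one_mul]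
    have h4 : sg * lam⁻¹ = MulAut.conj (lam (FreeGroup.of 0)⁻¹) * lam * sg := by
      have e1 : (sg * lam * sg)⁻¹ = (MulAut.conj (FreeGroup.of 0) * lam⁻¹)⁻¹ := by rw [rel1]
      rw [mul_inv_rev, mul_inv_rev, mul_inv_rev, inv_inv, D1_sg_inv, ← map_inv] at e1
      rw [← conj_aut, ← e1, mul_assoc, mul_assoc, sg_sg, mul_one]
    rcases hN with rfl | rfl | rfl | rfl
    · exact ⟨FreeGroup.of 0, lam⁻¹, by simp [D1_N], h1⟩
    · exact ⟨lam (FreeGroup.of 0)⁻¹, lam, by simp [D1_N], h4⟩
    · exact ⟨1, rho⁻¹, by simp [D1_N], by rw [map_one, one_mul, h2]⟩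
    · exact ⟨1, rho, by simp [D1_N], by rw [map_one, one_mul, h3]⟩

private theorem D1_W {w : MulAut F2} (hw : w ∈ Subgroup.closure ({sw, sg} : Set (MulAut F2))) :
    ∀ N ∈ D1_N, ∃ (g : F2) (N' : MulAut F2), N' ∈ D1_N ∧ w * N = MulAut.conj g * N' * w := by
  have step : ∀ x y : MulAut F2, y ∈ ({sw, sg} : Set (MulAut F2)) →
      (∀ N ∈ D1_N, ∃ (g : F2) (N' : MulAut F2), N' ∈ D1_N ∧ x * N = MulAut.conj g * N' * x) →
      ∀ N ∈ D1_N, ∃ (g : F2) (N' : MulAut F2), N' ∈ D1_N ∧ x * y * N = MulAut.conj g * N' * (x * y) := by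
    intro x y hy hx N hN
    obtain ⟨g1, N1, hN1, e1⟩ := D1_gen hy hN
    obtain ⟨g2, N2, hN2, e2⟩ := hx N1 hN1
    refine ⟨x g1 * g2, N2, hN2, ?_⟩
    calc x * y * N = x * (y * N) := mul_assoc _ _ _
      _ = x * (MulAut.conj g1 * N1 * y) := by rw [e1]
      _ = (x * MulAut.conj g1) * N1 * y := by simp only [mul_assoc]
      _ = MulAut.conj (x g1) * (x * N1) * y := by rw [conj_aut]; simp only [mul_assoc]
      _ = MulAut.conj (x g1) * (MulAut.conj g2 * N2 * x) * y := by rw [e2]
      _ = MulAut.conj (x g1 * g2) * N2 * (x * y) := by rw [map_mul]; simp only [mul_assoc]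
  induction hw using Subgroup.closure_induction_right with
  | one =>
    intro N hN
    exact ⟨1, N, hN, by simp⟩
  | mul_right x hx y hy ih => exact step x y hy ih
  | mul_inv_cancel x hx y hy ih =>
    have hyy : y⁻¹ = y := by
      rcases hy with rfl | rfl
      · exact D1_sw_inv
      · exact D1_sg_inv
    rw [hyy]
    exact step x y hy ih

private theorem D1_mulN {ψ N : MulAut F2} (h : ψ ∈ D1_S) (hN : N ∈ D1_N) : ψ * N ∈ D1_S := by
  obtain ⟨g, ε, m, w, hw, rfl⟩ := h
  obtain ⟨g', N', hN', e⟩ := D1_W hw N hN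
  have h1 : MulAut.conj g * (if ε then sg else 1) * ph m * w * N =
      MulAut.conj g * ((((if ε then sg else 1) * ph m) * (MulAut.conj g' * N')) * w) := by
    rw [mul_assoc _ w N, e]
    simp only [mul_assoc]
  rw [h1]
  exact D1_conj _ (D1_mulW (D1_move _ (D1_key ε m hN')) hw)

theorem normal_form {ψ : MulAut F2}
    (h : ψ ∈ Subgroup.closure ({lam, sw, sg} : Set (MulAut F2))) :
    ∃ (g : F2) (ε : Bool) (m : List Bool) (w : MulAut F2),
      w ∈ Subgroup.closure ({sw, sg} : Set (MulAut F2)) ∧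
        ψ = MulAut.conj g * (if ε then sg else 1) * ph m * w := by
  show ψ ∈ D1_S
  induction h using Subgroup.closure_induction_right with
  | one => exact D1_one
  | mul_right x hx y hy ih =>
    rcases hy with rfl | rfl | rfl
    · exact D1_mulN ih (by simp [D1_N])
    · exact D1_mulW ih D1_sw_mem
    · exact D1_mulW ih D1_sg_mem
  | mul_inv_cancel x hx y hy ih =>
    rcases hy with rfl | rfl | rfl
    · exact D1_mulN ih (by simp [D1_N])
    · exact D1_mulW ih (inv_mem D1_sw_mem)
    · exact D1_mulW ih (inv_mem D1_sg_mem)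

end OK71
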