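import Pool.Agent.LibOK71.D0

/-!
[OK71 D2] (SHORT/MEDIUM) `Go` and the automorphisms `sw`, `sg`.
`fl (sw m) = (fl m).map fun ℓ => (1 - ℓ.1, ℓ.2)` and `fl (sg m) = (fl m).map fun ℓ => if ℓ.1 = 1 then il ℓ else ℓ`: the word of the image is the image of the word (the map on letters is injective and compatible with `il`, so the image of a reduced word is reduced; `FreeGroup.lift_apply_mk`/induction on the word with `toWord_el_mul`).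
`M (pb sw G) v ℓ ↔ M G (sw v) (letter of ℓ)`: `sw⁻¹ = sw`, `dr (sw v) (sw k) = fl (sw (v⁻¹ k v))`. Then `E`, `Go` (substitute `v ↦ sw v`, `c ↦ sw c`). Closure: `Subgroup.closure_induction` with `pb_mul`, `pb_one`; inverses: `sw⁻¹ = sw`, `sg⁻¹ = sg` (or apply the statement to the pair `pb ψ⁻¹`).
-/

set_option autoImplicit false

namespace OK71

private theorem D2_mk {ψ : MulAut F2} {τ : Lt → Lt} (hel : ∀ ℓ, ψ (el ℓ) = el (τ ℓ))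
    (r : List Lt) : ψ (FreeGroup.mk r) = FreeGroup.mk (r.map τ) := by
  induction r with
  | nil => rw [List.map_nil, ← FreeGroup.one_eq_mk, map_one]
  | cons ℓ r ih => rw [mk_cons, map_mul, hel, ih, List.map_cons, mk_cons]

private theorem D2_inj {τ : Lt → Lt} (hτ : ∀ ℓ, τ (τ ℓ) = ℓ) {a b : Lt} (h : τ a = τ b) : a = b := by
  rw [← hτ a, h, hτ b]

private theorem D2_optinj {τ : Lt → Lt} (hτ : ∀ ℓ, τ (τ ℓ) = ℓ) {o : Option Lt} {b : Lt}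
    (h : o.map τ = some (τ b)) : o = some b := by
  cases o with
  | none => simp at h
  | some a =>
    rw [Option.map_some, Option.some.injEq] at h
    rw [D2_inj hτ h]

private theorem D2_red {τ : Lt → Lt} (hτ : ∀ ℓ, τ (τ ℓ) = ℓ) (hil : ∀ ℓ, τ (il ℓ) = il (τ ℓ))
    {r : List Lt} (hr : FreeGroup.IsReduced r) : FreeGroup.IsReduced (r.map τ) := by
  induction r with
  | nil => exact hr
  | cons a r ih =>
    rw [red_cons] at hr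
    rw [List.map_cons, red_cons]
    refine ⟨?_, ih hr.2⟩
    intro h
    rw [List.head?_map, ← hil] at h
    exact hr.1 (D2_optinj hτ h)

private theorem D2_fl {ψ : MulAut F2} {τ : Lt → Lt} (hτ : ∀ ℓ, τ (τ ℓ) = ℓ)
    (hil : ∀ ℓ, τ (il ℓ) = il (τ ℓ)) (hel : ∀ ℓ, ψ (el ℓ) = el (τ ℓ)) (k : F2) :
    fl (ψ k) = (fl k).map τ := by
  have h1 : ψ k = FreeGroup.mk (k.toWord.map τ) := by
    rw [← D2_mk hel, FreeGroup.mk_toWord]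
  rw [h1, fl_mk (D2_red hτ hil FreeGroup.isReduced_toWord), List.head?_map]
  rfl

private theorem D2_dr {ψ : MulAut F2} {τ : Lt → Lt} (hτ : ∀ ℓ, τ (τ ℓ) = ℓ)
    (hil : ∀ ℓ, τ (il ℓ) = il (τ ℓ)) (hel : ∀ ℓ, ψ (el ℓ) = el (τ ℓ)) (v k : F2) :
    dr (ψ v) (ψ k) = (dr v k).map τ := by
  rw [dr, dr, ← D2_fl hτ hil hel, map_mul, map_mul, map_inv]

private theorem D2_M {ψ : MulAut F2} {τ : Lt → Lt} (hτ : ∀ ℓ, τ (τ ℓ) = ℓ)
    (hil : ∀ ℓ, τ (il ℓ) = il (τ ℓ)) (hel : ∀ ℓ, ψ (el ℓ) = el (τ ℓ)) (hψ : ∀ k, ψ (ψ k) = k)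
    (G : Subgroup F2) (v : F2) (ℓ : Lt) : M (pb ψ G) v ℓ ↔ M G (ψ v) (τ ℓ) := by
  constructor
  · rintro ⟨k, hk, hd⟩
    refine ⟨ψ k, hk, ?_⟩
    rw [D2_dr hτ hil hel, hd, Option.map_some]
  · rintro ⟨k, hk, hd⟩
    refine ⟨ψ k, ?_, ?_⟩
    · rw [mem_pb, hψ]
      exact hk
    · apply D2_optinj hτ
      rw [← D2_dr hτ hil hel, hψ]
      exact hd

private theorem D2_Co {ψ : MulAut F2} {τ : Lt → Lt} (hτ : ∀ ℓ, τ (τ ℓ) = ℓ)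
    (hil : ∀ ℓ, τ (il ℓ) = il (τ ℓ)) (hel : ∀ ℓ, ψ (el ℓ) = el (τ ℓ)) (hψ : ∀ k, ψ (ψ k) = k)
    (G : Subgroup F2) (v : F2) : Co (pb ψ G) v ↔ Co G (ψ v) := by
  constructor
  · rintro ⟨ℓ, ℓ', hne, h1, h2⟩
    refine ⟨τ ℓ, τ ℓ', fun h => hne (D2_inj hτ h), ?_, ?_⟩
    · exact (D2_M hτ hil hel hψ G v ℓ).1 h1
    · exact (D2_M hτ hil hel hψ G v ℓ').1 h2
  · rintro ⟨ℓ, ℓ', hne, h1, h2⟩
    refine ⟨τ ℓ, τ ℓ', fun h => hne (D2_inj hτ h), ?_, ?_⟩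
    · rw [D2_M hτ hil hel hψ, hτ]
      exact h1
    · rw [D2_M hτ hil hel hψ, hτ]
      exact h2

private theorem D2_E {ψ : MulAut F2} {τ : Lt → Lt} (hτ : ∀ ℓ, τ (τ ℓ) = ℓ)
    (hil : ∀ ℓ, τ (il ℓ) = il (τ ℓ)) (hel : ∀ ℓ, ψ (el ℓ) = el (τ ℓ)) (hψ : ∀ k, ψ (ψ k) = k)
    (G : Subgroup F2) (v : F2) (ℓ : Lt) : E (pb ψ G) v ℓ ↔ E G (ψ v) (τ ℓ) := by
  rw [E, E, D2_M hτ hil hel hψ, D2_Co hτ hil hel hψ]

private theorem D2_Go {ψ : MulAut F2} {τ : Lt → Lt} (hτ : ∀ ℓ, τ (τ ℓ) = ℓ)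
    (hil : ∀ ℓ, τ (il ℓ) = il (τ ℓ)) (hel : ∀ ℓ, ψ (el ℓ) = el (τ ℓ)) (hψ : ∀ k, ψ (ψ k) = k)
    {H K : Subgroup F2} (h : ∀ ℓ, Go H K ℓ) (ℓ : Lt) : Go (pb ψ H) (pb ψ K) ℓ := by
  intro v hv
  rw [D2_E hτ hil hel hψ] at hv
  obtain ⟨c, hc, h2⟩ := h (τ ℓ) (ψ v) hv
  refine ⟨ψ c, ?_, ?_⟩
  · rw [mem_pb, hψ]
    exact hc
  · rw [D2_E hτ hil hel hψ, map_mul, hψ]
    exact h2

private theorem D2_el {ψ : MulAut F2} {τ : Lt → Lt} (hil : ∀ ℓ, τ (il ℓ) = il (τ ℓ))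
    (h : ∀ i, ψ (el (i, true)) = el (τ (i, true))) (ℓ : Lt) : ψ (el ℓ) = el (τ ℓ) := by
  obtain ⟨i, b⟩ := ℓ
  cases b with
  | true => exact h i
  | false =>
    have h1 : ((i, false) : Lt) = il (i, true) := rfl
    rw [h1, el_il, map_inv, h i, hil, el_il]

theorem Go_sw {H K : Subgroup F2} (h : ∀ ℓ, Go H K ℓ) (ℓ : Lt) : Go (pb sw H) (pb sw K) ℓ := by
  have hil : ∀ ℓ : Lt, (fun ℓ : Lt => ((1 - ℓ.1, ℓ.2) : Lt)) (il ℓ) =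
      il ((fun ℓ : Lt => ((1 - ℓ.1, ℓ.2) : Lt)) ℓ) := fun ℓ => rfl
  refine D2_Go (τ := fun ℓ => (1 - ℓ.1, ℓ.2)) ?_ hil (D2_el hil ?_) ?_ h ℓ
  · rintro ⟨i, b⟩
    fin_cases i <;> rfl
  · intro i
    fin_cases i
    · exact sw_of0
    · exact sw_of1
  · intro k
    have h1 := congrArg (fun χ : MulAut F2 => χ k) sw_sw
    exact h1

theorem Go_sg {H K : Subgroup F2} (h : ∀ ℓ, Go H K ℓ) (ℓ : Lt) : Go (pb sg H) (pb sg K) ℓ := by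
  have hil : ∀ ℓ : Lt, (fun ℓ : Lt => if ℓ.1 = 1 then il ℓ else ℓ) (il ℓ) =
      il ((fun ℓ : Lt => if ℓ.1 = 1 then il ℓ else ℓ) ℓ) := by
    rintro ⟨i, b⟩
    fin_cases i <;> rfl
  refine D2_Go (τ := fun ℓ => if ℓ.1 = 1 then il ℓ else ℓ) ?_ hil (D2_el hil ?_) ?_ h ℓ
  · rintro ⟨i, b⟩
    fin_cases i <;> cases b <;> rfl
  · intro i
    fin_cases i
    · exact sg_of0
    · show sg (FreeGroup.of 1) = el (il ((1, true) : Lt))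
      rw [sg_of1, el_il, el_true]
  · intro k
    have h1 := congrArg (fun χ : MulAut F2 => χ k) sg_sg
    exact h1

theorem Go_W {w : MulAut F2} (hw : w ∈ Subgroup.closure ({sw, sg} : Set (MulAut F2)))
    {H K : Subgroup F2} (h : ∀ ℓ, Go H K ℓ) (ℓ : Lt) : Go (pb w H) (pb w K) ℓ := by
  have key : (∀ H K : Subgroup F2, (∀ ℓ, Go H K ℓ) → ∀ ℓ, Go (pb w H) (pb w K) ℓ) ∧
      (∀ H K : Subgroup F2, (∀ ℓ, Go H K ℓ) → ∀ ℓ, Go (pb w⁻¹ H) (pb w⁻¹ K) ℓ) := by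
    refine Subgroup.closure_induction (p := fun w _ =>
      (∀ H K : Subgroup F2, (∀ ℓ, Go H K ℓ) → ∀ ℓ, Go (pb w H) (pb w K) ℓ) ∧
      (∀ H K : Subgroup F2, (∀ ℓ, Go H K ℓ) → ∀ ℓ, Go (pb w⁻¹ H) (pb w⁻¹ K) ℓ)) ?_ ?_ ?_ ?_ hw
    · intro x hx
      have h3 : x = sw ∨ x = sg := by
        simpa only [Set.mem_insert_iff, Set.mem_singleton_iff] using hx
      rcases h3 with rfl | rfl
      · rw [inv_eq_of_mul_eq_one_right sw_sw]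
        exact ⟨fun H K h => Go_sw h, fun H K h => Go_sw h⟩
      · rw [inv_eq_of_mul_eq_one_right sg_sg]
        exact ⟨fun H K h => Go_sg h, fun H K h => Go_sg h⟩
    · rw [inv_one]
      exact ⟨fun H K h => h, fun H K h => h⟩
    · intro x y _ _ hx hy
      refine ⟨fun H K h => ?_, fun H K h => ?_⟩
      · rw [pb_mul, pb_mul]
        exact hy.1 _ _ (hx.1 H K h)
      · rw [mul_inv_rev, pb_mul, pb_mul]
        exact hx.2 _ _ (hy.2 H K h)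
    · intro x _ hx
      refine ⟨hx.2, ?_⟩
      rw [inv_inv]
      exact hx.1
  exact key.1 H K h ℓ

end OK71
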