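import Pool.Agent.LibOK71.A2

/-!
[OK71 D3] (MEDIUM) no cancellation of half of a factor.
Write `z ℓ := (f (el ℓ)).toWord`. For `ℓ ≠ il ℓ'` let `c` be the length of the part `Z` of `mul_dec (f (el ℓ)) (f (el ℓ'))`: `|f (el ℓ) * f (el ℓ')| = |z ℓ| + |z ℓ'| - 2 c`, so the hypothesis says `2 c < |z ℓ|` and `2 c < |z ℓ'|`.
Claim for reduced `r = r' ++ [ℓ]`: `r.length ≤ |f (mk r)|` and the word of `f (mk r)` ends with the last `|z ℓ| - t` letters of `z ℓ` for some `t` with `2 t < |z ℓ|` (a common suffix longer than half of `z ℓ`). Induction on `r'`. `r' = []`: `t = 0` and `z ℓ ≠ []` (hypothesis for `ℓ, ℓ`). Step: multiply `f (mk r)`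
by `f (el ℓ')`, `ℓ' ≠ il ℓ`: `z ℓ = X ++ Z`, `z ℓ' = invRev Z ++ Y`, `X ++ Y` reduced, `|Z| = c`, `X`, `Y` not empty and longer than `Z`; the word of `f (mk r)` is `P ++ (suffix of z ℓ longer than half)`, so it is `P' ++ Z` with `P'` ending with the last letter of `X` (the suffix is longer than `c`); the product is `P' ++ Y`, reduced because the
junction letters are those of `X ++ Y`; its length is `|f (mk r)| - c + |z ℓ'| - c ≥ |f (mk r)| + 1`; it ends with `Y`, the last `|z ℓ'| - c` letters of `z ℓ'`.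
-/

set_option autoImplicit false

namespace OK71

private theorem D3_dec {f : F2 →* F2}
    (h : ∀ ℓ ℓ' : Lt, ℓ ≠ il ℓ' →
      (f (el ℓ)).toWord.length < (f (el ℓ) * f (el ℓ')).toWord.length ∧
      (f (el ℓ')).toWord.length < (f (el ℓ) * f (el ℓ')).toWord.length) {ℓ ℓ' : Lt}
    (hne : ℓ ≠ il ℓ') :
    ∃ A Z B : List Lt, (f (el ℓ)).toWord = A ++ Z ∧
      (f (el ℓ')).toWord = FreeGroup.invRev Z ++ B ∧ FreeGroup.IsReduced (A ++ B) ∧
      Z.length < A.length ∧ Z.length < B.length := by
  obtain ⟨A, Z, B, e1, e2, e3⟩ := mul_dec (f (el ℓ)) (f (el ℓ'))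
  obtain ⟨h1, h2⟩ := h ℓ ℓ' hne
  rw [e1, e3, List.length_append, List.length_append] at h1
  rw [e2, e3, List.length_append, List.length_append, FreeGroup.invRev_length] at h2
  refine ⟨A, Z, B, e1, e2, ?_, by omega, by omega⟩
  rw [← e3]
  exact FreeGroup.isReduced_toWord

private theorem D3_main {f : F2 →* F2}
    (h : ∀ ℓ ℓ' : Lt, ℓ ≠ il ℓ' →
      (f (el ℓ)).toWord.length < (f (el ℓ) * f (el ℓ')).toWord.length ∧
      (f (el ℓ')).toWord.length < (f (el ℓ) * f (el ℓ')).toWord.length) (r : List Lt) :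
    FreeGroup.IsReduced r → r = [] ∨ (r.length ≤ (f (FreeGroup.mk r)).toWord.length ∧
      ∃ (ℓ : Lt) (P S T : List Lt), r.getLast? = some ℓ ∧
        (f (FreeGroup.mk r)).toWord = P ++ S ∧ (f (el ℓ)).toWord = T ++ S ∧
        T.length < S.length) := by
  induction r using List.reverseRecOn with
  | nil => intro _; exact Or.inl rfl
  | append_singleton r ℓ' ih =>
    intro hr
    right
    rw [red_append] at hr
    obtain ⟨hr1, _, hr3⟩ := hr
    rcases ih hr1 with rfl | ⟨hl, ℓ, P, S, T, hlast, hw, hz, hTS⟩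
    · obtain ⟨A, Z, B, e1, _, _, h1, _⟩ := D3_dec h (ℓ := ℓ') (ℓ' := ℓ')
        (fun hh => il_ne ℓ' hh.symm)
      have hlen : 0 < (f (el ℓ')).toWord.length := by
        rw [e1, List.length_append]
        omega
      have hmk : FreeGroup.mk ([] ++ [ℓ']) = el ℓ' := rfl
      rw [hmk]
      refine ⟨hlen, ℓ', [], (f (el ℓ')).toWord, [], by simp, by simp, by simp, ?_⟩
      simpa using hlen
    · have hne : ℓ ≠ il ℓ' := by
        intro hh
        apply hr3 ℓ hlast
        rw [hh, il_il]
        rfl
      obtain ⟨A, Z, B, e1, e2, e3, h1, h2⟩ := D3_dec h hne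
      have hlen1 : T.length + S.length = A.length + Z.length := by
        rw [← List.length_append, ← hz, e1, List.length_append]
      have hZS : Z.length < S.length := by omega
      have heq : T ++ S = A ++ Z := by rw [← hz, e1]
      obtain ⟨S', hS', hA⟩ : ∃ S', S = S' ++ Z ∧ A = T ++ S' := by
        rcases List.append_eq_append_iff.1 heq with ⟨c, h3, h4⟩ | ⟨c, h3, h4⟩
        · exact ⟨c, h4, h3⟩
        · exfalso
          have h5 : Z.length = c.length + S.length := by rw [h4, List.length_append]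
          omega
      have hS'ne : S' ≠ [] := by
        rintro rfl
        rw [List.nil_append] at hS'
        rw [hS'] at hZS
        omega
      have hPS : FreeGroup.IsReduced (P ++ S') := by
        have h5 : FreeGroup.IsReduced ((P ++ S') ++ Z) := by
          rw [List.append_assoc, ← hS', ← hw]
          exact FreeGroup.isReduced_toWord
        exact (red_append.1 h5).1
      have hred : FreeGroup.IsReduced ((P ++ S') ++ B) := by
        rw [red_append]
        refine ⟨hPS, (red_append.1 e3).2.1, ?_⟩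
        intro a ha
        apply (red_append.1 e3).2.2 a
        rw [hA, List.getLast?_append_of_ne_nil _ hS'ne]
        rw [List.getLast?_append_of_ne_nil _ hS'ne] at ha
        exact ha
      have hprod : f (FreeGroup.mk (r ++ [ℓ'])) = FreeGroup.mk ((P ++ S') ++ B) := by
        rw [mk_append, map_mul]
        have h6 : f (FreeGroup.mk r) = FreeGroup.mk (P ++ S') * FreeGroup.mk Z := by
          rw [← mk_append, List.append_assoc, ← hS', ← hw, FreeGroup.mk_toWord]
        have h7 : f (FreeGroup.mk [ℓ']) = (FreeGroup.mk Z)⁻¹ * FreeGroup.mk B := by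
          have : f (FreeGroup.mk [ℓ']) = f (el ℓ') := rfl
          rw [this, ← FreeGroup.mk_toWord (x := f (el ℓ')), e2, mk_append, ← FreeGroup.inv_mk]
        rw [h6, h7, mk_append (P ++ S') B]
        group
      have hword : (f (FreeGroup.mk (r ++ [ℓ']))).toWord = (P ++ S') ++ B := by
        rw [hprod, toWord_of_red hred]
      refine ⟨?_, ℓ', P ++ S', B, FreeGroup.invRev Z, by simp, hword, e2, ?_⟩
      · rw [hword]
        rw [hw, hS'] at hl
        simp only [List.length_append, List.length_singleton] at hl ⊢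
        omega
      · rw [FreeGroup.invRev_length]
        exact h2

theorem schottky {f : F2 →* F2}
    (h : ∀ ℓ ℓ' : Lt, ℓ ≠ il ℓ' →
      (f (el ℓ)).toWord.length < (f (el ℓ) * f (el ℓ')).toWord.length ∧
      (f (el ℓ')).toWord.length < (f (el ℓ) * f (el ℓ')).toWord.length) (k : F2) :
    k.toWord.length ≤ (f k).toWord.length := by
  rcases D3_main h k.toWord FreeGroup.isReduced_toWord with h1 | ⟨h1, _⟩
  · rw [h1]
    exact Nat.zero_le _
  · rwa [FreeGroup.mk_toWord] at h1

end OK71
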