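import Pool.Agent.LibOK71.A2

/-!
[OK71 D4] (MEDIUM) three arcs with distinct ends.
Consider lists `s` of pairs `(i, j)`, `i ≠ j`, such that consecutive pairs `(i, j), (i', j')` satisfy `j ≠ i'` (`List.IsChain`), with value `∏ t i * (t j)⁻¹`. (1) The word of the value is the concatenation of the words `(t i).toWord ++ (t j)⁻¹.toWord` (all junctions are reduced: `t i | (t j)⁻¹`: the last letter of `t i` is `il` of the first letter of `(t i)⁻¹`, and the first letter of `(t j)⁻¹` is different
from the one of `(t i)⁻¹` (hl); `(t j)⁻¹ | t i'`: the last letter of `(t j)⁻¹` is `il` of the first letter of `t j`, and `t i'` begins with another letter (hf); `red_append`). So the length is at least `2` if the list is not empty (each `t i ≠ 1`).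
(2) The set of the values is closed under right multiplication with `t p * (t q)⁻¹` (`p = q`: nothing). Last pair `(i, j)`: `j ≠ p`: append `(p, q)`; `j = p`, `i ≠ q`: replace `(i, j)` by `(i, q)`; `j = p`, `i = q`: delete the last pair. Empty list: `[(p, q)]`. So it contains the closure (`Subgroup.closure_induction_right`; the inverse of a generator is a generator).
-/

set_option autoImplicit false

namespace OK71

private theorem D4_mul {α : Type} [DecidableEq α] {x y : FreeGroup α}
    (h : ∀ a ∈ x.toWord.getLast?, fl y ≠ some (il a)) : (x * y).toWord = x.toWord ++ y.toWord := by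
  have hred : FreeGroup.IsReduced (x.toWord ++ y.toWord) :=
    red_append.2 ⟨FreeGroup.isReduced_toWord, FreeGroup.isReduced_toWord, h⟩
  rw [← toWord_of_red hred, mk_append, FreeGroup.mk_toWord, FreeGroup.mk_toWord]

/-- the value of a reduced path in the graph with two vertices and the three arcs `t i`; the flag tells the vertex
where the path ends, the option the last arc -/
private inductive D4_P {α : Type} (t : Fin 3 → FreeGroup α) : Bool → FreeGroup α → Option (Fin 3) → Prop
  | one : D4_P t true 1 none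
  | fwd {k : FreeGroup α} {o : Option (Fin 3)} {i : Fin 3} (h : D4_P t true k o) (hi : o ≠ some i) :
      D4_P t false (k * t i) (some i)
  | bwd {k : FreeGroup α} {i j : Fin 3} (h : D4_P t false k (some i)) (hj : j ≠ i) :
      D4_P t true (k * (t j)⁻¹) (some j)

private theorem D4_word {α : Type} [DecidableEq α] {t : Fin 3 → FreeGroup α} (h1 : ∀ i, t i ≠ 1)
    (hf : ∀ i j, i ≠ j → fl (t i) ≠ fl (t j)) (hl : ∀ i j, i ≠ j → fl (t i)⁻¹ ≠ fl (t j)⁻¹)
    {b : Bool} {k : FreeGroup α} {o : Option (Fin 3)} (h : D4_P t b k o) :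
    (b = true → (o = none ∧ k = 1) ∨
      ∃ j w, o = some j ∧ k.toWord = w ++ ((t j)⁻¹).toWord ∧ w ≠ []) ∧
    (b = false → ∃ i w, o = some i ∧ k.toWord = w ++ (t i).toWord) := by
  have hne : ∀ i, (t i).toWord ≠ [] := fun i hi => h1 i (FreeGroup.toWord_eq_nil_iff.1 hi)
  have hne' : ∀ i, ((t i)⁻¹).toWord ≠ [] := fun i hi =>
    h1 i (inv_eq_one.1 (FreeGroup.toWord_eq_nil_iff.1 hi))
  have hlast : ∀ (w : List (α × Bool)) (x : FreeGroup α), x.toWord ≠ [] →
      ∀ a ∈ (w ++ x.toWord).getLast?, fl x⁻¹ = some (il a) := by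
    intro w x hx a ha
    rw [List.getLast?_append_of_ne_nil _ hx] at ha
    rw [fl_inv, Option.mem_def.1 ha]
    rfl
  induction h with
  | one => exact ⟨fun _ => Or.inl ⟨rfl, rfl⟩, fun h => absurd h (by simp)⟩
  | @fwd k o i h hi ih =>
    refine ⟨fun h => absurd h (by simp), fun _ => ?_⟩
    rcases ih.1 rfl with ⟨-, hk⟩ | ⟨j, w, ho, hk, -⟩
    · exact ⟨i, [], rfl, by rw [hk, one_mul, List.nil_append]⟩
    · have hij : i ≠ j := fun e => hi (by rw [ho, e])
      refine ⟨i, k.toWord, rfl, D4_mul (fun a ha => ?_)⟩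
      rw [hk] at ha
      have h2 := hlast w (t j)⁻¹ (hne' j) a ha
      rw [inv_inv] at h2
      rw [← h2]
      exact hf i j hij
  | @bwd k i j h hj ih =>
    refine ⟨fun _ => Or.inr ?_, fun h => absurd h (by simp)⟩
    obtain ⟨i', w, hi', hk⟩ := ih.2 rfl
    have hii : i = i' := Option.some.inj hi'
    subst hii
    refine ⟨j, k.toWord, rfl, D4_mul (fun a ha => ?_), ?_⟩
    · rw [hk] at ha
      rw [← hlast w (t i) (hne i) a ha]
      exact hl j i hj
    · rw [hk]
      intro h2
      exact hne i (List.append_eq_nil_iff.1 h2).2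

private theorem D4_fwd {α : Type} {t : Fin 3 → FreeGroup α} {k : FreeGroup α} {o : Option (Fin 3)}
    (h : D4_P t true k o) (p : Fin 3) : ∃ i, D4_P t false (k * t p) (some i) := by
  by_cases hp : o = some p
  · subst hp
    cases h with
    | @bwd k' i _ h' hj =>
      refine ⟨i, ?_⟩
      rw [inv_mul_cancel_right]
      exact h'
  · exact ⟨p, D4_P.fwd h hp⟩

private theorem D4_bwd {α : Type} {t : Fin 3 → FreeGroup α} {k : FreeGroup α} {i : Fin 3}
    (h : D4_P t false k (some i)) (q : Fin 3) : ∃ o, D4_P t true (k * (t q)⁻¹) o := by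
  by_cases hq : q = i
  · subst hq
    cases h with
    | @fwd k' o _ h' hi =>
      refine ⟨o, ?_⟩
      rw [mul_inv_cancel_right]
      exact h'
  · exact ⟨some q, D4_P.bwd h hq⟩

private theorem D4_step {α : Type} {t : Fin 3 → FreeGroup α} {k : FreeGroup α}
    (h : ∃ o, D4_P t true k o) (p q : Fin 3) : ∃ o, D4_P t true (k * (t p * (t q)⁻¹)) o := by
  obtain ⟨o, h⟩ := h
  obtain ⟨i, h'⟩ := D4_fwd h p
  rw [← mul_assoc]
  exact D4_bwd h' q

theorem theta {α : Type} [DecidableEq α] {t : Fin 3 → FreeGroup α} (h1 : ∀ i, t i ≠ 1)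
    (hf : ∀ i j, i ≠ j → fl (t i) ≠ fl (t j)) (hl : ∀ i j, i ≠ j → fl (t i)⁻¹ ≠ fl (t j)⁻¹)
    {k : FreeGroup α} (hk : k ∈ Subgroup.closure {g | ∃ i j, g = t i * (t j)⁻¹}) :
    k = 1 ∨ 2 ≤ k.toWord.length := by
  have key : ∃ o, D4_P t true k o := by
    induction hk using Subgroup.closure_induction_right with
    | one => exact ⟨none, D4_P.one⟩
    | mul_right x hx y hy ih =>
      obtain ⟨p, q, rfl⟩ := hy
      exact D4_step ih p q
    | mul_inv_cancel x hx y hy ih =>
      obtain ⟨p, q, rfl⟩ := hy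
      rw [mul_inv_rev, inv_inv]
      exact D4_step ih q p
  obtain ⟨o, h⟩ := key
  rcases (D4_word h1 hf hl h).1 rfl with ⟨-, h2⟩ | ⟨j, w, -, hw, hw0⟩
  · exact Or.inl h2
  · right
    rw [hw, List.length_append]
    have h3 : 0 < w.length := List.length_pos_of_ne_nil hw0
    have h4 : 0 < ((t j)⁻¹).toWord.length :=
      List.length_pos_of_ne_nil (fun hi => h1 j (inv_eq_one.1 (FreeGroup.toWord_eq_nil_iff.1 hi)))
    omega

end OK71
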