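import Pool.Agent.LibOK71.D0

/-!
[OK71 D5] (SHORT/MEDIUM) elementary automorphisms in the closure.
`𝒢 := closure {lam, sw, sg}`. conj_mem: `conj a = sg * lam * sg * lam` (rel1), `conj b = sw * conj a * sw` (conj_aut, `sw a = b`), and `g ↦ conj g` is a homomorphism (`MulAut.conj : G →* MulAut G`): `FreeGroup.induction_on`. elem_mem: for letters `ℓ, ℓ'` with different indices there is
`ν ∈ 𝒢` with `ν (el ℓ) = el ℓ * el ℓ'` and `ν (el ℓ') = el ℓ'`: `ℓ = b, ℓ' = …`. The automorphism `(a, b) ↦ (a, b a)` is `conj a⁻¹ * lam`; conjugate it with elements `w` of `closure {sw, sg}` with `w b = el ℓ`, `w a = el ℓ'` (w_ex: for letters with different indices there is such a `w`; 8 cases; products of `sw`, `sg`, `sw * sg * sw`).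
aut_small: `ψ` maps `a`, `b` to elements of length 1, i.e. to letters `el ℓ`, `el ℓ'` with different indices (otherwise `ψ a = (ψ b)^(±1)`, and `ψ` is injective: `of 0 ≠ (of 1)^(±1)`), so `ψ` is the `w` of w_ex (`ext_aut`).
-/

set_option autoImplicit false
set_option linter.unusedSimpArgs false

namespace OK71

private theorem D5_el_true (i : Fin 2) : el ((i, true) : Lt) = FreeGroup.of i := rfl

private theorem D5_el_false (i : Fin 2) : el ((i, false) : Lt) = (FreeGroup.of i)⁻¹ := rfl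

private theorem D5_sw_mem : sw ∈ Subgroup.closure ({sw, sg} : Set (MulAut F2)) :=
  Subgroup.subset_closure (by simp)

private theorem D5_sg_mem : sg ∈ Subgroup.closure ({sw, sg} : Set (MulAut F2)) :=
  Subgroup.subset_closure (by simp)

private theorem D5_le : Subgroup.closure ({sw, sg} : Set (MulAut F2)) ≤
    Subgroup.closure ({lam, sw, sg} : Set (MulAut F2)) :=
  Subgroup.closure_mono (by
    intro x hx
    rcases hx with hx | hx
    · exact Or.inr (Or.inl hx)
    · exact Or.inr (Or.inr hx))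

theorem w_ex {ℓ ℓ' : Lt} (h : ℓ.1 ≠ ℓ'.1) :
    ∃ w ∈ Subgroup.closure ({sw, sg} : Set (MulAut F2)),
      w (FreeGroup.of 0) = el ℓ ∧ w (FreeGroup.of 1) = el ℓ' := by
  have hsw := D5_sw_mem
  have hsg := D5_sg_mem
  obtain ⟨i, b⟩ := ℓ
  obtain ⟨j, c⟩ := ℓ'
  simp only at h
  have hij : (i = 0 ∧ j = 1) ∨ (i = 1 ∧ j = 0) := by
    have hi := i.isLt
    have hj := j.isLt
    have h' : i.val ≠ j.val := fun hh => h (Fin.ext hh)
    rcases Nat.lt_or_ge i.val 1 with hi1 | hi1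
    · left
      exact ⟨Fin.ext (by simp; omega), Fin.ext (by simp; omega)⟩
    · right
      exact ⟨Fin.ext (by simp; omega), Fin.ext (by simp; omega)⟩
  rcases hij with ⟨rfl, rfl⟩ | ⟨rfl, rfl⟩
  · cases b <;> cases c
    · refine ⟨sw * sg * sw * sg, mul_mem (mul_mem (mul_mem hsw hsg) hsw) hsg, ?_, ?_⟩
      · rw [D5_el_false]
        simp only [MulAut.mul_apply, map_inv, sw_of0, sw_of1, sg_of0, sg_of1, inv_inv]
      · rw [D5_el_false]
        simp only [MulAut.mul_apply, map_inv, sw_of0, sw_of1, sg_of0, sg_of1, inv_inv]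
    · refine ⟨sw * sg * sw, mul_mem (mul_mem hsw hsg) hsw, ?_, ?_⟩
      · rw [D5_el_false]
        simp only [MulAut.mul_apply, map_inv, sw_of0, sw_of1, sg_of0, sg_of1, inv_inv]
      · rw [D5_el_true]
        simp only [MulAut.mul_apply, map_inv, sw_of0, sw_of1, sg_of0, sg_of1, inv_inv]
    · refine ⟨sg, hsg, ?_, ?_⟩
      · rw [D5_el_true, sg_of0]
      · rw [D5_el_false, sg_of1]
    · exact ⟨1, one_mem _, rfl, rfl⟩
  · cases b <;> cases c
    · refine ⟨sg * sw * sg, mul_mem (mul_mem hsg hsw) hsg, ?_, ?_⟩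
      · rw [D5_el_false]
        simp only [MulAut.mul_apply, map_inv, sw_of0, sw_of1, sg_of0, sg_of1, inv_inv]
      · rw [D5_el_false]
        simp only [MulAut.mul_apply, map_inv, sw_of0, sw_of1, sg_of0, sg_of1, inv_inv]
    · refine ⟨sg * sw, mul_mem hsg hsw, ?_, ?_⟩
      · rw [D5_el_false]
        simp only [MulAut.mul_apply, map_inv, sw_of0, sw_of1, sg_of0, sg_of1, inv_inv]
      · rw [D5_el_true]
        simp only [MulAut.mul_apply, map_inv, sw_of0, sw_of1, sg_of0, sg_of1, inv_inv]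
    · refine ⟨sw * sg, mul_mem hsw hsg, ?_, ?_⟩
      · rw [D5_el_true]
        simp only [MulAut.mul_apply, map_inv, sw_of0, sw_of1, sg_of0, sg_of1, inv_inv]
      · rw [D5_el_false]
        simp only [MulAut.mul_apply, map_inv, sw_of0, sw_of1, sg_of0, sg_of1, inv_inv]
    · exact ⟨sw, hsw, sw_of0, sw_of1⟩

theorem conj_mem (g : F2) :
    MulAut.conj g ∈ Subgroup.closure ({lam, sw, sg} : Set (MulAut F2)) := by
  have hsw := D5_le D5_sw_mem
  have hsg := D5_le D5_sg_mem
  have hlam : lam ∈ Subgroup.closure ({lam, sw, sg} : Set (MulAut F2)) :=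
    Subgroup.subset_closure (Or.inl rfl)
  have h0 : MulAut.conj (FreeGroup.of (0 : Fin 2)) ∈
      Subgroup.closure ({lam, sw, sg} : Set (MulAut F2)) := by
    have : MulAut.conj (FreeGroup.of (0 : Fin 2)) = sg * lam * sg * lam := by
      rw [rel1, inv_mul_cancel_right]
    rw [this]
    exact mul_mem (mul_mem (mul_mem hsg hlam) hsg) hlam
  have h1 : MulAut.conj (FreeGroup.of (1 : Fin 2)) ∈
      Subgroup.closure ({lam, sw, sg} : Set (MulAut F2)) := by
    have h2 := conj_aut sw (FreeGroup.of 0)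
    rw [sw_of0] at h2
    have : MulAut.conj (FreeGroup.of (1 : Fin 2)) =
        sw * MulAut.conj (FreeGroup.of (0 : Fin 2)) * sw⁻¹ := by
      rw [h2, mul_inv_cancel_right]
    rw [this]
    exact mul_mem (mul_mem hsw h0) (inv_mem hsw)
  have hof : ∀ i : Fin 2, MulAut.conj (FreeGroup.of i) ∈
      Subgroup.closure ({lam, sw, sg} : Set (MulAut F2)) := by
    intro i
    fin_cases i
    · exact h0
    · exact h1
  refine FreeGroup.induction_on (C := fun g : F2 => MulAut.conj g ∈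
    Subgroup.closure ({lam, sw, sg} : Set (MulAut F2))) g ?_ ?_ ?_ ?_
  · rw [map_one]; exact one_mem _
  · exact hof
  · intro i _; rw [map_inv]; exact inv_mem (hof i)
  · intro x y hx hy; rw [map_mul]; exact mul_mem hx hy

theorem elem_mem {ℓ ℓ' : Lt} (h : ℓ.1 ≠ ℓ'.1) :
    ∃ ν ∈ Subgroup.closure ({lam, sw, sg} : Set (MulAut F2)),
      ν (el ℓ) = el ℓ * el ℓ' ∧ ν (el ℓ') = el ℓ' := by
  obtain ⟨w, hw, h0, h1⟩ := w_ex (ℓ := ℓ') (ℓ' := ℓ) (Ne.symm h)
  have hw' := D5_le hw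
  have hlam : lam ∈ Subgroup.closure ({lam, sw, sg} : Set (MulAut F2)) :=
    Subgroup.subset_closure (Or.inl rfl)
  have e0 : w⁻¹ (el ℓ') = FreeGroup.of 0 := by
    rw [← h0]
    exact MulEquiv.symm_apply_apply w _
  have e1 : w⁻¹ (el ℓ) = FreeGroup.of 1 := by
    rw [← h1]
    exact MulEquiv.symm_apply_apply w _
  refine ⟨w * (MulAut.conj (FreeGroup.of 0)⁻¹ * lam) * w⁻¹,
    mul_mem (mul_mem hw' (mul_mem (conj_mem _) hlam)) (inv_mem hw'), ?_, ?_⟩
  · rw [MulAut.mul_apply, MulAut.mul_apply, e1, MulAut.mul_apply, lam_of1, MulAut.conj_apply]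
    have : (FreeGroup.of (0 : Fin 2))⁻¹ * (FreeGroup.of 0 * FreeGroup.of 1) * (FreeGroup.of 0)⁻¹⁻¹ =
        FreeGroup.of 1 * FreeGroup.of 0 := by
      rw [inv_mul_cancel_left, inv_inv]
    rw [this, map_mul, h0, h1]
  · rw [MulAut.mul_apply, MulAut.mul_apply, e0, MulAut.mul_apply, lam_of0, MulAut.conj_apply]
    have : (FreeGroup.of (0 : Fin 2))⁻¹ * FreeGroup.of 0 * (FreeGroup.of 0)⁻¹⁻¹ =
        FreeGroup.of 0 := by
      rw [inv_mul_cancel, one_mul, inv_inv]
    rw [this, h0]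

theorem aut_small {ψ : MulAut F2} (h : ∀ i, (ψ (FreeGroup.of i)).toWord.length = 1) :
    ψ ∈ Subgroup.closure ({lam, sw, sg} : Set (MulAut F2)) := by
  have hex : ∀ i, ∃ ℓ : Lt, ψ (FreeGroup.of i) = el ℓ := by
    intro i
    obtain ⟨ℓ, hℓ⟩ := List.length_eq_one_iff.1 (h i)
    refine ⟨ℓ, ?_⟩
    rw [← FreeGroup.mk_toWord (x := ψ (FreeGroup.of i)), hℓ]
    rfl
  obtain ⟨ℓ, hℓ⟩ := hex 0
  obtain ⟨ℓ', hℓ'⟩ := hex 1
  have hne01 : (FreeGroup.of (0 : Fin 2)) ≠ FreeGroup.of 1 := fun hh => by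
    have := FreeGroup.of_injective hh
    exact absurd this (by decide)
  have hne01' : (FreeGroup.of (0 : Fin 2)) ≠ (FreeGroup.of 1)⁻¹ := fun hh => by
    have h3 := congrArg FreeGroup.toWord hh
    rw [FreeGroup.toWord_of, FreeGroup.toWord_inv, FreeGroup.toWord_of] at h3
    simp [FreeGroup.invRev] at h3
  have hdiff : ℓ.1 ≠ ℓ'.1 := by
    intro hh
    obtain ⟨i, b⟩ := ℓ
    obtain ⟨j, c⟩ := ℓ'
    simp only at hh
    subst hh
    have h2 : ψ (FreeGroup.of 0) = ψ (FreeGroup.of 1) ∨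
        ψ (FreeGroup.of 0) = ψ (FreeGroup.of 1)⁻¹ := by
      rw [map_inv, hℓ, hℓ']
      cases b <;> cases c
      · exact Or.inl rfl
      · right
        rw [D5_el_false, D5_el_true]
      · right
        rw [D5_el_false, D5_el_true, inv_inv]
      · exact Or.inl rfl
    rcases h2 with h2 | h2
    · exact hne01 (ψ.injective h2)
    · exact hne01' (ψ.injective h2)
  obtain ⟨w, hw, h0, h1⟩ := w_ex hdiff
  have : ψ = w := ext_aut (by rw [hℓ, h0]) (by rw [hℓ', h1])
  rw [this]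
  exact D5_le hw

end OK71
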