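import Pool.Agent.LibOK71.D4
import Pool.Agent.LibOK71.D5

/-!
[OK71 D6] (MEDIUM/STRONG) a minimal basis has no cancellation of half of an element.
`L ψ := |ψ a| + |ψ b|`; for letters `ℓ, ℓ'` with different indices `|ψ (el ℓ)| + |ψ (el ℓ')| = L ψ` (`el (il ℓ) = (el ℓ)⁻¹`, `FreeGroup.norm_inv_eq`/toWord_inv). (N) By `elem_mem` and minimality `|ψ (el ℓ) * ψ (el ℓ')| ≥ |ψ (el ℓ)|` for different indices, and (inverting) `≥ |ψ (el ℓ')|`.
(C) by `conj_mem` (`ψ * conj h = conj (ψ h) * ψ`, `ψ` surjective): `L ψ ≤ |g⁻¹ ψ(a) g| + |g⁻¹ ψ(b) g|` for every `g : F2`, and the same for `ψ * ν`, `ν ∈ 𝒢`, in place of `ψ` on the right side.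
Let `ℓ ≠ il ℓ'`. Same index: `ℓ = ℓ'` (as `ℓ ≠ il ℓ'`), `z = ψ (el ℓ) ≠ 1`, `|z| < |z * z|`: `mul_dec z z`: `z = A ++ Z`, `z = invRev Z ++ B`, `|z * z| = 2 |z| - 2 |Z|`; if `2 |Z| ≥ |z|` … the middle letter argument; easier with `FreeGroup.toWord_pow`, `reduceCyclically.reduce_flatten_replicate` (CyclicallyReduced.lean): `|z ^ 2| = |z| + |reduceCyclically z| > |z|`.
Different indices: suppose one of the two strict inequalities fails; with (N) there is equality. It is enough to exclude `|z' * z''| = |z''|` for all pairs `ℓ, ℓ'` of letters with different indices, `z' = ψ (el ℓ)`, `z'' = ψ (el ℓ')` (an equality `|z' z''| = |z'|` for the pair `ℓ, ℓ'` is `|z''⁻¹ z'⁻¹| = |z'⁻¹|`, the excluded equality for the pair `il ℓ', il ℓ`). `mul_dec z' z''`: `z'.toWord = A ++ Z`, `z''.toWord = invRev Z ++ B`, `(z' z'').toWord = A ++ B`, so `|A| = |Z| ≥ 1`.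
Put `y := z'⁻¹` (word `u ++ v`, `u = invRev Z`, `v = invRev A`, `|u| = |v| ≥ 1`), `x := z''⁻¹` (word `t ++ invRev u`, `t = invRev B`; `|t| ≥ |u|` because `|z' z''| ≥ |z'|`), `x = mk t * (mk u)⁻¹`, `y = mk u * mk v`; `mk t ≠ 1`. `x * y = mk t * mk v` has length `|x|`-like: `|x y| ≥ |x| = |t| + |u|` (N), so `t ++ v` is reduced.
`theta` for the three elements `mk u`, `(mk v)⁻¹`, `mk t` (in some order): last letters (hl): `u | t`: `x.toWord = t ++ invRev u` reduced; `u | v⁻¹`: `y.toWord = u ++ v` reduced; `t | v⁻¹`: `t ++ v` reduced. First letters (hf): if `u`, `t` begin with the same letter `z`: `|z⁻¹ x z| = |x| - 2` (the word of `x` begins with `z` and ends with `z⁻¹`), `|z⁻¹ y z| ≤ |y|`: against (C).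
If `u`, `v⁻¹` begin with `z`: `|z⁻¹ y z| = |y| - 2`, `|z⁻¹ x z| ≤ |x|` (`x` ends with `z⁻¹`). If `v⁻¹`, `t` begin with `z`: the basis `(x y, y)` (elem_mem) has the same total length, `x y` has the word `t ++ v`, begins with `z` and ends with `z⁻¹`, `|z⁻¹ y z| ≤ |y|` (`y` ends with `z⁻¹`): against (C) for this basis.
`theta`: every `k ≠ 1` in the closure has length `≥ 2`; the closure contains `x = mk t * (mk u)⁻¹`, `y = mk u * ((mk v)⁻¹)⁻¹`, so everything (`ψ` is surjective, `x, y` are the images of letters with different indices, which generate), also `of 0`: contradiction.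
-/

set_option autoImplicit false

namespace OK71

private theorem D6_sq {z : F2} (hz : z ≠ 1) : z.norm < (z * z).norm := by
  have h1 : (z * z).toWord = FreeGroup.reduceCyclically.conjugator z.toWord ++
      (List.replicate 2 (FreeGroup.reduceCyclically z.toWord)).flatten ++
      FreeGroup.invRev (FreeGroup.reduceCyclically.conjugator z.toWord) := by
    rw [← pow_two, FreeGroup.toWord_pow]
    exact FreeGroup.reduceCyclically.reduce_flatten_replicate_succ FreeGroup.isReduced_toWord 1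
  have h2 := FreeGroup.reduceCyclically.conj_conjugator_reduceCyclically z.toWord
  have h3 : FreeGroup.reduceCyclically z.toWord ≠ [] := by
    intro h
    rw [h, List.append_nil] at h2
    apply hz
    rw [← FreeGroup.mk_toWord (x := z), ← h2, mk_append, ← FreeGroup.inv_mk, mul_inv_cancel]
  have h4 := congrArg List.length h1
  have h5 := congrArg List.length h2
  have h6 := List.length_pos_of_ne_nil h3
  simp only [List.length_append, FreeGroup.invRev_length, List.length_flatten, List.map_replicate,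
    List.sum_replicate, smul_eq_mul] at h4 h5
  unfold FreeGroup.norm
  omega

private theorem D6_head {k : F2} {z : Lt} (h : fl k = some z) : ∃ w, k.toWord = z :: w := by
  unfold fl at h
  cases hw : k.toWord with
  | nil => rw [hw] at h; simp at h
  | cons a w =>
    rw [hw] at h
    simp only [List.head?_cons, Option.some.injEq] at h
    exact ⟨w, by rw [h]⟩

private theorem D6_norm_el (z : Lt) : (el z).norm = 1 := by
  unfold FreeGroup.norm
  rw [el_toWord]
  rfl

private theorem D6_c1 {k : F2} {z : Lt} (h : fl k = some z ∨ fl k⁻¹ = some z) :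
    ((el z)⁻¹ * k * el z).norm ≤ k.norm := by
  have key : ∀ k : F2, fl k = some z → ((el z)⁻¹ * k * el z).norm ≤ k.norm := by
    intro k h
    obtain ⟨w, hw⟩ := D6_head h
    have hk : k = el z * FreeGroup.mk w := by rw [← FreeGroup.mk_toWord (x := k), hw, mk_cons]
    have h1 : (el z)⁻¹ * k * el z = FreeGroup.mk w * el z := by
      rw [hk]
      group
    rw [h1]
    have h2 := FreeGroup.norm_mul_le (FreeGroup.mk w) (el z)
    have h3 : (FreeGroup.mk w).norm ≤ w.length := FreeGroup.norm_mk_le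
    have h4 : k.norm = w.length + 1 := by
      unfold FreeGroup.norm
      rw [hw]
      rfl
    rw [D6_norm_el] at h2
    omega
  rcases h with h | h
  · exact key k h
  · have h1 := key k⁻¹ h
    have e : (el z)⁻¹ * k⁻¹ * el z = ((el z)⁻¹ * k * el z)⁻¹ := by group
    rwa [e, FreeGroup.norm_inv_eq, FreeGroup.norm_inv_eq] at h1

private theorem D6_c2 {k : F2} {z : Lt} (h : fl k = some z) (h' : fl k⁻¹ = some z) :
    ((el z)⁻¹ * k * el z).norm + 2 ≤ k.norm := by
  obtain ⟨w, hw⟩ := D6_head h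
  rw [fl_inv, hw] at h'
  rcases List.eq_nil_or_concat' w with h3 | ⟨r, c, h3⟩
  · rw [h3] at h'
    simp only [List.getLast?_singleton, Option.map_some, Option.some.injEq] at h'
    exact absurd h' (il_ne z)
  · rw [h3] at h'
    have h4 : (z :: (r ++ [c])).getLast? = some c := by
      rw [← List.cons_append, List.getLast?_append]
      simp
    rw [h4] at h'
    simp only [Option.map_some, Option.some.injEq] at h'
    have hc : c = il z := by rw [← h', il_il]
    have hk : k = el z * (FreeGroup.mk r * (el z)⁻¹) := by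
      rw [← FreeGroup.mk_toWord (x := k), hw, mk_cons, h3, mk_append, hc, ← el_il]
      rfl
    have h1 : (el z)⁻¹ * k * el z = FreeGroup.mk r := by
      rw [hk]
      group
    rw [h1]
    have h5 : (FreeGroup.mk r).norm ≤ r.length := FreeGroup.norm_mk_le
    have h6 : k.norm = r.length + 2 := by
      unfold FreeGroup.norm
      rw [hw, h3]
      simp
    omega

private theorem D6_last {u v : List Lt} (hu : u ≠ []) (h : FreeGroup.IsReduced (u ++ v)) :
    fl (FreeGroup.mk u)⁻¹ ≠ fl (FreeGroup.mk v) := by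
  obtain ⟨h1, h2, h3⟩ := red_append.1 h
  rw [fl_inv, toWord_of_red h1, fl_mk h2]
  obtain ⟨a, ha⟩ : ∃ a, u.getLast? = some a := by
    cases hl : u.getLast? with
    | none => exact absurd (List.getLast?_eq_none_iff.1 hl) hu
    | some a => exact ⟨a, rfl⟩
  rw [ha]
  exact fun h4 => h3 a (by rw [ha]; rfl) h4.symm

private theorem D6_abs {x y : F2} {t u v : List Lt} (hx : x.toWord = t ++ FreeGroup.invRev u)
    (hy : y.toWord = u ++ v) (hxy : (x * y).toWord = t ++ v) (hu : u ≠ []) (hv : v ≠ [])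
    (ht : t ≠ []) (hC : ∀ g : F2, x.norm + y.norm ≤ (g⁻¹ * x * g).norm + (g⁻¹ * y * g).norm)
    (hC' : ∀ g : F2, x.norm + y.norm ≤ (g⁻¹ * (x * y) * g).norm + (g⁻¹ * y * g).norm)
    (hle : (x * y).norm ≤ x.norm) (hgen : Subgroup.closure ({x, y} : Set F2) = ⊤) : False := by
  have rx : FreeGroup.IsReduced (t ++ FreeGroup.invRev u) := hx ▸ FreeGroup.isReduced_toWord
  have ry : FreeGroup.IsReduced (u ++ v) := hy ▸ FreeGroup.isReduced_toWord
  have rxy : FreeGroup.IsReduced (t ++ v) := hxy ▸ FreeGroup.isReduced_toWord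
  have ru := (red_append.1 ry).1
  have rv := (red_append.1 ry).2.1
  have rt := (red_append.1 rx).1
  obtain ⟨cu, hcu⟩ : ∃ a, u.head? = some a := by
    cases u with
    | nil => exact absurd rfl hu
    | cons a w => exact ⟨a, rfl⟩
  obtain ⟨ct, hct⟩ : ∃ a, t.head? = some a := by
    cases t with
    | nil => exact absurd rfl ht
    | cons a w => exact ⟨a, rfl⟩
  obtain ⟨cv, hcv⟩ : ∃ a, v.getLast? = some a := by
    cases hl : v.getLast? with
    | none => exact absurd (List.getLast?_eq_none_iff.1 hl) hv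
    | some a => exact ⟨a, rfl⟩
  have hu' : FreeGroup.invRev u ≠ [] := by
    intro h
    have := congrArg List.length h
    rw [FreeGroup.invRev_length] at this
    exact hu (List.length_eq_zero_iff.1 this)
  -- first letters
  have fu : fl (FreeGroup.mk u) = some cu := by rw [fl_mk ru, hcu]
  have ft : fl (FreeGroup.mk t) = some ct := by rw [fl_mk rt, hct]
  have fv : fl (FreeGroup.mk v)⁻¹ = some (il cv) := by rw [fl_inv, toWord_of_red rv, hcv]; rfl
  have fx : fl x = some ct := by
    rw [fl, hx, List.head?_append, hct]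
    rfl
  have fx' : fl x⁻¹ = some cu := by
    rw [fl_inv, hx, List.getLast?_append, invRev_getLast?, hcu]
    simp [il_il]
  have fy : fl y = some cu := by
    rw [fl, hy, List.head?_append, hcu]
    rfl
  have fy' : fl y⁻¹ = some (il cv) := by
    rw [fl_inv, hy, List.getLast?_append, hcv]
    rfl
  have fxy : fl (x * y) = some ct := by
    rw [fl, hxy, List.head?_append, hct]
    rfl
  have fxy' : fl (x * y)⁻¹ = some (il cv) := by
    rw [fl_inv, hxy, List.getLast?_append, hcv]
    rfl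
  have d1 : cu ≠ ct := by
    rintro rfl
    have h1 := D6_c2 fx fx'
    have h2 := D6_c1 (Or.inl fy)
    have h3 := hC (el cu)
    omega
  have d2 : cu ≠ il cv := by
    intro h
    rw [← h] at fy'
    have h1 := D6_c2 fy fy'
    have h2 := D6_c1 (Or.inr fx')
    have h3 := hC (el cu)
    omega
  have d3 : il cv ≠ ct := by
    intro h
    rw [h] at fxy' fy'
    have h1 := D6_c2 fxy fxy'
    have h2 := D6_c1 (Or.inr fy')
    have h3 := hC' (el ct)
    omega
  -- last letters
  have e1 : fl (FreeGroup.mk u)⁻¹ ≠ fl (FreeGroup.mk v) := D6_last hu ry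
  have e2 : fl (FreeGroup.mk t)⁻¹ ≠ fl (FreeGroup.mk v) := D6_last ht rxy
  have e3 : fl (FreeGroup.mk t)⁻¹ ≠ fl (FreeGroup.mk u)⁻¹ := by
    rw [FreeGroup.inv_mk (L := u)]
    exact D6_last ht rx
  have hx2 : x = FreeGroup.mk t * (FreeGroup.mk u)⁻¹ := by
    rw [← FreeGroup.mk_toWord (x := x), hx, mk_append, FreeGroup.inv_mk]
  have hy2 : y = FreeGroup.mk u * ((FreeGroup.mk v)⁻¹)⁻¹ := by
    rw [← FreeGroup.mk_toWord (x := y), hy, mk_append, inv_inv]
  have key := theta (t := ![FreeGroup.mk u, (FreeGroup.mk v)⁻¹, FreeGroup.mk t])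
    (k := FreeGroup.of (0 : Fin 2)) ?_ ?_ ?_ ?_
  · rcases key with h | h
    · exact FreeGroup.of_ne_one _ h
    · rw [FreeGroup.toWord_of] at h
      simp at h
  · intro i hi
    have h1 : fl (![FreeGroup.mk u, (FreeGroup.mk v)⁻¹, FreeGroup.mk t] i) = none := fl_none.2 hi
    fin_cases i
    · simp only [Matrix.cons_val_zero, Fin.zero_eta] at h1
      rw [fu] at h1
      cases h1
    · simp only [Fin.mk_one, Matrix.cons_val_one, Matrix.cons_val_zero] at h1
      rw [fv] at h1
      cases h1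
    · simp only [Fin.reduceFinMk, Matrix.cons_val] at h1
      rw [ft] at h1
      cases h1
  · intro i j hij
    fin_cases i <;> fin_cases j <;>
      simp only [Matrix.cons_val_zero, Fin.zero_eta, Fin.mk_one, Matrix.cons_val_one,
        Fin.reduceFinMk, Matrix.cons_val, fu, fv, ft, ne_eq, Option.some.injEq] <;>
      first
        | exact absurd rfl hij
        | exact d1
        | exact d2
        | exact d3
        | exact d1.symm
        | exact d2.symm
        | exact d3.symm
  · intro i j hij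
    fin_cases i <;> fin_cases j <;>
      simp only [Matrix.cons_val_zero, Fin.zero_eta, Fin.mk_one, Matrix.cons_val_one,
        Fin.reduceFinMk, Matrix.cons_val, inv_inv] <;>
      first
        | exact absurd rfl hij
        | exact e1
        | exact e2
        | exact e3
        | exact e1.symm
        | exact e2.symm
        | exact e3.symm
  · have h1 : Subgroup.closure ({x, y} : Set F2) ≤ Subgroup.closure {g | ∃ i j,
        g = ![FreeGroup.mk u, (FreeGroup.mk v)⁻¹, FreeGroup.mk t] i *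
          (![FreeGroup.mk u, (FreeGroup.mk v)⁻¹, FreeGroup.mk t] j)⁻¹} := by
      refine Subgroup.closure_mono ?_
      intro g hg
      rcases hg with rfl | hg
      · exact ⟨2, 0, hx2⟩
      · rw [Set.mem_singleton_iff] at hg
        subst hg
        exact ⟨0, 1, hy2⟩
    rw [hgen] at h1
    exact h1 (Subgroup.mem_top _)

private theorem D6_sum (χ : MulAut F2) {ℓ ℓ' : Lt} (h : ℓ.1 ≠ ℓ'.1) :
    (χ (el ℓ)).norm + (χ (el ℓ')).norm =
      (χ (FreeGroup.of 0)).norm + (χ (FreeGroup.of 1)).norm := by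
  have key : ∀ ℓ : Lt, (χ (el ℓ)).norm = (χ (FreeGroup.of ℓ.1)).norm := by
    rintro ⟨i, b⟩
    cases b
    · rw [el_false, map_inv, FreeGroup.norm_inv_eq]
    · rfl
  rw [key, key]
  obtain ⟨i, b⟩ := ℓ
  obtain ⟨j, b'⟩ := ℓ'
  fin_cases i <;> fin_cases j
  · exact absurd rfl h
  · rfl
  · exact add_comm _ _
  · exact absurd rfl h

private theorem D6_gen (ψ : MulAut F2) {ℓ ℓ' : Lt} (h : ℓ.1 ≠ ℓ'.1) :
    Subgroup.closure ({ψ (el ℓ), ψ (el ℓ')} : Set F2) = ⊤ := by
  have h1 : ∀ i, FreeGroup.of i ∈ Subgroup.closure ({el ℓ, el ℓ'} : Set F2) := by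
    have key : ∀ m : Lt, m ∈ ({ℓ, ℓ'} : Set Lt) →
        FreeGroup.of m.1 ∈ Subgroup.closure ({el ℓ, el ℓ'} : Set F2) := by
      intro m hm
      have h2 : el m ∈ Subgroup.closure ({el ℓ, el ℓ'} : Set F2) := by
        apply Subgroup.subset_closure
        rcases hm with rfl | hm
        · exact Or.inl rfl
        · rw [Set.mem_singleton_iff] at hm
          subst hm
          exact Or.inr rfl
      obtain ⟨i, b⟩ := m
      cases b
      · rw [el_false] at h2
        exact (Subgroup.inv_mem_iff _).1 h2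
      · exact h2
    intro i
    have h3 : i = ℓ.1 ∨ i = ℓ'.1 := by
      obtain ⟨j, b⟩ := ℓ
      obtain ⟨j', b'⟩ := ℓ'
      fin_cases i <;> fin_cases j <;> fin_cases j' <;> simp_all
    rcases h3 with rfl | rfl
    · exact key ℓ (Or.inl rfl)
    · exact key ℓ' (Or.inr rfl)
  have h2 : Subgroup.closure ({el ℓ, el ℓ'} : Set F2) = ⊤ := by
    rw [eq_top_iff, ← FreeGroup.closure_range_of, Subgroup.closure_le]
    rintro _ ⟨i, rfl⟩
    exact h1 i
  have h3 : Subgroup.map ψ.toMonoidHom (Subgroup.closure ({el ℓ, el ℓ'} : Set F2)) =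
      Subgroup.closure ({ψ (el ℓ), ψ (el ℓ')} : Set F2) := by
    rw [MonoidHom.map_closure]
    congr 1
    simp [Set.image_insert_eq]
  rw [← h3, h2]
  exact Subgroup.map_top_of_surjective _ ψ.surjective

section

variable {ψ : MulAut F2}
  (hmin : ∀ ν ∈ Subgroup.closure ({lam, sw, sg} : Set (MulAut F2)),
    (ψ (FreeGroup.of 0)).toWord.length + (ψ (FreeGroup.of 1)).toWord.length ≤
      ((ψ * ν) (FreeGroup.of 0)).toWord.length + ((ψ * ν) (FreeGroup.of 1)).toWord.length)

include hmin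

private theorem D6_min {ν : MulAut F2}
    (hν : ν ∈ Subgroup.closure ({lam, sw, sg} : Set (MulAut F2))) {ℓ ℓ' : Lt} (h : ℓ.1 ≠ ℓ'.1) :
    (ψ (el ℓ)).norm + (ψ (el ℓ')).norm ≤ (ψ (ν (el ℓ))).norm + (ψ (ν (el ℓ'))).norm := by
  have h1 := D6_sum (ψ * ν) h
  rw [MulAut.mul_apply, MulAut.mul_apply] at h1
  rw [D6_sum ψ h, h1]
  exact hmin ν hν

private theorem D6_conj {ν : MulAut F2}
    (hν : ν ∈ Subgroup.closure ({lam, sw, sg} : Set (MulAut F2))) {ℓ ℓ' : Lt} (h : ℓ.1 ≠ ℓ'.1)
    (g : F2) : (ψ (el ℓ)).norm + (ψ (el ℓ')).norm ≤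
      (g⁻¹ * ψ (ν (el ℓ)) * g).norm + (g⁻¹ * ψ (ν (el ℓ')) * g).norm := by
  obtain ⟨h0, rfl⟩ := (ψ * ν).surjective g
  have h1 := D6_min hmin (mul_mem hν (conj_mem h0⁻¹)) h
  have h2 : ∀ x : F2, ψ ((ν * MulAut.conj h0⁻¹) x) = ((ψ * ν) h0)⁻¹ * ψ (ν x) * (ψ * ν) h0 := by
    intro x
    rw [MulAut.mul_apply, MulAut.conj_apply, inv_inv, map_mul, map_mul, map_mul, map_mul, map_inv,
      map_inv]
    rfl
  rw [h2, h2] at h1
  exact h1

private theorem D6_N {ℓ ℓ' : Lt} (h : ℓ.1 ≠ ℓ'.1) :
    (ψ (el ℓ)).norm ≤ (ψ (el ℓ) * ψ (el ℓ')).norm := by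
  obtain ⟨ν, hν, h1, h2⟩ := elem_mem h
  have h3 := D6_min hmin hν h
  rw [h1, h2, map_mul] at h3
  omega

omit hmin in
private theorem D6_inv (ψ : MulAut F2) (ℓ ℓ' : Lt) : (ψ (el (il ℓ')) * ψ (el (il ℓ))).norm =
    (ψ (el ℓ) * ψ (el ℓ')).norm := by
  rw [el_il, el_il, map_inv, map_inv, ← mul_inv_rev, FreeGroup.norm_inv_eq]

private theorem D6_main {ℓ ℓ' : Lt} (h : ℓ.1 ≠ ℓ'.1) :
    (ψ (el ℓ) * ψ (el ℓ')).norm ≠ (ψ (el ℓ')).norm := by
  intro heq
  obtain ⟨A, Z, B, hA, hB, hAB⟩ := mul_dec (ψ (el ℓ)) (ψ (el ℓ'))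
  have h' : (il ℓ').1 ≠ (il ℓ).1 := h.symm
  have hN := D6_N hmin h
  have hlA : (ψ (el ℓ)).norm = A.length + Z.length := by
    unfold FreeGroup.norm
    rw [hA, List.length_append]
  have hlB : (ψ (el ℓ')).norm = Z.length + B.length := by
    unfold FreeGroup.norm
    rw [hB, List.length_append, FreeGroup.invRev_length]
  have hlAB : (ψ (el ℓ) * ψ (el ℓ')).norm = A.length + B.length := by
    unfold FreeGroup.norm
    rw [hAB, List.length_append]
  have hpos : 0 < (ψ (el ℓ)).norm := by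
    rw [Nat.pos_iff_ne_zero]
    intro h0
    rw [FreeGroup.norm_eq_zero] at h0
    have h1 : el ℓ = 1 := ψ.injective (by rw [h0, map_one])
    have h2 := D6_norm_el ℓ
    rw [h1, FreeGroup.norm_one] at h2
    exact absurd h2 (by norm_num)
  have hx : (ψ (el (il ℓ'))).toWord = FreeGroup.invRev B ++ FreeGroup.invRev (FreeGroup.invRev Z) := by
    rw [el_il, map_inv, FreeGroup.toWord_inv, hB, invRev_append]
  have hy : (ψ (el (il ℓ))).toWord = FreeGroup.invRev Z ++ FreeGroup.invRev A := by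
    rw [el_il, map_inv, FreeGroup.toWord_inv, hA, invRev_append]
  have hxy : (ψ (el (il ℓ')) * ψ (el (il ℓ))).toWord = FreeGroup.invRev B ++ FreeGroup.invRev A := by
    rw [el_il, el_il, map_inv, map_inv, ← mul_inv_rev, FreeGroup.toWord_inv, hAB, invRev_append]
  have hne : ∀ W : List Lt, 0 < W.length → FreeGroup.invRev W ≠ [] := by
    intro W hW h0
    have := congrArg List.length h0
    rw [FreeGroup.invRev_length, List.length_nil] at this
    omega
  obtain ⟨ν, hν, h1, h2⟩ := elem_mem h'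
  refine D6_abs hx hy hxy (hne Z (by omega)) (hne A (by omega)) (hne B (by omega)) ?_ ?_ ?_
    (D6_gen ψ h')
  · intro g
    exact D6_conj hmin (one_mem _) h' g
  · intro g
    have h3 := D6_conj hmin hν h' g
    rw [h1, h2, map_mul] at h3
    exact h3
  · rw [D6_inv, el_il, map_inv, FreeGroup.norm_inv_eq]
    omega

end

theorem no_tie {ψ : MulAut F2}
    (hmin : ∀ ν ∈ Subgroup.closure ({lam, sw, sg} : Set (MulAut F2)),
      (ψ (FreeGroup.of 0)).toWord.length + (ψ (FreeGroup.of 1)).toWord.length ≤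
        ((ψ * ν) (FreeGroup.of 0)).toWord.length + ((ψ * ν) (FreeGroup.of 1)).toWord.length)
    {ℓ ℓ' : Lt} (h : ℓ ≠ il ℓ') :
    (ψ (el ℓ)).toWord.length < (ψ (el ℓ) * ψ (el ℓ')).toWord.length ∧
      (ψ (el ℓ')).toWord.length < (ψ (el ℓ) * ψ (el ℓ')).toWord.length := by
  by_cases hidx : ℓ.1 = ℓ'.1
  · have h1 : ℓ = ℓ' := by
      obtain ⟨i, b⟩ := ℓ
      obtain ⟨j, b'⟩ := ℓ'
      have h2 : i = j := hidx
      subst h2
      have h3 : b ≠ !b' := fun h4 => h (by rw [h4]; rfl)
      have h4 : b = b' := by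
        cases b <;> cases b' <;> simp_all
      rw [h4]
    subst h1
    have h2 : ψ (el ℓ) ≠ 1 := by
      intro h0
      have h3 : el ℓ = 1 := ψ.injective (by rw [h0, map_one])
      have h4 := D6_norm_el ℓ
      rw [h3, FreeGroup.norm_one] at h4
      exact absurd h4 (by norm_num)
    exact ⟨D6_sq h2, D6_sq h2⟩
  · have h' : (il ℓ').1 ≠ (il ℓ).1 := fun h0 => hidx h0.symm
    have a1 := D6_N hmin hidx
    have a2 := D6_N hmin h'
    have a3 := D6_main hmin hidx
    have a4 := D6_main hmin h'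
    rw [D6_inv] at a2 a4
    rw [el_il, map_inv, FreeGroup.norm_inv_eq] at a2 a4
    exact ⟨lt_of_le_of_ne a1 (Ne.symm a4), lt_of_le_of_ne a2 (Ne.symm a3)⟩

end OK71
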