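import Pool.Agent.LibOK71.D3
import Pool.Agent.LibOK71.D6

/-!
[OK71 D7] (SHORT/MEDIUM) Nielsen: the automorphism group of the free group of rank 2 is generated by `lam`, `sw`, `sg`.
Let `ψ` be an automorphism, `ν ∈ 𝒢` with `|(ψ ν) a| + |(ψ ν) b|` minimal (`Nat.find`-like / `WellFounded`). `χ := ψ * ν` is minimal (`no_tie` applies, `𝒢` is closed under products), so by `schottky` (`f = χ`) `|k| ≤ |χ k|` for all `k`. `k1 := χ⁻¹ (of 0)`, `k2 := χ⁻¹ (of 1)` have length `≤ 1`, not `1`, so they are letters: `χ (el ℓ) = of 0`,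
`χ (el ℓ') = of 1`; the indices of `ℓ`, `ℓ'` are different (otherwise `of 0 = (of 1)^(±1)`), so `χ (of i)` has length 1 for both `i` (`χ (el (il ℓ)) = (of 0)⁻¹`), `aut_small`: `χ ∈ 𝒢`, `ψ = χ * ν⁻¹ ∈ 𝒢`.
-/

set_option autoImplicit false

namespace OK71

/-- an element of length 1 is a letter -/
private theorem D7_letter {k : F2} (h : k.toWord.length = 1) : ∃ ℓ : Lt, k = el ℓ := by
  obtain ⟨ℓ, hℓ⟩ := List.length_eq_one_iff.1 h
  exact ⟨ℓ, by rw [← FreeGroup.mk_toWord (x := k), hℓ]; rfl⟩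

private theorem D7_of_len (i : Fin 2) : (FreeGroup.of i : F2).toWord.length = 1 := by
  rw [← el_true, el_toWord]
  rfl

private theorem D7_of_ne (i : Fin 2) : (FreeGroup.of i : F2) ≠ 1 := by
  intro h
  have h1 := D7_of_len i
  rw [h] at h1
  simp at h1

private theorem D7_inv_len (k : F2) : (k⁻¹).toWord.length = k.toWord.length := by
  rw [FreeGroup.toWord_inv, FreeGroup.invRev_length]

private theorem D7_el_inj {ℓ ℓ' : Lt} (h : (el ℓ : F2) = el ℓ') : ℓ = ℓ' := by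
  have h1 : (el ℓ : F2).toWord = (el ℓ').toWord := by rw [h]
  rw [el_toWord, el_toWord] at h1
  simpa using h1

/-- letters with the same index -/
private theorem D7_same {ℓ ℓ' : Lt} (h : ℓ.1 = ℓ'.1) : ℓ' = ℓ ∨ ℓ' = il ℓ := by
  obtain ⟨i, x⟩ := ℓ
  obtain ⟨j, y⟩ := ℓ'
  simp only at h
  subst h
  cases x <;> cases y <;> simp [il]

private theorem D7_small {χ : MulAut F2} (hlen : ∀ k : F2, k.toWord.length ≤ (χ k).toWord.length) :
    ∀ i, (χ (FreeGroup.of i)).toWord.length = 1 := by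
  have h1 : ∀ i : Fin 2, ∃ ℓ : Lt, χ (el ℓ) = FreeGroup.of i := by
    intro i
    obtain ⟨k, hk⟩ := χ.surjective (FreeGroup.of i)
    have h2 := hlen k
    rw [hk, D7_of_len] at h2
    have h3 : k.toWord.length ≠ 0 := by
      intro h4
      rw [List.length_eq_zero_iff, FreeGroup.toWord_eq_nil_iff] at h4
      rw [h4, map_one] at hk
      exact D7_of_ne i hk.symm
    obtain ⟨ℓ, hℓ⟩ := D7_letter (k := k) (by omega)
    exact ⟨ℓ, by rw [← hℓ, hk]⟩
  obtain ⟨ℓ, hℓ⟩ := h1 0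
  obtain ⟨ℓ', hℓ'⟩ := h1 1
  have hne : ℓ.1 ≠ ℓ'.1 := by
    intro h
    rcases D7_same h with h2 | h2
    · rw [h2, hℓ, ← el_true, ← el_true] at hℓ'
      have := D7_el_inj hℓ'
      simp at this
    · rw [h2, el_il, map_inv, hℓ, ← el_true, ← el_true, ← el_il] at hℓ'
      have := D7_el_inj hℓ'
      simp [il] at this
  have key : ∀ (i j : Fin 2) (m : Lt), χ (el m) = FreeGroup.of j → m.1 = i →
      (χ (FreeGroup.of i)).toWord.length = 1 := by
    intro i j m hm hi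
    rcases D7_same (ℓ := (i, true)) (ℓ' := m) hi.symm with h2 | h2
    · rw [h2, el_true] at hm
      rw [hm, D7_of_len]
    · rw [h2, el_il, el_true, map_inv] at hm
      rw [← D7_inv_len, hm, D7_of_len]
  intro i
  by_cases hi : ℓ.1 = i
  · exact key i 0 ℓ hℓ hi
  · refine key i 1 ℓ' hℓ' ?_
    obtain ⟨p, x⟩ := ℓ
    obtain ⟨q, y⟩ := ℓ'
    simp only at hi hne ⊢
    omega

theorem nielsen : Subgroup.closure ({lam, sw, sg} : Set (MulAut F2)) = ⊤ := by
  refine eq_top_iff.2 fun ψ _ => ?_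
  obtain ⟨ν, hν, hmin⟩ := (measure fun ν : MulAut F2 =>
    ((ψ * ν) (FreeGroup.of 0)).toWord.length + ((ψ * ν) (FreeGroup.of 1)).toWord.length).wf.has_min
      ((Subgroup.closure ({lam, sw, sg} : Set (MulAut F2)) : Subgroup (MulAut F2)) : Set (MulAut F2))
      ⟨1, Subgroup.one_mem _⟩
  have hmin' : ∀ μ ∈ Subgroup.closure ({lam, sw, sg} : Set (MulAut F2)),
      ((ψ * ν) (FreeGroup.of 0)).toWord.length + ((ψ * ν) (FreeGroup.of 1)).toWord.length ≤
        ((ψ * ν * μ) (FreeGroup.of 0)).toWord.length +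
          ((ψ * ν * μ) (FreeGroup.of 1)).toWord.length := by
    intro μ hμ
    have h1 := hmin (ν * μ) (Subgroup.mul_mem _ hν hμ)
    rw [mul_assoc]
    exact not_lt.1 h1
  have hlen : ∀ k : F2, k.toWord.length ≤ ((ψ * ν) k).toWord.length :=
    fun k => schottky (f := (ψ * ν).toMonoidHom) (fun ℓ ℓ' h => no_tie hmin' h) k
  have h2 := aut_small (D7_small hlen)
  have h3 : ψ = ψ * ν * ν⁻¹ := by group
  rw [h3]
  exact Subgroup.mul_mem _ h2 (Subgroup.inv_mem _ hν)

end OK71
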