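import Mathlib

/-!
# Onto extensions of subgroups of free groups: definitions
-/

set_option autoImplicit false

namespace OK71

section General

variable {α : Type} [DecidableEq α]

/-- The map `Γ_A(H) → Γ_A(K)` of the pointed Stallings graphs of `H ≤ K`, for the standard basis,
is onto: the edges of `Γ_A(K)` are the pairs `(K u, e)` where `u e` is an initial segment of the
reduced word of an element of `K`; each of them is the image of an edge of `Γ_A(H)`. -/
def OntoStd (H K : Subgroup (FreeGroup α)) : Prop :=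
  ∀ k ∈ K, ∀ (u v : List (α × Bool)) (e : α × Bool), k.toWord = u ++ e :: v →
    ∃ h ∈ H, ∃ u' v' : List (α × Bool), h.toWord = u' ++ e :: v' ∧
      FreeGroup.mk u' * (FreeGroup.mk u)⁻¹ ∈ K

/-- the subgroup `ψ⁻¹(G)`: the words of the elements of `G` in the basis `ψ(A)` -/
def pb (ψ : MulAut (FreeGroup α)) (G : Subgroup (FreeGroup α)) : Subgroup (FreeGroup α) :=
  G.comap ψ.toMonoidHom

/-- `H ≤ K` is an onto extension -/
def Onto (H K : Subgroup (FreeGroup α)) : Prop :=
  ∀ ψ : MulAut (FreeGroup α), OntoStd (pb ψ H) (pb ψ K)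

/-- the inverse of a letter -/
def il (ℓ : α × Bool) : α × Bool := (ℓ.1, !ℓ.2)

/-- the element of a letter -/
def el (ℓ : α × Bool) : FreeGroup α := FreeGroup.mk [ℓ]

/-- the first letter of the reduced word of `k` -/
def fl (k : FreeGroup α) : Option (α × Bool) := k.toWord.head?

/-- the direction of `k` at the vertex `v`: the first letter of the reduced word of `v⁻¹ k v` -/
def dr (v k : FreeGroup α) : Option (α × Bool) := fl (v⁻¹ * k * v)

/-- `ℓ` is the direction at `v` of some element of `G` -/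
def M (G : Subgroup (FreeGroup α)) (v : FreeGroup α) (ℓ : α × Bool) : Prop :=
  ∃ k ∈ G, dr v k = some ℓ

/-- `v` is a vertex of the minimal subtree of `G` -/
def Co (G : Subgroup (FreeGroup α)) (v : FreeGroup α) : Prop :=
  ∃ ℓ ℓ' : α × Bool, ℓ ≠ ℓ' ∧ M G v ℓ ∧ M G v ℓ'

/-- the edge from `v` with letter `ℓ` is in the minimal subtree of `G` -/
def E (G : Subgroup (FreeGroup α)) (v : FreeGroup α) (ℓ : α × Bool) : Prop := M G v ℓ ∧ Co G v

/-- every edge with letter `ℓ` of the minimal subtree of `K` has a `K`-translate in the minimal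
subtree of `H` -/
def Go (H K : Subgroup (FreeGroup α)) (ℓ : α × Bool) : Prop :=
  ∀ v, E K v ℓ → ∃ c ∈ K, E H (c * v) ℓ

end General

/-! ### Rank 2 -/

/-- the free group of rank 2 with basis `a = of 0`, `b = of 1` -/
abbrev F2 : Type := FreeGroup (Fin 2)

/-- letters -/
abbrev Lt : Type := Fin 2 × Bool

/-- the value of a positive word -/
def pv (w : List (Fin 2)) : F2 := (w.map FreeGroup.of).prod

/-- `a ↦ a, b ↦ a b` -/
def lam : MulAut F2 :=
  MonoidHom.toMulEquiv (FreeGroup.lift ![FreeGroup.of 0, FreeGroup.of 0 * FreeGroup.of 1])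
    (FreeGroup.lift ![FreeGroup.of 0, (FreeGroup.of 0)⁻¹ * FreeGroup.of 1])
    (by ext i; fin_cases i <;> simp) (by ext i; fin_cases i <;> simp)

/-- `a ↦ b a, b ↦ b` -/
def rho : MulAut F2 :=
  MonoidHom.toMulEquiv (FreeGroup.lift ![FreeGroup.of 1 * FreeGroup.of 0, FreeGroup.of 1])
    (FreeGroup.lift ![(FreeGroup.of 1)⁻¹ * FreeGroup.of 0, FreeGroup.of 1])
    (by ext i; fin_cases i <;> simp) (by ext i; fin_cases i <;> simp)

/-- `a ↦ b, b ↦ a` -/
def sw : MulAut F2 :=
  MonoidHom.toMulEquiv (FreeGroup.lift ![FreeGroup.of 1, FreeGroup.of 0])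
    (FreeGroup.lift ![FreeGroup.of 1, FreeGroup.of 0])
    (by ext i; fin_cases i <;> simp) (by ext i; fin_cases i <;> simp)

/-- `a ↦ a, b ↦ b⁻¹` -/
def sg : MulAut F2 :=
  MonoidHom.toMulEquiv (FreeGroup.lift ![FreeGroup.of 0, (FreeGroup.of 1)⁻¹])
    (FreeGroup.lift ![FreeGroup.of 0, (FreeGroup.of 1)⁻¹])
    (by ext i; fin_cases i <;> simp) (by ext i; fin_cases i <;> simp)

/-- the automorphism of a list of moves (the head of the list is the last move) -/
def ph : List Bool → MulAut F2
  | [] => 1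
  | false :: m => ph m * lam
  | true :: m => ph m * rho

/-- the words `x₀, y₀, w` with `x = x₀ a`, `y = y₀ b`, `x y = w a b`, `y x = w b a`, where
`x, y` are the images of `a, b` -/
def wd : List Bool → List (Fin 2) × List (Fin 2) × List (Fin 2)
  | [] => ([], [], [])
  | false :: m => ((wd m).1, (wd m).1 ++ 0 :: (wd m).2.1, (wd m).1 ++ 0 :: (wd m).2.2)
  | true :: m => ((wd m).2.1 ++ 1 :: (wd m).1, (wd m).2.1, (wd m).2.1 ++ 1 :: (wd m).2.2)

/-- coloured positive words: letter, colour of the left side, colour of the right side -/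
abbrev CW : Type := List (Fin 2 × Bool × Bool)

/-- a word with constant colours -/
def co (u : List (Fin 2)) (l r : Bool) : CW := u.map fun c => (c, l, r)

/-- the word of a coloured word -/
def un (W : CW) : List (Fin 2) := W.map Prod.fst

/-- `T v ℓ` for a direction `(v, ℓ)` of colour `κ` which leaves the path `W` from `v` at an edge
of the path: at an edge `a` from `v` to `v a` these are `(v, b)` (left) and `(v a, b⁻¹)` (right),
at an edge `b` from `v` to `v b` these are `(v, a)` (right) and `(v b, a⁻¹)` (left). -/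
def fg (T : F2 → Lt → Prop) : CW → F2 → Bool → Prop
  | [], _, _ => False
  | (c, l, r) :: W, v, κ =>
    (c = 0 ∧ l = κ ∧ T v (1, true)) ∨ (c = 0 ∧ r = κ ∧ T (v * FreeGroup.of 0) (1, false)) ∨
      (c = 1 ∧ r = κ ∧ T v (0, true)) ∨ (c = 1 ∧ l = κ ∧ T (v * FreeGroup.of 1) (0, false)) ∨
        fg T W (v * FreeGroup.of c) κ

/-- the same, with the two directions `a⁻¹` (left), `b⁻¹` (right) at the beginning and
`b` (left), `a` (right) at the end -/
def cr (T : F2 → Lt → Prop) (W : CW) (σ ε : Bool × Bool) (v : F2) (κ : Bool) : Prop :=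
  (σ.1 = κ ∧ T v (0, false)) ∨ (σ.2 = κ ∧ T v (1, false)) ∨ fg T W v κ ∨
    (ε.1 = κ ∧ T (v * pv (un W)) (1, true)) ∨ (ε.2 = κ ∧ T (v * pv (un W)) (0, true))

/-- both colours occur for the edges of the minimal subtree of `G` -/
def Cr (G : Subgroup F2) (W : CW) (σ ε : Bool × Bool) (v : F2) : Prop :=
  ∀ κ, cr (E G) W σ ε v κ

/-- some `K`-orbit of paths is crossed by the minimal subtree of `K` and not by the one of `H` -/
def Bad (H K : Subgroup F2) (W : CW) (σ ε : Bool × Bool) : Prop :=
  ∃ v, Cr K W σ ε v ∧ ∀ c ∈ K, ¬ Cr H W σ ε (c * v)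

/-- left = `true`, right = `false` -/
abbrev tf : Bool × Bool := (true, false)

/-- the bound for the number of classes -/
def NN (n : ℕ) : ℕ := 2 ^ (4 * (n + 1) ^ 2 * 2 ^ (4 * (n + 1) ^ 2))

/-- the bound for the length of the bases -/
def Bd (n : ℕ) : ℕ := 2 ^ (2 * NN n ^ 3 + 4) * (n + 1)

/-- the size of a finite list of elements -/
def sz {α : Type} [DecidableEq α] (S : List (FreeGroup α)) : ℕ :=
  (S.map fun s => s.toWord.length + 1).sum

end OK71
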