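import Pool.Agent.LibOK71.B7
import Pool.Agent.LibOK71.D1
import Pool.Agent.LibOK71.D2
import Pool.Agent.LibOK71.D7
import Pool.Agent.LibOK71.C6

/-!
[OK71 E1] (MEDIUM) finitely many bases are enough (for `Go`).
`ψ = conj g * σ * ph m * w` (`nielsen`, `normal_form`). `pb ψ G = pb w (pb (ph m) (pb σ (pb (conj g) G)))` (pb_mul); `Go_W`; `Go_all`; `Go_ph` for the pair `pb σ (pb (conj g) H)`, `pb σ (pb (conj g) K)`. But `conj g` has to be removed first: `Go (pb (conj g * χ) H) (pb (conj g * χ) K) ℓ ↔ Go (pb χ H) (pb χ K) ℓ`: `conj g * χ = χ * conj (χ⁻¹ g)` (`conj_aut`), `pb_mul`, `Go_conj`.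
So for all `ψ` it is enough: for both `ε` the pair `H' = pb σ H`, `K' = pb σ K` (`σ = 1` or `sg`) satisfies `Go H' K' (i, true)` and no `Bad H' K' (co (wd m).2.2 …)`. `H' = closure (S.map σ⁻¹)` (`Subgroup.comap_equiv_eq_map_symm`, `MonoidHom.map_closure`), `sz` does not change (`sg` keeps lengths), so `bad_bound` gives `m` with `m.length < NN n ^ 3`, and by `Go_lam_a`
`¬ Go (pb (ph (false :: m)) H') …`. Hypothesis `h1` with `m = []` gives `Go H' K'` (`ph [] = 1`).
-/

set_option autoImplicit false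

namespace OK71

private theorem E1_sgsg (k : F2) : sg (sg k) = k := by
  have h := DFunLike.congr_fun sg_sg k
  rwa [MulAut.mul_apply, MulAut.one_apply] at h

private theorem E1_norm_el (ℓ : Lt) : (sg (el ℓ)).norm ≤ 1 := by
  obtain ⟨i, b⟩ := ℓ
  have h2 : ∀ ℓ' : Lt, (el ℓ').norm ≤ 1 := by
    intro ℓ'
    rw [FreeGroup.norm, el_toWord]
    simp
  have h1 : ∃ ℓ' : Lt, sg (el (i, b)) = el ℓ' := by
    fin_cases i <;> cases b
    · refine ⟨(0, false), ?_⟩
      show sg (el (0, false)) = _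
      rw [el_false, map_inv, sg_of0]
    · refine ⟨(0, true), ?_⟩
      show sg (el (0, true)) = _
      rw [el_true, sg_of0]
    · refine ⟨(1, true), ?_⟩
      show sg (el (1, false)) = _
      rw [el_false, el_true, map_inv, sg_of1, inv_inv]
    · refine ⟨(1, false), ?_⟩
      show sg (el (1, true)) = _
      rw [el_false, el_true, sg_of1]
  obtain ⟨ℓ', h⟩ := h1
  rw [h]
  exact h2 ℓ'

private theorem E1_norm_mk (L : List Lt) : (sg (FreeGroup.mk L)).norm ≤ L.length := by
  induction L with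
  | nil =>
    have h : (FreeGroup.mk [] : F2) = 1 := rfl
    rw [h, map_one, FreeGroup.norm_one]
    simp
  | cons ℓ L ih =>
    rw [mk_cons, map_mul, List.length_cons]
    have h1 := FreeGroup.norm_mul_le (sg (el ℓ)) (sg (FreeGroup.mk L))
    have h2 := E1_norm_el ℓ
    omega

private theorem E1_norm_le (k : F2) : (sg k).norm ≤ k.norm := by
  have h := E1_norm_mk k.toWord
  rwa [FreeGroup.mk_toWord] at h

private theorem E1_norm (k : F2) : (sg k).toWord.length = k.toWord.length := by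
  have h1 := E1_norm_le k
  have h2 := E1_norm_le (sg k)
  rw [E1_sgsg] at h2
  exact le_antisymm h1 h2

private theorem E1_sz (S : List F2) : sz (S.map sg) = sz S := by
  unfold sz
  rw [List.map_map]
  congr 1
  apply List.map_congr_left
  intro k _
  rw [Function.comp_apply, E1_norm]

private theorem E1_closure (S : List F2) :
    pb sg (Subgroup.closure {s | s ∈ S}) = Subgroup.closure {s | s ∈ S.map sg} := by
  apply le_antisymm
  · intro k hk
    have h1 : Subgroup.closure {s | s ∈ S} ≤ pb sg (Subgroup.closure {s | s ∈ S.map sg}) := by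
      rw [Subgroup.closure_le]
      intro s hs
      show sg s ∈ Subgroup.closure {s | s ∈ S.map sg}
      exact Subgroup.subset_closure (List.mem_map_of_mem hs)
    have h2 : sg (sg k) ∈ Subgroup.closure {s | s ∈ S.map sg} := h1 hk
    rwa [E1_sgsg] at h2
  · rw [Subgroup.closure_le]
    intro s hs
    obtain ⟨t, ht, rfl⟩ := List.mem_map.1 hs
    show sg (sg t) ∈ Subgroup.closure {s | s ∈ S}
    rw [E1_sgsg]
    exact Subgroup.subset_closure ht

private theorem E1_gen (ε : Bool) (S : List F2) : ∃ S' : List F2, sz S' = sz S ∧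
    pb (if ε then sg else 1) (Subgroup.closure {s | s ∈ S}) =
      Subgroup.closure {s | s ∈ S'} := by
  cases ε with
  | true => exact ⟨S.map sg, E1_sz S, by simpa using E1_closure S⟩
  | false => exact ⟨S, rfl, by simpa using pb_one _⟩

theorem go_finite {S T : List F2} {n : ℕ} (hS : sz S ≤ n) (hT : sz T ≤ n)
    (hST : Subgroup.closure {s | s ∈ S} ≤ Subgroup.closure {t | t ∈ T})
    (h : ∀ (ε : Bool) (m : List Bool), m.length ≤ NN n ^ 3 → ∀ ℓ : Lt,
      Go (pb ((if ε then sg else 1) * ph m) (Subgroup.closure {s | s ∈ S}))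
        (pb ((if ε then sg else 1) * ph m) (Subgroup.closure {t | t ∈ T})) ℓ)
    (ψ : MulAut F2) (ℓ : Lt) :
    Go (pb ψ (Subgroup.closure {s | s ∈ S})) (pb ψ (Subgroup.closure {t | t ∈ T})) ℓ := by
  obtain ⟨g, ε, m, w, hw, hψ⟩ := normal_form (ψ := ψ) (by rw [nielsen]; trivial)
  obtain ⟨χ, hχ⟩ : ∃ χ : MulAut F2, χ = (if ε then sg else 1) * ph m * w := ⟨_, rfl⟩
  have h1 : ψ = χ * MulAut.conj (χ⁻¹ g) := by
    rw [conj_aut, MulAut.apply_inv_self, hχ, hψ]
    simp only [mul_assoc]
  rw [h1, pb_mul, pb_mul, Go_conj, hχ]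
  show Go (pb w (pb ((if ε then sg else 1) * ph m) (Subgroup.closure {s | s ∈ S})))
    (pb w (pb ((if ε then sg else 1) * ph m) (Subgroup.closure {t | t ∈ T}))) ℓ
  refine Go_W hw (fun ℓ => Go_all (fun i => ?_) ℓ) ℓ
  show Go (pb (ph m) (pb (if ε then sg else 1) (Subgroup.closure {s | s ∈ S})))
    (pb (ph m) (pb (if ε then sg else 1) (Subgroup.closure {t | t ∈ T}))) (i, true)
  refine Go_ph ?_ ?_ m i
  · intro i
    have h2 := h ε [] (Nat.zero_le _) (i, true)
    rw [show ph [] = 1 from rfl, mul_one] at h2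
    exact h2
  · intro m1 hbad
    obtain ⟨S', hS1, hS2⟩ := E1_gen ε S
    obtain ⟨T', hT1, hT2⟩ := E1_gen ε T
    have hmono := pb_mono (if ε then sg else 1) hST
    rw [hS2, hT2] at hbad hmono
    obtain ⟨m2, hm2, hbad2⟩ := bad_bound (S := S') (T := T') (n := n) (by omega) (by omega) hmono
      ⟨m1, hbad⟩
    have h3 := h ε (false :: m2) (by rw [List.length_cons]; omega) (0, true)
    rw [pb_mul, pb_mul, hS2, hT2, Go_lam_a] at h3
    exact h3 hbad2

end OK71
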