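import Pool.Agent.LibOK71.A1
import Pool.Agent.LibOK71.B1

/-!
[OK71 E2] (SHORT/MEDIUM) lengths.
`|lam k| ≤ 2 |k|`, `|lam.symm k| ≤ 2 |k|`, the same for `rho`, `|sg k| ≤ |k|`: each letter goes to a word of length `≤ 2` (`FreeGroup.norm_mul_le`, induction on `k.toWord`, or a general lemma: `|ψ k| ≤ c |k|` if `|ψ (of i)| ≤ c` for all `i`; `FreeGroup.norm`). Induction on `m`: `|ph m k| ≤ 2 ^ |m| * |k|`, `|(ph m).symm k| ≤ 2 ^ |m| * |k|`.
-/

set_option autoImplicit false

namespace OK71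

private theorem E2_hom (ψ : F2 →* F2) (c : ℕ) (h : ∀ i, (ψ (FreeGroup.of i)).norm ≤ c) (k : F2) :
    (ψ k).norm ≤ c * k.norm := by
  have key : ∀ L : List (Fin 2 × Bool), (ψ (FreeGroup.mk L)).norm ≤ c * L.length := by
    intro L
    induction L with
    | nil =>
      have h1 : (FreeGroup.mk [] : F2) = 1 := rfl
      rw [h1, map_one, FreeGroup.norm_one]
      exact Nat.zero_le _
    | cons ℓ v ih =>
      have h2 : (ψ (el ℓ)).norm ≤ c := by
        obtain ⟨i, b⟩ := ℓ
        cases b with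
        | true => rw [el_true]; exact h i
        | false => rw [el_false, map_inv, FreeGroup.norm_inv_eq]; exact h i
      rw [mk_cons, map_mul, List.length_cons]
      have h3 := FreeGroup.norm_mul_le (ψ (el ℓ)) (ψ (FreeGroup.mk v))
      calc _ ≤ _ := h3
        _ ≤ c + c * v.length := Nat.add_le_add h2 ih
        _ = c * (v.length + 1) := by ring
  have h4 := key k.toWord
  rw [FreeGroup.mk_toWord] at h4
  exact h4

private theorem E2_two (x y : F2) (hx : x.norm ≤ 1) (hy : y.norm ≤ 1) : (x * y).norm ≤ 2 :=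
  (FreeGroup.norm_mul_le x y).trans (Nat.add_le_add hx hy)

private theorem E2_of (i : Fin 2) : (FreeGroup.of i : F2).norm ≤ 1 :=
  (FreeGroup.norm_of i).le

private theorem E2_ofi (i : Fin 2) : ((FreeGroup.of i : F2)⁻¹).norm ≤ 1 := by
  rw [FreeGroup.norm_inv_eq]
  exact E2_of i

private theorem E2_lam (k : F2) : (lam k).norm ≤ 2 * k.norm := by
  refine E2_hom lam.toMonoidHom 2 (fun i => ?_) k
  fin_cases i
  · show (FreeGroup.lift ![FreeGroup.of 0, FreeGroup.of 0 * FreeGroup.of 1]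
      (FreeGroup.of (0 : Fin 2)) : F2).norm ≤ 2
    rw [FreeGroup.lift_apply_of]
    exact (E2_of 0).trans one_le_two
  · show (FreeGroup.lift ![FreeGroup.of 0, FreeGroup.of 0 * FreeGroup.of 1]
      (FreeGroup.of (1 : Fin 2)) : F2).norm ≤ 2
    rw [FreeGroup.lift_apply_of]
    exact E2_two _ _ (E2_of 0) (E2_of 1)

private theorem E2_lams (k : F2) : (lam.symm k).norm ≤ 2 * k.norm := by
  refine E2_hom lam.symm.toMonoidHom 2 (fun i => ?_) k
  fin_cases i
  · show (FreeGroup.lift ![FreeGroup.of 0, (FreeGroup.of 0)⁻¹ * FreeGroup.of 1]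
      (FreeGroup.of (0 : Fin 2)) : F2).norm ≤ 2
    rw [FreeGroup.lift_apply_of]
    exact (E2_of 0).trans one_le_two
  · show (FreeGroup.lift ![FreeGroup.of 0, (FreeGroup.of 0)⁻¹ * FreeGroup.of 1]
      (FreeGroup.of (1 : Fin 2)) : F2).norm ≤ 2
    rw [FreeGroup.lift_apply_of]
    exact E2_two _ _ (E2_ofi 0) (E2_of 1)

private theorem E2_rho (k : F2) : (rho k).norm ≤ 2 * k.norm := by
  refine E2_hom rho.toMonoidHom 2 (fun i => ?_) k
  fin_cases i
  · show (FreeGroup.lift ![FreeGroup.of 1 * FreeGroup.of 0, FreeGroup.of 1]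
      (FreeGroup.of (0 : Fin 2)) : F2).norm ≤ 2
    rw [FreeGroup.lift_apply_of]
    exact E2_two _ _ (E2_of 1) (E2_of 0)
  · show (FreeGroup.lift ![FreeGroup.of 1 * FreeGroup.of 0, FreeGroup.of 1]
      (FreeGroup.of (1 : Fin 2)) : F2).norm ≤ 2
    rw [FreeGroup.lift_apply_of]
    exact (E2_of 1).trans one_le_two

private theorem E2_rhos (k : F2) : (rho.symm k).norm ≤ 2 * k.norm := by
  refine E2_hom rho.symm.toMonoidHom 2 (fun i => ?_) k
  fin_cases i
  · show (FreeGroup.lift ![(FreeGroup.of 1)⁻¹ * FreeGroup.of 0, FreeGroup.of 1]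
      (FreeGroup.of (0 : Fin 2)) : F2).norm ≤ 2
    rw [FreeGroup.lift_apply_of]
    exact E2_two _ _ (E2_ofi 1) (E2_of 0)
  · show (FreeGroup.lift ![(FreeGroup.of 1)⁻¹ * FreeGroup.of 0, FreeGroup.of 1]
      (FreeGroup.of (1 : Fin 2)) : F2).norm ≤ 2
    rw [FreeGroup.lift_apply_of]
    exact (E2_of 1).trans one_le_two

private theorem E2_sg (k : F2) : (sg k).norm ≤ 1 * k.norm := by
  refine E2_hom sg.toMonoidHom 1 (fun i => ?_) k
  fin_cases i
  · show (FreeGroup.lift ![FreeGroup.of 0, (FreeGroup.of 1)⁻¹]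
      (FreeGroup.of (0 : Fin 2)) : F2).norm ≤ 1
    rw [FreeGroup.lift_apply_of]
    exact E2_of 0
  · show (FreeGroup.lift ![FreeGroup.of 0, (FreeGroup.of 1)⁻¹]
      (FreeGroup.of (1 : Fin 2)) : F2).norm ≤ 1
    rw [FreeGroup.lift_apply_of]
    exact E2_ofi 1

private theorem E2_sgs (k : F2) : (sg.symm k).norm ≤ 1 * k.norm := by
  refine E2_hom sg.symm.toMonoidHom 1 (fun i => ?_) k
  fin_cases i
  · show (FreeGroup.lift ![FreeGroup.of 0, (FreeGroup.of 1)⁻¹]
      (FreeGroup.of (0 : Fin 2)) : F2).norm ≤ 1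
    rw [FreeGroup.lift_apply_of]
    exact E2_of 0
  · show (FreeGroup.lift ![FreeGroup.of 0, (FreeGroup.of 1)⁻¹]
      (FreeGroup.of (1 : Fin 2)) : F2).norm ≤ 1
    rw [FreeGroup.lift_apply_of]
    exact E2_ofi 1

private theorem E2_ph (m : List Bool) (k : F2) : (ph m k).norm ≤ 2 ^ m.length * k.norm := by
  induction m generalizing k with
  | nil =>
    show (k : F2).norm ≤ 2 ^ 0 * k.norm
    rw [pow_zero, one_mul]
  | cons b m ih =>
    have h1 : ∃ t : MulAut F2, (∀ x, (t x).norm ≤ 2 * x.norm) ∧ ph (b :: m) = ph m * t := by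
      cases b with
      | false => exact ⟨lam, E2_lam, rfl⟩
      | true => exact ⟨rho, E2_rho, rfl⟩
    obtain ⟨t, ht, h2⟩ := h1
    rw [h2, MulAut.mul_apply, List.length_cons]
    calc _ ≤ _ := ih (t k)
      _ ≤ 2 ^ m.length * (2 * k.norm) := Nat.mul_le_mul_left _ (ht k)
      _ = 2 ^ (m.length + 1) * k.norm := by ring

private theorem E2_phs (m : List Bool) (k : F2) :
    ((ph m).symm k).norm ≤ 2 ^ m.length * k.norm := by
  induction m with
  | nil =>
    show (k : F2).norm ≤ 2 ^ 0 * k.norm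
    rw [pow_zero, one_mul]
  | cons b m ih =>
    have h1 : ∃ t : MulAut F2, (∀ x, (t.symm x).norm ≤ 2 * x.norm) ∧ ph (b :: m) = ph m * t := by
      cases b with
      | false => exact ⟨lam, E2_lams, rfl⟩
      | true => exact ⟨rho, E2_rhos, rfl⟩
    obtain ⟨t, ht, h2⟩ := h1
    rw [h2, List.length_cons]
    show (t.symm ((ph m).symm k)).norm ≤ _
    calc _ ≤ _ := ht _
      _ ≤ 2 * (2 ^ m.length * k.norm) := Nat.mul_le_mul_left _ ih
      _ = 2 ^ (m.length + 1) * k.norm := by ring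

theorem len_ph (ε : Bool) (m : List Bool) (k : F2) :
    (((if ε then sg else 1) * ph m) k).toWord.length ≤ 2 ^ m.length * k.toWord.length := by
  have h1 := E2_ph m k
  cases ε with
  | false => exact h1
  | true =>
    have h2 := E2_sg (ph m k)
    rw [one_mul] at h2
    exact h2.trans h1

theorem len_ph_symm (ε : Bool) (m : List Bool) (k : F2) :
    (((if ε then sg else 1) * ph m).symm k).toWord.length ≤
      2 ^ m.length * k.toWord.length := by
  cases ε with
  | false => exact E2_phs m k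
  | true =>
    have h1 := E2_phs m (sg.symm k)
    have h2 := E2_sgs k
    rw [one_mul] at h2
    exact h1.trans (Nat.mul_le_mul_left _ h2)

end OK71
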