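import Pool.Agent.LibOK71.A7
import Pool.Agent.LibOK71.E1
import Pool.Agent.LibOK71.E2

/-!
[OK71 E3] (MEDIUM) the main theorem.
Left to right: trivial. Right to left: `onto_of_go` for every `ψ` (`pb_mono`), so `Go (pb ψ H) (pb ψ K) ℓ` for all `ψ`, `ℓ` is needed: `go_finite` with `n = sz S + sz T`; let `χ = σ * ph m`, `m.length ≤ N := NN n ^ 3`. `H' = pb χ H`, `K' = pb χ K`. If `H' = ⊥` take `p = 1`. Otherwise `H ≠ ⊥`, some `s ∈ S` is not `1` (`Subgroup.closure_eq_bot_iff`), `s' := χ.symm s ∈ H'`, `s' ≠ 1`;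
`core_pre`: `p = mk u`, `s'.toWord = u ++ r`, `Co H' p`; `|p| ≤ |s'| ≤ 2 ^ N * |s|` and `|s| + 1 ≤ sz S`. `go_of_onto` for `H' ≤ K'` and `p`: needs `OntoStd (pb (conj p) H') …`, and `pb (conj p) (pb χ H) = pb (χ * conj p) H`; the hypothesis applies: `|(χ * conj p) (of i)| = |χ (p * of i * p⁻¹)| ≤ 2 ^ N * (2 |p| + 1) ≤ Bd n` (`Bd n = 2 ^ (2 N + 4) * (n + 1)`).
-/

set_option autoImplicit false

namespace OK71

private theorem E3_len_mul (x y : F2) :
    (x * y).toWord.length ≤ x.toWord.length + y.toWord.length :=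
  FreeGroup.norm_mul_le x y

private theorem E3_len_inv (x : F2) : (x⁻¹).toWord.length = x.toWord.length :=
  FreeGroup.norm_inv_eq

private theorem E3_len_of (i : Fin 2) : (FreeGroup.of i : F2).toWord.length = 1 := by
  rw [FreeGroup.toWord_of]
  rfl

private theorem E3_sz {S : List F2} {s : F2} (hs : s ∈ S) : s.toWord.length + 1 ≤ sz S := by
  unfold sz
  exact List.single_le_sum (by intro x _; exact Nat.zero_le x) _
    (List.mem_map.2 ⟨s, hs, rfl⟩)

private theorem E3_bd {N n a c : ℕ} (ha : a ≤ 2 ^ N * c) (hc : c + 1 ≤ n) :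
    2 ^ N * (a + 1 + a) ≤ 2 ^ (2 * N + 4) * (n + 1) := by
  have h1 : 1 ≤ 2 ^ N := Nat.one_le_two_pow
  have h2 : a + 1 + a ≤ 2 ^ N * (2 * c + 1) := by nlinarith
  have h3 : 2 ^ (2 * N + 4) = 2 ^ N * 2 ^ N * 16 := by
    rw [pow_add, two_mul, pow_add]
    norm_num
  calc 2 ^ N * (a + 1 + a) ≤ 2 ^ N * (2 ^ N * (2 * c + 1)) := Nat.mul_le_mul_left _ h2
    _ = 2 ^ N * 2 ^ N * (2 * c + 1) := by ring
    _ ≤ 2 ^ N * 2 ^ N * (16 * (n + 1)) := Nat.mul_le_mul_left _ (by omega)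
    _ = 2 ^ (2 * N + 4) * (n + 1) := by rw [h3]; ring

private theorem E3_go {S T : List F2}
    (hST : Subgroup.closure {s | s ∈ S} ≤ Subgroup.closure {t | t ∈ T})
    (h : ∀ ψ : MulAut F2, (∀ i, (ψ (FreeGroup.of i)).toWord.length ≤ Bd (sz S + sz T)) →
        OntoStd (pb ψ (Subgroup.closure {s | s ∈ S})) (pb ψ (Subgroup.closure {t | t ∈ T})))
    {χ : MulAut F2} {N : ℕ} (hN : N = NN (sz S + sz T) ^ 3)
    (h1 : ∀ k : F2, (χ k).toWord.length ≤ 2 ^ N * k.toWord.length)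
    (h2 : ∀ k : F2, (χ.symm k).toWord.length ≤ 2 ^ N * k.toWord.length) (ℓ : Lt) :
    Go (pb χ (Subgroup.closure {s | s ∈ S})) (pb χ (Subgroup.closure {t | t ∈ T})) ℓ := by
  have key : ∀ p : F2, 2 ^ N * (p.toWord.length + 1 + p.toWord.length) ≤ Bd (sz S + sz T) →
      OntoStd (pb (MulAut.conj p) (pb χ (Subgroup.closure {s | s ∈ S})))
        (pb (MulAut.conj p) (pb χ (Subgroup.closure {t | t ∈ T}))) := by
    intro p hp
    rw [← pb_mul, ← pb_mul]
    refine h (χ * MulAut.conj p) fun i => ?_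
    have h3 : (χ * MulAut.conj p) (FreeGroup.of i) = χ (p * FreeGroup.of i * p⁻¹) := rfl
    rw [h3]
    refine (h1 _).trans (le_trans (Nat.mul_le_mul_left _ ?_) hp)
    refine (E3_len_mul _ _).trans ?_
    rw [E3_len_inv]
    refine Nat.add_le_add_right ((E3_len_mul _ _).trans ?_) _
    rw [E3_len_of]
  by_cases hb : pb χ (Subgroup.closure {s | s ∈ S}) = ⊥
  · refine go_of_onto (pb_mono χ hST) (p := 1) (Or.inr hb) (key 1 ?_) ℓ
    have h4 : (1 : F2).toWord.length = 0 := by rw [FreeGroup.toWord_one]; rfl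
    rw [h4, Bd, ← hN]
    calc 2 ^ N * (0 + 1 + 0) = 2 ^ N := by ring
      _ ≤ 2 ^ (2 * N + 4) := Nat.pow_le_pow_right (by norm_num) (by omega)
      _ ≤ 2 ^ (2 * N + 4) * (sz S + sz T + 1) := Nat.le_mul_of_pos_right _ (by omega)
  · obtain ⟨s, hs, hs1⟩ : ∃ s ∈ S, s ≠ 1 := by
      by_contra hcon
      push Not at hcon
      apply hb
      have h5 : Subgroup.closure {s | s ∈ S} = (⊥ : Subgroup F2) := by
        rw [Subgroup.closure_eq_bot_iff]
        intro s hs
        exact hcon s hs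
      rw [h5, eq_bot_iff]
      intro x hx
      rw [mem_pb, Subgroup.mem_bot] at hx
      rw [Subgroup.mem_bot]
      exact (MulEquiv.map_eq_one_iff χ).1 hx
    have hs' : χ.symm s ∈ pb χ (Subgroup.closure {s | s ∈ S}) := by
      rw [mem_pb, MulEquiv.apply_symm_apply]
      exact Subgroup.subset_closure hs
    have hs1' : χ.symm s ≠ 1 := fun h6 => hs1 ((MulEquiv.map_eq_one_iff χ.symm).1 h6)
    obtain ⟨u, r, hur, hCo⟩ := core_pre hs' hs1'
    refine go_of_onto (pb_mono χ hST) (p := FreeGroup.mk u) (Or.inl hCo) (key _ ?_) ℓ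
    have h7 : (FreeGroup.mk u : F2).toWord.length ≤ 2 ^ N * s.toWord.length := by
      have h8 : (FreeGroup.mk u : F2).toWord.length ≤ u.length := FreeGroup.norm_mk_le
      have h9 : u.length ≤ (χ.symm s).toWord.length := by
        rw [hur, List.length_append]
        omega
      exact h8.trans (h9.trans (h2 s))
    rw [Bd, ← hN]
    refine E3_bd h7 ?_
    have := E3_sz hs
    omega

theorem main (S T : List F2)
    (hST : Subgroup.closure {s | s ∈ S} ≤ Subgroup.closure {t | t ∈ T}) :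
    Onto (Subgroup.closure {s | s ∈ S}) (Subgroup.closure {t | t ∈ T}) ↔
      ∀ ψ : MulAut F2, (∀ i, (ψ (FreeGroup.of i)).toWord.length ≤ Bd (sz S + sz T)) →
        OntoStd (pb ψ (Subgroup.closure {s | s ∈ S})) (pb ψ (Subgroup.closure {t | t ∈ T})) := by
  constructor
  · intro h ψ _
    exact h ψ
  · intro h ψ
    refine onto_of_go (pb_mono ψ hST) fun i => ?_
    refine go_finite (n := sz S + sz T) (Nat.le_add_right _ _) (Nat.le_add_left _ _) hST ?_ ψ _
    intro ε m hm ℓ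
    refine E3_go hST h rfl ?_ ?_ ℓ
    · intro k
      exact (len_ph ε m k).trans (Nat.mul_le_mul_right _ (Nat.pow_le_pow_right (by norm_num) hm))
    · intro k
      exact (len_ph_symm ε m k).trans
        (Nat.mul_le_mul_right _ (Nat.pow_le_pow_right (by norm_num) hm))

end OK71
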