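import Pool.Agent.LibOK71.A2

/-!
[OK71 F1] the graph of a subgroup is covered by the generators; a finite test.
-/

set_option autoImplicit false

namespace OK71

variable {α : Type} [DecidableEq α]

private theorem F1_inv {s : FreeGroup α} {u v : List (α × Bool)} {e : α × Bool}
    (h : s.toWord = u ++ e :: v) :
    s⁻¹.toWord = FreeGroup.invRev v ++ il e :: FreeGroup.invRev u ∧
      FreeGroup.mk (FreeGroup.invRev v) = s⁻¹ * FreeGroup.mk u * el e := by
  constructor
  · rw [FreeGroup.toWord_inv, h, invRev_append, invRev_cons]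
    simp
  · have h1 : s = FreeGroup.mk u * (el e * FreeGroup.mk v) := by
      rw [← mk_cons, ← mk_append, ← h, FreeGroup.mk_toWord]
    rw [← FreeGroup.inv_mk, h1]
    group

/-- every edge of the graph of `closure S` is passed by a generator or an inverse of a generator -/
theorem edge_gen {S : List (FreeGroup α)} {g : FreeGroup α}
    (hg : g ∈ Subgroup.closure {s | s ∈ S}) {u v : List (α × Bool)} {e : α × Bool}
    (h : g.toWord = u ++ e :: v) :
    ∃ s, (s ∈ S ∨ s⁻¹ ∈ S) ∧ ∃ u' v' : List (α × Bool), s.toWord = u' ++ e :: v' ∧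
      FreeGroup.mk u * (FreeGroup.mk u')⁻¹ ∈ Subgroup.closure {s | s ∈ S} := by
  have main : ∀ (u v : List (α × Bool)) (e : α × Bool), g.toWord = u ++ e :: v →
      ∃ s, (s ∈ S ∨ s⁻¹ ∈ S) ∧ ∃ u' v' : List (α × Bool), s.toWord = u' ++ e :: v' ∧
        FreeGroup.mk u * (FreeGroup.mk u')⁻¹ ∈ Subgroup.closure {s | s ∈ S} := by
    clear h u v e
    induction hg using Subgroup.closure_induction with
    | mem s hs =>
      intro u v e h
      refine ⟨s, Or.inl hs, u, v, h, ?_⟩
      rw [mul_inv_cancel]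
      exact Subgroup.one_mem _
    | one =>
      intro u v e h
      rw [FreeGroup.toWord_one] at h
      simp at h
    | mul x y hx hy ihx ihy =>
      intro u v e h
      obtain ⟨A, Z, B, e1, e2, e3⟩ := mul_dec x y
      have key : ∀ c : List (α × Bool), u = A ++ c → B = c ++ e :: v →
          ∃ s, (s ∈ S ∨ s⁻¹ ∈ S) ∧ ∃ u' v' : List (α × Bool), s.toWord = u' ++ e :: v' ∧
            FreeGroup.mk u * (FreeGroup.mk u')⁻¹ ∈ Subgroup.closure {s | s ∈ S} := by
        intro c hc hB
        obtain ⟨s, hs, u', v', hs1, hs2⟩ := ihy (FreeGroup.invRev Z ++ c) v e (by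
          rw [e2, hB, List.append_assoc])
        refine ⟨s, hs, u', v', hs1, ?_⟩
        have h1 : FreeGroup.mk u = x * FreeGroup.mk (FreeGroup.invRev Z ++ c) := by
          have h2 : x = FreeGroup.mk A * FreeGroup.mk Z := by
            rw [← mk_append, ← e1, FreeGroup.mk_toWord]
          rw [hc, h2, mk_append, mk_append, ← FreeGroup.inv_mk]
          group
        rw [h1, mul_assoc]
        exact Subgroup.mul_mem _ hx hs2
      rw [e3] at h
      rcases List.append_eq_append_iff.1 h with ⟨c, h1, h2⟩ | ⟨c, h1, h2⟩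
      · exact key c h1 h2
      · cases c with
        | nil => exact key [] (by rw [h1]; simp) (by rw [List.nil_append] at h2; rw [← h2]; rfl)
        | cons b c =>
          rw [List.cons_append, List.cons.injEq] at h2
          obtain ⟨h2, h3⟩ := h2
          subst h2
          exact ihx u (c ++ Z) e (by rw [e1, h1, List.append_assoc, List.cons_append])
    | inv x hx ihx =>
      intro u v e h
      obtain ⟨h1, h2⟩ := F1_inv h
      rw [inv_inv] at h1 h2
      obtain ⟨s, hs, u', v', hs1, hs2⟩ := ihx _ _ _ h1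
      obtain ⟨h3, h4⟩ := F1_inv hs1
      refine ⟨s⁻¹, ?_, FreeGroup.invRev v', FreeGroup.invRev u', ?_, ?_⟩
      · rcases hs with hs | hs
        · exact Or.inr (by rw [inv_inv]; exact hs)
        · exact Or.inl hs
      · rw [h3, il_il]
      · have hsm : s ∈ Subgroup.closure {s | s ∈ S} := by
          rcases hs with hs | hs
          · exact Subgroup.subset_closure hs
          · have := Subgroup.inv_mem _ (Subgroup.subset_closure (k := {s | s ∈ S}) hs)
            rwa [inv_inv] at this
        have h5 : FreeGroup.mk u * (FreeGroup.mk (FreeGroup.invRev v'))⁻¹ =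
            x⁻¹ * (FreeGroup.mk (FreeGroup.invRev v) * (FreeGroup.mk u')⁻¹) * s := by
          rw [h4, h2, el_il]
          group
        rw [h5]
        exact Subgroup.mul_mem _ (Subgroup.mul_mem _ (Subgroup.inv_mem _ hx) hs2) hsm
  exact main u v e h

/-- the surjectivity of the map between the graphs is a finite number of membership tests -/
theorem onto_fin {S T : List (FreeGroup α)}
    (hST : Subgroup.closure {s | s ∈ S} ≤ Subgroup.closure {t | t ∈ T}) :
    OntoStd (Subgroup.closure {s | s ∈ S}) (Subgroup.closure {t | t ∈ T}) ↔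
      ∀ t ∈ T, ∀ (u v : List (α × Bool)) (e : α × Bool), t.toWord = u ++ e :: v →
        ∃ s, (s ∈ S ∨ s⁻¹ ∈ S) ∧ ∃ u' v' : List (α × Bool), s.toWord = u' ++ e :: v' ∧
          FreeGroup.mk u' * (FreeGroup.mk u)⁻¹ ∈ Subgroup.closure {t | t ∈ T} := by
  constructor
  · intro h t ht u v e hw
    obtain ⟨k, hk, u1, v1, h1, h2⟩ := h t (Subgroup.subset_closure ht) u v e hw
    obtain ⟨s, hs, u', v', h3, h4⟩ := edge_gen hk h1
    refine ⟨s, hs, u', v', h3, ?_⟩
    have h5 : FreeGroup.mk u' * (FreeGroup.mk u)⁻¹ =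
        (FreeGroup.mk u1 * (FreeGroup.mk u')⁻¹)⁻¹ * (FreeGroup.mk u1 * (FreeGroup.mk u)⁻¹) := by
      group
    rw [h5]
    exact Subgroup.mul_mem _ (Subgroup.inv_mem _ (hST h4)) h2
  · intro h k hk u v e hw
    obtain ⟨t, ht, u0, v0, h1, h2⟩ := edge_gen hk hw
    have hS : ∀ s, (s ∈ S ∨ s⁻¹ ∈ S) → s ∈ Subgroup.closure {s | s ∈ S} := by
      rintro s (hs | hs)
      · exact Subgroup.subset_closure hs
      · have := Subgroup.inv_mem _ (Subgroup.subset_closure (k := {s | s ∈ S}) hs)
        rwa [inv_inv] at this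
    rcases ht with ht | ht
    · obtain ⟨s, hs, u', v', h3, h4⟩ := h t ht u0 v0 e h1
      refine ⟨s, hS s hs, u', v', h3, ?_⟩
      have h5 : FreeGroup.mk u' * (FreeGroup.mk u)⁻¹ =
          (FreeGroup.mk u' * (FreeGroup.mk u0)⁻¹) * (FreeGroup.mk u * (FreeGroup.mk u0)⁻¹)⁻¹ := by
        group
      rw [h5]
      exact Subgroup.mul_mem _ h4 (Subgroup.inv_mem _ h2)
    · obtain ⟨h6, h7⟩ := F1_inv h1
      obtain ⟨s, hs, u', v', h3, h4⟩ := h _ ht _ _ _ h6
      obtain ⟨h8, h9⟩ := F1_inv h3
      refine ⟨s⁻¹, Subgroup.inv_mem _ (hS s hs), FreeGroup.invRev v', FreeGroup.invRev u', ?_, ?_⟩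
      · rw [h8, il_il]
      · have h5 : FreeGroup.mk (FreeGroup.invRev v') * (FreeGroup.mk u)⁻¹ =
            s⁻¹ * (FreeGroup.mk u' * (FreeGroup.mk (FreeGroup.invRev v0))⁻¹) * t⁻¹ *
              (FreeGroup.mk u * (FreeGroup.mk u0)⁻¹)⁻¹ := by
          rw [h9, h7, el_il]
          group
        rw [h5]
        exact Subgroup.mul_mem _ (Subgroup.mul_mem _ (Subgroup.mul_mem _
          (Subgroup.inv_mem _ (hST (hS s hs))) h4) (Subgroup.subset_closure ht))
          (Subgroup.inv_mem _ h2)

end OK71
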