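import Pool.Agent.LibOK71.B7

/-!
[OK71 P0] (definitions for part II) separating splittings.
-/

set_option autoImplicit false

namespace OK71

/-- the separating edge at `v` (between the `a`-line and the `b`-line through `v`) is in the minimal
subtree of `G` in the tree of `⟨a⟩ * ⟨b⟩` -/
def SE (G : Subgroup F2) (v : F2) : Prop := (∃ s, M G v (0, s)) ∧ ∃ s, M G v (1, s)

/-- every separating edge of the minimal subtree of `K` has a `K`-translate in the one of `H` -/
def GoS (H K : Subgroup F2) : Prop := ∀ v, SE K v → ∃ c ∈ K, SE H (c * v)

/-- the words `f, z, t` with `w = f z t` and `x₀ = f`, `y₀ = f z` (flag `true`) or `y₀ = f`,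
`x₀ = f z` (flag `false`) -/
def sd : List Bool → Bool × List (Fin 2) × List (Fin 2) × List (Fin 2)
  | [] => (true, [], [], [])
  | false :: m =>
    match sd m with
    | (true, f, z, t) => (true, f, 0 :: (f ++ z), t)
    | (false, f, z, t) => (true, f ++ z, 0 :: f, z ++ t)
  | true :: m =>
    match sd m with
    | (true, f, z, t) => (false, f ++ z, 1 :: f, z ++ t)
    | (false, f, z, t) => (false, f, 1 :: (f ++ z), t)

/-- the path `w` with the colours `true` for the directions of `x^(±1)` and `false` for those of
`y^(±1)`: on the left side `true` before `|y₀|`, then `false`; on the right side `false` before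
`|x₀|`, then `true` -/
def SW (m : List Bool) : CW :=
  co (sd m).2.1 true false ++ co (sd m).2.2.1 (sd m).1 (sd m).1 ++ co (sd m).2.2.2 false true

abbrev ft : Bool × Bool := (false, true)

end OK71
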