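import Pool.Agent.LibOK71.P0

/-!
[OK71 P1] (SHORT/MEDIUM) the words of `sd`.
Induction on `m`, cases on the flag: `wd (false :: m) = (x₀, x₀ ++ 0 :: y₀, x₀ ++ 0 :: w)`. Flag `true`: `f = x₀`, `f z = y₀`, `w = f z t`: new `f' = f`, `z' = 0 :: (f ++ z)`, `t' = t`: `x₀' = f'`, `y₀' = x₀ ++ 0 :: y₀ = f' ++ z'`, `w' = x₀ ++ 0 :: w = f' ++ z' ++ t'`. Flag `false`: `f = y₀`, `f z = x₀`: `f' = f z`, `z' = 0 :: f`, `t' = z t`.
`true :: m` symmetric.
-/

set_option autoImplicit false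

namespace OK71

private theorem P1_main (m : List Bool) : ∀ (b : Bool) (f z t : List (Fin 2)),
    sd m = (b, f, z, t) → (wd m).2.2 = f ++ z ++ t ∧
      (b = true → (wd m).1 = f ∧ (wd m).2.1 = f ++ z) ∧
        (b = false → (wd m).2.1 = f ∧ (wd m).1 = f ++ z) := by
  induction m with
  | nil =>
    intro b f z t h
    simp only [sd, Prod.mk.injEq] at h
    obtain ⟨rfl, rfl, rfl, rfl⟩ := h
    simp [wd]
  | cons c m ih =>
    intro b f z t h
    obtain ⟨b', f', z', t', h'⟩ : ∃ b' f' z' t', sd m = (b', f', z', t') := ⟨_, _, _, _, rfl⟩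
    obtain ⟨i1, i2, i3⟩ := ih b' f' z' t' h'
    cases c with
    | false =>
      cases b' with
      | true =>
        obtain ⟨j1, j2⟩ := i2 rfl
        simp only [sd, h', Prod.mk.injEq] at h
        obtain ⟨rfl, rfl, rfl, rfl⟩ := h
        simp [wd, i1, j1, j2]
      | false =>
        obtain ⟨j1, j2⟩ := i3 rfl
        simp only [sd, h', Prod.mk.injEq] at h
        obtain ⟨rfl, rfl, rfl, rfl⟩ := h
        simp [wd, i1, j1, j2]
    | true =>
      cases b' with
      | true =>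
        obtain ⟨j1, j2⟩ := i2 rfl
        simp only [sd, h', Prod.mk.injEq] at h
        obtain ⟨rfl, rfl, rfl, rfl⟩ := h
        simp [wd, i1, j1, j2]
      | false =>
        obtain ⟨j1, j2⟩ := i3 rfl
        simp only [sd, h', Prod.mk.injEq] at h
        obtain ⟨rfl, rfl, rfl, rfl⟩ := h
        simp [wd, i1, j1, j2]

theorem sd_w (m : List Bool) : (wd m).2.2 = (sd m).2.1 ++ (sd m).2.2.1 ++ (sd m).2.2.2 := by
  exact (P1_main m _ _ _ _ rfl).1

theorem sd_t (m : List Bool) (h : (sd m).1 = true) :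
    (wd m).1 = (sd m).2.1 ∧ (wd m).2.1 = (sd m).2.1 ++ (sd m).2.2.1 := by
  exact (P1_main m _ _ _ _ rfl).2.1 h

theorem sd_f (m : List Bool) (h : (sd m).1 = false) :
    (wd m).2.1 = (sd m).2.1 ∧ (wd m).1 = (sd m).2.1 ++ (sd m).2.2.1 := by
  exact (P1_main m _ _ _ _ rfl).2.2 h

end OK71
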