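import Pool.Agent.LibOK71.P1
import Pool.Agent.LibOK71.B5

/-!
[OK71 P2] (MEDIUM) the half spaces `{x, x⁻¹}`.
`T := fun v ℓ => dr v k = some ℓ`, `g := (ph m).symm k ≠ 1`, `L := fl g` (one of four letters, `fl_none`). `arcs`: (R) `L = B ↔ T 1 B ∨ fg T (co x₀ true false) 1 false`; (L) `L = A ↔ T 1 A ∨ fg T (co y₀ true false) 1 true`; (D) `L ∈ {a, B} ↔ cr T (co w true false) tf tf 1 false`.
By fg_append, `un_co`, `fg_co`, the word `SW m` (cases flag) has: `cr T (SW m) tf ft 1 true ↔ T 1 A ∨ [left side before |y₀|] ∨ [right side after |x₀|] ∨ T w a`, `cr T (SW m) tf ft 1 false ↔ T 1 B ∨ [right side before |x₀|] ∨ [left side after |y₀|] ∨ T w b`,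
where `[left side before |y₀|] = fg T (co y₀ true false) 1 true`, `[right side before |x₀|] = fg T (co x₀ true false) 1 false` (sd_t, sd_f).
(→) `L = A`: (L), so `cr … true`. `L = a`: `L ≠ B`, so by (D) and (R) `cr T (co w true false) tf tf 1 false` without the part before `|x₀|` and without `T 1 B`: right side after `|x₀|` or `T w a`: `cr … true`.
(←) contrapositive: `L = B`: (R) gives `cr T (SW m) … false`; `L = b`: by (D) and `part` `cr T (co w true false) tf tf 1 true`, i.e. `T 1 A`, left side of `w` or `T w b`; `L ≠ A` excludes `T 1 A` and the left side before `|y₀|` by (L): `cr T (SW m) … false`. By `part` (uniqueness) `cr … true` fails.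
-/

set_option autoImplicit false

namespace OK71

private theorem P2_un (m : List Bool) :
    un (SW m) = (sd m).2.1 ++ (sd m).2.2.1 ++ (sd m).2.2.2 := by
  unfold SW
  rw [un_append, un_append, un_co, un_co, un_co]

private theorem P2_true (T : F2 → Lt → Prop) (m : List Bool) :
    cr T (SW m) tf ft 1 true ↔ T 1 (0, false) ∨ fg T (co (sd m).2.1 true false) 1 true ∨
      ((sd m).1 = true ∧ (fg T (co (sd m).2.2.1 true false) (1 * pv (sd m).2.1) true ∨
        fg T (co (sd m).2.2.1 true false) (1 * pv (sd m).2.1) false)) ∨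
      fg T (co (sd m).2.2.2 true false) (1 * pv ((sd m).2.1 ++ (sd m).2.2.1)) false ∨
      T (1 * pv ((sd m).2.1 ++ (sd m).2.2.1 ++ (sd m).2.2.2)) (0, true) := by
  have h1 := fg_co T (sd m).2.2.1 (sd m).1 (sd m).1 (1 * pv (sd m).2.1) true
  have h2 := fg_co T (sd m).2.2.2 false true (1 * pv ((sd m).2.1 ++ (sd m).2.2.1)) true
  unfold cr
  rw [P2_un]
  unfold SW
  rw [fg_append, fg_append, un_append, un_co, un_co, h1, h2]
  simp only [Bool.false_eq_true, false_and, true_and, false_or]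
  tauto

private theorem P2_false (T : F2 → Lt → Prop) (m : List Bool) :
    cr T (SW m) tf ft 1 false ↔ T 1 (1, false) ∨ fg T (co (sd m).2.1 true false) 1 false ∨
      ((sd m).1 = false ∧ (fg T (co (sd m).2.2.1 true false) (1 * pv (sd m).2.1) true ∨
        fg T (co (sd m).2.2.1 true false) (1 * pv (sd m).2.1) false)) ∨
      fg T (co (sd m).2.2.2 true false) (1 * pv ((sd m).2.1 ++ (sd m).2.2.1)) true ∨
      T (1 * pv ((sd m).2.1 ++ (sd m).2.2.1 ++ (sd m).2.2.2)) (1, true) := by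
  have h1 := fg_co T (sd m).2.2.1 (sd m).1 (sd m).1 (1 * pv (sd m).2.1) false
  have h2 := fg_co T (sd m).2.2.2 false true (1 * pv ((sd m).2.1 ++ (sd m).2.2.1)) false
  unfold cr
  rw [P2_un]
  unfold SW
  rw [fg_append, fg_append, un_append, un_co, un_co, h1, h2]
  simp only [Bool.true_eq_false, false_and, true_and, false_or]
  tauto

private theorem P2_part {k : F2} (hk : k ≠ 1) (m : List Bool) :
    cr (fun v ℓ => dr v k = some ℓ) (SW m) tf ft 1 true ↔
      ¬ cr (fun v ℓ => dr v k = some ℓ) (SW m) tf ft 1 false := by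
  obtain ⟨κ, h1, h2⟩ := part hk (SW m) tf ft 1
  constructor
  · intro h h'
    have h3 := h2 _ h
    have h4 := h2 _ h'
    rw [← h4] at h3
    exact absurd h3 (by simp)
  · intro h
    cases κ with
    | true => exact h1
    | false => exact absurd h1 h

private theorem P2_w (T : F2 → Lt → Prop) (m : List Bool) (κ : Bool) :
    fg T (co (wd m).2.2 true false) 1 κ ↔ fg T (co (sd m).2.1 true false) 1 κ ∨
      fg T (co (sd m).2.2.1 true false) (1 * pv (sd m).2.1) κ ∨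
      fg T (co (sd m).2.2.2 true false) (1 * pv ((sd m).2.1 ++ (sd m).2.2.1)) κ := by
  rw [sd_w, co_append, co_append, fg_append, fg_append, un_append, un_co, un_co, or_assoc]

private theorem P2_fz (T : F2 → Lt → Prop) (m : List Bool) (κ : Bool) :
    fg T (co ((sd m).2.1 ++ (sd m).2.2.1) true false) 1 κ ↔
      fg T (co (sd m).2.1 true false) 1 κ ∨
      fg T (co (sd m).2.2.1 true false) (1 * pv (sd m).2.1) κ := by
  rw [co_append, fg_append, un_co]

private theorem P2_logic1 {La LA Lb LB TA TB F1 F2 Z1 Z2 U1 U2 Wa Wb : Prop}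
    (hR : LB ↔ TB ∨ F2) (hL : LA ↔ TA ∨ F1 ∨ Z1)
    (hD : La ∨ LB ↔ TB ∨ (F2 ∨ Z2 ∨ U2) ∨ Wa)
    (hDU : TA ∨ (F1 ∨ Z1 ∨ U1) ∨ Wb ↔ ¬ (TB ∨ (F2 ∨ Z2 ∨ U2) ∨ Wa))
    (hS : (TA ∨ F1 ∨ (Z1 ∨ Z2) ∨ U2 ∨ Wa) ↔ ¬ (TB ∨ F2 ∨ U1 ∨ Wb))
    (h4 : La ∨ LA ∨ Lb ∨ LB) (n1 : ¬ (La ∧ LB)) (n3 : ¬ (La ∧ Lb)) (n5 : ¬ (LA ∧ Lb))
    (n6 : ¬ (Lb ∧ LB)) : (La ∨ LA) ↔ TA ∨ F1 ∨ (Z1 ∨ Z2) ∨ U2 ∨ Wa := by
  constructor
  · rintro (h | h)
    · rcases hD.1 (Or.inl h) with h1 | (h1 | h1 | h1) | h1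
      · exact absurd ⟨h, hR.2 (Or.inl h1)⟩ n1
      · exact absurd ⟨h, hR.2 (Or.inr h1)⟩ n1
      · exact Or.inr (Or.inr (Or.inl (Or.inr h1)))
      · exact Or.inr (Or.inr (Or.inr (Or.inl h1)))
      · exact Or.inr (Or.inr (Or.inr (Or.inr h1)))
    · rcases hL.1 h with h1 | h1 | h1
      · exact Or.inl h1
      · exact Or.inr (Or.inl h1)
      · exact Or.inr (Or.inr (Or.inl (Or.inl h1)))
  · intro h
    have hn := hS.1 h
    rcases h4 with h1 | h1 | h1 | h1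
    · exact Or.inl h1
    · exact Or.inr h1
    · exfalso
      have h2 : ¬ (La ∨ LB) := by
        rintro (h3 | h3)
        · exact n3 ⟨h3, h1⟩
        · exact n6 ⟨h1, h3⟩
      rcases hDU.2 (fun h3 => h2 (hD.2 h3)) with h3 | (h3 | h3 | h3) | h3
      · exact n5 ⟨hL.2 (Or.inl h3), h1⟩
      · exact n5 ⟨hL.2 (Or.inr (Or.inl h3)), h1⟩
      · exact n5 ⟨hL.2 (Or.inr (Or.inr h3)), h1⟩
      · exact hn (Or.inr (Or.inr (Or.inl h3)))
      · exact hn (Or.inr (Or.inr (Or.inr h3)))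
    · exfalso
      rcases hR.1 h1 with h3 | h3
      · exact hn (Or.inl h3)
      · exact hn (Or.inr (Or.inl h3))

private theorem P2_logic2 {La LA Lb LB TA TB F1 F2 Z1 Z2 U1 U2 Wa Wb : Prop}
    (hR : LB ↔ TB ∨ F2 ∨ Z2) (hL : LA ↔ TA ∨ F1)
    (hD : La ∨ LB ↔ TB ∨ (F2 ∨ Z2 ∨ U2) ∨ Wa)
    (hDU : TA ∨ (F1 ∨ Z1 ∨ U1) ∨ Wb ↔ ¬ (TB ∨ (F2 ∨ Z2 ∨ U2) ∨ Wa))
    (hS : (TA ∨ F1 ∨ U2 ∨ Wa) ↔ ¬ (TB ∨ F2 ∨ (Z1 ∨ Z2) ∨ U1 ∨ Wb))
    (h4 : La ∨ LA ∨ Lb ∨ LB) (n1 : ¬ (La ∧ LB)) (n3 : ¬ (La ∧ Lb)) (n5 : ¬ (LA ∧ Lb))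
    (n6 : ¬ (Lb ∧ LB)) : (La ∨ LA) ↔ TA ∨ F1 ∨ U2 ∨ Wa := by
  constructor
  · rintro (h | h)
    · rcases hD.1 (Or.inl h) with h1 | (h1 | h1 | h1) | h1
      · exact absurd ⟨h, hR.2 (Or.inl h1)⟩ n1
      · exact absurd ⟨h, hR.2 (Or.inr (Or.inl h1))⟩ n1
      · exact absurd ⟨h, hR.2 (Or.inr (Or.inr h1))⟩ n1
      · exact Or.inr (Or.inr (Or.inl h1))
      · exact Or.inr (Or.inr (Or.inr h1))
    · rcases hL.1 h with h1 | h1
      · exact Or.inl h1
      · exact Or.inr (Or.inl h1)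
  · intro h
    have hn := hS.1 h
    rcases h4 with h1 | h1 | h1 | h1
    · exact Or.inl h1
    · exact Or.inr h1
    · exfalso
      have h2 : ¬ (La ∨ LB) := by
        rintro (h3 | h3)
        · exact n3 ⟨h3, h1⟩
        · exact n6 ⟨h1, h3⟩
      rcases hDU.2 (fun h3 => h2 (hD.2 h3)) with h3 | (h3 | h3 | h3) | h3
      · exact n5 ⟨hL.2 (Or.inl h3), h1⟩
      · exact n5 ⟨hL.2 (Or.inr h3), h1⟩
      · exact hn (Or.inr (Or.inr (Or.inl (Or.inl h3))))
      · exact hn (Or.inr (Or.inr (Or.inr (Or.inl h3))))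
      · exact hn (Or.inr (Or.inr (Or.inr (Or.inr h3))))
    · exfalso
      rcases hR.1 h1 with h3 | h3 | h3
      · exact hn (Or.inl h3)
      · exact hn (Or.inr (Or.inl h3))
      · exact hn (Or.inr (Or.inr (Or.inl (Or.inr h3))))

theorem sarcs (m : List Bool) (k : F2) (hk : k ≠ 1) :
    (fl ((ph m).symm k) = some (0, true) ∨ fl ((ph m).symm k) = some (0, false)) ↔
      cr (fun v ℓ => dr v k = some ℓ) (SW m) tf ft 1 true := by
  obtain ⟨hR, hL, hD⟩ := arcs m k hk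
  have hg : (ph m).symm k ≠ 1 := B5_symm_ne hk
  have hDU := B5_part hk (co (wd m).2.2 true false) 1
  have hS := P2_part hk m
  rw [P2_true, P2_false] at hS
  rw [P2_true]
  rw [B5_cr_true, B5_cr_false] at hDU
  rw [B5_cr_false] at hD
  rw [P2_w, P2_w, sd_w] at hDU
  rw [P2_w, sd_w] at hD
  rw [← dr_one k] at hR hL
  have h4 := B5_four hg
  have h4' : fl ((ph m).symm k) = some (0, true) ∨ fl ((ph m).symm k) = some (0, false) ∨
      fl ((ph m).symm k) = some (1, true) ∨ fl ((ph m).symm k) = some (1, false) := h4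
  have hne : ∀ a b : Lt, a ≠ b → ¬ (fl ((ph m).symm k) = some a ∧ fl ((ph m).symm k) = some b) := by
    rintro a b hab ⟨h1, h2⟩
    rw [h1] at h2
    exact hab (Option.some.inj h2)
  have n1 := hne (0, true) (1, false) (by decide)
  have n3 := hne (0, true) (1, true) (by decide)
  have n5 := hne (0, false) (1, true) (by decide)
  have n6 := hne (1, true) (1, false) (by decide)
  cases hs : (sd m).1 with
  | true =>
    obtain ⟨e1, e2⟩ := sd_t m hs
    rw [e1] at hR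
    rw [e2, P2_fz] at hL
    simp only [hs, true_and, Bool.true_eq_false, false_and, false_or] at hS ⊢
    exact P2_logic1 hR hL hD hDU hS h4' n1 n3 n5 n6
  | false =>
    obtain ⟨e1, e2⟩ := sd_f m hs
    rw [e2, P2_fz] at hR
    rw [e1] at hL
    simp only [hs, true_and, Bool.false_eq_true, false_and, false_or] at hS ⊢
    exact P2_logic2 hR hL hD hDU hS h4' n1 n3 n5 n6

end OK71
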