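import Pool.Agent.LibOK71.P2
import Pool.Agent.LibOK71.B6

/-!
[OK71 P3] (MEDIUM) separating edges in the bases `ph m`; compare the proof of E_lam_a in B6.
SE_ph: `ψ = ph m`. `(∃ s, M (pb ψ G) v (0, s)) ↔ ∃ k ∈ G, fl (ψ.symm ((ψ v)⁻¹ * k * ψ v)) ∈ {a, A}` (`k = ψ k'`) `↔ ∃ k ∈ G, k ≠ 1 ∧ cr (dr · k = ·) (SW m) tf ft (ψ v) true` (sarcs for `(ψ v)⁻¹ * k * ψ v`, `cr_left`, `dr_mul`; `k ≠ 1` because `fl 1 = none`) `↔ cr (M G) (SW m) tf ft (ψ v) true` (`cr_ex`; for `k = 1` `cr` fails: `cr_atom`, `dr_none`).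
`(∃ s, M (pb ψ G) v (1, s))`: the first letter is not in `{a, A}` and `k ≠ 1`, i.e. `cr … false` (`part`). Then `cr_M`. GoS_ph: as Go_lam_a in B7: `v ↦ ψ v` is a bijection, `c ∈ pb ψ K ↔ ψ c ∈ K`.
-/

set_option autoImplicit false

namespace OK71

private theorem P3_dr (ψ : MulAut F2) (v k : F2) :
    dr v (ψ.symm k) = fl (ψ.symm ((ψ v)⁻¹ * k * ψ v)) := by
  unfold dr
  rw [map_mul, map_mul, map_inv, MulEquiv.symm_apply_apply]

private theorem P3_M (ψ : MulAut F2) (G : Subgroup F2) (v : F2) (ℓ : Lt) :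
    M (pb ψ G) v ℓ ↔ ∃ k ∈ G, fl (ψ.symm ((ψ v)⁻¹ * k * ψ v)) = some ℓ := by
  have hmem : ∀ k : F2, k ∈ pb ψ G ↔ ψ k ∈ G := fun k => Iff.rfl
  constructor
  · rintro ⟨k, hk, h2⟩
    refine ⟨ψ k, (hmem k).1 hk, ?_⟩
    rw [← P3_dr, MulEquiv.symm_apply_apply]
    exact h2
  · rintro ⟨k, hk, h2⟩
    refine ⟨ψ.symm k, (hmem _).2 (by rw [MulEquiv.apply_symm_apply]; exact hk), ?_⟩
    rw [P3_dr]
    exact h2

private theorem P3_one (ψ : MulAut F2) (v : F2) (ℓ : Lt) :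
    fl (ψ.symm ((ψ v)⁻¹ * 1 * ψ v)) ≠ some ℓ := by
  have h : (ψ v)⁻¹ * 1 * ψ v = 1 := by group
  rw [h, map_one, fl_one]
  simp

private theorem P3_cr_one {W : CW} {σ ε : Bool × Bool} {p : F2} {κ : Bool} {k : F2}
    (h : cr (fun v ℓ => dr v k = some ℓ) W σ ε p κ) : k ≠ 1 := by
  intro h1
  obtain ⟨q, ℓ, h2, _⟩ := cr_atom h
  have h3 : dr q k = some ℓ := h2
  rw [dr_none.2 h1] at h3
  exact absurd h3 (by simp)

private theorem P3_ne_conj (g : F2) {k : F2} (hk : k ≠ 1) : g⁻¹ * k * g ≠ 1 := by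
  intro h
  apply hk
  have h1 : k = g * (g⁻¹ * k * g) * g⁻¹ := by group
  rw [h1, h]
  group

private theorem P3_half (m : List Bool) (p k : F2) (hk : k ≠ 1) :
    (fl ((ph m).symm (p⁻¹ * k * p)) = some (0, true) ∨
      fl ((ph m).symm (p⁻¹ * k * p)) = some (0, false)) ↔
      cr (fun v ℓ => dr v k = some ℓ) (SW m) tf ft p true := by
  rw [sarcs m (p⁻¹ * k * p) (P3_ne_conj p hk)]
  have h1 := cr_left (fun v ℓ => dr v k = some ℓ) p (SW m) tf ft 1 true
  rw [mul_one] at h1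
  rw [h1]
  refine cr_congr (fun v ℓ => ?_) _ _ _ _ _
  rw [dr_mul]

private theorem P3_zero (m : List Bool) (G : Subgroup F2) (v : F2) :
    (∃ s, M (pb (ph m) G) v (0, s)) ↔ cr (M G) (SW m) tf ft (ph m v) true := by
  rw [cr_ex]
  constructor
  · rintro ⟨s, hs⟩
    obtain ⟨k, hk, h1⟩ := (P3_M _ _ _ _).1 hs
    have hk1 : k ≠ 1 := by
      intro h3
      rw [h3] at h1
      exact P3_one (ph m) v _ h1
    refine ⟨k, hk, (P3_half m (ph m v) k hk1).1 ?_⟩
    cases s with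
    | true => exact Or.inl h1
    | false => exact Or.inr h1
  · rintro ⟨k, hk, hc⟩
    rcases (P3_half m (ph m v) k (P3_cr_one hc)).2 hc with h | h
    · exact ⟨true, (P3_M _ _ _ _).2 ⟨k, hk, h⟩⟩
    · exact ⟨false, (P3_M _ _ _ _).2 ⟨k, hk, h⟩⟩

private theorem P3_onek (m : List Bool) (G : Subgroup F2) (v : F2) :
    (∃ s, M (pb (ph m) G) v (1, s)) ↔ cr (M G) (SW m) tf ft (ph m v) false := by
  rw [cr_ex]
  constructor
  · rintro ⟨s, hs⟩
    obtain ⟨k, hk, h1⟩ := (P3_M _ _ _ _).1 hs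
    have hk1 : k ≠ 1 := by
      intro h3
      rw [h3] at h1
      exact P3_one (ph m) v _ h1
    refine ⟨k, hk, ?_⟩
    obtain ⟨κ, h4, _⟩ := part hk1 (SW m) tf ft (ph m v)
    cases κ with
    | false => exact h4
    | true =>
      exfalso
      rcases (P3_half m (ph m v) k hk1).2 h4 with h | h
      · rw [h] at h1
        simp at h1
      · rw [h] at h1
        simp at h1
  · rintro ⟨k, hk, hc⟩
    have hk1 := P3_cr_one hc
    have h3 : ¬ cr (fun v ℓ => dr v k = some ℓ) (SW m) tf ft (ph m v) true := by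
      intro h4
      have h5 := (part hk1 (SW m) tf ft (ph m v)).unique h4 hc
      exact absurd h5 (by simp)
    rw [← P3_half m (ph m v) k hk1] at h3
    cases h : fl ((ph m).symm ((ph m v)⁻¹ * k * ph m v)) with
    | none =>
      exfalso
      have h4 : (ph m).symm ((ph m v)⁻¹ * k * ph m v) = 1 := fl_none.1 h
      have h5 : (ph m v)⁻¹ * k * ph m v = 1 := by
        rw [← MulEquiv.apply_symm_apply (ph m) ((ph m v)⁻¹ * k * ph m v), h4, map_one]
      exact P3_ne_conj (ph m v) hk1 h5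
    | some ℓ =>
      obtain ⟨i, b⟩ := ℓ
      rw [h] at h3
      have hi : i = 0 ∨ i = 1 := by fin_cases i <;> simp
      rcases hi with rfl | rfl
      · exfalso
        apply h3
        cases b <;> simp
      · exact ⟨b, (P3_M _ _ _ _).2 ⟨k, hk, h⟩⟩

theorem SE_ph (m : List Bool) (G : Subgroup F2) (v : F2) :
    SE (pb (ph m) G) v ↔ Cr G (SW m) tf ft (ph m v) := by
  rw [← cr_M]
  unfold SE
  rw [P3_zero, P3_onek]
  constructor
  · rintro ⟨h1, h2⟩ κ
    cases κ with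
    | true => exact h1
    | false => exact h2
  · intro h
    exact ⟨h true, h false⟩

theorem GoS_ph (m : List Bool) (H K : Subgroup F2) :
    GoS (pb (ph m) H) (pb (ph m) K) ↔ ¬ Bad H K (SW m) tf ft := by
  unfold GoS Bad
  push Not
  simp only [SE_ph]
  constructor
  · intro h u hu
    have e : ph m ((ph m).symm u) = u := MulEquiv.apply_symm_apply _ _
    obtain ⟨c, hc, hq⟩ := h ((ph m).symm u) (by rw [e]; exact hu)
    refine ⟨ph m c, hc, ?_⟩
    rw [map_mul, e] at hq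
    exact hq
  · intro h v hv
    obtain ⟨c, hc, hq⟩ := h (ph m v) hv
    refine ⟨(ph m).symm c, ?_, ?_⟩
    · change ph m ((ph m).symm c) ∈ K
      rw [MulEquiv.apply_symm_apply]
      exact hc
    · rw [map_mul, MulEquiv.apply_symm_apply]
      exact hq

end OK71
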