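import Pool.Agent.LibOK71.P0
import Pool.Agent.LibOK71.C6

/-!
[OK71 P4] (MEDIUM) bounded search, compare C6.
`u ≈ u'` := `∀ l r α β σ ε, Bad H K (α ++ co u l r ++ β) σ ε ↔ Bad H K (α ++ co u' l r ++ β) σ ε`; it holds if `info H K u = info H K u'` (`swap`, both directions) and it is a congruence (see C6). `pigeon` with `I := Bool × (Set.range (info H K))^3`, `Nat.card I ≤ 2 * NN n ^ 3`,
`f m := ((sd m).1, infos of the three words of sd m)`, `R m m'` := equal flags and the three words are `≈`; `hstep`: definition of `sd` (cases on the flag), congruence. `hB`: `SW m = co f true false ++ co z flag flag ++ co t false true`, replace the three parts one after the other (`List.append_assoc`; `α = []`, `β = co z … ++ co t …` etc.).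
-/

set_option autoImplicit false

namespace OK71

private def P4_eq (H K : Subgroup F2) (u u' : List (Fin 2)) : Prop :=
  ∀ (l r : Bool) (α β : CW) (σ ε : Bool × Bool),
    Bad H K (α ++ co u l r ++ β) σ ε ↔ Bad H K (α ++ co u' l r ++ β) σ ε

private theorem P4_refl (H K : Subgroup F2) (u : List (Fin 2)) : P4_eq H K u u :=
  fun _ _ _ _ _ _ => Iff.rfl

private theorem P4_app {H K : Subgroup F2} {u u' v v' : List (Fin 2)} (h1 : P4_eq H K u u')
    (h2 : P4_eq H K v v') : P4_eq H K (u ++ v) (u' ++ v') := by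
  intro l r α β σ ε
  have e1 : ∀ x y : List (Fin 2), α ++ co (x ++ y) l r ++ β = α ++ co x l r ++ (co y l r ++ β) := by
    intro x y
    simp [co]
  have e2 : ∀ x y : List (Fin 2), α ++ co (x ++ y) l r ++ β = (α ++ co x l r) ++ co y l r ++ β := by
    intro x y
    simp [co]
  rw [e1 u v, h1 l r α (co v l r ++ β) σ ε, ← e1 u' v, e2 u' v,
    h2 l r (α ++ co u' l r) β σ ε, ← e2 u' v']

private theorem P4_cons {H K : Subgroup F2} (c : Fin 2) {u u' : List (Fin 2)}
    (h : P4_eq H K u u') : P4_eq H K (c :: u) (c :: u') :=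
  P4_app (P4_refl H K [c]) h

private theorem P4_of {H K : Subgroup F2} (hHK : H ≤ K) {u u' : List (Fin 2)}
    (h : info H K u = info H K u') : P4_eq H K u u' :=
  fun l r α β σ ε => ⟨swap hHK h l r α β σ ε, swap hHK h.symm l r α β σ ε⟩

private def P4_R (H K : Subgroup F2) (m m' : List Bool) : Prop :=
  (sd m).1 = (sd m').1 ∧ P4_eq H K (sd m).2.1 (sd m').2.1 ∧
    P4_eq H K (sd m).2.2.1 (sd m').2.2.1 ∧ P4_eq H K (sd m).2.2.2 (sd m').2.2.2

private theorem P4_step {H K : Subgroup F2} (m m' : List Bool) (μ : Bool)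
    (h : P4_R H K m m') : P4_R H K (μ :: m) (μ :: m') := by
  unfold P4_R at h ⊢
  rcases hm : sd m with ⟨b, f, z, t⟩
  rcases hm' : sd m' with ⟨b', f', z', t'⟩
  rw [hm, hm'] at h
  obtain ⟨h0, h1, h2, h3⟩ := h
  simp only at h0 h1 h2 h3
  subst h0
  cases μ <;> cases b <;> simp only [sd, hm, hm', true_and]
  · exact ⟨P4_app h1 h2, P4_cons 0 h1, P4_app h2 h3⟩
  · exact ⟨h1, P4_cons 0 (P4_app h1 h2), h3⟩
  · exact ⟨h1, P4_cons 1 (P4_app h1 h2), h3⟩
  · exact ⟨P4_app h1 h2, P4_cons 1 h1, P4_app h2 h3⟩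

private theorem P4_B {H K : Subgroup F2} (m m' : List Bool) (h : P4_R H K m m')
    (hb : Bad H K (SW m) tf ft) : Bad H K (SW m') tf ft := by
  obtain ⟨h0, h1, h2, h3⟩ := h
  unfold SW at hb ⊢
  rw [← h0]
  have a1 := h1 true false [] (co (sd m).2.2.1 (sd m).1 (sd m).1 ++ co (sd m).2.2.2 false true)
    tf ft
  have a2 := h2 (sd m).1 (sd m).1 (co (sd m').2.1 true false) (co (sd m).2.2.2 false true) tf ft
  have a3 := h3 false true (co (sd m').2.1 true false ++ co (sd m').2.2.1 (sd m).1 (sd m).1) []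
    tf ft
  simp only [List.nil_append, List.append_nil] at a1 a2 a3
  rw [List.append_assoc] at hb
  have b1 := a1.1 hb
  rw [← List.append_assoc] at b1
  exact a3.1 (a2.1 b1)

theorem bad_bound_S {S T : List F2} {n : ℕ} (hS : sz S ≤ n) (hT : sz T ≤ n)
    (hST : Subgroup.closure {s | s ∈ S} ≤ Subgroup.closure {t | t ∈ T})
    (h : ∃ m, Bad (Subgroup.closure {s | s ∈ S}) (Subgroup.closure {t | t ∈ T}) (SW m) tf ft) :
    ∃ m, m.length < 2 * NN n ^ 3 ∧
      Bad (Subgroup.closure {s | s ∈ S}) (Subgroup.closure {t | t ∈ T}) (SW m) tf ft := by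
  obtain ⟨hfin, hcard⟩ := info_card (S := S) (T := T) hS hT
  obtain ⟨H, hH⟩ : ∃ H, H = Subgroup.closure {s | s ∈ S} := ⟨_, rfl⟩
  obtain ⟨K, hK⟩ : ∃ K, K = Subgroup.closure {t | t ∈ T} := ⟨_, rfl⟩
  rw [← hH, ← hK] at h hST hfin hcard ⊢
  have : Finite (Set.range (info H K)) := hfin
  have hc : Nat.card (Set.range (info H K)) ≤ NN n := by
    rw [Nat.card_coe_set_eq]; exact hcard
  let g : List (Fin 2) → Set.range (info H K) := fun u => ⟨info H K u, ⟨u, rfl⟩⟩
  have hg : ∀ u u', g u = g u' → P4_eq H K u u' := by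
    intro u u' hu
    exact P4_of hST (Subtype.ext_iff.1 hu)
  obtain ⟨m, hm1, hm2⟩ := pigeon
    (I := Bool × Set.range (info H K) × Set.range (info H K) × Set.range (info H K))
    (fun m => ((sd m).1, g (sd m).2.1, g (sd m).2.2.1, g (sd m).2.2.2)) (P4_R H K)
    (by
      intro m m' hm
      rw [Prod.mk.injEq, Prod.mk.injEq, Prod.mk.injEq] at hm
      exact ⟨hm.1, hg _ _ hm.2.1, hg _ _ hm.2.2.1, hg _ _ hm.2.2.2⟩)
    P4_step
    (fun m => Bad H K (SW m) tf ft)
    P4_B
    h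
  refine ⟨m, lt_of_lt_of_le hm1 ?_, hm2⟩
  rw [Nat.card_prod, Nat.card_prod, Nat.card_prod]
  have hb : Nat.card Bool = 2 := by simp
  rw [hb]
  refine Nat.mul_le_mul_left 2 ?_
  calc Nat.card (Set.range (info H K)) *
        (Nat.card (Set.range (info H K)) * Nat.card (Set.range (info H K)))
      ≤ NN n * (NN n * NN n) := Nat.mul_le_mul hc (Nat.mul_le_mul hc hc)
    _ = NN n ^ 3 := by ring

end OK71
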