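import Pool.Agent.LibOK71.P0
import Pool.Agent.LibOK71.D2

/-!
[OK71 P5] (SHORT/MEDIUM) invariance of `GoS`.
GoS_conj: `M_conj` (as Go_conj in A1). GoS_W: closure induction as in D2 (`Go_W`); `sw` exchanges the two conditions in `SE`, `sg` changes only the sign `s`: `M (pb sw G) v ℓ ↔ M G (sw v) (1 - ℓ.1, ℓ.2)` and `M (pb sg G) v ℓ ↔ M G (sg v) (if ℓ.1 = 1 then il ℓ else ℓ)` (proved inside D2; if they are private there copy them); `c ↦ sw c`.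
-/

set_option autoImplicit false

namespace OK71

private theorem P5_SE_conj (g : F2) (G : Subgroup F2) (v : F2) :
    SE (pb (MulAut.conj g) G) v ↔ SE G (g * v) := by
  simp only [SE, M_conj]

theorem GoS_conj (g : F2) (H K : Subgroup F2) :
    GoS (pb (MulAut.conj g) H) (pb (MulAut.conj g) K) ↔ GoS H K := by
  constructor
  · intro h v hv
    have h1 : SE (pb (MulAut.conj g) K) (g⁻¹ * v) := by
      rw [P5_SE_conj, mul_inv_cancel_left]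
      exact hv
    obtain ⟨c, hc, h2⟩ := h _ h1
    refine ⟨g * c * g⁻¹, mem_pb_conj.1 hc, ?_⟩
    rw [P5_SE_conj] at h2
    have h3 : g * c * g⁻¹ * v = g * (c * (g⁻¹ * v)) := by group
    rw [h3]
    exact h2
  · intro h v hv
    rw [P5_SE_conj] at hv
    obtain ⟨c, hc, h2⟩ := h _ hv
    refine ⟨g⁻¹ * c * g, mem_pb_conj.2 ?_, ?_⟩
    · have h3 : g * (g⁻¹ * c * g) * g⁻¹ = c := by group
      rw [h3]
      exact hc
    · rw [P5_SE_conj]
      have h3 : g * (g⁻¹ * c * g * v) = c * (g * v) := by group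
      rw [h3]
      exact h2

private theorem P5_mk {ψ : MulAut F2} {τ : Lt → Lt} (hel : ∀ ℓ, ψ (el ℓ) = el (τ ℓ))
    (r : List Lt) : ψ (FreeGroup.mk r) = FreeGroup.mk (r.map τ) := by
  induction r with
  | nil => rw [List.map_nil, ← FreeGroup.one_eq_mk, map_one]
  | cons ℓ r ih => rw [mk_cons, map_mul, hel, ih, List.map_cons, mk_cons]

private theorem P5_inj {τ : Lt → Lt} (hτ : ∀ ℓ, τ (τ ℓ) = ℓ) {a b : Lt} (h : τ a = τ b) : a = b := by
  rw [← hτ a, h, hτ b]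

private theorem P5_optinj {τ : Lt → Lt} (hτ : ∀ ℓ, τ (τ ℓ) = ℓ) {o : Option Lt} {b : Lt}
    (h : o.map τ = some (τ b)) : o = some b := by
  cases o with
  | none => simp at h
  | some a =>
    rw [Option.map_some, Option.some.injEq] at h
    rw [P5_inj hτ h]

private theorem P5_red {τ : Lt → Lt} (hτ : ∀ ℓ, τ (τ ℓ) = ℓ) (hil : ∀ ℓ, τ (il ℓ) = il (τ ℓ))
    {r : List Lt} (hr : FreeGroup.IsReduced r) : FreeGroup.IsReduced (r.map τ) := by
  induction r with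
  | nil => exact hr
  | cons a r ih =>
    rw [red_cons] at hr
    rw [List.map_cons, red_cons]
    refine ⟨?_, ih hr.2⟩
    intro h
    rw [List.head?_map, ← hil] at h
    exact hr.1 (P5_optinj hτ h)

private theorem P5_fl {ψ : MulAut F2} {τ : Lt → Lt} (hτ : ∀ ℓ, τ (τ ℓ) = ℓ)
    (hil : ∀ ℓ, τ (il ℓ) = il (τ ℓ)) (hel : ∀ ℓ, ψ (el ℓ) = el (τ ℓ)) (k : F2) :
    fl (ψ k) = (fl k).map τ := by
  have h1 : ψ k = FreeGroup.mk (k.toWord.map τ) := by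
    rw [← P5_mk hel, FreeGroup.mk_toWord]
  rw [h1, fl_mk (P5_red hτ hil FreeGroup.isReduced_toWord), List.head?_map]
  rfl

private theorem P5_dr {ψ : MulAut F2} {τ : Lt → Lt} (hτ : ∀ ℓ, τ (τ ℓ) = ℓ)
    (hil : ∀ ℓ, τ (il ℓ) = il (τ ℓ)) (hel : ∀ ℓ, ψ (el ℓ) = el (τ ℓ)) (v k : F2) :
    dr (ψ v) (ψ k) = (dr v k).map τ := by
  rw [dr, dr, ← P5_fl hτ hil hel, map_mul, map_mul, map_inv]

private theorem P5_M {ψ : MulAut F2} {τ : Lt → Lt} (hτ : ∀ ℓ, τ (τ ℓ) = ℓ)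
    (hil : ∀ ℓ, τ (il ℓ) = il (τ ℓ)) (hel : ∀ ℓ, ψ (el ℓ) = el (τ ℓ)) (hψ : ∀ k, ψ (ψ k) = k)
    (G : Subgroup F2) (v : F2) (ℓ : Lt) : M (pb ψ G) v ℓ ↔ M G (ψ v) (τ ℓ) := by
  constructor
  · rintro ⟨k, hk, hd⟩
    refine ⟨ψ k, hk, ?_⟩
    rw [P5_dr hτ hil hel, hd, Option.map_some]
  · rintro ⟨k, hk, hd⟩
    refine ⟨ψ k, ?_, ?_⟩
    · rw [mem_pb, hψ]
      exact hk
    · apply P5_optinj hτ
      rw [← P5_dr hτ hil hel, hψ]
      exact hd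

private theorem P5_el {ψ : MulAut F2} {τ : Lt → Lt} (hil : ∀ ℓ, τ (il ℓ) = il (τ ℓ))
    (h : ∀ i, ψ (el (i, true)) = el (τ (i, true))) (ℓ : Lt) : ψ (el ℓ) = el (τ ℓ) := by
  obtain ⟨i, b⟩ := ℓ
  cases b with
  | true => exact h i
  | false =>
    have h1 : ((i, false) : Lt) = il (i, true) := rfl
    rw [h1, el_il, map_inv, h i, hil, el_il]

private theorem P5_GoS {ψ : MulAut F2} (hψ : ∀ k, ψ (ψ k) = k)
    (hSE : ∀ (G : Subgroup F2) (v : F2), SE (pb ψ G) v ↔ SE G (ψ v))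
    {H K : Subgroup F2} (h : GoS H K) : GoS (pb ψ H) (pb ψ K) := by
  intro v hv
  rw [hSE] at hv
  obtain ⟨c, hc, h2⟩ := h (ψ v) hv
  refine ⟨ψ c, ?_, ?_⟩
  · rw [mem_pb, hψ]
    exact hc
  · rw [hSE, map_mul, hψ]
    exact h2

private theorem P5_sw {H K : Subgroup F2} (h : GoS H K) : GoS (pb sw H) (pb sw K) := by
  have hil : ∀ ℓ : Lt, (fun ℓ : Lt => ((1 - ℓ.1, ℓ.2) : Lt)) (il ℓ) =
      il ((fun ℓ : Lt => ((1 - ℓ.1, ℓ.2) : Lt)) ℓ) := fun ℓ => rfl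
  have hτ : ∀ ℓ : Lt, (fun ℓ : Lt => ((1 - ℓ.1, ℓ.2) : Lt))
      ((fun ℓ : Lt => ((1 - ℓ.1, ℓ.2) : Lt)) ℓ) = ℓ := by
    rintro ⟨i, b⟩
    fin_cases i <;> rfl
  have hsw : ∀ i, sw (el (i, true)) = el ((fun ℓ : Lt => ((1 - ℓ.1, ℓ.2) : Lt)) (i, true)) := by
    intro i
    fin_cases i
    · exact sw_of0
    · exact sw_of1
  have hψ : ∀ k, sw (sw k) = k := by
    intro k
    have h1 := congrArg (fun χ : MulAut F2 => χ k) sw_sw
    exact h1
  have hM := P5_M (τ := fun ℓ : Lt => ((1 - ℓ.1, ℓ.2) : Lt)) hτ hil (P5_el hil hsw) hψ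
  refine P5_GoS hψ ?_ h
  intro G v
  constructor
  · rintro ⟨⟨s, h1⟩, s', h2⟩
    exact ⟨⟨s', (hM G v _).1 h2⟩, s, (hM G v _).1 h1⟩
  · rintro ⟨⟨s, h1⟩, s', h2⟩
    exact ⟨⟨s', (hM G v _).2 h2⟩, s, (hM G v _).2 h1⟩

private theorem P5_sg {H K : Subgroup F2} (h : GoS H K) : GoS (pb sg H) (pb sg K) := by
  have hil : ∀ ℓ : Lt, (fun ℓ : Lt => if ℓ.1 = 1 then il ℓ else ℓ) (il ℓ) =
      il ((fun ℓ : Lt => if ℓ.1 = 1 then il ℓ else ℓ) ℓ) := by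
    rintro ⟨i, b⟩
    fin_cases i <;> rfl
  have hτ : ∀ ℓ : Lt, (fun ℓ : Lt => if ℓ.1 = 1 then il ℓ else ℓ)
      ((fun ℓ : Lt => if ℓ.1 = 1 then il ℓ else ℓ) ℓ) = ℓ := by
    rintro ⟨i, b⟩
    fin_cases i <;> cases b <;> rfl
  have hsg : ∀ i, sg (el (i, true)) =
      el ((fun ℓ : Lt => if ℓ.1 = 1 then il ℓ else ℓ) (i, true)) := by
    intro i
    fin_cases i
    · exact sg_of0
    · show sg (FreeGroup.of 1) = el (il ((1, true) : Lt))
      rw [sg_of1, el_il, el_true]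
  have hψ : ∀ k, sg (sg k) = k := by
    intro k
    have h1 := congrArg (fun χ : MulAut F2 => χ k) sg_sg
    exact h1
  have hM := P5_M (τ := fun ℓ : Lt => if ℓ.1 = 1 then il ℓ else ℓ) hτ hil (P5_el hil hsg) hψ
  refine P5_GoS hψ ?_ h
  intro G v
  constructor
  · rintro ⟨⟨s, h1⟩, s', h2⟩
    exact ⟨⟨s, (hM G v _).1 h1⟩, !s', (hM G v _).1 h2⟩
  · rintro ⟨⟨s, h1⟩, s', h2⟩
    refine ⟨⟨s, (hM G v _).2 h1⟩, !s', (hM G v _).2 ?_⟩
    cases s' with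
    | true => exact h2
    | false => exact h2

theorem GoS_W {w : MulAut F2} (hw : w ∈ Subgroup.closure ({sw, sg} : Set (MulAut F2)))
    {H K : Subgroup F2} (h : GoS H K) : GoS (pb w H) (pb w K) := by
  have key : (∀ H K : Subgroup F2, GoS H K → GoS (pb w H) (pb w K)) ∧
      (∀ H K : Subgroup F2, GoS H K → GoS (pb w⁻¹ H) (pb w⁻¹ K)) := by
    refine Subgroup.closure_induction (p := fun w _ =>
      (∀ H K : Subgroup F2, GoS H K → GoS (pb w H) (pb w K)) ∧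
      (∀ H K : Subgroup F2, GoS H K → GoS (pb w⁻¹ H) (pb w⁻¹ K))) ?_ ?_ ?_ ?_ hw
    · intro x hx
      have h3 : x = sw ∨ x = sg := by
        simpa only [Set.mem_insert_iff, Set.mem_singleton_iff] using hx
      rcases h3 with rfl | rfl
      · rw [inv_eq_of_mul_eq_one_right sw_sw]
        exact ⟨fun H K h => P5_sw h, fun H K h => P5_sw h⟩
      · rw [inv_eq_of_mul_eq_one_right sg_sg]
        exact ⟨fun H K h => P5_sg h, fun H K h => P5_sg h⟩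
    · rw [inv_one]
      exact ⟨fun H K h => h, fun H K h => h⟩
    · intro x y _ _ hx hy
      refine ⟨fun H K h => ?_, fun H K h => ?_⟩
      · rw [pb_mul, pb_mul]
        exact hy.1 _ _ (hx.1 H K h)
      · rw [mul_inv_rev, pb_mul, pb_mul]
        exact hx.2 _ _ (hy.2 H K h)
    · intro x _ hx
      refine ⟨hx.2, ?_⟩
      rw [inv_inv]
      exact hx.1
  exact key.1 H K h

end OK71
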