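import Pool.Agent.LibOK71.P3
import Pool.Agent.LibOK71.P4
import Pool.Agent.LibOK71.P5
import Pool.Agent.LibOK71.E1

/-!
[OK71 P6] (MEDIUM) finitely many bases are enough for `GoS`; compare the proof of `go_finite` in E1.
`ψ = conj g * σ * ph m * w` (`nielsen`, `normal_form`), `conj g * χ = χ * conj (χ⁻¹ g)` (`conj_aut`), `pb_mul`, `GoS_conj`, `GoS_W`. So it is enough to show `GoS (pb (ph m) H') (pb (ph m) K')` for `H' = pb σ H`, `K' = pb σ K` and all `m`; otherwise (`GoS_ph`) some `m` is bad, and by `bad_bound_S` for the lists `S.map σ⁻¹`, `T.map σ⁻¹` (same sizes) one with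
`m.length < 2 * NN n ^ 3`, against `h` (`GoS_ph`, `pb_mul`).
-/

set_option autoImplicit false

namespace OK71

private theorem P6_sgsg (k : F2) : sg (sg k) = k := by
  have h := DFunLike.congr_fun sg_sg k
  rwa [MulAut.mul_apply, MulAut.one_apply] at h

private theorem P6_norm_el (ℓ : Lt) : (sg (el ℓ)).norm ≤ 1 := by
  obtain ⟨i, b⟩ := ℓ
  have h2 : ∀ ℓ' : Lt, (el ℓ').norm ≤ 1 := by
    intro ℓ'
    rw [FreeGroup.norm, el_toWord]
    simp
  have h1 : ∃ ℓ' : Lt, sg (el (i, b)) = el ℓ' := by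
    fin_cases i <;> cases b
    · refine ⟨(0, false), ?_⟩
      show sg (el (0, false)) = _
      rw [el_false, map_inv, sg_of0]
    · refine ⟨(0, true), ?_⟩
      show sg (el (0, true)) = _
      rw [el_true, sg_of0]
    · refine ⟨(1, true), ?_⟩
      show sg (el (1, false)) = _
      rw [el_false, el_true, map_inv, sg_of1, inv_inv]
    · refine ⟨(1, false), ?_⟩
      show sg (el (1, true)) = _
      rw [el_false, el_true, sg_of1]
  obtain ⟨ℓ', h⟩ := h1
  rw [h]
  exact h2 ℓ'

private theorem P6_norm_mk (L : List Lt) : (sg (FreeGroup.mk L)).norm ≤ L.length := by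
  induction L with
  | nil =>
    have h : (FreeGroup.mk [] : F2) = 1 := rfl
    rw [h, map_one, FreeGroup.norm_one]
    simp
  | cons ℓ L ih =>
    rw [mk_cons, map_mul, List.length_cons]
    have h1 := FreeGroup.norm_mul_le (sg (el ℓ)) (sg (FreeGroup.mk L))
    have h2 := P6_norm_el ℓ
    omega

private theorem P6_norm_le (k : F2) : (sg k).norm ≤ k.norm := by
  have h := P6_norm_mk k.toWord
  rwa [FreeGroup.mk_toWord] at h

private theorem P6_norm (k : F2) : (sg k).toWord.length = k.toWord.length := by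
  have h1 := P6_norm_le k
  have h2 := P6_norm_le (sg k)
  rw [P6_sgsg] at h2
  exact le_antisymm h1 h2

private theorem P6_sz (S : List F2) : sz (S.map sg) = sz S := by
  unfold sz
  rw [List.map_map]
  congr 1
  apply List.map_congr_left
  intro k _
  rw [Function.comp_apply, P6_norm]

private theorem P6_closure (S : List F2) :
    pb sg (Subgroup.closure {s | s ∈ S}) = Subgroup.closure {s | s ∈ S.map sg} := by
  apply le_antisymm
  · intro k hk
    have h1 : Subgroup.closure {s | s ∈ S} ≤ pb sg (Subgroup.closure {s | s ∈ S.map sg}) := by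
      rw [Subgroup.closure_le]
      intro s hs
      show sg s ∈ Subgroup.closure {s | s ∈ S.map sg}
      exact Subgroup.subset_closure (List.mem_map_of_mem hs)
    have h2 : sg (sg k) ∈ Subgroup.closure {s | s ∈ S.map sg} := h1 hk
    rwa [P6_sgsg] at h2
  · rw [Subgroup.closure_le]
    intro s hs
    obtain ⟨t, ht, rfl⟩ := List.mem_map.1 hs
    show sg (sg t) ∈ Subgroup.closure {s | s ∈ S}
    rw [P6_sgsg]
    exact Subgroup.subset_closure ht

private theorem P6_gen (ε : Bool) (S : List F2) : ∃ S' : List F2, sz S' = sz S ∧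
    pb (if ε then sg else 1) (Subgroup.closure {s | s ∈ S}) =
      Subgroup.closure {s | s ∈ S'} := by
  cases ε with
  | true => exact ⟨S.map sg, P6_sz S, by simpa using P6_closure S⟩
  | false => exact ⟨S, rfl, by simpa using pb_one _⟩

theorem goS_finite {S T : List F2} {n : ℕ} (hS : sz S ≤ n) (hT : sz T ≤ n)
    (hST : Subgroup.closure {s | s ∈ S} ≤ Subgroup.closure {t | t ∈ T})
    (h : ∀ (ε : Bool) (m : List Bool), m.length ≤ 2 * NN n ^ 3 →
      GoS (pb ((if ε then sg else 1) * ph m) (Subgroup.closure {s | s ∈ S}))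
        (pb ((if ε then sg else 1) * ph m) (Subgroup.closure {t | t ∈ T})))
    (ψ : MulAut F2) :
    GoS (pb ψ (Subgroup.closure {s | s ∈ S})) (pb ψ (Subgroup.closure {t | t ∈ T})) := by
  obtain ⟨g, ε, m, w, hw, hψ⟩ := normal_form (ψ := ψ) (by rw [nielsen]; trivial)
  obtain ⟨χ, hχ⟩ : ∃ χ : MulAut F2, χ = (if ε then sg else 1) * ph m * w := ⟨_, rfl⟩
  have h1 : ψ = χ * MulAut.conj (χ⁻¹ g) := by
    rw [conj_aut, MulAut.apply_inv_self, hχ, hψ]
    simp only [mul_assoc]
  rw [h1, pb_mul, pb_mul, GoS_conj, hχ]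
  show GoS (pb w (pb ((if ε then sg else 1) * ph m) (Subgroup.closure {s | s ∈ S})))
    (pb w (pb ((if ε then sg else 1) * ph m) (Subgroup.closure {t | t ∈ T})))
  refine GoS_W hw ?_
  show GoS (pb (ph m) (pb (if ε then sg else 1) (Subgroup.closure {s | s ∈ S})))
    (pb (ph m) (pb (if ε then sg else 1) (Subgroup.closure {t | t ∈ T})))
  obtain ⟨S', hS1, hS2⟩ := P6_gen ε S
  obtain ⟨T', hT1, hT2⟩ := P6_gen ε T
  have hmono := pb_mono (if ε then sg else 1) hST
  rw [hS2, hT2] at hmono ⊢
  rw [GoS_ph]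
  intro hbad
  obtain ⟨m2, hm2, hbad2⟩ := bad_bound_S (S := S') (T := T') (n := n) (by omega) (by omega) hmono
    ⟨m, hbad⟩
  have h3 := h ε m2 (by omega)
  rw [pb_mul, pb_mul, hS2, hT2, GoS_ph] at h3
  exact h3 hbad2

end OK71
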