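import Pool.Agent.LibOK71.A2
import Pool.Agent.LibOK71.D5

/-!
[OK71 Q0] (SHORT/MEDIUM) common initial segments.
cp: all by induction on the first list (`generalizing` the second). le_cp_iff: `i ≤ cp u v` iff both have length `≥ i` and the same first `i` letters. cp_ultra: `cp u w = cp u v` if `cp u v < cp v w`. cp_take: `cp u (u.take i) ≤ i`. mul_cp: `mul_dec x y`: `x = A ++ Z`, `y = invRev Z ++ B`, `x y = A ++ B`; `x⁻¹.toWord = invRev Z ++ invRev A` (toWord_inv, invRev_append), and
`cp (invRev Z ++ invRev A) (invRev Z ++ B) = |Z| + cp (invRev A) B = |Z|` because `A ++ B` is reduced (`red_append`, `invRev_head?`). len_mul from mul_cp. pre_iff: (←) `g = mk u * (el ℓ * mk r)`; (→) `h := (mk u)⁻¹ * g`, `fl h = some ℓ`, `u ++ h.toWord` is reduced (`red_append` twice), so it is the word of `g`.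
-/

set_option autoImplicit false

namespace OK71

variable {β : Type} [DecidableEq β]

/-- the length of the longest common initial segment -/
def cp {γ : Type} [DecidableEq γ] : List γ → List γ → ℕ
  | a :: u, b :: v => if a = b then cp u v + 1 else 0
  | _, _ => 0

theorem le_cp_iff {γ : Type} [DecidableEq γ] {u v : List γ} {i : ℕ} :
    i ≤ cp u v ↔ i ≤ u.length ∧ i ≤ v.length ∧ u.take i = v.take i := by
  induction u generalizing v i with
  | nil =>
    have h0 : cp ([] : List γ) v = 0 := by cases v <;> rfl
    rw [h0]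
    constructor
    · intro h
      have hi : i = 0 := by omega
      subst hi
      simp
    · intro h
      simpa using h.1
  | cons a u ih =>
    cases v with
    | nil =>
      have h0 : cp (a :: u) ([] : List γ) = 0 := rfl
      rw [h0]
      constructor
      · intro h
        have hi : i = 0 := by omega
        subst hi
        simp
      · intro h
        simpa using h.2.1
    | cons b v =>
      cases i with
      | zero => simp
      | succ i =>
        by_cases hab : a = b
        · subst hab
          have h0 : cp (a :: u) (a :: v) = cp u v + 1 := if_pos rfl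
          rw [h0, Nat.add_le_add_iff_right, ih]
          simp
        · have h0 : cp (a :: u) (b :: v) = 0 := if_neg hab
          rw [h0]
          constructor
          · intro h
            omega
          · rintro ⟨-, -, h⟩
            simp only [List.take_succ_cons, List.cons.injEq] at h
            exact absurd h.1 hab

theorem cp_comm {γ : Type} [DecidableEq γ] (u v : List γ) : cp u v = cp v u := by
  have key : ∀ u v : List γ, cp u v ≤ cp v u := by
    intro u v
    obtain ⟨h1, h2, h3⟩ := le_cp_iff.1 (le_refl (cp u v))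
    exact le_cp_iff.2 ⟨h2, h1, h3.symm⟩
  exact le_antisymm (key u v) (key v u)

theorem cp_ultra {γ : Type} [DecidableEq γ] {u v w : List γ} (h : cp u v < cp v w) :
    cp u w = cp u v := by
  apply le_antisymm
  · by_contra hlt
    push Not at hlt
    obtain ⟨h1, h2, h3⟩ := le_cp_iff.1 (Nat.succ_le_of_lt hlt)
    obtain ⟨h4, h5, h6⟩ := le_cp_iff.1 (Nat.succ_le_of_lt h)
    have h7 : cp u v + 1 ≤ cp u v := le_cp_iff.2 ⟨h1, h4, h3.trans h6.symm⟩
    omega
  · obtain ⟨h1, h2, h3⟩ := le_cp_iff.1 (le_refl (cp u v))
    obtain ⟨h4, h5, h6⟩ := le_cp_iff.1 h.le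
    exact le_cp_iff.2 ⟨h1, h5, h3.trans h6⟩

private theorem Q0_append {γ : Type} [DecidableEq γ] (s u v : List γ) :
    cp (s ++ u) (s ++ v) = s.length + cp u v := by
  induction s with
  | nil => simp
  | cons a s ih =>
    have h0 : cp (a :: (s ++ u)) (a :: (s ++ v)) = cp (s ++ u) (s ++ v) + 1 := if_pos rfl
    rw [List.cons_append, List.cons_append, h0, ih, List.length_cons]
    omega

private theorem Q0_zero {γ : Type} [DecidableEq γ] {u v : List γ}
    (h : ∀ a, u.head? = some a → v.head? ≠ some a) : cp u v = 0 := by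
  cases u with
  | nil => cases v <;> rfl
  | cons a u =>
    cases v with
    | nil => rfl
    | cons b v =>
      have hab : a ≠ b := by
        intro hab
        exact h a rfl (by rw [hab]; rfl)
      exact if_neg hab

private theorem Q0_dec (x y : FreeGroup β) : ∃ A Z B : List (β × Bool), x.toWord = A ++ Z ∧
    y.toWord = FreeGroup.invRev Z ++ B ∧ (x * y).toWord = A ++ B ∧
      cp (x⁻¹).toWord y.toWord = Z.length := by
  obtain ⟨A, Z, B, h1, h2, h3⟩ := mul_dec x y
  refine ⟨A, Z, B, h1, h2, h3, ?_⟩
  rw [FreeGroup.toWord_inv, h1, h2, invRev_append, Q0_append, FreeGroup.invRev_length]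
  have hr : FreeGroup.IsReduced (A ++ B) := h3 ▸ FreeGroup.isReduced_toWord
  have h4 : cp (FreeGroup.invRev A) B = 0 := by
    apply Q0_zero
    intro a ha
    rw [invRev_head?] at ha
    cases hl : A.getLast? with
    | none => rw [hl] at ha; simp at ha
    | some c =>
      rw [hl] at ha
      simp only [Option.map_some, Option.some.injEq] at ha
      rw [← ha]
      exact (red_append.1 hr).2.2 c (by rw [hl]; rfl)
  rw [h4, add_zero]

/-- the product of two elements: exactly `cp x⁻¹ y` letters cancel -/
theorem mul_cp (x y : FreeGroup β) :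
    (x * y).toWord = x.toWord.take (x.toWord.length - cp (x⁻¹).toWord y.toWord) ++
      y.toWord.drop (cp (x⁻¹).toWord y.toWord) := by
  obtain ⟨A, Z, B, h1, h2, h3, h4⟩ := Q0_dec x y
  rw [h4, h1, h2, h3, List.length_append, Nat.add_sub_cancel, List.take_left,
    ← FreeGroup.invRev_length (L₁ := Z), List.drop_left]

theorem len_mul (x y : FreeGroup β) :
    (x * y).toWord.length + 2 * cp (x⁻¹).toWord y.toWord =
      x.toWord.length + y.toWord.length := by
  obtain ⟨A, Z, B, h1, h2, h3, h4⟩ := Q0_dec x y
  rw [h4, h1, h2, h3, List.length_append, List.length_append, List.length_append,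
    FreeGroup.invRev_length]
  omega

theorem pre_iff {u : List (β × Bool)} {ℓ : β × Bool} (hr : FreeGroup.IsReduced (u ++ [ℓ]))
    (g : FreeGroup β) :
    fl ((FreeGroup.mk u)⁻¹ * g) = some ℓ ↔ u ++ [ℓ] <+: g.toWord := by
  obtain ⟨hu, hl, hul⟩ := red_append.1 hr
  constructor
  · intro h
    obtain ⟨r, hw⟩ : ∃ r, ((FreeGroup.mk u)⁻¹ * g).toWord = ℓ :: r := by
      unfold fl at h
      cases hw : ((FreeGroup.mk u)⁻¹ * g).toWord with
      | nil => rw [hw] at h; simp at h
      | cons a w =>
        rw [hw] at h
        simp only [List.head?_cons, Option.some.injEq] at h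
        exact ⟨w, by rw [h]⟩
    have h1 : FreeGroup.IsReduced (ℓ :: r) := hw ▸ FreeGroup.isReduced_toWord
    have h2 : FreeGroup.IsReduced (u ++ ℓ :: r) := by
      rw [red_append]
      exact ⟨hu, h1, fun a ha => hul a ha⟩
    have h3 : g = FreeGroup.mk (u ++ ℓ :: r) := by
      rw [mk_append, ← hw, FreeGroup.mk_toWord, mul_inv_cancel_left]
    have h4 : g.toWord = u ++ ℓ :: r := by
      rw [h3]
      exact toWord_of_red h2
    rw [h4]
    exact ⟨r, by simp⟩
  · rintro ⟨r, hr2⟩
    have h1 : FreeGroup.IsReduced (u ++ (ℓ :: r)) := by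
      have h2 : u ++ (ℓ :: r) = g.toWord := by rw [← hr2]; simp
      rw [h2]
      exact FreeGroup.isReduced_toWord
    have h2 : (FreeGroup.mk u)⁻¹ * g = FreeGroup.mk (ℓ :: r) := by
      have h3 : g = FreeGroup.mk (u ++ (ℓ :: r)) := by
        rw [← FreeGroup.mk_toWord (x := g), ← hr2]
        simp
      rw [h3, mk_append, inv_mul_cancel_left]
    rw [h2, fl_mk (red_append.1 h1).2.1]
    rfl

end OK71
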