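import Pool.Agent.LibOK71.Q0

/-!
[OK71 Q1] (MEDIUM) minimal homomorphisms.
ex_min: the set of the numbers `tl` of `k ↦ q⁻¹ * ι (ψ k) * q` (`(MulAut.conj q⁻¹).toMonoidHom.comp (ι.comp ψ.toMonoidHom)`) has a least element (`Nat.find`/`WellFounded.min` for the pairs `(ψ, q)`); if `f` is the one of `(ψ, q)` then `r⁻¹ * f (ν k) * r` is the one of `(ψ * ν, q * r)`.
min_comp: `f.comp ν` with the same total length: `ν' ↦ ν * ν'`. three: among three different letters two are `η, il η` and the third `μ` has the other index (`Fin 2 × Bool`, `decide`/`fin_cases` or case analysis); `f (el η)` has the word `s :: p ++ [il s]`: it begins with `s`, and its inverse begins with `s` (`fl_inv`; length `≥ 2` because `s ≠ il s`); so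
`|s⁻¹ f(el η) s| = |f (el η)| - 2` and `|s⁻¹ f(el μ) s| ≤ |f (el μ)|` (the word of `f (el μ)` begins with `s`; one letter less, one more); `Min` with `ν = 1`, `r = el s` is violated (`|x⁻¹| = |x|`: `f (of i)` is `f (el η)` or its inverse; the two indices).
N1: for different indices `elem_mem`'s automorphism `ν` (`ν (el η) = el η * el μ`, `ν (el μ) = el μ`): `Min` gives `n η + n μ ≤ |f(el η) f(el μ)| + n μ`, with `len_mul`: `2 c ≤ n μ`, `c = cp (z (il η)) (z μ)`; for the pair `(il μ, il η)`: `2 c ≤ n η` (cp_comm, il_il). N1s: `z := f (el η) ≠ 1` (injective), `c = cp z⁻¹ z` with `2 c ≥ |z|` is impossible: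
the first `c` letters of `z` and of `z⁻¹` agree: letter `j` is `il` of letter `n - 1 - j` for `j < c`; `n = 2 j + 1`: `il s = s`; `n = 2 j + 2`: two neighbouring letters `s, il s` of a reduced word. (Or `|z ^ 2| = |z| + |reduceCyclically z| > |z|` as in D6, and `len_mul`.)
-/

set_option autoImplicit false

namespace OK71

variable {β : Type} [DecidableEq β]

/-- the total length -/
def tl (f : F2 →* FreeGroup β) : ℕ :=
  (f (FreeGroup.of 0)).toWord.length + (f (FreeGroup.of 1)).toWord.length

/-- no change of the basis and of the base point makes `f` shorter -/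
def Min (f : F2 →* FreeGroup β) : Prop :=
  ∀ (ν : MulAut F2) (r : FreeGroup β),
    tl f ≤ (r⁻¹ * f (ν (FreeGroup.of 0)) * r).toWord.length +
      (r⁻¹ * f (ν (FreeGroup.of 1)) * r).toWord.length

private theorem Q1_norm_inv (x : FreeGroup β) : (x⁻¹).toWord.length = x.toWord.length :=
  FreeGroup.norm_inv_eq

private theorem Q1_norm_el (f : F2 →* FreeGroup β) (η : Lt) :
    (f (el η)).toWord.length = (f (FreeGroup.of η.1)).toWord.length := by
  obtain ⟨i, b⟩ := η
  cases b
  · rw [el_false, map_inv, Q1_norm_inv]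
  · rw [el_true]

theorem ex_min (ι : F2 →* FreeGroup β) : ∃ (ψ : MulAut F2) (q : FreeGroup β)
    (f : F2 →* FreeGroup β), (∀ k, f k = q⁻¹ * ι (ψ k) * q) ∧ Min f := by
  let F : MulAut F2 × FreeGroup β → (F2 →* FreeGroup β) := fun p =>
    (MulAut.conj (p.2)⁻¹).toMonoidHom.comp (ι.comp p.1.toMonoidHom)
  have hF : ∀ p k, F p k = p.2⁻¹ * ι (p.1 k) * p.2 := by
    intro p k
    show (MulAut.conj (p.2)⁻¹) (ι (p.1 k)) = _
    rw [MulAut.conj_apply, inv_inv]
  obtain ⟨p, hp⟩ : ∃ p, ∀ p', tl (F p) ≤ tl (F p') :=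
    ⟨Function.argmin (fun p => tl (F p)), fun p' => Function.argmin_le (fun p => tl (F p)) p'⟩
  refine ⟨p.1, p.2, F p, hF p, ?_⟩
  intro ν r
  have h1 := hp (p.1 * ν, p.2 * r)
  have h2 : ∀ k, F (p.1 * ν, p.2 * r) k = r⁻¹ * F p (ν k) * r := by
    intro k
    rw [hF, hF]
    show (p.2 * r)⁻¹ * ι (p.1 (ν k)) * (p.2 * r) = _
    group
  rw [show tl (F (p.1 * ν, p.2 * r)) = (F (p.1 * ν, p.2 * r) (FreeGroup.of 0)).toWord.length +
    (F (p.1 * ν, p.2 * r) (FreeGroup.of 1)).toWord.length from rfl, h2, h2] at h1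
  exact h1

theorem min_comp {f : F2 →* FreeGroup β} (hf : Min f) (ν : MulAut F2)
    (h : tl (f.comp ν.toMonoidHom) = tl f) : Min (f.comp ν.toMonoidHom) := by
  intro ν' r
  rw [h]
  exact hf (ν * ν') r

theorem tl_letters (f : F2 →* FreeGroup β) {η μ : Lt} (h : η.1 ≠ μ.1) :
    (f (el η)).toWord.length + (f (el μ)).toWord.length = tl f := by
  rw [Q1_norm_el, Q1_norm_el]
  generalize η.1 = i at h ⊢
  generalize μ.1 = j at h ⊢
  fin_cases i <;> fin_cases j
  · exact absurd rfl h
  · rfl
  · exact add_comm _ _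
  · exact absurd rfl h

private theorem Q1_head {x : FreeGroup β} {s : β × Bool} (h : fl x = some s) :
    ∃ w, x.toWord = s :: w ∧ (el s)⁻¹ * x = FreeGroup.mk w := by
  rw [fl] at h
  cases hw : x.toWord with
  | nil => rw [hw] at h; simp at h
  | cons b m =>
    rw [hw] at h
    simp only [List.head?_cons, Option.some.injEq] at h
    subst h
    refine ⟨m, rfl, ?_⟩
    rw [← FreeGroup.mk_toWord (x := x), hw, mk_cons, inv_mul_cancel_left]

private theorem Q1_core {f : F2 →* FreeGroup β} (hf : Min f) {η μ : Lt} (h : η.1 ≠ μ.1)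
    {s : β × Bool} (h1 : fl (f (el η)) = some s) (h2 : fl (f (el (il η))) = some s)
    (h3 : fl (f (el μ)) = some s) : False := by
  let f' : F2 →* FreeGroup β := (MulAut.conj (el s)⁻¹).toMonoidHom.comp f
  have hf' : ∀ k, f' k = (el s)⁻¹ * f k * el s := by
    intro k
    show (MulAut.conj (el s)⁻¹) (f k) = _
    rw [MulAut.conj_apply, inv_inv]
  have h4 : tl f ≤ tl f' := by
    have h5 := hf 1 (el s)
    rw [MulAut.one_apply, MulAut.one_apply, ← hf', ← hf'] at h5
    exact h5
  rw [← tl_letters f h, ← tl_letters f' h, hf', hf'] at h4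
  -- the letter `μ`
  obtain ⟨w, hw1, hw2⟩ := Q1_head h3
  have h6 : ((el s)⁻¹ * f (el μ) * el s).toWord.length ≤ (f (el μ)).toWord.length := by
    rw [hw2, hw1]
    have h7 := FreeGroup.norm_mul_le (FreeGroup.mk w) (el s)
    have h8 : FreeGroup.norm (FreeGroup.mk w) ≤ w.length := FreeGroup.norm_mk_le
    have h9 : FreeGroup.norm (el s) = 1 := by
      show (el s).toWord.length = 1
      rw [el_toWord]
      rfl
    rw [h9] at h7
    show FreeGroup.norm (FreeGroup.mk w * el s) ≤ w.length + 1
    omega
  -- the letter `η`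
  obtain ⟨u, hu1, hu2⟩ := Q1_head h1
  have h10 : ((el s)⁻¹ * f (el η) * el s).toWord.length + 2 ≤ (f (el η)).toWord.length := by
    rw [el_il, map_inv, fl_inv] at h2
    rw [hu2, hu1]
    rcases List.eq_nil_or_concat' u with h11 | ⟨p, l, h11⟩
    · exfalso
      rw [hu1, h11] at h2
      simp only [List.getLast?_singleton, Option.map_some, Option.some.injEq] at h2
      exact il_ne s h2
    · have h12 : l = il s := by
        rw [hu1, h11] at h2
        have h13 : (s :: (p ++ [l])).getLast? = some l := by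
          rw [← List.cons_append, List.getLast?_append]
          rfl
        rw [h13] at h2
        simp only [Option.map_some, Option.some.injEq] at h2
        rw [← h2, il_il]
      have h14 : FreeGroup.mk u * el s = FreeGroup.mk p := by
        rw [h11, mk_append, h12]
        show FreeGroup.mk p * el (il s) * el s = _
        rw [el_il, inv_mul_cancel_right]
      rw [h14, h11]
      have h15 : FreeGroup.norm (FreeGroup.mk p) ≤ p.length := FreeGroup.norm_mk_le
      have h16 : (s :: (p ++ [l])).length = p.length + 2 := by simp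
      rw [h16]
      exact Nat.add_le_add_right h15 2
  omega

theorem three {f : F2 →* FreeGroup β} (hf : Min f) {η1 η2 η3 : Lt} (h12 : η1 ≠ η2)
    (h13 : η1 ≠ η3) (h23 : η2 ≠ η3) {s : β × Bool} (h1 : fl (f (el η1)) = some s)
    (h2 : fl (f (el η2)) = some s) (h3 : fl (f (el η3)) = some s) : False := by
  have key : ∀ x y : Lt, x ≠ y → x.1 = y.1 → y = il x := by decide
  by_cases a : η1.1 = η2.1
  · have e := key _ _ h12 a
    by_cases b : η1.1 = η3.1
    · have e' := key _ _ h13 b
      exact h23 (e.trans e'.symm)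
    · rw [e] at h2
      exact Q1_core hf b h1 h2 h3
  · by_cases b : η1.1 = η3.1
    · have e := key _ _ h13 b
      rw [e] at h3
      exact Q1_core hf a h1 h3 h2
    · have c : η2.1 = η3.1 := by omega
      have e := key _ _ h23 c
      rw [e] at h3
      exact Q1_core hf (Ne.symm a) h2 h3 h1

private theorem Q1_N1 {f : F2 →* FreeGroup β} (hf : Min f) {η μ : Lt} (h : η.1 ≠ μ.1) :
    2 * cp (f (el (il η))).toWord (f (el μ)).toWord ≤ (f (el μ)).toWord.length := by
  obtain ⟨ν, -, h1, h2⟩ := elem_mem h
  have h3 : tl f ≤ tl (f.comp ν.toMonoidHom) := by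
    have h4 := hf ν 1
    rw [inv_one, one_mul, one_mul, mul_one, mul_one] at h4
    exact h4
  rw [← tl_letters f h, ← tl_letters (f.comp ν.toMonoidHom) h] at h3
  have h5 : (f.comp ν.toMonoidHom) (el η) = f (el η) * f (el μ) := by
    rw [← map_mul, ← h1]
    rfl
  have h6 : (f.comp ν.toMonoidHom) (el μ) = f (el μ) := congrArg f h2
  rw [h5, h6] at h3
  have h7 := len_mul (f (el η)) (f (el μ))
  rw [el_il, map_inv]
  omega

theorem N1 {f : F2 →* FreeGroup β} (hf : Min f) {η μ : Lt} (h : η.1 ≠ μ.1) :
    2 * cp (f (el (il η))).toWord (f (el μ)).toWord ≤ (f (el η)).toWord.length ∧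
      2 * cp (f (el (il η))).toWord (f (el μ)).toWord ≤ (f (el μ)).toWord.length := by
  refine ⟨?_, Q1_N1 hf h⟩
  have h1 : (il μ).1 ≠ (il η).1 := fun h2 => h h2.symm
  have h2 := Q1_N1 hf h1
  rw [il_il, cp_comm] at h2
  have h3 : (f (el (il η))).toWord.length = (f (el η)).toWord.length := by
    rw [el_il, map_inv, Q1_norm_inv]
  rw [h3] at h2
  exact h2

private theorem Q1_sq {z : FreeGroup β} (hz : z ≠ 1) : z.toWord.length < (z * z).toWord.length := by
  have h1 : (z * z).toWord = FreeGroup.reduceCyclically.conjugator z.toWord ++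
      (List.replicate 2 (FreeGroup.reduceCyclically z.toWord)).flatten ++
      FreeGroup.invRev (FreeGroup.reduceCyclically.conjugator z.toWord) := by
    rw [← pow_two, FreeGroup.toWord_pow]
    exact FreeGroup.reduceCyclically.reduce_flatten_replicate_succ FreeGroup.isReduced_toWord 1
  have h2 := FreeGroup.reduceCyclically.conj_conjugator_reduceCyclically z.toWord
  have h3 : FreeGroup.reduceCyclically z.toWord ≠ [] := by
    intro h
    rw [h, List.append_nil] at h2
    apply hz
    rw [← FreeGroup.mk_toWord (x := z), ← h2, mk_append, ← FreeGroup.inv_mk, mul_inv_cancel]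
  have h4 : 0 < (FreeGroup.reduceCyclically z.toWord).length := List.length_pos_of_ne_nil h3
  have h5 := congrArg List.length h2
  rw [h1]
  simp only [List.length_append, FreeGroup.invRev_length, List.length_flatten, List.map_replicate,
    List.sum_replicate, smul_eq_mul] at h5 ⊢
  omega

theorem N1s {f : F2 →* FreeGroup β} (hi : Function.Injective f) (η : Lt) :
    2 * cp (f (el (il η))).toWord (f (el η)).toWord < (f (el η)).toWord.length := by
  have hz : f (el η) ≠ 1 := by
    intro h
    have h1 : el η = 1 := hi (h.trans (map_one f).symm)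
    have h2 := congrArg FreeGroup.toWord h1
    rw [el_toWord, FreeGroup.toWord_one] at h2
    exact absurd h2 (by simp)
  have h1 := Q1_sq hz
  have h2 := len_mul (f (el η)) (f (el η))
  rw [el_il, map_inv]
  omega

end OK71
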