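import Pool.Agent.LibOK71.Q1

/-!
[OK71 Q2] (MEDIUM/STRONG) the Nielsen condition N2.
Write `z η := (f (el η)).toWord`, `n η` its length, `n (il η) = n η`. By N1, N1s both terms are `≤ n μ / 2` and a term with equal letters is `< n μ / 2`. So if the sum is `≥ n μ` then `n μ = 2 h`, both terms are `h ≥ 1`, and `η`, `ν` have the index different from the one of `μ`: `ν = η` or `ν = il η`. `z μ = u ++ v`, `|u| = |v| = h` (take, drop).
`le_cp_iff`: `z (il η)` begins with `u`, `z ν` begins with the first `h` letters of `z (il μ) = invRev v ++ invRev u`, i.e. with `invRev v`. If `ν = il η`: `u = invRev v`, so `f (el μ) = mk (invRev v) * mk v = 1`, against injectivity (`el μ ≠ 1`). If `ν = η`: `z η = t ++ invRev u`, `t` = the first `n η - h` letters, `|t| ≥ h` (N1: `2 h ≤ n η`), so `t` begins with `invRev v`.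
Let `ν'` be the automorphism `el η ↦ el η * el μ`, `el μ ↦ el μ` (`elem_mem`), `f' := f.comp ν'`. `(f' (el η)).toWord = t ++ v` (`mul_cp`: exactly `h` letters cancel), length `n η`, so `tl f' = tl f` (tl_letters), `Min f'` (min_comp). With `s` the first letter of `invRev v`: `f' (el η)` (word `t ++ v`), `f' (el (il η))` (word `invRev v ++ invRev t`) and
`f' (el (il μ)) = f (el (il μ))` (word `invRev v ++ invRev u`) begin with `s`: against `three`.
-/

set_option autoImplicit false

namespace OK71

variable {β : Type} [DecidableEq β]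

private theorem Q2_idx (η μ : Lt) (h : η.1 = μ.1) (h1 : μ ≠ il η) : μ = η := by
  obtain ⟨i, a⟩ := η
  obtain ⟨j, b⟩ := μ
  change i = j at h
  subst h
  simp only [il, ne_eq, Prod.mk.injEq, true_and] at h1 ⊢
  cases a <;> cases b <;> simp_all

private theorem Q2_idx2 (η μ ν : Lt) (h : η.1 ≠ μ.1) (h1 : ν.1 ≠ μ.1) : ν = η ∨ ν = il η := by
  have h2 : η.1 = ν.1 := by omega
  by_cases h3 : ν = il η
  · exact Or.inr h3
  · exact Or.inl (Q2_idx η ν h2 h3)

private theorem Q2_il (f : F2 →* FreeGroup β) (ℓ : Lt) :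
    (f (el (il ℓ))).toWord = FreeGroup.invRev (f (el ℓ)).toWord := by
  rw [el_il, map_inv, FreeGroup.toWord_inv]

private theorem Q2_len (f : F2 →* FreeGroup β) (ℓ : Lt) :
    (f (el (il ℓ))).toWord.length = (f (el ℓ)).toWord.length := by
  rw [Q2_il, FreeGroup.invRev_length]

private theorem Q2_main {f : F2 →* FreeGroup β} (hf : Min f) {η μ : Lt}
    {u v t t' : List (β × Bool)} {h : ℕ}
    (hem : η.1 ≠ μ.1) (hh : 0 < h) (hu : u.length = h) (hv : v.length = h)
    (hc : cp (f (el (il η))).toWord (f (el μ)).toWord = h)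
    (hμ : (f (el μ)).toWord = u ++ v)
    (hη : (f (el η)).toWord = t ++ FreeGroup.invRev u)
    (ht : t = FreeGroup.invRev v ++ t') : False := by
  obtain ⟨ν', -, h1, h2⟩ := elem_mem hem
  have ht1 : (f (el η)).toWord.length - h = t.length := by
    rw [hη, List.length_append, FreeGroup.invRev_length, hu]
    omega
  have hw : ((f.comp ν'.toMonoidHom) (el η)).toWord = t ++ v := by
    change (f (ν' (el η))).toWord = t ++ v
    rw [h1, map_mul, mul_cp]
    rw [show (f (el η))⁻¹ = f (el (il η)) by rw [el_il, map_inv]]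
    rw [hc, ht1, hη, hμ, List.take_left', List.drop_left']
    · exact hu
    · rfl
  have hwμ : (f.comp ν'.toMonoidHom) (el μ) = f (el μ) := by
    change f (ν' (el μ)) = f (el μ)
    rw [h2]
  have htl : tl (f.comp ν'.toMonoidHom) = tl f := by
    rw [← tl_letters _ hem, ← tl_letters f hem, hw, hwμ, hη, List.length_append,
      List.length_append, FreeGroup.invRev_length, hu, hv]
  have hmin := min_comp hf ν' htl
  obtain ⟨s, r, hs⟩ : ∃ s r, FreeGroup.invRev v = s :: r := by
    cases hvr : FreeGroup.invRev v with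
    | nil =>
      have h3 : (FreeGroup.invRev v).length = 0 := by rw [hvr]; rfl
      rw [FreeGroup.invRev_length, hv] at h3
      omega
    | cons s r => exact ⟨s, r, rfl⟩
  have hidx : (il μ).1 ≠ η.1 := fun h => hem h.symm
  refine three hmin (η1 := η) (η2 := il η) (η3 := il μ) (s := s) (il_ne η).symm
    (fun h => hidx (by rw [← h])) (fun h => hidx (by rw [← h]; rfl)) ?_ ?_ ?_
  · rw [fl, hw, ht, hs]
    rfl
  · rw [fl, Q2_il, hw, invRev_append, hs]
    rfl
  · rw [fl, Q2_il, hwμ, hμ, invRev_append, hs]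
    rfl

theorem N2 {f : F2 →* FreeGroup β} (hf : Min f) (hi : Function.Injective f) {η μ ν : Lt}
    (h1 : μ ≠ il η) (h2 : ν ≠ il μ) :
    cp (f (el (il η))).toWord (f (el μ)).toWord + cp (f (el (il μ))).toWord (f (el ν)).toWord <
      (f (el μ)).toWord.length := by
  by_contra hcon
  rw [not_lt] at hcon
  by_cases hem : η.1 = μ.1
  · have hem' := Q2_idx η μ hem h1
    subst hem'
    have h3 := N1s hi μ
    by_cases hmn : μ.1 = ν.1
    · have hmn' := Q2_idx μ ν hmn h2
      subst hmn'
      omega
    · have h4 := (N1 hf hmn).1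
      omega
  have h3 := N1 hf hem
  by_cases hmn : μ.1 = ν.1
  · have hmn' := Q2_idx μ ν hmn h2
    subst hmn'
    have h4 := N1s hi ν
    omega
  have h4 := N1 hf hmn
  have h5 : f (el μ) ≠ 1 := by
    intro h6
    have h7 : el μ = 1 := hi (h6.trans (map_one f).symm)
    have h8 := fl_el μ
    rw [h7, fl_one] at h8
    exact absurd h8 (by simp)
  have h6 : 0 < (f (el μ)).toWord.length := by
    rcases Nat.eq_zero_or_pos (f (el μ)).toWord.length with h7 | h7
    · exact absurd (FreeGroup.toWord_eq_nil_iff.1 (List.length_eq_zero_iff.1 h7)) h5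
    · exact h7
  obtain ⟨h, hh⟩ : ∃ h, h = cp (f (el (il η))).toWord (f (el μ)).toWord := ⟨_, rfl⟩
  have hc1 : cp (f (el (il η))).toWord (f (el μ)).toWord = h := hh.symm
  have hc2 : cp (f (el (il μ))).toWord (f (el ν)).toWord = h := by omega
  have hnμ : (f (el μ)).toWord.length = 2 * h := by omega
  have hnη : 2 * h ≤ (f (el η)).toWord.length := by omega
  have hpos : 0 < h := by omega
  -- the words
  obtain ⟨u, v, huv, hu, hv⟩ : ∃ u v, (f (el μ)).toWord = u ++ v ∧ u.length = h ∧ v.length = h := by
    refine ⟨(f (el μ)).toWord.take h, (f (el μ)).toWord.drop h, (List.take_append_drop _ _).symm, ?_, ?_⟩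
    · rw [List.length_take]; omega
    · rw [List.length_drop]; omega
  have e1 := (le_cp_iff.1 hc1.ge)
  have e2 := (le_cp_iff.1 hc2.ge)
  have e3 : (f (el (il η))).toWord.take h = u := by
    rw [e1.2.2, huv, List.take_left' hu]
  have e4 : (f (el ν)).toWord.take h = FreeGroup.invRev v := by
    rw [← e2.2.2, Q2_il, huv, invRev_append, List.take_left' (by rw [FreeGroup.invRev_length, hv])]
  rcases Q2_idx2 η μ ν hem (fun h => hmn h.symm) with h7 | h7
  · subst h7
    -- `ν = η`
    obtain ⟨t, ht⟩ : ∃ t, (f (el ν)).toWord = t ++ FreeGroup.invRev u := by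
      refine ⟨FreeGroup.invRev ((f (el (il ν))).toWord.drop h), ?_⟩
      rw [← invRev_append, ← e3, List.take_append_drop, Q2_il, FreeGroup.invRev_invRev]
    have hlt : h ≤ t.length := by
      have h8 : (f (el ν)).toWord.length = t.length + h := by
        rw [ht, List.length_append, FreeGroup.invRev_length, hu]
      omega
    have ht' : t = FreeGroup.invRev v ++ t.drop h := by
      rw [← e4, ht, List.take_append_of_le_length hlt, List.take_append_drop]
    exact Q2_main hf hem hpos hu hv hc1 huv ht ht'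
  · subst h7
    have h8 : u = FreeGroup.invRev v := by rw [← e3, e4]
    apply h5
    rw [← FreeGroup.mk_toWord (x := f (el μ)), huv, h8, mk_append, ← FreeGroup.inv_mk, inv_mul_cancel]

end OK71
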