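import Pool.Agent.LibOK71.Q0

/-!
[OK71 Q3] (MEDIUM/STRONG) initial segments of the image of a reduced word.
Write `z μ := (f (el μ)).toWord`, `n μ` its length, `y := f (mk (μ :: r)) * mk ((z η).take i)`, `τ := match r with | [] => if μ = il η then i else cp (z (il μ)) (z η) | μ2 :: _ => cp (z (il μ)) (z μ2)`. Claim: `n μ ≤ cp y.toWord (z μ) + τ`. Induction on `r` (`μ` general).
`r = []`: `mul_cp` for `f (el μ)` and `mk (take i (z η))` (its word is `take i (z η)`: an initial segment of a reduced word is reduced, `toWord_of_red`): `y.toWord = take (n μ - c) (z μ) ++ …` with `c = cp (z (il μ)) (take i (z η))` (`(f (el μ))⁻¹ = f (el (il μ))`), `c ≤ cp (z (il μ)) (z η)` and `c ≤ i`; `cp y.toWord (z μ) ≥ n μ - c` (`le_cp_iff`).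
`r = μ2 :: r'`: `y = f (el μ) * y'`, `y' = f (mk (μ2 :: r')) * mk (take i (z η))`, `μ2 ≠ il μ` (`red_cons`). With `t := cp (z (il μ)) (z μ2)`: `t + τ(μ2, r') < n μ2`: if `r' = μ3 :: _` this is `hN` (`μ3 ≠ il μ2`); if `r' = []` and `μ2 ≠ il η` it is `hN` with `ν = η` (`η ≠ il μ2`); if `r' = []` and `μ2 = il η`: `τ = i`, `t = cp (z (il μ)) (z (il η))`, and `hR` for `il μ ≠ il η`
(`μ ≠ η`, because `μ2 ≠ il μ`) gives `i + 1 + t ≤ n η = n μ2` (`cp_comm`). So by the induction hypothesis `t < cp y'.toWord (z μ2)`, hence `cp (z (il μ)) y'.toWord = t` (`cp_ultra`, `cp_comm`), and `mul_cp`: `y.toWord = take (n μ - t) (z μ) ++ …`.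
len_inv: `n (il μ) = n μ` (`el_il`, `map_inv`, `FreeGroup.norm_inv_eq` or `toWord_inv`, `invRev_length`).
-/

set_option autoImplicit false

namespace OK71

variable {β : Type} [DecidableEq β]

private theorem Q3_mul (x y : FreeGroup β) :
    x.toWord.length - cp (x⁻¹).toWord y.toWord ≤ cp (x * y).toWord x.toWord := by
  rw [le_cp_iff]
  have h := mul_cp x y
  have hl : (x.toWord.take (x.toWord.length - cp (x⁻¹).toWord y.toWord)).length =
      x.toWord.length - cp (x⁻¹).toWord y.toWord := by
    simp
  refine ⟨?_, Nat.sub_le _ _, ?_⟩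
  · rw [h, List.length_append, hl]
    omega
  · rw [h, List.take_append_of_le_length (by rw [hl]), List.take_take, min_self]

private theorem Q3_take {γ : Type} [DecidableEq γ] (u v : List γ) (i : ℕ) :
    cp u (v.take i) ≤ cp u v ∧ cp u (v.take i) ≤ i := by
  obtain ⟨h1, h2, h3⟩ := le_cp_iff.1 (le_refl (cp u (v.take i)))
  rw [List.length_take] at h2
  have h4 : cp u (v.take i) ≤ i := h2.trans (min_le_left _ _)
  refine ⟨le_cp_iff.2 ⟨h1, h2.trans (min_le_right _ _), ?_⟩, h4⟩
  rw [h3, List.take_take, min_eq_left h4]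

omit [DecidableEq β] in
private theorem Q3_inv (f : F2 →* FreeGroup β) (μ : Lt) : (f (el μ))⁻¹ = f (el (il μ)) := by
  rw [el_il, map_inv]

theorem len_inv (f : F2 →* FreeGroup β) (μ : Lt) :
    (f (el (il μ))).toWord.length = (f (el μ)).toWord.length := by
  rw [el_il, map_inv, FreeGroup.toWord_inv, FreeGroup.invRev_length]

private def Q3_tau (f : F2 →* FreeGroup β) (η : Lt) (i : ℕ) (μ : Lt) : List Lt → ℕ
  | [] => if μ = il η then i else cp (f (el (il μ))).toWord (f (el η)).toWord
  | μ2 :: _ => cp (f (el (il μ))).toWord (f (el μ2)).toWord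

private theorem Q3_main {f : F2 →* FreeGroup β}
    (hN : ∀ η μ ν : Lt, μ ≠ il η → ν ≠ il μ →
      cp (f (el (il η))).toWord (f (el μ)).toWord +
        cp (f (el (il μ))).toWord (f (el ν)).toWord < (f (el μ)).toWord.length)
    {η : Lt} {i : ℕ} (hR : ∀ μ, μ ≠ il η →
      i + 1 + cp (f (el (il η))).toWord (f (el μ)).toWord ≤ (f (el η)).toWord.length)
    (μ : Lt) (r : List Lt) (hr : FreeGroup.IsReduced (μ :: r)) :
    (f (el μ)).toWord.length ≤
      cp (f (FreeGroup.mk (μ :: r)) * FreeGroup.mk ((f (el η)).toWord.take i)).toWord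
        (f (el μ)).toWord + Q3_tau f η i μ r := by
  induction r generalizing μ with
  | nil =>
    have hred : FreeGroup.IsReduced ((f (el η)).toWord.take i) := by
      have h := FreeGroup.isReduced_toWord (x := f (el η))
      rw [← List.take_append_drop i (f (el η)).toWord] at h
      exact (red_append.1 h).1
    have h := Q3_mul (f (el μ)) (FreeGroup.mk ((f (el η)).toWord.take i))
    rw [toWord_of_red hred, Q3_inv] at h
    obtain ⟨h1, h2⟩ := Q3_take (f (el (il μ))).toWord (f (el η)).toWord i
    have h3 : (FreeGroup.mk [μ] : F2) = el μ := rfl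
    rw [h3]
    show _ ≤ _ + (if μ = il η then i else cp (f (el (il μ))).toWord (f (el η)).toWord)
    split_ifs <;> omega
  | cons μ2 r ih =>
    have hr2 := red_cons.1 hr
    have hne : μ2 ≠ il μ := by
      intro h
      exact hr2.1 (by rw [h]; rfl)
    have ih' := ih μ2 hr2.2
    have ht : cp (f (el (il μ))).toWord (f (el μ2)).toWord +
        Q3_tau f η i μ2 r < (f (el μ2)).toWord.length := by
      cases r with
      | nil =>
        show _ + (if μ2 = il η then i else cp (f (el (il μ2))).toWord (f (el η)).toWord) < _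
        split_ifs with hc
        · have h1 : il μ ≠ il η := by
            intro h
            exact hne (by rw [h, hc])
          have h2 := hR (il μ) h1
          have h3 := len_inv f η
          have h4 := cp_comm (f (el (il μ))).toWord (f (el (il η))).toWord
          rw [hc, h3, h4]
          omega
        · have h1 : η ≠ il μ2 := by
            intro h
            exact hc (by rw [h, il_il])
          exact hN μ μ2 η hne h1
      | cons μ3 r =>
        have h1 : μ3 ≠ il μ2 := by
          intro h
          exact (red_cons.1 hr2.2).1 (by rw [h]; rfl)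
        exact hN μ μ2 μ3 hne h1
    have hlt : cp (f (el (il μ))).toWord (f (el μ2)).toWord <
        cp (f (el μ2)).toWord (f (FreeGroup.mk (μ2 :: r)) *
          FreeGroup.mk ((f (el η)).toWord.take i)).toWord := by
      rw [cp_comm (f (el μ2)).toWord]
      omega
    have hcp := cp_ultra hlt
    have h := Q3_mul (f (el μ)) (f (FreeGroup.mk (μ2 :: r)) *
      FreeGroup.mk ((f (el η)).toWord.take i))
    rw [Q3_inv, hcp] at h
    rw [mk_cons, map_mul, mul_assoc]
    show _ ≤ _ + cp (f (el (il μ))).toWord (f (el μ2)).toWord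
    omega

theorem initial {f : F2 →* FreeGroup β}
    (hN : ∀ η μ ν : Lt, μ ≠ il η → ν ≠ il μ →
      cp (f (el (il η))).toWord (f (el μ)).toWord +
        cp (f (el (il μ))).toWord (f (el ν)).toWord < (f (el μ)).toWord.length)
    {η : Lt} {i : ℕ} (hR : ∀ μ, μ ≠ il η →
      i + 1 + cp (f (el (il η))).toWord (f (el μ)).toWord ≤ (f (el η)).toWord.length)
    (μ : Lt) (r : List Lt) (hr : FreeGroup.IsReduced (μ :: r)) :
    (f (el μ)).toWord.length ≤
      cp (f (FreeGroup.mk (μ :: r)) * FreeGroup.mk ((f (el η)).toWord.take i)).toWord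
        (f (el μ)).toWord +
        (match r with
          | [] => if μ = il η then i else cp (f (el (il μ))).toWord (f (el η)).toWord
          | μ2 :: _ => cp (f (el (il μ))).toWord (f (el μ2)).toWord) := by
  have h := Q3_main hN hR μ r hr
  cases r with
  | nil => exact h
  | cons μ2 r => exact h

end OK71
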