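import Pool.Agent.LibOK71.Q3

/-!
[OK71 Q4] (MEDIUM) the direction of the elements at a point of the image of a letter.
Write `z μ := (f (el μ)).toWord`, `n μ` its length, `i := u.length`, `u = take i (z η)`, `u ++ [ℓ]` is reduced (initial segment of `z η`). `dr (mk u) (f k) = fl ((mk u)⁻¹ * (f k * mk u))`, so by `pre_iff` it is `some ℓ` iff `u ++ [ℓ] <+: y.toWord`, `y := f k * mk u`. `k = mk (μ :: r)` reduced (`k ≠ 1`; `r` = tail of `k.toWord`), `fl k = some μ`.
`initial` gives `n μ ≤ cp y.toWord (z μ) + τ`, `τ = cp (z (il μ)) (z μ2)` if `r = μ2 :: _` (`μ2 ≠ il μ`), `τ = cp (z (il μ)) (z η)` if `r = []`, `μ ≠ il η`, `τ = i` if `r = []`, `μ = il η`.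
(b) If `μ ≠ η` then `cp (z μ) (z η) + τ < n μ`: for `r = μ2 :: _` this is `hN` for the three letters `il η, μ, μ2` (`μ ≠ il (il η)`; `cp (z (il (il η))) (z μ) = cp (z η) (z μ)`, `cp_comm`); for `r = []`, `μ ≠ il η` it is `hN` for `il η, μ, η`; for `r = []`, `μ = il η`: `hR` for the letter `η` (`η ≠ il η`): `i + 1 + cp (z (il η)) (z η) ≤ n η`.
(→) `u ++ [ℓ] <+: y.toWord` means `i + 1 ≤ cp y.toWord (z η)` (`le_cp_iff`, `z η = u ++ ℓ :: w`). If `μ = η` done (`u ++ [ℓ] <+: z η`). If `μ ≠ η`: `cp (z η) (z μ) < n μ - τ ≤ cp (z μ) y.toWord`, so (`cp_ultra`) `cp (z η) y.toWord = cp (z η) (z μ)`, hence `i + 1 ≤ cp (z η) (z μ)`, i.e. `u ++ [ℓ] <+: z μ`.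
(←) `u ++ [ℓ] <+: z μ`, i.e. `i + 1 ≤ cp (z η) (z μ)`. `μ = η`: `i + 1 + τ ≤ n η` (`hR` for the letter `μ2` if `r = μ2 :: _`, for `η` if `r = []`; `η ≠ il η`, so `τ ≠ i`), so `i + 1 ≤ cp y.toWord (z η)`. `μ ≠ η`: by (b) `cp (z η) (z μ) < cp (z μ) y.toWord`, so again `cp (z η) y.toWord = cp (z η) (z μ) ≥ i + 1`.
-/

set_option autoImplicit false

namespace OK71

variable {β : Type} [DecidableEq β]

private theorem Q4_ne (η : Lt) : η ≠ il η := fun h => il_ne η h.symm

private theorem Q4_ne' {η μ : Lt} (h : μ ≠ il η) : η ≠ il μ := by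
  intro h1
  apply h
  rw [h1, il_il]

private theorem Q4_tau {f : F2 →* FreeGroup β}
    (hN : ∀ η μ ν : Lt, μ ≠ il η → ν ≠ il μ →
      cp (f (el (il η))).toWord (f (el μ)).toWord +
        cp (f (el (il μ))).toWord (f (el ν)).toWord < (f (el μ)).toWord.length)
    {η : Lt} {u w : List (β × Bool)} {ℓ : β × Bool} (hz : (f (el η)).toWord = u ++ ℓ :: w)
    (hR : ∀ μ, μ ≠ il η → u.length + 1 + cp (f (el (il η))).toWord (f (el μ)).toWord ≤
      (f (el η)).toWord.length) {μ : Lt} {r : List Lt} (hr : FreeGroup.IsReduced (μ :: r)) :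
    ∃ τ : ℕ, (f (el μ)).toWord.length ≤
        cp (f (FreeGroup.mk (μ :: r)) * FreeGroup.mk u).toWord (f (el μ)).toWord + τ ∧
      (μ ≠ η → cp (f (el η)).toWord (f (el μ)).toWord + τ < (f (el μ)).toWord.length) ∧
      (μ = η → u.length + 1 + τ ≤ (f (el μ)).toWord.length) := by
  have htake : (f (el η)).toWord.take u.length = u := by rw [hz, List.take_left]
  have h1 := initial hN hR μ r hr
  rw [htake] at h1
  cases r with
  | nil =>
    dsimp only at h1
    by_cases hμ : μ = il η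
    · rw [if_pos hμ] at h1
      refine ⟨u.length, h1, fun _ => ?_, fun h => absurd (h.symm.trans hμ) (Q4_ne η)⟩
      have h2 := hR η (Q4_ne η)
      rw [hμ, len_inv, cp_comm]
      omega
    · rw [if_neg hμ] at h1
      refine ⟨_, h1, fun h => ?_, fun h => ?_⟩
      · have h2 := hN (il η) μ η (by rw [il_il]; exact h) (Q4_ne' hμ)
        rwa [il_il] at h2
      · rw [h]
        exact hR η (Q4_ne η)
  | cons μ2 r' =>
    dsimp only at h1
    have hμ2 : μ2 ≠ il μ := by
      intro h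
      exact (red_cons.1 hr).1 (by rw [h]; rfl)
    refine ⟨_, h1, fun h => ?_, fun h => ?_⟩
    · have h2 := hN (il η) μ μ2 (by rw [il_il]; exact h) hμ2
      rwa [il_il] at h2
    · rw [h]
      exact hR μ2 (by rw [← h]; exact hμ2)

private theorem Q4_pre {u w v : List (β × Bool)} {ℓ : β × Bool} :
    u ++ [ℓ] <+: v ↔ u.length + 1 ≤ cp v (u ++ ℓ :: w) := by
  have h0 : (u ++ ℓ :: w).take (u.length + 1) = u ++ [ℓ] := by
    have h1 : u ++ ℓ :: w = (u ++ [ℓ]) ++ w := by simp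
    rw [h1]
    exact List.take_left' (by simp)
  rw [le_cp_iff, h0, List.prefix_iff_eq_take]
  have h1 : (u ++ [ℓ]).length = u.length + 1 := by simp
  rw [h1]
  constructor
  · intro h
    refine ⟨?_, by simp, h.symm⟩
    have h2 := congrArg List.length h
    rw [h1, List.length_take] at h2
    omega
  · rintro ⟨-, -, h⟩
    exact h.symm

theorem orient {f : F2 →* FreeGroup β}
    (hN : ∀ η μ ν : Lt, μ ≠ il η → ν ≠ il μ →
      cp (f (el (il η))).toWord (f (el μ)).toWord +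
        cp (f (el (il μ))).toWord (f (el ν)).toWord < (f (el μ)).toWord.length)
    {η : Lt} {u w : List (β × Bool)} {ℓ : β × Bool} (hz : (f (el η)).toWord = u ++ ℓ :: w)
    (hR : ∀ μ, μ ≠ il η → u.length + 1 + cp (f (el (il η))).toWord (f (el μ)).toWord ≤
      (f (el η)).toWord.length) {k : F2} (hk : k ≠ 1) :
    dr (FreeGroup.mk u) (f k) = some ℓ ↔
      ∃ μ, fl k = some μ ∧ u ++ [ℓ] <+: (f (el μ)).toWord := by
  have hred : FreeGroup.IsReduced (u ++ [ℓ]) := by
    have h1 : FreeGroup.IsReduced (f (el η)).toWord := FreeGroup.isReduced_toWord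
    have h2 : u ++ ℓ :: w = (u ++ [ℓ]) ++ w := by simp
    rw [hz, h2] at h1
    exact (red_append.1 h1).1
  have hdr : dr (FreeGroup.mk u) (f k) = fl ((FreeGroup.mk u)⁻¹ * (f k * FreeGroup.mk u)) := by
    unfold dr
    rw [mul_assoc]
  rw [hdr, pre_iff hred]
  obtain ⟨μ, r, hk1⟩ : ∃ μ r, k.toWord = μ :: r := by
    cases hw : k.toWord with
    | nil => exact absurd (FreeGroup.toWord_eq_nil_iff.1 hw) hk
    | cons μ r => exact ⟨μ, r, rfl⟩
  have hr : FreeGroup.IsReduced (μ :: r) := hk1 ▸ FreeGroup.isReduced_toWord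
  have hk2 : k = FreeGroup.mk (μ :: r) := by
    rw [← hk1, FreeGroup.mk_toWord]
  have hfl : fl k = some μ := by
    rw [fl, hk1]
    rfl
  have hRHS : (∃ μ', fl k = some μ' ∧ u ++ [ℓ] <+: (f (el μ')).toWord) ↔
      u ++ [ℓ] <+: (f (el μ)).toWord := by
    constructor
    · rintro ⟨μ', h1, h2⟩
      rw [hfl, Option.some.injEq] at h1
      rw [h1]
      exact h2
    · intro h
      exact ⟨μ, hfl, h⟩
  obtain ⟨τ, h1, h2, h3⟩ := Q4_tau hN hz hR hr
  rw [hRHS, Q4_pre (w := w), Q4_pre (w := w), ← hz]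
  rw [← hk2] at h1
  by_cases hμ : μ = η
  · have h4 := h3 hμ
    subst hμ
    constructor
    · intro _
      have h5 : u.length + 1 ≤ (f (el μ)).toWord.length := by omega
      exact le_cp_iff.2 ⟨h5, h5, rfl⟩
    · intro _
      omega
  · have h4 := h2 hμ
    have h5 : cp (f (el η)).toWord (f (el μ)).toWord <
        cp (f (el μ)).toWord (f k * FreeGroup.mk u).toWord := by
      rw [cp_comm (f (el μ)).toWord]
      omega
    rw [cp_comm _ (f (el η)).toWord, cp_comm _ (f (el η)).toWord, cp_ultra h5]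

end OK71
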