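import Pool.Agent.LibOK71.B1
import Pool.Agent.LibOK71.B1r
import Pool.Agent.LibOK71.D5
import Pool.Agent.LibOK71.A1

/-!
[OK71 Q5] (MEDIUM) the standard orientations.
std_congr: clear. std_trans: `ψ.symm (g⁻¹ * k * g)`, `p' = ψ.symm g * p` (`dr_mul`), `g⁻¹ * k * g ≠ 1`. std_aut: `(χ.symm * …)`: take `ψ' = χ⁻¹ * ψ`-form with `ψ'.symm k = ψ.symm (χ k)`. std_not: first kind: `¬ dr p g = some a ↔ dr (p * el a) g = some A` (`dr_step`), and with `τ = sw * sg * sw` (`a ↦ a⁻¹`, `b ↦ b`): `fl (τ m) = some a ↔ fl m = some A` (letters are mapped to letters; `dr v (τ k) = fl (τ (τ⁻¹ v)⁻¹ …)`).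
Second kind: the complement of `{a, A}` is `{b, B}` (`k ≠ 1`), exchange by `sw`. (General lemma: for `w ∈ closure {sw, sg}` there is for each letter `ℓ` a letter `ℓ'` with `fl (w m) = some ℓ' ↔ fl m = some ℓ` for all `m`; `w (el ℓ) = el ℓ'`.)
std_two: `μ = η`: `w` with `w a = el η` (`w_ex`): `fl k = some η ↔ fl (w.symm k) = some a`, `p = 1` (`dr_one`). `μ = il η`: the same, second kind. Different indices: `w` with `w b = el η`, `w a = el (il μ)`: `fl k ∈ {η, μ} ↔ fl (w.symm k) ∈ {b, A} ↔ fl (lam.symm (w.symm k)) = some A` (`lam_A`), then `τ`.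
-/

set_option autoImplicit false

namespace OK71

/-- one of the two standard orientations of an edge by the elements -/
def Std (P : F2 → Prop) : Prop := ∃ (ψ : MulAut F2) (p : F2),
  (∀ k, k ≠ 1 → (P k ↔ dr p (ψ.symm k) = some (0, true))) ∨
    ∀ k, k ≠ 1 → (P k ↔ dr p (ψ.symm k) = some (0, true) ∨ dr p (ψ.symm k) = some (0, false))

private theorem Q5_el_inj {a b : Lt} (h : el a = el b) : a = b := by
  have h1 := congrArg FreeGroup.toWord h
  rw [el_toWord, el_toWord] at h1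
  exact List.singleton_injective h1

private theorem Q5_mk {w : MulAut F2} {τ : Lt → Lt} (hel : ∀ ℓ, w (el ℓ) = el (τ ℓ))
    (r : List Lt) : w (FreeGroup.mk r) = FreeGroup.mk (r.map τ) := by
  induction r with
  | nil =>
    rw [List.map_nil]
    exact map_one w
  | cons ℓ r ih => rw [List.map_cons, mk_cons, mk_cons, map_mul, ih, hel]

private theorem Q5_inj {w : MulAut F2} {τ : Lt → Lt} (hel : ∀ ℓ, w (el ℓ) = el (τ ℓ))
    {a b : Lt} (h : τ a = τ b) : a = b := by
  apply Q5_el_inj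
  apply w.injective
  rw [hel, hel, h]

private theorem Q5_il {w : MulAut F2} {τ : Lt → Lt} (hel : ∀ ℓ, w (el ℓ) = el (τ ℓ))
    (ℓ : Lt) : τ (il ℓ) = il (τ ℓ) := by
  apply Q5_el_inj
  rw [← hel, el_il, el_il, map_inv, hel]

private theorem Q5_red {w : MulAut F2} {τ : Lt → Lt} (hel : ∀ ℓ, w (el ℓ) = el (τ ℓ))
    {r : List Lt} (hr : FreeGroup.IsReduced r) : FreeGroup.IsReduced (r.map τ) := by
  unfold FreeGroup.IsReduced
  rw [List.isChain_map]
  refine List.IsChain.imp ?_ hr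
  intro a b hab
  rw [red_two] at hab ⊢
  intro h
  rw [← Q5_il hel] at h
  exact hab (Q5_inj hel h)

private theorem Q5_fl {w : MulAut F2} {τ : Lt → Lt} (hel : ∀ ℓ, w (el ℓ) = el (τ ℓ))
    (m : F2) : fl (w m) = (fl m).map τ := by
  have h2 : w m = FreeGroup.mk (m.toWord.map τ) := by
    rw [← Q5_mk hel, FreeGroup.mk_toWord]
  rw [h2, fl_mk (Q5_red hel FreeGroup.isReduced_toWord), List.head?_map]
  rfl

private theorem Q5_iff {w : MulAut F2} {τ : Lt → Lt} (hel : ∀ ℓ, w (el ℓ) = el (τ ℓ))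
    (m : F2) (x : Lt) : fl (w m) = some (τ x) ↔ fl m = some x := by
  rw [Q5_fl hel]
  constructor
  · intro h
    cases hm : fl m with
    | none => rw [hm] at h; simp at h
    | some y =>
      rw [hm, Option.map_some, Option.some.injEq] at h
      rw [Q5_inj hel h]
  · intro h
    rw [h]
    rfl

private theorem Q5_w {ℓ ℓ' : Lt} (h : ℓ.1 ≠ ℓ'.1) : ∃ w : MulAut F2,
    (∀ m, fl (w m) = some ℓ ↔ fl m = some (0, true)) ∧
    (∀ m, fl (w m) = some (il ℓ) ↔ fl m = some (0, false)) ∧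
    (∀ m, fl (w m) = some ℓ' ↔ fl m = some (1, true)) ∧
    (∀ m, fl (w m) = some (il ℓ') ↔ fl m = some (1, false)) := by
  obtain ⟨w, -, h0, h1⟩ := w_ex h
  have hex : ∀ x : Lt, ∃ y : Lt, w (el x) = el y := by
    rintro ⟨i, b⟩
    have hi : ∃ z : Lt, w (FreeGroup.of i) = el z := by
      rcases (show i = 0 ∨ i = 1 by omega) with rfl | rfl
      · exact ⟨ℓ, h0⟩
      · exact ⟨ℓ', h1⟩
    obtain ⟨z, hz⟩ := hi
    cases b with
    | true => exact ⟨z, by rw [el_true, hz]⟩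
    | false => exact ⟨il z, by rw [el_false, map_inv, hz, el_il]⟩
  choose τ hel using hex
  have e0 : τ (0, true) = ℓ := by
    apply Q5_el_inj
    rw [← hel, el_true, h0]
  have e1 : τ (1, true) = ℓ' := by
    apply Q5_el_inj
    rw [← hel, el_true, h1]
  have e0' : τ (0, false) = il ℓ := by
    have := Q5_il hel (0, true)
    rw [e0] at this
    exact this
  have e1' : τ (1, false) = il ℓ' := by
    have := Q5_il hel (1, true)
    rw [e1] at this
    exact this
  refine ⟨w, fun m => ?_, fun m => ?_, fun m => ?_, fun m => ?_⟩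
  · rw [← e0]; exact Q5_iff hel m _
  · rw [← e0']; exact Q5_iff hel m _
  · rw [← e1]; exact Q5_iff hel m _
  · rw [← e1']; exact Q5_iff hel m _

private theorem Q5_dr {w : MulAut F2} {x y : Lt} (h : ∀ m, fl (w m) = some y ↔ fl m = some x)
    (q m : F2) : dr (w q) (w m) = some y ↔ dr q m = some x := by
  have e : dr (w q) (w m) = fl (w (q⁻¹ * m * q)) := by
    rw [map_mul, map_mul, map_inv]
    rfl
  rw [e, h]
  rfl

private theorem Q5_ne {ψ : MulAut F2} {k : F2} (hk : k ≠ 1) : ψ.symm k ≠ 1 := by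
  intro h
  apply hk
  have h1 := congrArg ψ h
  rw [MulEquiv.apply_symm_apply, map_one] at h1
  exact h1

theorem std_congr {P Q : F2 → Prop} (h : ∀ k, k ≠ 1 → (P k ↔ Q k)) (hP : Std P) : Std Q := by
  obtain ⟨ψ, p, h1 | h1⟩ := hP
  · exact ⟨ψ, p, Or.inl fun k hk => (h k hk).symm.trans (h1 k hk)⟩
  · exact ⟨ψ, p, Or.inr fun k hk => (h k hk).symm.trans (h1 k hk)⟩

theorem std_trans {P : F2 → Prop} (g : F2) (hP : Std P) : Std fun k => P (g⁻¹ * k * g) := by
  obtain ⟨ψ, p, h1⟩ := hP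
  have hne : ∀ k : F2, k ≠ 1 → g⁻¹ * k * g ≠ 1 := by
    intro k hk h
    apply hk
    have h2 : k = g * (g⁻¹ * k * g) * g⁻¹ := by group
    rw [h2, h]
    group
  have he : ∀ k, dr p (ψ.symm (g⁻¹ * k * g)) = dr (ψ.symm g * p) (ψ.symm k) := by
    intro k
    rw [dr_mul, map_mul, map_mul, map_inv]
  rcases h1 with h1 | h1
  · refine ⟨ψ, ψ.symm g * p, Or.inl fun k hk => ?_⟩
    have h2 := h1 _ (hne k hk)
    rw [he] at h2
    exact h2
  · refine ⟨ψ, ψ.symm g * p, Or.inr fun k hk => ?_⟩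
    have h2 := h1 _ (hne k hk)
    rw [he] at h2
    exact h2

theorem std_aut {P : F2 → Prop} (χ : MulAut F2) (hP : Std P) : Std fun k => P (χ k) := by
  obtain ⟨ψ, p, h1⟩ := hP
  have hne : ∀ k : F2, k ≠ 1 → χ k ≠ 1 := by
    intro k hk h
    apply hk
    apply χ.injective
    rw [h, map_one]
  have he : ∀ k, (χ⁻¹ * ψ : MulAut F2).symm k = ψ.symm (χ k) := fun k => rfl
  rcases h1 with h1 | h1
  · refine ⟨χ⁻¹ * ψ, p, Or.inl fun k hk => ?_⟩
    rw [he]
    exact h1 _ (hne k hk)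
  · refine ⟨χ⁻¹ * ψ, p, Or.inr fun k hk => ?_⟩
    rw [he]
    exact h1 _ (hne k hk)

private theorem Q5_cases (o : Option Lt) : o = none ∨ o = some (0, true) ∨ o = some (0, false) ∨
    o = some (1, true) ∨ o = some (1, false) := by
  rcases o with _ | ⟨i, b⟩
  · exact Or.inl rfl
  · rcases (show i = 0 ∨ i = 1 by omega) with rfl | rfl <;> cases b <;> simp

theorem std_not {P : F2 → Prop} (hP : Std P) : Std fun k => ¬ P k := by
  obtain ⟨ψ, p, h1 | h1⟩ := hP
  · obtain ⟨w, -, hw, -, -⟩ := Q5_w (ℓ := ((0 : Fin 2), false)) (ℓ' := (1, true)) (by decide)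
    refine ⟨ψ * w⁻¹, w (p * el (0, true)), Or.inl fun k hk => ?_⟩
    have he : (ψ * w⁻¹ : MulAut F2).symm k = w (ψ.symm k) := rfl
    have hw' : ∀ m, fl (w m) = some (0, true) ↔ fl m = some (0, false) := hw
    show ¬ P k ↔ _
    rw [he, Q5_dr hw', h1 k hk]
    exact (dr_step (Q5_ne hk) p (0, true)).symm
  · obtain ⟨w, -, -, hw, hw2⟩ := Q5_w (ℓ := ((1 : Fin 2), true)) (ℓ' := (0, true)) (by decide)
    refine ⟨ψ * w⁻¹, w p, Or.inr fun k hk => ?_⟩
    have he : (ψ * w⁻¹ : MulAut F2).symm k = w (ψ.symm k) := rfl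
    have hw' : ∀ m, fl (w m) = some (0, false) ↔ fl m = some (1, false) := hw2
    show ¬ P k ↔ _
    rw [he, Q5_dr hw, Q5_dr hw', h1 k hk]
    have hn : dr p (ψ.symm k) ≠ none := fun h => Q5_ne hk (dr_none.1 h)
    rcases Q5_cases (dr p (ψ.symm k)) with h | h | h | h | h
    · exact absurd h hn
    · rw [h]; simp
    · rw [h]; simp
    · rw [h]; simp
    · rw [h]; simp

theorem std_two (η μ : Lt) : Std fun k => fl k = some η ∨ fl k = some μ := by
  by_cases hidx : η.1 = μ.1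
  · have hother : η.1 ≠ ((1 - η.1, true) : Lt).1 := by
      show η.1 ≠ 1 - η.1
      rcases (show η.1 = 0 ∨ η.1 = 1 by omega) with h | h <;> rw [h] <;> decide
    obtain ⟨w, hw, hw2, -, -⟩ := Q5_w hother
    have e1 : ∀ k, fl k = some η ↔ dr 1 (w.symm k) = some (0, true) := by
      intro k
      rw [dr_one, ← hw, MulEquiv.apply_symm_apply]
    have e2 : ∀ k, fl k = some (il η) ↔ dr 1 (w.symm k) = some (0, false) := by
      intro k
      rw [dr_one, ← hw2, MulEquiv.apply_symm_apply]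
    by_cases hb : η.2 = μ.2
    · have h : μ = η := Prod.ext hidx.symm hb.symm
      subst h
      refine ⟨w, 1, Or.inl fun k _ => ?_⟩
      show fl k = some μ ∨ fl k = some μ ↔ _
      rw [← e1, or_self]
    · have h : μ = il η := by
        refine Prod.ext hidx.symm ?_
        show μ.2 = !η.2
        cases h1 : η.2 <;> cases h2 : μ.2 <;> simp_all
      subst h
      refine ⟨w, 1, Or.inr fun k _ => ?_⟩
      rw [← e1, ← e2]
  · obtain ⟨w, -, hw2, hw, -⟩ := Q5_w (ℓ := il μ) (ℓ' := η) (Ne.symm hidx)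
    rw [il_il] at hw2
    obtain ⟨u, -, hu, -, -⟩ := Q5_w (ℓ := ((0 : Fin 2), false)) (ℓ' := (1, true)) (by decide)
    have hu' : ∀ m, fl (u m) = some (0, true) ↔ fl m = some (0, false) := hu
    refine ⟨w * lam * u⁻¹, 1, Or.inl fun k _ => ?_⟩
    have he : (w * lam * u⁻¹ : MulAut F2).symm k = u (lam.symm (w.symm k)) := rfl
    rw [dr_one, he, hu', lam_A, ← hw, ← hw2, MulEquiv.apply_symm_apply]

end OK71
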