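import Pool.Agent.LibOK71.Q2
import Pool.Agent.LibOK71.Q4
import Pool.Agent.LibOK71.Q5

/-!
[OK71 Q6] (MEDIUM) the edges on the left part of the image of a letter.
`Λ := {μ | u ++ [ℓ] <+: z μ}` contains `η`; all its members have the same first letter `s` (the first letter of `u ++ [ℓ]`), so by `three` it does not contain three different letters: there is `μ0` with `μ ∈ Λ ↔ μ = η ∨ μ = μ0` for all `μ` (if `Λ = {η}` take `μ0 = η`). `orient` (with `hN` from `N2`): `dr (mk u) (f k) = some ℓ ↔ fl k = some η ∨ fl k = some μ0`; `std_two`, `std_congr`.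
-/

set_option autoImplicit false

namespace OK71

variable {β : Type} [DecidableEq β]

theorem left_edge {f : F2 →* FreeGroup β} (hf : Min f) (hi : Function.Injective f)
    {η : Lt} {u w : List (β × Bool)} {ℓ : β × Bool} (hz : (f (el η)).toWord = u ++ ℓ :: w)
    (hR : ∀ μ, μ ≠ il η → u.length + 1 + cp (f (el (il η))).toWord (f (el μ)).toWord ≤
      (f (el η)).toWord.length) :
    Std fun k => dr (FreeGroup.mk u) (f k) = some ℓ := by
  have hN : ∀ η μ ν : Lt, μ ≠ il η → ν ≠ il μ →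
      cp (f (el (il η))).toWord (f (el μ)).toWord +
        cp (f (el (il μ))).toWord (f (el ν)).toWord < (f (el μ)).toWord.length :=
    fun η μ ν h1 h2 => N2 hf hi h1 h2
  obtain ⟨s, hs⟩ : ∃ s, (u ++ [ℓ]).head? = some s := by
    cases u with
    | nil => exact ⟨ℓ, rfl⟩
    | cons a u => exact ⟨a, rfl⟩
  have hfl : ∀ μ : Lt, u ++ [ℓ] <+: (f (el μ)).toWord → fl (f (el μ)) = some s := by
    rintro μ ⟨v, hv⟩
    unfold fl
    rw [← hv, List.head?_append, hs]
    rfl
  have hη : u ++ [ℓ] <+: (f (el η)).toWord := ⟨w, by rw [hz]; simp⟩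
  obtain ⟨μ0, hμ0⟩ : ∃ μ0 : Lt, ∀ μ : Lt, u ++ [ℓ] <+: (f (el μ)).toWord ↔ μ = η ∨ μ = μ0 := by
    by_cases hex : ∃ μ0 : Lt, μ0 ≠ η ∧ u ++ [ℓ] <+: (f (el μ0)).toWord
    · obtain ⟨μ0, hne, hμ0⟩ := hex
      refine ⟨μ0, fun μ => ⟨fun hμ => ?_, ?_⟩⟩
      · by_contra hcon
        rw [not_or] at hcon
        exact three hf hne.symm (Ne.symm hcon.1) (Ne.symm hcon.2) (hfl η hη) (hfl μ0 hμ0) (hfl μ hμ)
      · rintro (rfl | rfl)
        · exact hη
        · exact hμ0
    · refine ⟨η, fun μ => ⟨fun hμ => ?_, ?_⟩⟩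
      · by_contra hcon
        rw [not_or] at hcon
        exact hex ⟨μ, hcon.1, hμ⟩
      · rintro (rfl | rfl)
        · exact hη
        · exact hη
  refine std_congr (P := fun k => fl k = some η ∨ fl k = some μ0) (fun k hk => ?_) (std_two η μ0)
  rw [orient hN hz hR hk]
  constructor
  · rintro (h | h)
    · exact ⟨η, h, hη⟩
    · exact ⟨μ0, h, (hμ0 μ0).2 (Or.inr rfl)⟩
  · rintro ⟨μ, h, hμ⟩
    rcases (hμ0 μ).1 hμ with rfl | rfl
    · exact Or.inl h
    · exact Or.inr h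

end OK71
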