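import Pool.Agent.LibOK71.Q6

/-!
[OK71 Q7] (MEDIUM) all the edges on the image of a letter.
If `hR` of `left_edge` holds: done. Otherwise there is `μ ≠ il η` with `u.length + 1 + cp (z (il η)) (z μ) > n η`. Then the reversed edge, translated by `f (el η)⁻¹`, is on `z (il η)`: `z (il η) = invRev w ++ il ℓ :: invRev u` (toWord_inv, invRev_append, invRev_cons), `u' := invRev w`, `|u'| = n η - 1 - |u| < cp (z (il η)) (z μ)`, and `hR` holds for `il η`, `u'`: for every `ν ≠ il (il η) = η`, `N2` for the letters `il μ, il η, ν`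
(`il η ≠ il (il μ) = μ`, `ν ≠ il (il η)`): `cp (z (il (il μ))) (z (il η)) + cp (z (il (il η))) (z ν) < n (il η)`, i.e. `cp (z μ) (z (il η)) + cp (z η) (z ν) < n`; so `|u'| + 1 + cp (z η) (z ν) ≤ n` . `left_edge` gives `Std fun k => dr (mk u') (f k) = some (il ℓ)`; with `mk u' = (f (el η))⁻¹ * (mk u * el ℓ)`: `std_trans (el η)`-form: `dr (mk u') (f ((el η)⁻¹ * k * el η)) = dr (mk u * el ℓ) (f k)` (`dr_mul`), and
`dr (mk u * el ℓ) (f k) = some (il ℓ) ↔ ¬ dr (mk u) (f k) = some ℓ` (`dr_step`, `f k ≠ 1` by injectivity); `std_not`.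
-/

set_option autoImplicit false

namespace OK71

variable {β : Type} [DecidableEq β]

theorem any_edge {f : F2 →* FreeGroup β} (hf : Min f) (hi : Function.Injective f)
    {η : Lt} {u w : List (β × Bool)} {ℓ : β × Bool}
    (hz : (f (el η)).toWord = u ++ ℓ :: w) :
    Std fun k => dr (FreeGroup.mk u) (f k) = some ℓ := by
  by_cases hR : ∀ μ, μ ≠ il η →
      u.length + 1 + cp (f (el (il η))).toWord (f (el μ)).toWord ≤ (f (el η)).toWord.length
  · exact left_edge hf hi hz hR
  · push Not at hR
    obtain ⟨μ, hμ, hlt⟩ := hR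
    have hinv : f (el (il η)) = (f (el η))⁻¹ := by rw [el_il, map_inv]
    have hz' : (f (el (il η))).toWord = FreeGroup.invRev w ++ il ℓ :: FreeGroup.invRev u := by
      rw [hinv, FreeGroup.toWord_inv, hz, invRev_append, invRev_cons]
      simp
    have hn : (f (el η)).toWord.length = u.length + 1 + w.length := by
      rw [hz]
      simp
      omega
    have hn' : (f (el (il η))).toWord.length = u.length + 1 + w.length := by
      rw [hz']
      simp
      omega
    have hP : Std fun k => dr (FreeGroup.mk (FreeGroup.invRev w)) (f k) = some (il ℓ) := by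
      refine left_edge hf hi hz' ?_
      intro ν hν
      have h1 := N2 hf hi (η := il μ) (μ := il η) (ν := ν)
        (by rw [il_il]; exact fun h => hμ h.symm) hν
      rw [il_il μ] at h1
      rw [cp_comm (f (el μ)).toWord] at h1
      rw [FreeGroup.invRev_length]
      omega
    refine std_congr ?_ (std_not (std_trans (el η) hP))
    intro k hk
    have hfk : f k ≠ 1 := fun h => hk (hi (by rw [h, map_one]))
    have h2 : f (el η) = FreeGroup.mk u * el ℓ * FreeGroup.mk w := by
      rw [← FreeGroup.mk_toWord (x := f (el η)), hz, mk_append, mk_cons, mul_assoc]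
    have h3 : f (el η) * FreeGroup.mk (FreeGroup.invRev w) = FreeGroup.mk u * el ℓ := by
      rw [h2, ← FreeGroup.inv_mk]
      group
    have h4 : dr (FreeGroup.mk (FreeGroup.invRev w)) (f ((el η)⁻¹ * k * el η)) =
        dr (FreeGroup.mk u * el ℓ) (f k) := by
      rw [← h3, dr_mul, map_mul, map_mul, map_inv]
    rw [h4, dr_step hfk]
    exact not_not

end OK71
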