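import Pool.Agent.LibOK71.Q7
import Pool.Agent.LibOK71.A6
import Pool.Agent.LibOK71.F1

/-!
[OK71 Q8] (MEDIUM) classification of the edges of the tree of an embedding.
`ex_min`: `f k = q⁻¹ * ι (ψ k) * q`, `Min f`, `f` injective. `dr v (ι k) = dr (q⁻¹ * v) (f (ψ⁻¹ k))` (`dr_mul`), so (`std_aut`) it is enough to treat `f` and `v' = q⁻¹ * v`: `E f.range v' ℓ` (`M_conj`-like; or prove the theorem for `Min f` first and transfer `M` by hand: `g ∈ ι.range ↔ q⁻¹ g q ∈ f.range`).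
For `f`: `lift_E`: `g ∈ f.range`, `g.toWord = u1 ++ ℓ :: v1`, `mk u1 * v'⁻¹ ∈ f.range`. `f.range = closure {s | s ∈ [f (of 0), f (of 1)]}` (`FreeGroup.closure_range_of`, `MonoidHom.map_closure`/`FreeGroup.induction_on`). `edge_gen`: `s = f (el η)` for some letter `η` (`s` or `s⁻¹` is `f (of i)`; `el (i, true)`, `el (i, false)`), `s.toWord = u' ++ ℓ :: w`, `mk u1 * (mk u')⁻¹ ∈ f.range`.
So `v' = f g' * mk u'` for some `g'`, and `dr v' (f k) = dr (mk u') (f (g'⁻¹ * k * g'))` (`dr_mul`): `any_edge`, `std_trans`.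
-/

set_option autoImplicit false

namespace OK71

variable {β : Type} [DecidableEq β]

private theorem Q8_range (f : F2 →* FreeGroup β) :
    f.range = Subgroup.closure {s | s ∈ [f (FreeGroup.of 0), f (FreeGroup.of 1)]} := by
  have h1 : (⊤ : Subgroup F2) = Subgroup.closure (Set.range FreeGroup.of) :=
    (FreeGroup.closure_range_of (Fin 2)).symm
  rw [MonoidHom.range_eq_map, h1, MonoidHom.map_closure]
  congr 1
  ext z
  simp only [Set.mem_image, Set.mem_range, List.mem_cons, List.not_mem_nil, or_false,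
    Set.mem_setOf_eq]
  constructor
  · rintro ⟨x, ⟨i, rfl⟩, rfl⟩
    fin_cases i
    · exact Or.inl rfl
    · exact Or.inr rfl
  · rintro (h | h)
    · exact ⟨_, ⟨0, rfl⟩, h.symm⟩
    · exact ⟨_, ⟨1, rfl⟩, h.symm⟩

private theorem Q8_letter (f : F2 →* FreeGroup β) {s : FreeGroup β}
    (h : s ∈ [f (FreeGroup.of 0), f (FreeGroup.of 1)] ∨
      s⁻¹ ∈ [f (FreeGroup.of 0), f (FreeGroup.of 1)]) : ∃ η : Lt, s = f (el η) := by
  simp only [List.mem_cons, List.not_mem_nil, or_false] at h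
  rcases h with (h | h) | (h | h)
  · exact ⟨(0, true), by rw [el_true]; exact h⟩
  · exact ⟨(1, true), by rw [el_true]; exact h⟩
  · exact ⟨(0, false), by rw [el_false, map_inv, ← h, inv_inv]⟩
  · exact ⟨(1, false), by rw [el_false, map_inv, ← h, inv_inv]⟩

private theorem Q8_min {f : F2 →* FreeGroup β} (hf : Min f) (hi : Function.Injective f)
    {v : FreeGroup β} {ℓ : β × Bool} (h : E f.range v ℓ) :
    Std fun k => dr v (f k) = some ℓ := by
  obtain ⟨g, hg, u1, v1, hw, hm⟩ := lift_E h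
  rw [Q8_range] at hg
  obtain ⟨s, hs, u', v', hs', hm'⟩ := edge_gen hg hw
  rw [← Q8_range] at hm'
  obtain ⟨η, rfl⟩ := Q8_letter f hs
  have hmem : v * (FreeGroup.mk u')⁻¹ ∈ f.range := by
    have h1 := f.range.mul_mem (f.range.inv_mem hm) hm'
    have h2 : (FreeGroup.mk u1 * v⁻¹)⁻¹ * (FreeGroup.mk u1 * (FreeGroup.mk u')⁻¹) =
        v * (FreeGroup.mk u')⁻¹ := by group
    rwa [h2] at h1
  obtain ⟨g', hg'⟩ := hmem
  have hv : v = f g' * FreeGroup.mk u' := by rw [hg']; group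
  refine std_congr (fun k _ => ?_) (std_trans g' (any_edge hf hi hs'))
  rw [hv, dr_mul, map_mul, map_mul, map_inv]

theorem classify {ι : F2 →* FreeGroup β} (hi : Function.Injective ι) {v : FreeGroup β}
    {ℓ : β × Bool} (h : E ι.range v ℓ) : Std fun k => dr v (ι k) = some ℓ := by
  obtain ⟨ψ, q, f, hf, hmin⟩ := ex_min ι
  have hfi : Function.Injective f := by
    intro a b hab
    rw [hf, hf] at hab
    exact ψ.injective (hi (mul_left_cancel (mul_right_cancel hab)))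
  have hM : ∀ ℓ', M ι.range v ℓ' → M f.range (q⁻¹ * v) ℓ' := by
    rintro ℓ' ⟨k, ⟨m, rfl⟩, hk⟩
    refine ⟨f (ψ.symm m), ⟨_, rfl⟩, ?_⟩
    rw [hf, ψ.apply_symm_apply, dr_mul]
    rw [← hk]
    congr 1
    group
  have hE : E f.range (q⁻¹ * v) ℓ := by
    refine ⟨hM ℓ h.1, ?_⟩
    obtain ⟨a, b, hab, ha, hb⟩ := h.2
    exact ⟨a, b, hab, hM a ha, hM b hb⟩
  refine std_congr (fun k _ => ?_) (std_aut ψ.symm (Q8_min hmin hfi hE))
  have h1 : dr (q⁻¹ * v) (f (ψ.symm k)) = dr v (ι k) := by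
    rw [hf, ψ.apply_symm_apply, dr_mul]
    congr 1
    group
  rw [h1]

end OK71
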