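import Pool.Agent.LibOK71.Q8
import Pool.Agent.LibOK71.P0

/-!
[OK71 Q9] (MEDIUM) all embeddings.
Let `E (K.map ι) v ℓ`. Then `E ι.range v ℓ` (M_mono, Co_mono, `K.map ι ≤ ι.range`), `classify`: `ψ`, `p`. `M (G.map ι) v ℓ ↔ ∃ k ∈ G, k ≠ 1 ∧ dr v (ι k) = some ℓ`, and `E G' v ℓ ↔ M G' v ℓ ∧ ∃ k ∈ G', k ≠ 1 ∧ dr v k ≠ some ℓ` (Co_other, Co_of).
First kind: `E (G.map ι) (ι c * v) ℓ ↔ E (pb ψ G) (ψ.symm c * p) (0, true)` for all `c : F2` and `G` (`dr (ι c * v) (ι k) = dr v (ι (c⁻¹ * k * c))`, `dr_mul`; `k ∈ G ↔ ψ.symm k ∈ pb ψ G`); so `h1 ψ (0, true)` at `p` gives `c' ∈ pb ψ K`, take `c = ι (ψ c')`. Second kind: `E (G.map ι) (ι c * v) ℓ ↔ SE (pb ψ G) (ψ.symm c * p)`, `h2 ψ`.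
-/

set_option autoImplicit false

namespace OK71

variable {β : Type} [DecidableEq β]

section Q9

private theorem Q9_E0 {α : Type} [DecidableEq α] {G : Subgroup (FreeGroup α)} {u : FreeGroup α}
    {ℓ : α × Bool} : E G u ℓ ↔ (∃ k ∈ G, k ≠ 1 ∧ dr u k = some ℓ) ∧
      ∃ k ∈ G, k ≠ 1 ∧ ¬ dr u k = some ℓ := by
  constructor
  · rintro ⟨⟨k, hk, hd⟩, hC⟩
    refine ⟨⟨k, hk, ?_, hd⟩, Co_other hC (some ℓ)⟩
    rintro rfl
    rw [dr_none.2 rfl] at hd
    simp at hd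
  · rintro ⟨⟨k, hk, -, hd⟩, ⟨k', hk', h1, hd'⟩⟩
    exact ⟨⟨k, hk, hd⟩, Co_of ⟨k, hk, hd⟩ hk' h1 hd'⟩

private theorem Q9_SE {G : Subgroup F2} {u : F2} :
    SE G u ↔ (∃ k ∈ G, k ≠ 1 ∧ (dr u k = some (0, true) ∨ dr u k = some (0, false))) ∧
      ∃ k ∈ G, k ≠ 1 ∧ ¬ (dr u k = some (0, true) ∨ dr u k = some (0, false)) := by
  constructor
  · rintro ⟨⟨s, k, hk, hd⟩, ⟨s', k', hk', hd'⟩⟩
    refine ⟨⟨k, hk, ?_, ?_⟩, ⟨k', hk', ?_, ?_⟩⟩
    · rintro rfl
      rw [dr_none.2 rfl] at hd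
      simp at hd
    · cases s
      · exact Or.inr hd
      · exact Or.inl hd
    · rintro rfl
      rw [dr_none.2 rfl] at hd'
      simp at hd'
    · rw [hd']
      simp
  · rintro ⟨⟨k, hk, -, hd⟩, ⟨k', hk', h1, hd'⟩⟩
    refine ⟨?_, ?_⟩
    · rcases hd with hd | hd
      · exact ⟨true, k, hk, hd⟩
      · exact ⟨false, k, hk, hd⟩
    · cases h2 : dr u k' with
      | none => exact absurd (dr_none.1 h2) h1
      | some ℓ =>
        obtain ⟨i, s⟩ := ℓ
        refine ⟨s, k', hk', ?_⟩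
        rw [h2]
        have hi : i = 1 := by
          by_contra hi
          have hi0 : i = 0 := by omega
          apply hd'
          rw [h2, hi0]
          cases s
          · exact Or.inr rfl
          · exact Or.inl rfl
        rw [hi]

private theorem Q9_ex {ι : F2 →* FreeGroup β} (hi : Function.Injective ι) {v : FreeGroup β}
    {ψ : MulAut F2} {p : F2} {R : Option (β × Bool) → Prop} {R' : Option Lt → Prop}
    (h : ∀ k, k ≠ 1 → (R (dr v (ι k)) ↔ R' (dr p (ψ.symm k)))) (G : Subgroup F2) (c : F2) :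
    (∃ k ∈ G.map ι, k ≠ 1 ∧ R (dr (ι c * v) k)) ↔
      ∃ k ∈ pb ψ G, k ≠ 1 ∧ R' (dr (ψ.symm c * p) k) := by
  have key : ∀ g : F2, g ≠ 1 → (R (dr (ι c * v) (ι g)) ↔ R' (dr (ψ.symm c * p) (ψ.symm g))) := by
    intro g hg
    have h1 : c⁻¹ * g * c ≠ 1 := by
      intro h0
      apply hg
      have h2 : g = c * (c⁻¹ * g * c) * c⁻¹ := by group
      rw [h2, h0]
      group
    have h3 := h _ h1
    rw [dr_mul, dr_mul]
    rw [map_mul, map_mul, map_inv] at h3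
    rw [map_mul, map_mul, map_inv] at h3
    exact h3
  constructor
  · rintro ⟨k, hk, hk1, hR⟩
    obtain ⟨g, hg, rfl⟩ := hk
    have hg1 : g ≠ 1 := by
      rintro rfl
      exact hk1 (map_one ι)
    refine ⟨ψ.symm g, ?_, ?_, (key g hg1).1 hR⟩
    · rw [mem_pb, MulEquiv.apply_symm_apply]
      exact hg
    · intro h0
      apply hg1
      have h2 : g = ψ (ψ.symm g) := (MulEquiv.apply_symm_apply ψ g).symm
      rw [h2, h0, map_one]
  · rintro ⟨k, hk, hk1, hR⟩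
    have hg1 : ψ k ≠ 1 := by
      intro h0
      apply hk1
      exact ψ.injective (h0.trans (map_one ψ).symm)
    refine ⟨ι (ψ k), ⟨ψ k, hk, rfl⟩, ?_, ?_⟩
    · intro h0
      exact hg1 (hi (h0.trans (map_one ι).symm))
    · rw [key _ hg1, MulEquiv.symm_apply_apply]
      exact hR

end Q9

theorem Go_embed {ι : F2 →* FreeGroup β} (hi : Function.Injective ι) {H K : Subgroup F2}
    (h1 : ∀ (ψ : MulAut F2) (ℓ : Lt), Go (pb ψ H) (pb ψ K) ℓ)
    (h2 : ∀ ψ : MulAut F2, GoS (pb ψ H) (pb ψ K)) (ℓ : β × Bool) :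
    Go (H.map ι) (K.map ι) ℓ := by
  intro v hE
  have hr : E ι.range v ℓ := by
    have hle : K.map ι ≤ ι.range := Subgroup.map_le_range ι K
    exact ⟨M_mono hle hE.1, Co_mono hle hE.2⟩
  obtain ⟨ψ, p, hk | hk⟩ := classify hi hr
  · have key : ∀ (G : Subgroup F2) (c : F2),
        E (G.map ι) (ι c * v) ℓ ↔ E (pb ψ G) (ψ.symm c * p) (0, true) := by
      intro G c
      rw [Q9_E0, Q9_E0]
      exact and_congr (Q9_ex hi (R := fun o => o = some ℓ) (R' := fun o => o = some (0, true)) hk G c)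
        (Q9_ex hi (R := fun o => ¬ o = some ℓ) (R' := fun o => ¬ o = some (0, true))
          (fun k hk1 => not_congr (hk k hk1)) G c)
    have h3 : E (pb ψ K) p (0, true) := by
      have h4 := (key K 1).1 (by rw [map_one, one_mul]; exact hE)
      rwa [map_one, one_mul] at h4
    obtain ⟨c, hc, h5⟩ := h1 ψ (0, true) p h3
    refine ⟨ι (ψ c), ⟨ψ c, hc, rfl⟩, ?_⟩
    rw [key, MulEquiv.symm_apply_apply]
    exact h5
  · have key : ∀ (G : Subgroup F2) (c : F2),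
        E (G.map ι) (ι c * v) ℓ ↔ SE (pb ψ G) (ψ.symm c * p) := by
      intro G c
      rw [Q9_E0, Q9_SE]
      exact and_congr (Q9_ex hi (R := fun o => o = some ℓ)
          (R' := fun o => o = some (0, true) ∨ o = some (0, false)) hk G c)
        (Q9_ex hi (R := fun o => ¬ o = some ℓ)
          (R' := fun o => ¬ (o = some (0, true) ∨ o = some (0, false)))
          (fun k hk1 => not_congr (hk k hk1)) G c)
    have h3 : SE (pb ψ K) p := by
      have h4 := (key K 1).1 (by rw [map_one, one_mul]; exact hE)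
      rwa [map_one, one_mul] at h4
    obtain ⟨c, hc, h5⟩ := h2 ψ p h3
    refine ⟨ι (ψ c), ⟨ψ c, hc, rfl⟩, ?_⟩
    rw [key, MulEquiv.symm_apply_apply]
    exact h5

end OK71
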