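import Pool.Agent.LibOK71.P0
import Pool.Agent.LibOK71.A2

/-!
[OK71 R1] (MEDIUM) the embedding `a ↦ X`, `b ↦ t⁻¹ Y t`.
Basic lemma: by induction on a reduced word `r` (`k = mk r`): `r = []` or `(f3 (mk r)).toWord` begins with `(0, s)` if `r` begins with `(0, s)`, and with `(2, false) :: (1, s)` if `r` begins with `(1, s)`. Step `ℓ :: r'`: `ℓ = (0, s)`: the image of `r'` does not begin with `(0, !s)`: `toWord_el_mul`. `ℓ = (1, s)`: `f3 (el ℓ) = t⁻¹ Y^s t`; the image `m` of `r'` is `1` or begins with `(0, _)`: no cancellation (`toWord_el_mul` three times), or `r'` begins with `(1, s)` (not `(1, !s)`): `m.toWord = (2, false) :: (1, s) :: q`,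
`t * m` has the word `(1, s) :: q`, then `Y^s * …` and `t⁻¹ * …` without cancellation. f3_fl0, f3_fl2 follow (the cases exclude each other). f3_fl1: with `m = f3 k`: `fl (t * m * t⁻¹)`: if `fl k = (1, s)`: `t * m` has the word `(1, s) :: q`, and multiplication with `t⁻¹` on the right cancels at most one letter `(2, true)` at its end, which is not the first letter `(1, s)`; if `fl k = (0, s)`: `t * m` has the word `(2, true) :: (0, s) :: q`, the first letter stays `(2, true)`; `k = 1`: `1`.
f3_inj: `f3 k = 1` implies `fl (f3 k) = none`, `fl k` is none. f3_len: each letter goes to at most three letters. E_f3_0: `dr (f3 v) (f3 k) = fl (f3 (v⁻¹ * k * v))`, `E G v ℓ ↔ M G v ℓ ∧ ∃ k ∈ G, k ≠ 1 ∧ dr v k ≠ some ℓ` (Co_other, Co_of). E_f3_1: `dr (f3 v * t⁻¹) (f3 k) = fl (t * f3 (v⁻¹ * k * v) * t⁻¹)`. E_f3_2: `fl (f3 m) = some (2, false) ↔ fl m ∈ {b, B}`;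
so `E (G.map f3) (f3 v) (2, false)` iff some `k ∈ G` has direction in `{b, B}` at `v` and some `k ∈ G`, `k ≠ 1`, not (then in `{a, A}`). Go_of_f3: for `c ∈ K.map f3`, `c = f3 c'`, `c * f3 v = f3 (c' * v)`.
-/

set_option autoImplicit false

namespace OK71

/-- `a ↦ X`, `b ↦ t⁻¹ Y t` where `X, Y, t` is the basis of the free group of rank 3 -/
def f3 : F2 →* FreeGroup (Fin 3) :=
  FreeGroup.lift ![FreeGroup.of 0, (FreeGroup.of 2)⁻¹ * FreeGroup.of 1 * FreeGroup.of 2]

private theorem R1_of0 : f3 (FreeGroup.of 0) = FreeGroup.of 0 := by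
  simp [f3]

private theorem R1_of1 : f3 (FreeGroup.of 1) =
    (FreeGroup.of 2)⁻¹ * FreeGroup.of 1 * FreeGroup.of 2 := by
  simp [f3]

private theorem R1_el0 (s : Bool) : f3 (el (0, s)) = el (0, s) := by
  cases s with
  | true => rw [el_true, el_true, R1_of0]
  | false => rw [el_false, el_false, map_inv, R1_of0]

private theorem R1_el1 (s : Bool) : f3 (el (1, s)) = el (2, false) * el (1, s) * el (2, true) := by
  cases s with
  | true => rw [el_true, el_true, el_true, el_false, R1_of1]
  | false =>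
    rw [el_false, el_false, el_false, el_true, map_inv, R1_of1]
    group

private theorem R1_y {s : Bool} {n : FreeGroup (Fin 3)} (h : fl n ≠ some (il (1, s))) :
    (el (2, false) * (el (1, s) * n)).toWord = (2, false) :: (1, s) :: n.toWord := by
  have h1 : (el (1, s) * n).toWord = (1, s) :: n.toWord := toWord_el_mul h
  have h2 : fl (el (1, s) * n) ≠ some (il (2, false)) := by
    rw [fl, h1]
    simp [il]
  rw [toWord_el_mul h2, h1]

private theorem R1_base (r : List Lt) (hr : FreeGroup.IsReduced r) :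
    (r = [] → f3 (FreeGroup.mk r) = 1) ∧
    (∀ s, r.head? = some (0, s) → fl (f3 (FreeGroup.mk r)) = some (0, s)) ∧
    ∀ s, r.head? = some (1, s) → ∃ q, (f3 (FreeGroup.mk r)).toWord = (2, false) :: (1, s) :: q := by
  induction r with
  | nil =>
    refine ⟨fun _ => ?_, fun s h => ?_, fun s h => ?_⟩
    · rw [← FreeGroup.one_eq_mk, map_one]
    · simp at h
    · simp at h
  | cons ℓ r ih =>
    rw [red_cons] at hr
    obtain ⟨ih1, ih2, ih3⟩ := ih hr.2
    have hm : f3 (FreeGroup.mk (ℓ :: r)) = f3 (el ℓ) * f3 (FreeGroup.mk r) := by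
      rw [mk_cons, map_mul]
    refine ⟨fun h => by simp at h, ?_, ?_⟩
    · intro s hs
      rw [List.head?_cons, Option.some.injEq] at hs
      subst hs
      have h1 : fl (f3 (FreeGroup.mk r)) ≠ some (il (0, s)) := by
        intro h2
        cases hq : r.head? with
        | none =>
          have h3 : r = [] := List.head?_eq_none_iff.1 hq
          rw [ih1 h3, fl_one] at h2
          simp at h2
        | some x =>
          obtain ⟨i, s'⟩ := x
          rcases (show i = 0 ∨ i = 1 by omega) with rfl | rfl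
          · have h3 := ih2 s' hq
            rw [h3] at h2
            have h4 : s' = !s := by
              simpa [il] using h2
            apply hr.1
            rw [hq, h4]
            rfl
          · obtain ⟨q, h3⟩ := ih3 s' hq
            rw [fl, h3] at h2
            simp [il] at h2
      rw [hm, R1_el0, fl, toWord_el_mul h1]
      rfl
    · intro s hs
      rw [List.head?_cons, Option.some.injEq] at hs
      subst hs
      have hm' : f3 (FreeGroup.mk ((1, s) :: r)) =
          el (2, false) * (el (1, s) * (el (2, true) * f3 (FreeGroup.mk r))) := by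
        rw [hm, R1_el1, mul_assoc, mul_assoc]
      have hn : fl (el (2, true) * f3 (FreeGroup.mk r)) ≠ some (il (1, s)) := by
        by_cases h5 : ∃ s', r.head? = some (1, s')
        · obtain ⟨s', hq⟩ := h5
          obtain ⟨q, h3⟩ := ih3 s' hq
          have hred : FreeGroup.IsReduced ((2, false) :: (1, s') :: q : List (Fin 3 × Bool)) := by
            rw [← h3]
            exact FreeGroup.isReduced_toWord
          have h4 : el (2, true) * f3 (FreeGroup.mk r) = FreeGroup.mk ((1, s') :: q) := by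
            have h6 : f3 (FreeGroup.mk r) = el (2, false) * FreeGroup.mk ((1, s') :: q) := by
              rw [← mk_cons, ← h3, FreeGroup.mk_toWord]
            have h7 : (el ((2 : Fin 3), false)) = (el (2, true))⁻¹ := el_il (2, true)
            rw [h6, h7, mul_inv_cancel_left]
          rw [h4, fl_mk (red_cons.1 hred).2]
          intro h2
          have h4 : s' = !s := by
            simpa [il] using h2
          apply hr.1
          rw [hq, h4]
          rfl
        · have h6 : fl (f3 (FreeGroup.mk r)) ≠ some (il (2, true)) := by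
            intro h2
            cases hq : r.head? with
            | none =>
              have h3 : r = [] := List.head?_eq_none_iff.1 hq
              rw [ih1 h3, fl_one] at h2
              simp at h2
            | some x =>
              obtain ⟨i, s'⟩ := x
              rcases (show i = 0 ∨ i = 1 by omega) with rfl | rfl
              · rw [ih2 s' hq] at h2
                simp [il] at h2
              · exact h5 ⟨s', hq⟩
          rw [fl, toWord_el_mul h6]
          simp [il]
      exact ⟨_, by rw [hm', R1_y hn]⟩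

private theorem R1_zero {k : F2} {s : Bool} (h : fl k = some (0, s)) :
    fl (f3 k) = some (0, s) := by
  have h1 := (R1_base k.toWord FreeGroup.isReduced_toWord).2.1 s h
  rw [FreeGroup.mk_toWord] at h1
  exact h1

private theorem R1_one {k : F2} {s : Bool} (h : fl k = some (1, s)) :
    ∃ q, (f3 k).toWord = (2, false) :: (1, s) :: q := by
  have h1 := (R1_base k.toWord FreeGroup.isReduced_toWord).2.2 s h
  rw [FreeGroup.mk_toWord] at h1
  exact h1

private theorem R1_cases (k : F2) : k = 1 ∨ (∃ s, fl k = some (0, s)) ∨ ∃ s, fl k = some (1, s) := by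
  cases hk : fl k with
  | none => exact Or.inl (fl_none.1 hk)
  | some x =>
    obtain ⟨i, s⟩ := x
    rcases (show i = 0 ∨ i = 1 by omega) with rfl | rfl
    · exact Or.inr (Or.inl ⟨s, rfl⟩)
    · exact Or.inr (Or.inr ⟨s, rfl⟩)

theorem f3_fl0 (k : F2) (s : Bool) : fl (f3 k) = some (0, s) ↔ fl k = some (0, s) := by
  rcases R1_cases k with rfl | ⟨s', hk⟩ | ⟨s', hk⟩
  · rw [map_one, fl_one, fl_one]
    simp
  · rw [R1_zero hk, hk]
    simp
  · obtain ⟨q, hq⟩ := R1_one hk
    rw [hk, fl, hq]
    simp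

private theorem R1_right {x : FreeGroup (Fin 3)} {y ℓ : Fin 3 × Bool} (h : fl x = some y)
    (hy : y ≠ il ℓ) : fl (x * el ℓ) = some y := by
  obtain ⟨A, Z, B, h1, h2, h3⟩ := mul_dec x (el ℓ)
  rw [fl, h3]
  rw [fl, h1] at h
  cases A with
  | cons a A =>
    rw [List.cons_append, List.head?_cons] at h ⊢
    exact h
  | nil =>
    exfalso
    rw [List.nil_append] at h
    rw [el_toWord] at h2
    cases Z with
    | nil => simp at h
    | cons z Z =>
      rw [List.head?_cons, Option.some.injEq] at h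
      subst h
      rw [invRev_cons, List.append_assoc] at h2
      have hlen := congrArg List.length h2
      simp only [List.length_append, List.length_cons, List.length_nil,
        FreeGroup.invRev_length] at hlen
      have hZ : Z = [] := List.length_eq_zero_iff.1 (by omega)
      subst hZ
      have h4 : ℓ = il z := by
        have := congrArg List.head? h2
        simpa [FreeGroup.invRev] using this
      apply hy
      rw [h4, il_il]

theorem f3_fl1 (k : F2) (s : Bool) :
    fl (FreeGroup.of 2 * f3 k * (FreeGroup.of 2)⁻¹) = some (1, s) ↔ fl k = some (1, s) := by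
  have e1 : (FreeGroup.of (2 : Fin 3))⁻¹ = el (2, false) := (el_false _).symm
  have e2 : (FreeGroup.of (2 : Fin 3)) = el (2, true) := rfl
  have e3 : (el ((2 : Fin 3), true)) = (el (2, false))⁻¹ := el_il (2, false)
  rcases R1_cases k with rfl | ⟨s', hk⟩ | ⟨s', hk⟩
  · rw [map_one, mul_one, mul_inv_cancel, fl_one, fl_one]
    simp
  · have h1 : fl (f3 k) = some (0, s') := R1_zero hk
    have h2 : f3 k ≠ 1 := by
      intro h
      rw [h, fl_one] at h1
      simp at h1
    have h3 : fl ((el ((2 : Fin 3), false))⁻¹ * f3 k * el (2, false)) =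
        some (il (2, false)) := by
      rw [law h2, h1]
      simp
    rw [e1, e2, e3, h3, hk]
    simp [il]
  · obtain ⟨q, hq⟩ := R1_one hk
    have hred : FreeGroup.IsReduced ((2, false) :: (1, s') :: q : List (Fin 3 × Bool)) := by
      rw [← hq]
      exact FreeGroup.isReduced_toWord
    have h4 : el (2, true) * f3 k = FreeGroup.mk ((1, s') :: q) := by
      have h6 : f3 k = el (2, false) * FreeGroup.mk ((1, s') :: q) := by
        rw [← mk_cons, ← hq, FreeGroup.mk_toWord]
      rw [h6, e3, inv_mul_cancel_left]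
    have h5 : fl (el (2, true) * f3 k) = some (1, s') := by
      rw [h4, fl_mk (red_cons.1 hred).2]
      rfl
    rw [e1, e2, R1_right h5 (by simp [il]), hk]
    simp

theorem f3_fl2 (k : F2) : fl (f3 k) = some (2, false) ↔ ∃ s, fl k = some (1, s) := by
  rcases R1_cases k with rfl | ⟨s', hk⟩ | ⟨s', hk⟩
  · rw [map_one, fl_one, fl_one]
    simp
  · rw [R1_zero hk, hk]
    simp
  · obtain ⟨q, hq⟩ := R1_one hk
    rw [hk, fl, hq]
    simp

theorem f3_inj : Function.Injective f3 := by
  rw [injective_iff_map_eq_one]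
  intro k hk
  rcases R1_cases k with h | ⟨s', h⟩ | ⟨s', h⟩
  · exact h
  · have h1 := R1_zero h
    rw [hk, fl_one] at h1
    simp at h1
  · obtain ⟨q, hq⟩ := R1_one h
    rw [hk] at hq
    simp at hq

theorem f3_len (k : F2) : (f3 k).toWord.length ≤ 3 * k.toWord.length := by
  have key : ∀ r : List Lt, (f3 (FreeGroup.mk r)).norm ≤ 3 * r.length := by
    intro r
    induction r with
    | nil =>
      rw [← FreeGroup.one_eq_mk, map_one, FreeGroup.norm_one]
      exact Nat.zero_le _
    | cons ℓ r ih =>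
      rw [mk_cons, map_mul]
      have h1 := FreeGroup.norm_mul_le (f3 (el ℓ)) (f3 (FreeGroup.mk r))
      have h2 : (f3 (el ℓ)).norm ≤ 3 := by
        obtain ⟨i, s⟩ := ℓ
        have h3 : ∀ ℓ' : Fin 3 × Bool, (el ℓ').norm = 1 := by
          intro ℓ'
          show (el ℓ').toWord.length = 1
          rw [el_toWord]
          rfl
        rcases (show i = 0 ∨ i = 1 by omega) with rfl | rfl
        · rw [R1_el0, h3]
          omega
        · rw [R1_el1]
          have h4 := FreeGroup.norm_mul_le (el ((2 : Fin 3), false) * el (1, s)) (el (2, true))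
          have h5 := FreeGroup.norm_mul_le (el ((2 : Fin 3), false)) (el (1, s))
          rw [h3] at h4 h5
          rw [h3] at h5
          omega
      rw [List.length_cons]
      omega
  have h := key k.toWord
  rw [FreeGroup.mk_toWord] at h
  exact h

private theorem R1_Emap (G : Subgroup F2) (v' : FreeGroup (Fin 3)) (P : F2 → Prop)
    (ℓ : Fin 3 × Bool) (h : ∀ k, dr v' (f3 k) = some ℓ ↔ P k) :
    E (G.map f3) v' ℓ ↔ (∃ k ∈ G, P k) ∧ ∃ k ∈ G, k ≠ 1 ∧ ¬ P k := by
  constructor
  · rintro ⟨⟨c, hc, h1⟩, h2⟩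
    obtain ⟨k, hk, rfl⟩ := Subgroup.mem_map.1 hc
    obtain ⟨c', hc', hc1, hc2⟩ := Co_other h2 (some ℓ)
    obtain ⟨k', hk', rfl⟩ := Subgroup.mem_map.1 hc'
    refine ⟨⟨k, hk, (h k).1 h1⟩, k', hk', ?_, fun h3 => hc2 ((h k').2 h3)⟩
    rintro rfl
    exact hc1 (map_one f3)
  · rintro ⟨⟨k, hk, h1⟩, k', hk', h2, h3⟩
    have hM : M (G.map f3) v' ℓ := ⟨f3 k, Subgroup.mem_map_of_mem f3 hk, (h k).2 h1⟩
    refine ⟨hM, Co_of hM (Subgroup.mem_map_of_mem f3 hk') ?_ fun h4 => h3 ((h k').1 h4)⟩
    intro h5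
    exact h2 ((injective_iff_map_eq_one f3).1 f3_inj k' h5)

private theorem R1_E (G : Subgroup F2) (v : F2) (ℓ : Lt) :
    E G v ℓ ↔ (∃ k ∈ G, dr v k = some ℓ) ∧ ∃ k ∈ G, k ≠ 1 ∧ ¬ dr v k = some ℓ := by
  constructor
  · rintro ⟨h1, h2⟩
    exact ⟨h1, Co_other h2 (some ℓ)⟩
  · rintro ⟨h1, k, hk, hk1, hk2⟩
    exact ⟨h1, Co_of h1 hk hk1 hk2⟩

private theorem R1_dr (v k : F2) : dr (f3 v) (f3 k) = fl (f3 (v⁻¹ * k * v)) := by
  rw [dr, map_mul, map_mul, map_inv]

theorem E_f3_0 (G : Subgroup F2) (v : F2) (s : Bool) :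
    E (G.map f3) (f3 v) (0, s) ↔ E G v (0, s) := by
  rw [R1_E, R1_Emap G (f3 v) (fun k => dr v k = some (0, s)) (0, s) ?_]
  intro k
  rw [R1_dr, f3_fl0]
  rfl

theorem E_f3_1 (G : Subgroup F2) (v : F2) (s : Bool) :
    E (G.map f3) (f3 v * (FreeGroup.of 2)⁻¹) (1, s) ↔ E G v (1, s) := by
  rw [R1_E, R1_Emap G (f3 v * (FreeGroup.of 2)⁻¹) (fun k => dr v k = some (1, s)) (1, s) ?_]
  intro k
  have h1 : dr (f3 v * (FreeGroup.of 2)⁻¹) (f3 k) =
      fl (FreeGroup.of 2 * f3 (v⁻¹ * k * v) * (FreeGroup.of 2)⁻¹) := by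
    rw [dr, map_mul, map_mul, map_inv]
    congr 1
    group
  rw [h1, f3_fl1]
  rfl

theorem E_f3_2 (G : Subgroup F2) (v : F2) :
    E (G.map f3) (f3 v) (2, false) ↔ SE G v := by
  rw [R1_Emap G (f3 v) (fun k => ∃ s, dr v k = some (1, s)) (2, false) ?_]
  · constructor
    · rintro ⟨⟨k, hk, s, h1⟩, k', hk', h2, h3⟩
      refine ⟨?_, s, k, hk, h1⟩
      rcases R1_cases (v⁻¹ * k' * v) with h | ⟨s', h⟩ | ⟨s', h⟩
      · exact absurd (dr_none.1 (fl_none.2 h)) h2
      · exact ⟨s', k', hk', h⟩
      · exact absurd ⟨s', h⟩ h3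
    · rintro ⟨⟨s, k, hk, h1⟩, s', k', hk', h2⟩
      refine ⟨⟨k', hk', s', h2⟩, k, hk, ?_, ?_⟩
      · rintro rfl
        rw [dr_none.2 rfl] at h1
        simp at h1
      · rintro ⟨s'', h3⟩
        rw [h1] at h3
        simp at h3
  · intro k
    rw [R1_dr, f3_fl2]
    rfl

theorem Go_of_f3_0 {H K : Subgroup F2} (h : Go (H.map f3) (K.map f3) (0, true)) :
    Go H K (0, true) := by
  intro v hv
  obtain ⟨c, hc, h1⟩ := h (f3 v) ((E_f3_0 K v true).2 hv)
  obtain ⟨c', hc', rfl⟩ := Subgroup.mem_map.1 hc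
  refine ⟨c', hc', ?_⟩
  rw [← map_mul, E_f3_0] at h1
  exact h1

theorem Go_of_f3_1 {H K : Subgroup F2} (h : Go (H.map f3) (K.map f3) (1, true)) :
    Go H K (1, true) := by
  intro v hv
  obtain ⟨c, hc, h1⟩ := h (f3 v * (FreeGroup.of 2)⁻¹) ((E_f3_1 K v true).2 hv)
  obtain ⟨c', hc', rfl⟩ := Subgroup.mem_map.1 hc
  refine ⟨c', hc', ?_⟩
  rw [← mul_assoc, ← map_mul, E_f3_1] at h1
  exact h1

theorem GoS_of_f3 {H K : Subgroup F2} (h : Go (H.map f3) (K.map f3) (2, false)) :
    GoS H K := by
  intro v hv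
  obtain ⟨c, hc, h1⟩ := h (f3 v) ((E_f3_2 K v).2 hv)
  obtain ⟨c', hc', rfl⟩ := Subgroup.mem_map.1 hc
  refine ⟨c', hc', ?_⟩
  rw [← map_mul, E_f3_2] at h1
  exact h1

end OK71
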