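import Pool.Agent.LibOK71.R1

/-!
[OK71 R2] (SHORT/MEDIUM) bases of the free group of rank 3.
`j3 = FreeGroup.map Fin.castSucc`-like: `a ↦ of 0, b ↦ of 1`. `Ψ := MonoidHom.toMulEquiv (lift ![j3 (ψ a), t * j3 (ψ b) * t⁻¹, t]) (lift ![f3 (ψ⁻¹ a), f3 (ψ⁻¹ b), t]' …)`: the inverse sends `of 0 ↦ f3 (ψ.symm a)`, `of 1 ↦ f3 (ψ.symm b)`, `of 2 ↦ of 2`; check: the inverse composed with `j3` is `f3 ∘ ψ.symm` (ext on generators), so it sends `j3 (ψ a)` to `f3 a = of 0` and `t * j3 (ψ b) * t⁻¹` to `t * f3 b * t⁻¹ = of 1`;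
and `Ψ ∘ f3 = j3 ∘ ψ` on generators: `Ψ (f3 b) = t⁻¹ (t * j3 (ψ b) * t⁻¹) t`, so the other composition sends `of 0` to `Ψ (f3 (ψ.symm a)) = j3 a = of 0` etc. Lengths: `norm_mul_le`, `|j3 k| = |k|` (`≤` is enough: each letter goes to one letter).
pb_Psi: `g ∈ pb Ψ (G.map j3) ↔ Ψ g ∈ G.map j3 ↔ g ∈ (pb ψ G).map f3`: `Ψ g = j3 k = Ψ (f3 (ψ.symm k))`.
-/

set_option autoImplicit false

namespace OK71

/-- the inclusion of the free groups of rank 2 and 3 -/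
def j3 : F2 →* FreeGroup (Fin 3) := FreeGroup.lift ![FreeGroup.of 0, FreeGroup.of 1]

private theorem R2_j0 : j3 (FreeGroup.of 0) = FreeGroup.of 0 := by
  simp [j3]

private theorem R2_j1 : j3 (FreeGroup.of 1) = FreeGroup.of 1 := by
  simp [j3]

private theorem R2_f0 : f3 (FreeGroup.of 0) = FreeGroup.of 0 := by
  simp [f3]

private theorem R2_f1 : f3 (FreeGroup.of 1) =
    (FreeGroup.of 2)⁻¹ * FreeGroup.of 1 * FreeGroup.of 2 := by
  simp [f3]

/-- the automorphism -/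
private def R2_F (ψ : MulAut F2) : FreeGroup (Fin 3) →* FreeGroup (Fin 3) :=
  FreeGroup.lift ![j3 (ψ (FreeGroup.of 0)),
    FreeGroup.of 2 * j3 (ψ (FreeGroup.of 1)) * (FreeGroup.of 2)⁻¹, FreeGroup.of 2]

/-- its inverse -/
private def R2_G (ψ : MulAut F2) : FreeGroup (Fin 3) →* FreeGroup (Fin 3) :=
  FreeGroup.lift ![f3 (ψ.symm (FreeGroup.of 0)), f3 (ψ.symm (FreeGroup.of 1)), FreeGroup.of 2]

private theorem R2_F0 (ψ : MulAut F2) : R2_F ψ (FreeGroup.of 0) = j3 (ψ (FreeGroup.of 0)) := by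
  simp [R2_F]

private theorem R2_F1 (ψ : MulAut F2) : R2_F ψ (FreeGroup.of 1) =
    FreeGroup.of 2 * j3 (ψ (FreeGroup.of 1)) * (FreeGroup.of 2)⁻¹ := by
  simp [R2_F]

private theorem R2_F2 (ψ : MulAut F2) : R2_F ψ (FreeGroup.of 2) = FreeGroup.of 2 := by
  simp [R2_F]

private theorem R2_G0 (ψ : MulAut F2) : R2_G ψ (FreeGroup.of 0) = f3 (ψ.symm (FreeGroup.of 0)) := by
  simp [R2_G]

private theorem R2_G1 (ψ : MulAut F2) : R2_G ψ (FreeGroup.of 1) = f3 (ψ.symm (FreeGroup.of 1)) := by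
  simp [R2_G]

private theorem R2_G2 (ψ : MulAut F2) : R2_G ψ (FreeGroup.of 2) = FreeGroup.of 2 := by
  simp [R2_G]

private theorem R2_ext2 {N : Type} [Group N] {u w : F2 →* N}
    (h0 : u (FreeGroup.of 0) = w (FreeGroup.of 0)) (h1 : u (FreeGroup.of 1) = w (FreeGroup.of 1)) :
    u = w := by
  refine FreeGroup.ext_hom _ _ fun i => ?_
  rcases (show i = 0 ∨ i = 1 by omega) with rfl | rfl
  · exact h0
  · exact h1

private theorem R2_ext3 {N : Type} [Group N] {u w : FreeGroup (Fin 3) →* N}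
    (h0 : u (FreeGroup.of 0) = w (FreeGroup.of 0)) (h1 : u (FreeGroup.of 1) = w (FreeGroup.of 1))
    (h2 : u (FreeGroup.of 2) = w (FreeGroup.of 2)) : u = w := by
  refine FreeGroup.ext_hom _ _ fun i => ?_
  rcases (show i = 0 ∨ i = 1 ∨ i = 2 by omega) with rfl | rfl | rfl
  · exact h0
  · exact h1
  · exact h2

private theorem R2_Ff (ψ : MulAut F2) (k : F2) : R2_F ψ (f3 k) = j3 (ψ k) := by
  have h : (R2_F ψ).comp f3 = j3.comp ψ.toMonoidHom := by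
    apply R2_ext2
    · show R2_F ψ (f3 (FreeGroup.of 0)) = j3 (ψ (FreeGroup.of 0))
      rw [R2_f0, R2_F0]
    · show R2_F ψ (f3 (FreeGroup.of 1)) = j3 (ψ (FreeGroup.of 1))
      rw [R2_f1, map_mul, map_mul, map_inv, R2_F1, R2_F2]
      group
  exact DFunLike.congr_fun h k

private theorem R2_Gj (ψ : MulAut F2) (k : F2) : R2_G ψ (j3 k) = f3 (ψ.symm k) := by
  have h : (R2_G ψ).comp j3 = f3.comp ψ.symm.toMonoidHom := by
    apply R2_ext2
    · show R2_G ψ (j3 (FreeGroup.of 0)) = f3 (ψ.symm (FreeGroup.of 0))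
      rw [R2_j0, R2_G0]
    · show R2_G ψ (j3 (FreeGroup.of 1)) = f3 (ψ.symm (FreeGroup.of 1))
      rw [R2_j1, R2_G1]
  exact DFunLike.congr_fun h k

private theorem R2_GF (ψ : MulAut F2) :
    (R2_G ψ).comp (R2_F ψ) = MonoidHom.id (FreeGroup (Fin 3)) := by
  apply R2_ext3
  · show R2_G ψ (R2_F ψ (FreeGroup.of 0)) = FreeGroup.of 0
    rw [R2_F0, R2_Gj, MulEquiv.symm_apply_apply, R2_f0]
  · show R2_G ψ (R2_F ψ (FreeGroup.of 1)) = FreeGroup.of 1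
    rw [R2_F1, map_mul, map_mul, map_inv, R2_G2, R2_Gj, MulEquiv.symm_apply_apply, R2_f1]
    group
  · show R2_G ψ (R2_F ψ (FreeGroup.of 2)) = FreeGroup.of 2
    rw [R2_F2, R2_G2]

private theorem R2_FG (ψ : MulAut F2) :
    (R2_F ψ).comp (R2_G ψ) = MonoidHom.id (FreeGroup (Fin 3)) := by
  apply R2_ext3
  · show R2_F ψ (R2_G ψ (FreeGroup.of 0)) = FreeGroup.of 0
    rw [R2_G0, R2_Ff, MulEquiv.apply_symm_apply, R2_j0]
  · show R2_F ψ (R2_G ψ (FreeGroup.of 1)) = FreeGroup.of 1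
    rw [R2_G1, R2_Ff, MulEquiv.apply_symm_apply, R2_j1]
  · show R2_F ψ (R2_G ψ (FreeGroup.of 2)) = FreeGroup.of 2
    rw [R2_G2, R2_F2]

private theorem R2_jnorm (k : F2) : (j3 k).norm ≤ k.norm := by
  have key : ∀ r : List Lt, (j3 (FreeGroup.mk r)).norm ≤ r.length := by
    intro r
    induction r with
    | nil =>
      rw [← FreeGroup.one_eq_mk, map_one, FreeGroup.norm_one]
      exact Nat.zero_le _
    | cons ℓ r ih =>
      rw [mk_cons, map_mul]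
      have h1 := FreeGroup.norm_mul_le (j3 (el ℓ)) (j3 (FreeGroup.mk r))
      have h2 : (j3 (el ℓ)).norm = 1 := by
        obtain ⟨i, s⟩ := ℓ
        rcases (show i = 0 ∨ i = 1 by omega) with rfl | rfl <;> cases s
        · rw [el_false, map_inv, R2_j0, FreeGroup.norm_inv_eq, FreeGroup.norm_of]
        · rw [el_true, R2_j0, FreeGroup.norm_of]
        · rw [el_false, map_inv, R2_j1, FreeGroup.norm_inv_eq, FreeGroup.norm_of]
        · rw [el_true, R2_j1, FreeGroup.norm_of]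
      rw [List.length_cons]
      omega
  have h := key k.toWord
  rw [FreeGroup.mk_toWord] at h
  exact h

theorem ex_Psi (ψ : MulAut F2) : ∃ Ψ : MulAut (FreeGroup (Fin 3)), (∀ k, Ψ (f3 k) = j3 (ψ k)) ∧
    ∀ (n : ℕ), (∀ i, (ψ (FreeGroup.of i)).toWord.length ≤ n) →
      ∀ i, (Ψ (FreeGroup.of i)).toWord.length ≤ n + 2 := by
  refine ⟨MonoidHom.toMulEquiv (R2_F ψ) (R2_G ψ) (R2_GF ψ) (R2_FG ψ), fun k => R2_Ff ψ k, ?_⟩
  intro n hn i
  show (R2_F ψ (FreeGroup.of i)).norm ≤ n + 2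
  rcases (show i = 0 ∨ i = 1 ∨ i = 2 by omega) with rfl | rfl | rfl
  · rw [R2_F0]
    have h1 := R2_jnorm (ψ (FreeGroup.of 0))
    have h2 : (ψ (FreeGroup.of 0)).norm ≤ n := hn 0
    omega
  · rw [R2_F1]
    have h1 := R2_jnorm (ψ (FreeGroup.of 1))
    have h2 : (ψ (FreeGroup.of 1)).norm ≤ n := hn 1
    have h3 := FreeGroup.norm_mul_le
      (FreeGroup.of (2 : Fin 3) * j3 (ψ (FreeGroup.of 1))) (FreeGroup.of 2)⁻¹
    have h4 := FreeGroup.norm_mul_le (FreeGroup.of (2 : Fin 3)) (j3 (ψ (FreeGroup.of 1)))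
    rw [FreeGroup.norm_inv_eq, FreeGroup.norm_of] at h3
    rw [FreeGroup.norm_of] at h4
    omega
  · rw [R2_F2, FreeGroup.norm_of]
    omega

theorem pb_Psi {ψ : MulAut F2} {Ψ : MulAut (FreeGroup (Fin 3))}
    (h : ∀ k, Ψ (f3 k) = j3 (ψ k)) (G : Subgroup F2) :
    pb Ψ (G.map j3) = (pb ψ G).map f3 := by
  ext g
  rw [mem_pb, Subgroup.mem_map, Subgroup.mem_map]
  constructor
  · rintro ⟨k, hk, h1⟩
    refine ⟨ψ.symm k, ?_, ?_⟩
    · rw [mem_pb, MulEquiv.apply_symm_apply]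
      exact hk
    · apply Ψ.injective
      rw [h, MulEquiv.apply_symm_apply, h1]
  · rintro ⟨k, hk, rfl⟩
    exact ⟨ψ k, mem_pb.1 hk, (h k).symm⟩

end OK71
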