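import Pool.Agent.LibOK71.R2
import Pool.Agent.LibOK71.A7
import Pool.Agent.LibOK71.P6
import Pool.Agent.LibOK71.E2

/-!
[OK71 R3] (MEDIUM) from the bounded bases of the free group of rank 3 to all bases of the free group of rank 2; compare E3.
`n = sz S + sz T`, `N = 2 * NN n ^ 3` (so `NN n ^ 3 ≤ N`). For `ε`, `m` with `m.length ≤ N` let `χ := (if ε then sg else 1) * ph m`, `Ψ` from `ex_Psi χ`; `H1 := pb Ψ (H.map j3) = (pb χ H).map f3`, `K1` the same. If `H = ⊥` (then `H1 = ⊥`) take `p = 1`. Otherwise some `s ∈ S` is not `1`; `s1 := f3 (χ.symm s) ∈ H1`, `s1 ≠ 1` (`f3_inj`); `core_pre`: `s1.toWord = u ++ r`, `Co H1 (mk u)`; `p := mk u`,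
`|p| ≤ |s1| ≤ 3 * 2 ^ N * |s|` (`f3_len`, `len_ph_symm`). `go_of_onto` for `H1 ≤ K1`, `p`: needs `OntoStd (pb (conj p) H1) (pb (conj p) K1)`, `pb (conj p) (pb Ψ G) = pb (Ψ * conj p) G`, hypothesis with `Ψ * conj p`: `|(Ψ * conj p) (of i)| = |Ψ (p * of i * p⁻¹)| ≤ (2 ^ N + 2) * (2 |p| + 1)` (each letter goes to at most `2 ^ N + 2` letters: `len_ph` for `k = of i`) `≤ (2 ^ N + 2) * (6 * 2 ^ N * n + 1) ≤ B3 n`.
So `Go H1 K1 ℓ` for all `ℓ`, and by `Go_of_f3_0`, `Go_of_f3_1`, `GoS_of_f3`: `Go (pb χ H) (pb χ K) (i, true)` for `i = 0, 1` (`Go_all`) and `GoS (pb χ H) (pb χ K)`. Then `go_finite` (with `NN n ^ 3 ≤ N`), `goS_finite`.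
-/

set_option autoImplicit false

namespace OK71

/-- the bound for the bases of the free group of rank 3 -/
def B3 (n : ℕ) : ℕ := 2 ^ (4 * NN n ^ 3 + 6) * (n + 1)

private theorem R3_hom (ψ : FreeGroup (Fin 3) →* FreeGroup (Fin 3)) (c : ℕ)
    (h : ∀ i, (ψ (FreeGroup.of i)).toWord.length ≤ c) (k : FreeGroup (Fin 3)) :
    (ψ k).toWord.length ≤ c * k.toWord.length := by
  have key : ∀ L : List (Fin 3 × Bool), (ψ (FreeGroup.mk L)).norm ≤ c * L.length := by
    intro L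
    induction L with
    | nil =>
      have h1 : (FreeGroup.mk [] : FreeGroup (Fin 3)) = 1 := rfl
      rw [h1, map_one, FreeGroup.norm_one]
      exact Nat.zero_le _
    | cons ℓ v ih =>
      have h2 : (ψ (el ℓ)).norm ≤ c := by
        obtain ⟨i, b⟩ := ℓ
        cases b with
        | true => rw [el_true]; exact h i
        | false => rw [el_false, map_inv, FreeGroup.norm_inv_eq]; exact h i
      rw [mk_cons, map_mul, List.length_cons]
      have h3 := FreeGroup.norm_mul_le (ψ (el ℓ)) (ψ (FreeGroup.mk v))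
      calc _ ≤ _ := h3
        _ ≤ c + c * v.length := Nat.add_le_add h2 ih
        _ = c * (v.length + 1) := by ring
  have h1 := key k.toWord
  rw [FreeGroup.mk_toWord] at h1
  exact h1

private theorem R3_sz {S : List F2} {s : F2} (hs : s ∈ S) : s.toWord.length + 1 ≤ sz S := by
  unfold sz
  exact List.single_le_sum (by intro x _; exact Nat.zero_le x) _
    (List.mem_map.2 ⟨s, hs, rfl⟩)

private theorem R3_bd {N n a c : ℕ} (ha : a ≤ 3 * (2 ^ N * c)) (hc : c + 1 ≤ n) :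
    (2 ^ N + 2) * (a + 1 + a) ≤ 2 ^ (2 * N + 6) * (n + 1) := by
  have h1 : 1 ≤ 2 ^ N := Nat.one_le_two_pow
  have h2 : a + 1 + a ≤ 2 ^ N * (6 * c + 1) := by nlinarith
  have h3 : 2 ^ (2 * N + 6) = 2 ^ N * 2 ^ N * 64 := by
    rw [pow_add, two_mul, pow_add]
    norm_num
  have h4 : 2 ^ N + 2 ≤ 3 * 2 ^ N := by omega
  calc (2 ^ N + 2) * (a + 1 + a) ≤ (3 * 2 ^ N) * (2 ^ N * (6 * c + 1)) := Nat.mul_le_mul h4 h2
    _ = 2 ^ N * 2 ^ N * (3 * (6 * c + 1)) := by ring
    _ ≤ 2 ^ N * 2 ^ N * (64 * (n + 1)) := Nat.mul_le_mul_left _ (by omega)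
    _ = 2 ^ (2 * N + 6) * (n + 1) := by rw [h3]; ring

private theorem R3_go {S T : List F2}
    (hST : Subgroup.closure {s | s ∈ S} ≤ Subgroup.closure {t | t ∈ T})
    (h : ∀ Ψ : MulAut (FreeGroup (Fin 3)),
      (∀ i, (Ψ (FreeGroup.of i)).toWord.length ≤ B3 (sz S + sz T)) →
        OntoStd (pb Ψ ((Subgroup.closure {s | s ∈ S}).map j3))
          (pb Ψ ((Subgroup.closure {t | t ∈ T}).map j3)))
    {χ : MulAut F2} {N : ℕ} (hN : N = 2 * NN (sz S + sz T) ^ 3)
    (h1 : ∀ k : F2, (χ k).toWord.length ≤ 2 ^ N * k.toWord.length)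
    (h2 : ∀ k : F2, (χ.symm k).toWord.length ≤ 2 ^ N * k.toWord.length) (ℓ : Fin 3 × Bool) :
    Go ((pb χ (Subgroup.closure {s | s ∈ S})).map f3)
      ((pb χ (Subgroup.closure {t | t ∈ T})).map f3) ℓ := by
  obtain ⟨Ψ, hΨ, hΨl⟩ := ex_Psi χ
  have hlen : ∀ k : FreeGroup (Fin 3), (Ψ k).toWord.length ≤ (2 ^ N + 2) * k.toWord.length := by
    intro k
    refine R3_hom Ψ.toMonoidHom (2 ^ N + 2) (fun i => ?_) k
    refine hΨl (2 ^ N) (fun i => ?_) i
    have h3 := h1 (FreeGroup.of i)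
    have h4 : (FreeGroup.of i : F2).toWord.length = 1 := by
      rw [FreeGroup.toWord_of]
      rfl
    rw [h4, mul_one] at h3
    exact h3
  have hB : B3 (sz S + sz T) = 2 ^ (2 * N + 6) * (sz S + sz T + 1) := by
    rw [B3, hN]
    congr 2
    ring
  have key : ∀ p : FreeGroup (Fin 3),
      (2 ^ N + 2) * (p.toWord.length + 1 + p.toWord.length) ≤ B3 (sz S + sz T) →
      OntoStd (pb (MulAut.conj p) ((pb χ (Subgroup.closure {s | s ∈ S})).map f3))
        (pb (MulAut.conj p) ((pb χ (Subgroup.closure {t | t ∈ T})).map f3)) := by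
    intro p hp
    rw [← pb_Psi hΨ, ← pb_Psi hΨ, ← pb_mul, ← pb_mul]
    refine h (Ψ * MulAut.conj p) fun i => ?_
    have h3 : (Ψ * MulAut.conj p) (FreeGroup.of i) = Ψ (p * FreeGroup.of i * p⁻¹) := rfl
    rw [h3]
    refine (hlen _).trans (le_trans (Nat.mul_le_mul_left _ ?_) hp)
    have h4 : (FreeGroup.of i : FreeGroup (Fin 3)).toWord.length = 1 := by
      rw [FreeGroup.toWord_of]
      rfl
    have h5 : (p * FreeGroup.of i * p⁻¹).norm ≤ (p * FreeGroup.of i).norm + (p⁻¹).norm :=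
      FreeGroup.norm_mul_le _ _
    have h6 : (p * FreeGroup.of i).norm ≤ p.norm + (FreeGroup.of i).norm :=
      FreeGroup.norm_mul_le _ _
    rw [FreeGroup.norm_inv_eq] at h5
    unfold FreeGroup.norm at h5 h6
    rw [h4] at h6
    omega
  have hmono : (pb χ (Subgroup.closure {s | s ∈ S})).map f3 ≤
      (pb χ (Subgroup.closure {t | t ∈ T})).map f3 := Subgroup.map_mono (pb_mono χ hST)
  by_cases hb : (pb χ (Subgroup.closure {s | s ∈ S})).map f3 = ⊥
  · refine go_of_onto hmono (p := 1) (Or.inr hb) (key 1 ?_) ℓ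
    have h4 : (1 : FreeGroup (Fin 3)).toWord.length = 0 := by rw [FreeGroup.toWord_one]; rfl
    rw [h4, hB]
    have h5 : 1 ≤ 2 ^ N := Nat.one_le_two_pow
    have h6 : 2 ^ (2 * N + 6) = 2 ^ N * 2 ^ N * 64 := by
      rw [pow_add, two_mul, pow_add]
      norm_num
    calc (2 ^ N + 2) * (0 + 1 + 0) = 2 ^ N + 2 := by ring
      _ ≤ 2 ^ N * 2 ^ N * 64 := by nlinarith
      _ = 2 ^ (2 * N + 6) := h6.symm
      _ ≤ 2 ^ (2 * N + 6) * (sz S + sz T + 1) := Nat.le_mul_of_pos_right _ (by omega)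
  · obtain ⟨s, hs, hs1⟩ : ∃ s ∈ S, s ≠ 1 := by
      by_contra hcon
      push Not at hcon
      apply hb
      have h5 : Subgroup.closure {s | s ∈ S} = (⊥ : Subgroup F2) := by
        rw [Subgroup.closure_eq_bot_iff]
        intro s hs
        exact hcon s hs
      rw [h5, eq_bot_iff]
      rintro y ⟨x, hx, rfl⟩
      have hx' : χ x ∈ (⊥ : Subgroup F2) := hx
      rw [Subgroup.mem_bot] at hx'
      rw [Subgroup.mem_bot, (MulEquiv.map_eq_one_iff χ).1 hx', map_one]
    have hs' : f3 (χ.symm s) ∈ (pb χ (Subgroup.closure {s | s ∈ S})).map f3 := by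
      refine ⟨χ.symm s, ?_, rfl⟩
      show χ (χ.symm s) ∈ Subgroup.closure {s | s ∈ S}
      rw [MulEquiv.apply_symm_apply]
      exact Subgroup.subset_closure hs
    have hs1' : f3 (χ.symm s) ≠ 1 := fun h6 => hs1 ((MulEquiv.map_eq_one_iff χ.symm).1
      (f3_inj (h6.trans (map_one f3).symm)))
    obtain ⟨u, r, hur, hCo⟩ := core_pre hs' hs1'
    refine go_of_onto hmono (p := FreeGroup.mk u) (Or.inl hCo) (key _ ?_) ℓ
    have h7 : (FreeGroup.mk u : FreeGroup (Fin 3)).toWord.length ≤ 3 * (2 ^ N * s.toWord.length) := by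
      have h8 : (FreeGroup.mk u : FreeGroup (Fin 3)).toWord.length ≤ u.length := FreeGroup.norm_mk_le
      have h9 : u.length ≤ (f3 (χ.symm s)).toWord.length := by
        rw [hur, List.length_append]
        omega
      exact h8.trans (h9.trans ((f3_len _).trans (Nat.mul_le_mul_left _ (h2 s))))
    rw [hB]
    refine R3_bd h7 ?_
    have := R3_sz hs
    omega

theorem all_Go {S T : List F2}
    (hST : Subgroup.closure {s | s ∈ S} ≤ Subgroup.closure {t | t ∈ T})
    (h : ∀ Ψ : MulAut (FreeGroup (Fin 3)),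
      (∀ i, (Ψ (FreeGroup.of i)).toWord.length ≤ B3 (sz S + sz T)) →
        OntoStd (pb Ψ ((Subgroup.closure {s | s ∈ S}).map j3))
          (pb Ψ ((Subgroup.closure {t | t ∈ T}).map j3))) :
    (∀ (ψ : MulAut F2) (ℓ : Lt), Go (pb ψ (Subgroup.closure {s | s ∈ S}))
      (pb ψ (Subgroup.closure {t | t ∈ T})) ℓ) ∧
    ∀ ψ : MulAut F2, GoS (pb ψ (Subgroup.closure {s | s ∈ S}))
      (pb ψ (Subgroup.closure {t | t ∈ T})) := by
  have key : ∀ (ε : Bool) (m : List Bool), m.length ≤ 2 * NN (sz S + sz T) ^ 3 →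
      ∀ ℓ : Fin 3 × Bool,
      Go ((pb ((if ε then sg else 1) * ph m) (Subgroup.closure {s | s ∈ S})).map f3)
        ((pb ((if ε then sg else 1) * ph m) (Subgroup.closure {t | t ∈ T})).map f3) ℓ := by
    intro ε m hm ℓ
    refine R3_go hST h rfl ?_ ?_ ℓ
    · intro k
      exact (len_ph ε m k).trans (Nat.mul_le_mul_right _ (Nat.pow_le_pow_right (by norm_num) hm))
    · intro k
      exact (len_ph_symm ε m k).trans
        (Nat.mul_le_mul_right _ (Nat.pow_le_pow_right (by norm_num) hm))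
  constructor
  · intro ψ ℓ
    refine go_finite (n := sz S + sz T) (Nat.le_add_right _ _) (Nat.le_add_left _ _) hST ?_ ψ ℓ
    intro ε m hm ℓ
    have hm' : m.length ≤ 2 * NN (sz S + sz T) ^ 3 := by omega
    refine Go_all (fun i => ?_) ℓ
    fin_cases i
    · exact Go_of_f3_0 (key ε m hm' (0, true))
    · exact Go_of_f3_1 (key ε m hm' (1, true))
  · intro ψ
    refine goS_finite (n := sz S + sz T) (Nat.le_add_right _ _) (Nat.le_add_left _ _) hST ?_ ψ
    intro ε m hm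
    exact GoS_of_f3 (key ε m hm (2, false))

end OK71
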