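import Pool.Agent.LibOK71.R3
import Pool.Agent.LibOK71.Q9

/-!
[OK71 R4] (SHORT/MEDIUM) the main theorem for fully onto extensions.
`all_Go`, then `Go_embed` for `ι`, then `onto_of_go` for `H.map ι ≤ K.map ι` (`Subgroup.map_mono`).
-/

set_option autoImplicit false

namespace OK71

theorem main2 (S T : List F2)
    (hST : Subgroup.closure {s | s ∈ S} ≤ Subgroup.closure {t | t ∈ T})
    (h : ∀ Ψ : MulAut (FreeGroup (Fin 3)),
      (∀ i, (Ψ (FreeGroup.of i)).toWord.length ≤ B3 (sz S + sz T)) →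
        OntoStd (pb Ψ ((Subgroup.closure {s | s ∈ S}).map j3))
          (pb Ψ ((Subgroup.closure {t | t ∈ T}).map j3)))
    {β : Type} [DecidableEq β] {ι : F2 →* FreeGroup β} (hi : Function.Injective ι) :
    OntoStd ((Subgroup.closure {s | s ∈ S}).map ι) ((Subgroup.closure {t | t ∈ T}).map ι) := by
  obtain ⟨h1, h2⟩ := all_Go hST h
  exact onto_of_go (Subgroup.map_mono hST) fun i => Go_embed hi h1 h2 (i, true)

end OK71
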